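import Mathlib
import Pool.Agent.Lib.MP_44a246_ntSH.PR01b
import Pool.Agent.Lib.MP_44a246_ntSH.PR02
import Pool.Agent.Lib.MP_44a246_ntSH.PR07
import Pool.Agent.Lib.MP_44a246_ntSP.CD02

/-!
Section 4 over the base field `K` (points over finite extensions `L` of `K`): the curve `P` over `K`
whose base change contains the curve `A` of the point, and the spaces of `P` as the `K`-rational
vectors of the spaces of `A`.
-/

namespace Pool.Agent.Lib.MP_44a246_ntTK

open Pool.Agent.Lib.MP_e52354_nt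
open Pool.Agent.Lib.MP_44a246_nt
open Pool.Agent.Lib.MP_44a246_ntL
open Pool.Agent.Lib.MP_44a246_ntS
open Pool.Agent.Lib.MP_44a246_ntF
open Pool.Agent.Lib.MP_44a246_ntO
open Pool.Agent.Lib.MP_44a246_ntW
open Pool.Agent.Lib.MP_44a246_ntE
open Pool.Agent.Lib.MP_44a246_ntG
open Pool.Agent.Lib.MP_44a246_ntSH
open Pool.Agent.Lib.MP_44a246_ntSP
open WithZero Polynomial Module

section defs

variable {K : Type*} [Field K]

/-- the numerators of the parametrisation of the curve `P` over `K` -/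
noncomputable def BK {n : ℕ} (E : Fin (n + 1) → Derivation ℤ K K) (P : K[X][X]) :
    Fin (n + 1) → K[X][X] := fun j => -cd (E j) P

/-- the vector with entries in the larger field -/
def am {K : Type*} [Field K] (L : Type*) [Field L] [Algebra K L] {T : Type*} (c : T → K) :
    T → L := fun t => algebraMap K L (c t)

end defs

/-- The curve `P` over `K` which corresponds to the curve `A` over `L`: `P ∣ G` if and only if
`A ∣ G` for `G` over `K`; the derivations `E` of `K` are the restrictions of the derivations of the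
data of the point. -/
structure CrvK {κ K L : Type*} [Field κ] [Field K] [Field L] [Algebra κ K] [Algebra K L]
    [Algebra κ L] {n d₀ : ℕ} (X : DatG κ (L := L) n d₀) (A : L[X][X])
    (E : Fin (n + 1) → Derivation ℤ K K) (P : K[X][X]) : Prop where
  hE : ∀ j (y : K), X.E j (algebraMap K L y) = algebraMap K L (E j y)
  irr : Irreducible P
  deg : P.natDegree ≠ 0
  sep : ¬ P ∣ derivative P
  dvd : ∀ G : K[X][X], A ∣ mp K L G ↔ P ∣ G
  quo : ∃ Q, mp K L P = A * Q ∧ ¬ A ∣ Q
  Eκ : ∀ j (u : κ), ∃ u' : κ, E j (algebraMap κ K u) = algebraMap κ K u'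
  EE : ∀ j, P ∣ MP_44a246_ntW.EE (E j) (E j) P
  r0 : P ∣ ∑ j, C (C (X.ξ₀ j : K)) * BK E P j - derivative P
  r1 : P ∣ ∑ j, C (C (X.ξ₁ j : K)) * BK E P j - C Polynomial.X * derivative P
  r2 : P ∣ ∑ j, C (C (algebraMap κ K (X.z j))) * BK E P j - Polynomial.X * derivative P

section transfer

variable {K L : Type*} [Field K] [Field L] [Algebra K L] {A : L[X][X]} {P : K[X][X]}

/-- relations over `K` modulo `P` and over `L` modulo `A` -/
theorem mem_dvS_iff (hA : Prime A) (hP : ∀ G : K[X][X], A ∣ mp K L G ↔ P ∣ G) {T : Type*}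
    [Fintype T] {G : T → K[X][X]} {G' : T → L[X][X]} {R : L[X][X]} (hR : ¬ A ∣ R)
    (h : ∀ t, A ∣ mp K L (G t) - R * G' t) {c : T → K} :
    c ∈ dvS P G ↔ am L c ∈ dvS A G' := by
  rw [mem_dvS, mem_dvS, ← hP, mp_sum_mul]
  have h1 : A ∣ ∑ t, C (C (algebraMap K L (c t))) * mp K L (G t) -
      R * ∑ t, C (C (am L c t)) * G' t := by
    rw [Finset.mul_sum, ← Finset.sum_sub_distrib]
    refine Finset.dvd_sum fun t _ => ?_
    have e : C (C (algebraMap K L (c t))) * mp K L (G t) - R * (C (C (am L c t)) * G' t) =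
        C (C (algebraMap K L (c t))) * (mp K L (G t) - R * G' t) := by
      unfold am
      ring
    rw [e]
    exact dvd_mul_of_dvd_right (h t) _
  rw [dvd_iff_dvd_of_dvd_sub h1]
  exact ⟨fun h2 => (hA.dvd_or_dvd h2).resolve_left hR, fun h2 => dvd_mul_of_dvd_right h2 _⟩

theorem nab_congr {A : L[X][X]} {D : Derivation ℤ L L} {G G' : L[X][X]} (h : A ∣ G - G') :
    A ∣ nab A D G - nab A D G' := by
  rw [← map_sub]
  exact dvd_nab D h

/-- the derivation of the product of the curves -/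
theorem nab_mul_left (A Q : L[X][X]) (D : Derivation ℤ L L) (G : L[X][X]) :
    A ∣ nab (A * Q) D G - Q * nab A D G := by
  rw [nab_apply, nab_apply, derivative_mul, Derivation.leibniz, smul_eq_mul, smul_eq_mul]
  have e : (derivative A * Q + A * derivative Q) * cqd D G -
      (A * cqd D Q + Q * cqd D A) * derivative G -
      Q * (derivative A * cqd D G - cqd D A * derivative G) =
      A * (derivative Q * cqd D G - cqd D Q * derivative G) := by
    ring
  rw [e]
  exact dvd_mul_right _ _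

theorem der_mul_left (A Q : L[X][X]) : A ∣ derivative (A * Q) - Q * derivative A := by
  rw [derivative_mul]
  have e : derivative A * Q + A * derivative Q - Q * derivative A = A * derivative Q := by ring
  rw [e]
  exact dvd_mul_right _ _

theorem cq_mul_left (A Q : L[X][X]) (D : Derivation ℤ L L) :
    A ∣ -cq D (A * Q) - Q * -cq D A := by
  rw [cq_mul']
  have e : -(A * cq D Q + Q * cq D A) - Q * -cq D A = A * -cq D Q := by ring
  rw [e]
  exact dvd_mul_right _ _

/-- the numerator of the derivative, for the product of the curves -/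
theorem wr_mul_left (A Q : L[X][X]) (D : Derivation ℤ L L) {G G' : L[X][X]}
    (h : A ∣ G - Q * G') : A ∣ wr (A * Q) D G - Q ^ 3 * wr A D G' := by
  obtain ⟨a1, h1⟩ := nab_mul_left A Q D G
  obtain ⟨a2, h2⟩ := nab_mul_left A Q D (derivative (A * Q))
  obtain ⟨a3, h3⟩ := der_mul_left A Q
  obtain ⟨a4, h4⟩ := h
  obtain ⟨a5, h5⟩ := nab_congr (D := D) (Dvd.intro _ h4.symm)
  obtain ⟨a6, h6⟩ := nab_congr (D := D) (Dvd.intro _ h3.symm)
  rw [Derivation.leibniz, smul_eq_mul, smul_eq_mul] at h5 h6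
  obtain ⟨g, hg⟩ : ∃ g, g = nab A D G := ⟨_, rfl⟩
  obtain ⟨g', hg'⟩ : ∃ g, g = nab A D G' := ⟨_, rfl⟩
  obtain ⟨q, hq⟩ : ∃ g, g = nab A D Q := ⟨_, rfl⟩
  obtain ⟨u, hu⟩ : ∃ g, g = nab A D (derivative A) := ⟨_, rfl⟩
  obtain ⟨s, hs⟩ : ∃ g, g = nab A D (derivative (A * Q)) := ⟨_, rfl⟩
  obtain ⟨x1, hx1⟩ : ∃ g, g = nab (A * Q) D G := ⟨_, rfl⟩
  obtain ⟨x2, hx2⟩ : ∃ g, g = nab (A * Q) D (derivative (A * Q)) := ⟨_, rfl⟩
  obtain ⟨x3, hx3⟩ : ∃ g, g = derivative (A * Q) := ⟨_, rfl⟩
  unfold wr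
  rw [← hx1, ← hx2, ← hx3, ← hg', ← hu]
  rw [← hx1, ← hg] at h1
  rw [← hx2, ← hs] at h2
  rw [← hx3] at h3
  rw [← hg, ← hg', ← hq] at h5
  rw [← hs, ← hu, ← hq] at h6
  refine ⟨x3 * a1 + x3 * Q * a5 + a3 * Q * (Q * g' + G' * q) - G * a2 - G * Q * a6 -
    a4 * Q * (Q * u + derivative A * q), ?_⟩
  have e1 : x1 = Q * g + A * a1 := by linear_combination h1
  have e2 : x2 = Q * s + A * a2 := by linear_combination h2
  have e3 : x3 = Q * derivative A + A * a3 := by linear_combination h3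
  have e4 : G = Q * G' + A * a4 := by linear_combination h4
  have e5 : g = Q * g' + G' * q + A * a5 := by linear_combination h5
  have e6 : s = Q * u + derivative A * q + A * a6 := by linear_combination h6
  rw [e1, e2, e5, e6]
  linear_combination (Q * (Q * g' + G' * q)) * e3 - (Q * (Q * u + derivative A * q)) * e4

end transfer

end Pool.Agent.Lib.MP_44a246_ntTK
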