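import Mathlib
import Pool.Agent.Lib.MP_44a246_ntTK.TK01

/-!
Section 4 over the base field `K`: the spaces of the curve `P` over `K` are the `K`-rational vectors
of the spaces of the curve `A` over `L`.
-/

namespace Pool.Agent.Lib.MP_44a246_ntTK

open Pool.Agent.Lib.MP_e52354_nt
open Pool.Agent.Lib.MP_44a246_nt
open Pool.Agent.Lib.MP_44a246_ntL
open Pool.Agent.Lib.MP_44a246_ntS
open Pool.Agent.Lib.MP_44a246_ntF
open Pool.Agent.Lib.MP_44a246_ntO
open Pool.Agent.Lib.MP_44a246_ntW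
open Pool.Agent.Lib.MP_44a246_ntE
open Pool.Agent.Lib.MP_44a246_ntG
open Pool.Agent.Lib.MP_44a246_ntSH
open Pool.Agent.Lib.MP_44a246_ntSP
open WithZero Polynomial Module

universe u

/-- congruences modulo `A` as equations -/
theorem exists_mod {R : Type u} [CommRing R] (A : R) :
    ∃ (S : Type u) (_ : CommRing S) (φ : R →+* S), ∀ a b, A ∣ a - b ↔ φ a = φ b :=
  ⟨R ⧸ Ideal.span {A}, inferInstance, Ideal.Quotient.mk (Ideal.span {A}), fun a b => by
    rw [Ideal.Quotient.eq, Ideal.mem_span_singleton]⟩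

section general

variable {K L : Type*} [Field K] [Field L] [Algebra K L] {A : L[X][X]} {P : K[X][X]}

theorem prod_congr_dvd {n : ℕ} {B B' : Fin n → L[X][X]} {R : L[X][X]}
    (h : ∀ j, A ∣ B j - R * B' j) (I : Fin n → ℕ) :
    A ∣ ∏ j, B j ^ I j - R ^ (∑ j, I j) * ∏ j, B' j ^ I j := by
  obtain ⟨S, _, φ, hφ⟩ := exists_mod A
  rw [hφ, ← Finset.prod_pow_eq_pow_sum, ← Finset.prod_mul_distrib, map_prod, map_prod]
  refine Finset.prod_congr rfl fun j _ => ?_
  rw [map_pow, (hφ _ _).1 (h j), ← map_pow, mul_pow]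

/-- the forms which vanish on the curve -/
theorem mem_VI_iff (hA : Prime A) (hP : ∀ G : K[X][X], A ∣ mp K L G ↔ P ∣ G) {n e : ℕ}
    {B : Fin n → K[X][X]} {B' : Fin n → L[X][X]} {R : L[X][X]} (hR : ¬ A ∣ R)
    (h : ∀ j, A ∣ mp K L (B j) - R * B' j) {f : EX n e → K} :
    f ∈ VI P B e ↔ am L f ∈ VI A B' e := by
  unfold VI
  refine mem_dvS_iff hA hP (R := R ^ e) (fun h1 => hR (hA.dvd_of_dvd_pow h1)) fun I => ?_
  have h1 := prod_congr_dvd h fun j => I.1 j
  have hdeg : ∑ j, I.1 j = e := by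
    have := mem_expo.1 I.2
    rwa [Finsupp.degree_eq_sum] at this
  rw [hdeg] at h1
  rw [map_prod]
  simpa only [map_pow] using h1

theorem B4_congr {k n : ℕ} {B : Fin n → K[X][X]} {B' : Fin n → L[X][X]} {R : L[X][X]}
    (h : ∀ j, A ∣ mp K L (B j) - R * B' j) (c : Fin k → Fin n → K) (i : Fin k) :
    A ∣ mp K L (B4 c B i) - R * B4 (fun i j => algebraMap K L (c i j)) B' i := by
  rw [mp_B4]
  unfold B4
  rw [Finset.mul_sum, ← Finset.sum_sub_distrib]
  refine Finset.dvd_sum fun j _ => ?_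
  have e : C (C (algebraMap K L (c i j))) * mp K L (B j) -
      R * (C (C (algebraMap K L (c i j))) * B' j) =
      C (C (algebraMap K L (c i j))) * (mp K L (B j) - R * B' j) := by ring
  rw [e]
  exact dvd_mul_of_dvd_right (h j) _

theorem dF_am {T : Type*} [Fintype T] {D : T → Derivation ℤ K K} {D' : T → Derivation ℤ L L}
    (hD : ∀ t (y : K), D' t (algebraMap K L y) = algebraMap K L (D t y)) (F : T → K) (y : K) :
    dF D' (am L F) (algebraMap K L y) = algebraMap K L (dF D F y) := by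
  rw [dF_apply, dF_apply, map_sum]
  refine Finset.sum_congr rfl fun t _ => ?_
  rw [hD, map_mul]
  rfl

end general

namespace CrvK

variable {κ K L : Type*} [Field κ] [Field K] [Field L] [Algebra κ K] [Algebra K L]
  [Algebra κ L] {n d₀ : ℕ} {X : DatG κ (L := L) n d₀} {A : L[X][X]}
  {E : Fin (n + 1) → Derivation ℤ K K} {P : K[X][X]}

theorem mp_BK (hE : ∀ j (y : K), X.E j (algebraMap K L y) = algebraMap K L (E j y)) {Q : L[X][X]}
    (hQ : mp K L P = A * Q) (j : Fin (n + 1)) :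
    A ∣ mp K L (BK E P j) - Q * X.B A j := by
  have h1 : mp K L (BK E P j) = -cq (X.E j) (A * Q) := by
    unfold BK
    rw [map_neg, cd_eq_cq, ← cqd_apply, ← cqd_mp (hE j), cqd_apply, hQ]
  rw [h1]
  exact cq_mul_left A Q (X.E j)

/-- the data of the curve over `K` -/
theorem of_dvd [CharZero K] [IsScalarTower κ K L] {b : ℕ} (hA : CrvE X b A)
    (hE : ∀ j (y : K), X.E j (algebraMap K L y) = algebraMap K L (E j y)) (hP : Irreducible P)
    (hdeg : P.natDegree ≠ 0) (hdvd : ∀ G : K[X][X], A ∣ mp K L G ↔ P ∣ G) : CrvK X A E P := by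
  have hAp : Prime A := hA.irr.prime
  have hsep : ¬ P ∣ derivative P := by
    intro h1
    have h2 : derivative P ≠ 0 := fun h3 => hdeg (derivative_eq_zero.mp h3)
    have h3 := natDegree_le_of_dvd h1 h2
    have h4 := natDegree_derivative_lt hdeg
    omega
  obtain ⟨Q, hQ⟩ := (hdvd P).2 dvd_rfl
  have hQA : ¬ A ∣ Q := by
    rintro ⟨Q', rfl⟩
    apply hsep
    rw [← hdvd, ← mp_derivative', hQ, derivative_mul, derivative_mul]
    have e : derivative A * (A * Q') + A * (derivative A * Q' + A * derivative Q') =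
        A * (derivative A * Q' + (derivative A * Q' + A * derivative Q')) := by ring
    rw [e]
    exact dvd_mul_right _ _
  have hB := fun j => mp_BK (P := P) hE hQ j
  have hd : A ∣ mp K L (derivative P) - Q * derivative A := by
    rw [← mp_derivative', hQ]
    exact der_mul_left A Q
  -- a linear relation
  have hrel : ∀ (q : Fin (n + 1) → K) (S : K[X][X]),
      A ∣ ∑ j, C (C (algebraMap K L (q j))) * X.B A j - mp K L S * derivative A →
      P ∣ ∑ j, C (C (q j)) * BK E P j - S * derivative P := by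
    intro q S h1
    rw [← hdvd, map_sub, map_mul, mp_lin]
    obtain ⟨T, _, φ, hφ⟩ := exists_mod A
    rw [hφ] at hd h1 ⊢
    rw [map_sum]
    have h2 : ∑ j, φ (C (C (algebraMap K L (q j))) * mp K L (BK E P j)) =
        φ Q * φ (∑ j, C (C (algebraMap K L (q j))) * X.B A j) := by
      rw [map_sum, Finset.mul_sum]
      refine Finset.sum_congr rfl fun j _ => ?_
      rw [map_mul, (hφ _ _).1 (hB j), map_mul, map_mul]
      ring
    rw [h2, h1, map_mul, map_mul, hd, map_mul]
    ring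
  refine ⟨hE, hP, hdeg, hsep, hdvd, ⟨Q, hQ, hQA⟩, ?_, ?_, ?_, ?_, ?_⟩
  · intro j u
    obtain ⟨u', hu'⟩ := hA.Eκ j u
    refine ⟨u', (algebraMap K L).injective ?_⟩
    rw [← hE, ← IsScalarTower.algebraMap_apply, ← IsScalarTower.algebraMap_apply, hu']
  · intro j
    rw [← hdvd, EE_eq_wr, ← wr_mp (hE j), hQ]
    have h1 : mp K L (-cq (E j) P) = -cq (X.E j) (A * Q) := by
      rw [map_neg, ← cqd_apply, ← cqd_mp (hE j), cqd_apply, hQ]
    rw [h1]
    have h2 := wr_mul_left A Q (X.E j) (cq_mul_left A Q (X.E j))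
    have h3 := hA.EE j
    rw [EE_eq_wr] at h3
    rw [dvd_iff_dvd_of_dvd_sub h2]
    exact dvd_mul_of_dvd_right h3 _
  · have h1 := hrel (fun j => (X.ξ₀ j : K)) 1 (by
      simp only [map_natCast, map_one, one_mul]
      have := hA.r0
      simpa only [map_natCast] using this)
    rwa [one_mul] at h1
  · refine hrel (fun j => (X.ξ₁ j : K)) (C Polynomial.X) ?_
    rw [mp_CX]
    have := hA.r1
    simpa only [map_natCast] using this
  · refine hrel (fun j => algebraMap κ K (X.z j)) Polynomial.X ?_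
    rw [mp_X]
    have := hA.r2
    simpa only [← IsScalarTower.algebraMap_apply] using this

section mem

variable (hK : CrvK X A E P) (hA : Prime A)

include hK hA

/-- the forms which vanish on the curve -/
theorem mem_VI {e : ℕ} {f : EX (n + 1) e → K} :
    f ∈ VI P (BK E P) e ↔ am L f ∈ VI A (X.B A) e := by
  obtain ⟨Q, hQ, hQA⟩ := hK.quo
  exact mem_VI_iff hA hK.dvd hQA fun j => mp_BK hK.hE hQ j

/-- the forms in linear forms which vanish on the curve -/
theorem mem_VI4 {k e : ℕ} {c : Fin k → Fin (n + 1) → K} {f : EX k e → K} :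
    f ∈ VI P (B4 c (BK E P)) e ↔
      am L f ∈ VI A (B4 (fun i j => algebraMap K L (c i j)) (X.B A)) e := by
  obtain ⟨Q, hQ, hQA⟩ := hK.quo
  exact mem_VI_iff hA hK.dvd hQA fun j => B4_congr (fun j => mp_BK hK.hE hQ j) c j

/-- the linear relations -/
theorem mem_dvS {c : Fin (n + 1) → K} :
    c ∈ dvS P (BK E P) ↔ am L c ∈ dvS A (X.B A) := by
  obtain ⟨Q, hQ, hQA⟩ := hK.quo
  exact mem_dvS_iff hA hK.dvd hQA fun j => mp_BK hK.hE hQ j

/-- the deformations which do not move the curve -/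
theorem mem_ZF {T : Type*} [Fintype T] {D : T → Derivation ℤ K K} {D' : T → Derivation ℤ L L}
    (hD : ∀ t (y : K), D' t (algebraMap K L y) = algebraMap K L (D t y)) {F : T → K} :
    F ∈ ZF P (BK E P) D ↔ am L F ∈ ZF A (X.B A) D' := by
  obtain ⟨Q, hQ, hQA⟩ := hK.quo
  rw [MP_44a246_ntSH.mem_ZF, MP_44a246_ntSH.mem_ZF]
  refine forall_congr' fun j => ?_
  rw [← hK.dvd, ← wr_mp (dF_am hD F), hQ,
    dvd_iff_dvd_of_dvd_sub (wr_mul_left A Q (dF D' (am L F)) (mp_BK hK.hE hQ j))]
  exact ⟨fun h2 => (hA.dvd_or_dvd h2).resolve_left fun h3 => hQA (hA.dvd_of_dvd_pow h3),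
    fun h2 => dvd_mul_of_dvd_right h2 _⟩

end mem

end CrvK

end Pool.Agent.Lib.MP_44a246_ntTK
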