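import Mathlib
import Pool.Agent.Lib.MP_44a246_ntSP.NP01
import Pool.Agent.Lib.MP_44a246_ntTK.TK02

/-!
Section 4 over the base field `K`: the derivations of the data of the point are extensions of
derivations of `K` with bounded poles.
-/

namespace Pool.Agent.Lib.MP_44a246_ntTK

open Pool.Agent.Lib.MP_e52354_nt
open Pool.Agent.Lib.MP_44a246_nt
open Pool.Agent.Lib.MP_44a246_ntL
open Pool.Agent.Lib.MP_44a246_ntG
open Pool.Agent.Lib.MP_44a246_ntK
open Pool.Agent.Lib.MP_44a246_ntSH
open Pool.Agent.Lib.MP_44a246_ntSP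
open WithZero Module

/-- The derivations of the data of the point are extensions of derivations of `K`; the derivations
`D s` of `K` have poles of order at most `δ`. -/
structure OverK (κ : Type*) (K : Type*) {L : Type*} [Field κ] [Field K] [Field L] [Algebra κ K]
    [Algebra K L] [Algebra κ L] {n p : ℕ} {d : Fin p → ℕ} (X : DatSC κ (L := L) n d) where
  D : Fin p × (Fin (n + 1) →₀ ℕ) → Derivation ℤ K K
  E : Fin (n + 1) → Derivation ℤ K K
  δ : Place κ K → ℕ
  hδ : (Function.support δ).Finite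
  hD : ∀ s (y : K), X.D s (algebraMap K L y) = algebraMap K L (D s y)
  hE : ∀ j (y : K), X.E j (algebraMap K L y) = algebraMap K L (E j y)
  hDδ : ∀ s, s.2 ∈ expo (Fin (n + 1)) (d s.1) → PoleBound κ (D s) δ

namespace OverK

variable {κ K L : Type*} [Field κ] [Field K] [Field L] [Algebra κ K]
  [Algebra K L] [Algebra κ L] {n p : ℕ} {d : Fin p → ℕ} {X : DatSC κ (L := L) n d}

/-- the size of the poles over `K` -/
noncomputable def Δ (O : OverK κ K X) : ℤ := ∑ᶠ v, (O.δ v : ℤ)

theorem Δ_nonneg (O : OverK κ K X) : 0 ≤ O.Δ := by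
  unfold Δ
  exact finsum_nonneg fun v => Int.natCast_nonneg _

/-- other linear forms `ξ₀`, `ξ₁` -/
def same (O : OverK κ K X) {X' : DatSC κ (L := L) n d} (h : SameC X X') : OverK κ K X' where
  D := O.D
  E := O.E
  δ := O.δ
  hδ := O.hδ
  hD := fun s y => by rw [h.D]; exact O.hD s y
  hE := fun j y => by rw [h.E]; exact O.hE j y
  hDδ := O.hDδ

theorem same_Δ (O : OverK κ K X) {X' : DatSC κ (L := L) n d} (h : SameC X X') :
    (O.same h).Δ = O.Δ := rfl

end OverK

end Pool.Agent.Lib.MP_44a246_ntTK
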