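import Mathlib
import Pool.Agent.Lib.MP_44a246_ntTK.OverK

/-!
Section 4 over the base field `K`: the data of the point over the base field, with the derivations
over `K` which they extend.
-/

namespace Pool.Agent.Lib.MP_44a246_ntTK

open Pool.Agent.Lib.MP_44a246_nt
open Pool.Agent.Lib.MP_44a246_ntL
open Pool.Agent.Lib.MP_44a246_ntS
open Pool.Agent.Lib.MP_44a246_ntX
open Pool.Agent.Lib.MP_44a246_ntG
open Pool.Agent.Lib.MP_44a246_ntK
open Pool.Agent.Lib.MP_44a246_ntF
open Pool.Agent.Lib.MP_44a246_ntO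
open Pool.Agent.Lib.MP_44a246_ntR (genus)
open Pool.Agent.Lib.MP_44a246_ntSH
open Pool.Agent.Lib.MP_e52354_nt
open WithZero Module

universe u v w

/-- **The data over the base field**, for several forms and any point, with the derivations over
`K` of which the derivations of the data of the point are extensions. -/
theorem exists_datSC_K {κ : Type u} {K : Type v} [Field κ] [IsAlgClosed κ] [CharZero κ] [Field K]
    [CharZero K] [Algebra κ K] (hK : IsFF κ K) (htr : Cardinal.aleph0 ≤ Algebra.trdeg ℚ κ)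
    {n p : ℕ} {d : Fin p → ℕ} {j₀ : Fin p} (hd : 3 ≤ d j₀) {a : Fin p → (Fin (n + 1) →₀ ℕ) → K}
    (ha : AlgebraicIndependent ℚ
      (fun s : {s : Fin p × (Fin (n + 1) →₀ ℕ) // s ∈ jexpo n d} => a s.1.1 s.1.2)) :
    ∃ C : ℕ, ∀ (L : Type w) [Field L] [Algebra K L] [FiniteDimensional K L]
      [Algebra κ L] [IsScalarTower κ K L] (x : Fin (n + 1) → L), x ≠ 0 →
      ∃ (X : DatSC κ (L := L) n d) (O : OverK κ K X) (c : L) (τ : Place κ L → ℕ),
        O.Δ ≤ C ∧ (∀ w : Place κ L, X.δ w = ramIdx K w.1 * O.δ (below K w)) ∧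
        X.toDatC.Δ = finrank K L * O.Δ ∧ c ≠ 0 ∧ X.x = (fun j => c * x j) ∧ X.a = (fun j I => algebraMap K L (a j I)) ∧
        height κ X.x = height κ x ∧ (Function.support τ).Finite ∧
        (∀ (w : Place κ L) j, ∀ I ∈ expo (Fin (n + 1)) (d j), w.1 (X.a j I) ≤ exp (τ w : ℤ)) ∧
        X.toDatC.Δ ≤ C * finrank K L ∧ X.toDatC.R = ramDeg κ L K ∧
        ∑ᶠ w, (τ w : ℤ) ≤ C * finrank K L ∧
        (genus κ L : ℤ) ≤ C * (finrank K L + ramDeg κ L K) ∧
        ∀ ε : Place κ L → ℕ, (Function.support ε).Finite →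
          (∀ w : Place κ L, (∀ j, X.toDatC.v j ≠ 0 →
            w.1 (X.toDatC.v j) = vmax w.1 X.x ^ d j) ∨ 1 ≤ ε w) →
          ∃ R : RowU κ (L := L) n p (Σ j : Fin p, EX (n + 1) (d j)), R.x = X.x ∧
            R.Δ ≤ C * finrank K L + ramDeg κ L K ∧ (∀ j, xmj d R.x j ∈ R.U) ∧
            ht κ R.U ≤ (n + 1) * height κ R.x + (n + p) * R.Δ + p * ∑ᶠ w, (ε w : ℤ) := by
  classical
  have hk : Algebra.trdeg ℚ ℚ < Cardinal.aleph0 := by
    rw [trdeg_eq_zero]
    exact Cardinal.aleph0_pos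
  obtain ⟨X, hXa, -, hXκ⟩ := exists_baseS' (k := ℚ) hK htr hk (S := jexpo n d)
    (a := fun s => a s.1 s.2) ha
  have ha₀ : AlgebraicIndependent ℚ (fun I : EX (n + 1) (d j₀) => a j₀ I.1) := by
    have h1 := ha.comp (fun I : EX (n + 1) (d j₀) =>
      (⟨(j₀, I.1), mem_jexpo.2 I.2⟩ : {s : Fin p × (Fin (n + 1) →₀ ℕ) // s ∈ jexpo n d})) (by
        intro I J h2
        have h3 := congrArg (fun s => s.1.2) h2
        exact Subtype.ext h3)
    exact h1
  obtain ⟨P, hP⟩ := exists_right_inverse hd ha₀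
  obtain ⟨A, hAs, hA⟩ := Pool.Agent.Lib.MP_44a246_ntV.exists_polesA hK
    (Sum.elim (fun s : {s : Fin p × (Fin (n + 1) →₀ ℕ) // s ∈ jexpo n d} => a s.1.1 s.1.2)
      (fun t : EX (n + 1) (d j₀) × (Fin (n + 1) × Fin (n + 1)) => P t.1 t.2.1 t.2.2))
  obtain ⟨Cg, hCg⟩ := exists_genus_le.{u, v, w} (κ := κ) (K := K) hK
  have := X.hinf
  refine ⟨(∑ᶠ v, X.B v) + 2 * (∑ᶠ v, A v) + Cg, ?_⟩
  intro L _ _ _ _ _ x hx
  have hL : IsFF κ L := hK.of_finite
  have hchar : CharZero L := charZero_of_injective_algebraMap (algebraMap K L).injective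
  obtain ⟨ξ₀, ξ₁, h0, h1⟩ := exists_forms hL hx
  choose D' hD' using fun I => exists_extension (L := L) (X.D I)
  choose E' hE' using fun b => exists_extension (L := L) (X.E b)
  set s : L := ∑ j, (ξ₀ j : L) * x j with hs
  have hfin0 : (⋃ j : Fin (n + 1), {b | E' b (s⁻¹ * x j) ≠ 0}).Finite :=
    Set.finite_iUnion fun j => finite_movingS X E' hE' (s⁻¹ * x j)
  have hfin := hfin0.union (finite_poleS X hK hE')
  let e : ℕ ↪ ↥((⋃ j : Fin (n + 1), {b | E' b (s⁻¹ * x j) ≠ 0}) ∪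
    {b | ¬ PoleBound κ (E' b) (fun w : Place κ L => ramIdx K w.1 * X.B (below K w))})ᶜ :=
    hfin.infinite_compl.natEmbedding
  have hker : ∀ (m : ℕ) (j : Fin (n + 1)), E' (e m).1 (s⁻¹ * x j) = 0 := by
    intro m j
    have h2 := (e m).2
    rw [Set.mem_compl_iff, Set.mem_union, not_or, Set.mem_iUnion, not_exists] at h2
    have h3 := h2.1 j
    exact not_not.mp h3
  have hpole : ∀ m : ℕ, PoleBound κ (E' (e m).1)
      (fun w : Place κ L => ramIdx K w.1 * X.B (below K w)) := by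
    intro m
    have h2 := (e m).2
    rw [Set.mem_compl_iff, Set.mem_union, not_or] at h2
    exact not_not.mp h2.2
  have hext : ∀ i j : ℕ, (e i).1 = (e j).1 → i = j := fun i j h2 => e.injective (Subtype.ext h2)
  have hEE : ∀ i j : ℕ, E' (e i).1 (algebraMap κ L (X.z (e j).1)) = if i = j then 1 else 0 := by
    intro i j
    rw [IsScalarTower.algebraMap_apply κ K L, hE']
    by_cases hij : i = j
    · rw [if_pos hij, hij, (X.hEz _ _).1 rfl, map_one]
    · rw [if_neg hij, (X.hEz _ _).2 (fun h2 => hij (hext _ _ h2)), map_zero]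
  have hsum : ∀ ξ : Fin (n + 1) → ℕ, ∑ j, (ξ j : L) * (s⁻¹ * x j) = s⁻¹ * ∑ j, (ξ j : L) * x j := by
    intro ξ
    rw [Finset.mul_sum]
    exact Finset.sum_congr rfl fun j _ => by ring
  obtain ⟨hA1, hA2⟩ := mason_sum_over (L := L) hL hAs
  obtain ⟨hB1, hB2⟩ := mason_sum_over (L := L) hL X.hB
  have hfs1 : (Function.support fun w : Place κ L => ramIdx K w.1 * X.B (below K w)).Finite := by
    refine hB1.subset ?_
    intro w hw
    rw [Function.mem_support] at hw ⊢
    exact_mod_cast hw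
  have hfs2 : (Function.support fun w : Place κ L => ramIdx K w.1 - 1).Finite := by
    refine (mason_sum_ram (K := K) hL).1.subset ?_
    intro w hw
    rw [Function.mem_support] at hw ⊢
    exact_mod_cast hw
  have hτ : (Function.support fun w : Place κ L => ramIdx K w.1 * A (below K w)).Finite := by
    refine hA1.subset fun w hw h0 => hw ?_
    exact Int.natCast_eq_zero.1 h0
  have hmax' : ∀ w : Place κ L, vmax w.1 (fun j => s⁻¹ * x j) ≤
      max 1 (w.1 (∑ j, (ξ₁ j : L) * (s⁻¹ * x j))) := by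
    intro w
    rw [hsum]
    have h2 : w.1 s ≠ 0 := (Valuation.ne_zero_iff _).mpr h0
    have h3 : vmax w.1 (fun j => s⁻¹ * x j) ≤ w.1 s⁻¹ * vmax w.1 x := by
      refine vmax_le w.1 fun j => ?_
      rw [map_mul]
      exact mul_le_mul' le_rfl (le_vmax w.1 x j)
    refine h3.trans ?_
    rw [map_mul, map_inv₀]
    calc (w.1 s)⁻¹ * vmax w.1 x ≤ (w.1 s)⁻¹ * max (w.1 s) (w.1 (∑ j, (ξ₁ j : L) * x j)) :=
          mul_le_mul' le_rfl (h1 w)
      _ = max 1 ((w.1 s)⁻¹ * w.1 (∑ j, (ξ₁ j : L) * x j)) := by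
          rw [mul_max, inv_mul_cancel₀ h2]
  let Y : DatSC κ (L := L) n d :=
    { a := fun j I => algebraMap K L (a j I)
      D := D'
      δ := fun w => ramIdx K w.1 * X.B (below K w)
      ρ := fun w => ramIdx K w.1 - 1
      x := fun j => s⁻¹ * x j
      z := fun j => X.z (e j).1
      E := fun j => E' (e j).1
      ξ₀ := ξ₀
      ξ₁ := ξ₁
      hDa := by
        intro I hI J hJ
        rw [hD']
        have h2 := X.hDa I (mem_jexpo.2 hI) J (mem_jexpo.2 hJ)
        rw [hXa] at h2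
        rw [h2]
        split_ifs <;> simp
      hδ := hfs1
      hρ := hfs2
      hD := minor_over hK (fun I hI => X.hD I (mem_jexpo.2 hI)) hD'
      hE := fun j => hpole j
      hEz := by
        intro i j
        rw [hEE]
        exact if_congr ⟨fun h => Fin.ext h, fun h => congrArg Fin.val h⟩ rfl rfl
      hEx := fun i j => hker i j
      h0 := by rw [hsum, ← hs, inv_mul_cancel₀ h0]
      hmax := hmax'
      z' := fun j => X.z (e (n + 1 + j)).1
      E' := fun j => E' (e (n + 1 + j)).1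
      hE' := fun j => hpole _
      hEz' := by
        intro i j
        rw [hEE]
        refine if_congr ⟨fun h => Fin.ext (by omega), fun h => by rw [h]⟩ rfl rfl
      hE'z := by
        intro i j
        rw [hEE, if_neg]
        omega
      hEz0 := by
        intro i j
        rw [hEE, if_neg]
        omega
      hE'x := fun i j => hker _ j
      hEκ := by
        intro j u
        obtain ⟨u', hu'⟩ := hXκ (e j).1 u
        exact ⟨u', by rw [IsScalarTower.algebraMap_apply κ K L, hE', hu',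
          ← IsScalarTower.algebraMap_apply κ K L]⟩ }
  have hτa : ∀ (w : Place κ L) j, ∀ I ∈ expo (Fin (n + 1)) (d j), w.1 (Y.a j I) ≤
      exp ((ramIdx K w.1 * A (below K w) : ℕ) : ℤ) := by
    intro w j I hI
    exact coef_le A (fun v => hA (Sum.inl ⟨(j, I), mem_jexpo.2 hI⟩) v) w
  have hPL : ∀ i l i' l', ∑ J : EX (n + 1) (d j₀), mm (Y.a j₀) i l J.1 *
      (fun J => (P J).map (algebraMap K L)) J i' l' = if i = i' ∧ l = l' then 1 else 0 := by
    intro i l i' l'
    have h2 := congrArg (algebraMap K L) (hP i l i' l')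
    rw [map_sum] at h2
    rw [show (if i = i' ∧ l = l' then (1 : L) else 0) =
      algebraMap K L (if i = i' ∧ l = l' then 1 else 0) by split_ifs <;> simp, ← h2]
    refine Finset.sum_congr rfl fun J _ => ?_
    rw [map_mul]
    congr 1
    show mm (fun I => algebraMap K L (a j₀ I)) i l J.1 = _
    unfold mm
    split_ifs
    · rw [map_zero]
    · rw [map_mul, map_natCast]
  have hc : s⁻¹ ≠ 0 := inv_ne_zero h0
  have h2 : Y.toDatC.Δ = ((∑ᶠ v, X.B v : ℕ) : ℤ) * Module.finrank K L := by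
    unfold DatC.Δ
    rw [← hB2]
  have h3 : Y.toDatC.R = ramDeg κ L K := by
    unfold DatC.R
    exact (mason_sum_ram (K := K) hL).2
  have hfr : (0 : ℤ) ≤ Module.finrank K L := Int.natCast_nonneg _
  have hB0 : (0 : ℤ) ≤ ((∑ᶠ v, X.B v : ℕ) : ℤ) := Int.natCast_nonneg _
  have hA0 : (0 : ℤ) ≤ ((∑ᶠ v, A v : ℕ) : ℤ) := Int.natCast_nonneg _
  have hC0 : (0 : ℤ) ≤ (Cg : ℤ) := Int.natCast_nonneg _
  let O : OverK κ K Y :=
    { D := X.D
      E := fun j => X.E (e j).1
      δ := X.B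
      hδ := X.hB
      hD := fun s' y => hD' s' y
      hE := fun j y => hE' _ y
      hDδ := fun s' hs' => X.hD s' (mem_jexpo.2 hs') }
  have hOΔ : O.Δ = ((∑ᶠ v, X.B v : ℕ) : ℤ) := by
    unfold OverK.Δ
    exact ((Nat.castAddMonoidHom ℤ).map_finsum X.hB).symm
  refine ⟨Y, O, s⁻¹, fun w => ramIdx K w.1 * A (below K w), ?_, fun w => rfl, ?_, hc, rfl, rfl,
    hL.height_smul hc, hτ, hτa, ?_, h3, ?_, ?_, ?_⟩
  · rw [hOΔ]
    push_cast
    linarith
  · rw [h2, hOΔ]
    ring
  · rw [h2]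
    push_cast
    nlinarith [mul_nonneg hA0 hfr, mul_nonneg hC0 hfr]
  · rw [hA2]
    push_cast
    nlinarith [mul_nonneg hA0 hfr, mul_nonneg hC0 hfr, mul_nonneg hB0 hfr]
  · have h4 := hCg L
    have h5 : (genus κ L : ℤ) ≤ (Cg : ℤ) * (finrank K L + ramDeg κ L K) := by
      exact_mod_cast h4
    have h6 : (0 : ℤ) ≤ (finrank K L : ℤ) + (ramDeg κ L K : ℤ) := by positivity
    refine h5.trans (mul_le_mul_of_nonneg_right ?_ h6)
    push_cast
    linarith
  · intro ε hε hvε
    obtain ⟨R, hRx, hRΔ, hRU, hRht⟩ := exists_rowU hL Y.toDatC hPL hτ hτa (by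
      intro w J i l
      exact coef_le A (fun v => hA (Sum.inr (J, (i, l))) v) w) hε hvε
    refine ⟨R, hRx, ?_, hRU, hRht⟩
    rw [hRΔ, h2, h3, hA2]
    push_cast
    nlinarith [mul_nonneg hC0 hfr]

end Pool.Agent.Lib.MP_44a246_ntTK
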