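import Mathlib
import Pool.Agent.Lib.MP_44a246_ntSP.NP03

/-!
Section 4 over the base field `K`: two linear forms which are generic for two points, such that in
addition the quotient of the values of the forms at the first point generates its field of
definition over `K`.
-/

namespace Pool.Agent.Lib.MP_44a246_ntTK

open Pool.Agent.Lib.MP_e52354_nt
open Pool.Agent.Lib.MP_44a246_nt
open Pool.Agent.Lib.MP_44a246_ntL
open Pool.Agent.Lib.MP_44a246_ntS
open Pool.Agent.Lib.MP_44a246_ntW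
open Pool.Agent.Lib.MP_44a246_ntE
open Pool.Agent.Lib.MP_44a246_ntG
open Pool.Agent.Lib.MP_44a246_ntSH
open Pool.Agent.Lib.MP_44a246_ntSP
open WithZero Module

/-- a subspace which does not contain all the `y j` contains `∑ t ^ j * y j` only for finitely many
numbers `t` -/
theorem finite_mem_subspace {K L : Type*} [Field K] [CharZero K] [Field L] [Algebra K L] {n : ℕ}
    {y : Fin (n + 1) → L} {V : Submodule K L} {i : Fin (n + 1)} (hi : y i ∉ V) :
    {t : ℕ | ∑ j : Fin (n + 1), ((t ^ (j : ℕ) : ℕ) : L) * y j ∈ V}.Finite := by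
  classical
  obtain ⟨f, hf, hV⟩ := Submodule.exists_le_ker_of_notMem hi
  set p : Polynomial K := ∑ j : Fin (n + 1), Polynomial.monomial (j : ℕ) (f (y j)) with hp
  have hp0 : p ≠ 0 := by
    intro h0
    have h1 : p.coeff i = f (y i) := by
      rw [hp, Polynomial.finsetSum_coeff, Finset.sum_eq_single i]
      · rw [Polynomial.coeff_monomial, if_pos rfl]
      · intro j _ hj
        rw [Polynomial.coeff_monomial, if_neg fun h => hj (Fin.ext h)]
      · intro h
        exact absurd (Finset.mem_univ _) h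
    rw [h0, Polynomial.coeff_zero] at h1
    exact hf h1.symm
  refine Set.Finite.subset (Set.Finite.preimage (f := fun t : ℕ => (t : K))
    (Set.injOn_of_injective Nat.cast_injective) (p.roots.toFinset.finite_toSet)) ?_
  intro t ht
  rw [Set.mem_ofPred_eq] at ht
  rw [Set.mem_preimage, Finset.mem_coe, Multiset.mem_toFinset, Polynomial.mem_roots hp0,
    Polynomial.IsRoot.def, hp, Polynomial.eval_finsetSum]
  have h1 : f (∑ j : Fin (n + 1), ((t ^ (j : ℕ) : ℕ) : L) * y j) = 0 := LinearMap.mem_ker.1 (hV ht)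
  rw [map_sum] at h1
  rw [← h1]
  refine Finset.sum_congr rfl fun j _ => ?_
  rw [Polynomial.eval_monomial]
  have h2 : ((t ^ (j : ℕ) : ℕ) : L) * y j = ((t ^ (j : ℕ) : ℕ) : K) • y j := by
    rw [Algebra.smul_def, map_natCast]
  rw [h2, map_smul, smul_eq_mul, Nat.cast_pow, mul_comm]

/-- `∑ t ^ j * y j` generates the field generated by the `y j` for almost all `t` -/
theorem finite_adjoin_ne {K L : Type*} [Field K] [CharZero K] [Field L] [Algebra K L]
    [FiniteDimensional K L] {n : ℕ} {y : Fin (n + 1) → L}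
    (hy : ∀ M : IntermediateField K L, (∀ j, y j ∈ M) → M = ⊤) :
    {t : ℕ | IntermediateField.adjoin K
      {∑ j : Fin (n + 1), ((t ^ (j : ℕ) : ℕ) : L) * y j} ≠ ⊤}.Finite := by
  classical
  have : Finite (IntermediateField K L) :=
    Field.finite_intermediateField_of_exists_primitive_element K L
      (Field.exists_primitive_element K L)
  have h1 : (⋃ M ∈ {M : IntermediateField K L | M ≠ ⊤},
      {t : ℕ | ∑ j : Fin (n + 1), ((t ^ (j : ℕ) : ℕ) : L) * y j ∈
        Subalgebra.toSubmodule M.toSubalgebra}).Finite := by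
    refine Set.Finite.biUnion (Set.toFinite _) fun M hM => ?_
    obtain ⟨i, hi⟩ : ∃ i, y i ∉ M := by
      by_contra hno
      push Not at hno
      exact hM (hy M hno)
    exact finite_mem_subspace (i := i) hi
  refine h1.subset fun t ht => ?_
  exact Set.mem_biUnion (s := {M : IntermediateField K L | M ≠ ⊤}) ht
    (IntermediateField.mem_adjoin_simple_self K _)

/-- **Two linear forms** with natural coefficients, generic for two points, such that the quotient
of the values at the first point generates its field of definition over `K`. -/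
theorem exists_forms₃ {κ K L F M : Type*} [Field κ] [IsAlgClosed κ] [CharZero κ] [Field K]
    [CharZero K] [Field L] [Algebra κ L] [Algebra K L] [FiniteDimensional K L]
    [Field F] [IsAlgClosed F] [CharZero F] [Field M] [Algebra F M]
    (hL : IsFF κ L) (hM : IsFF F M) {n : ℕ} {x : Fin (n + 1) → L} (hx : x ≠ 0)
    (hgx : pointField K x = ⊤)
    {γ : Fin (n + 1) → M} (hγ : γ ≠ 0) (hgen : pointField F γ = ⊤) :
    ∃ ξ₀ ξ₁ : Fin (n + 1) → ℕ, ∑ j, (ξ₀ j : L) * x j ≠ 0 ∧
      (∀ w : Place κ L, vmax w.1 x ≤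
        max (w.1 (∑ j, (ξ₀ j : L) * x j)) (w.1 (∑ j, (ξ₁ j : L) * x j))) ∧
      ∑ j, (ξ₀ j : M) * γ j ≠ 0 ∧
      (∀ w : Place F M, vmax w.1 γ ≤
        max (w.1 (∑ j, (ξ₀ j : M) * γ j)) (w.1 (∑ j, (ξ₁ j : M) * γ j))) ∧
      Transcendental F ((∑ j, (ξ₁ j : M) * γ j) / ∑ j, (ξ₀ j : M) * γ j) ∧
      IntermediateField.adjoin K
        {(∑ j, (ξ₁ j : L) * x j) / ∑ j, (ξ₀ j : L) * x j} = ⊤ := by
  classical
  have hLc : CharZero L := charZero_of_injective_algebraMap (algebraMap κ L).injective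
  have hMc : CharZero M := charZero_of_injective_algebraMap (algebraMap F M).injective
  -- `t 0`
  obtain ⟨t₀, ht₀⟩ := ((finite_pow_zero hx).union (finite_pow_zero hγ)).exists_notMem
  rw [Set.mem_union, not_or] at ht₀
  obtain ⟨hη₀, hω₀⟩ := ht₀
  rw [Set.mem_ofPred_eq] at hη₀ hω₀
  set η₀ : L := ∑ j : Fin (n + 1), ((t₀ ^ (j : ℕ) : ℕ) : L) * x j with hη₀d
  set ω₀ : M := ∑ j : Fin (n + 1), ((t₀ ^ (j : ℕ) : ℕ) : M) * γ j with hω₀d
  -- `t 1`
  have hbadL : ({w : Place κ L | w.1 η₀ ≠ 1} ∪ {w : Place κ L | vmax w.1 x ≠ 1}).Finite :=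
    (hL.place_finite hη₀).union (hL.vmax_finite hx)
  have hbadM : ({w : Place F M | w.1 ω₀ ≠ 1} ∪ {w : Place F M | vmax w.1 γ ≠ 1}).Finite :=
    (hM.place_finite hω₀).union (hM.vmax_finite hγ)
  have hfinL : (⋃ w ∈ {w : Place κ L | w.1 η₀ ≠ 1} ∪ {w : Place κ L | vmax w.1 x ≠ 1},
      {t : ℕ | w.1 (∑ j : Fin (n + 1), ((t ^ (j : ℕ) : ℕ) : L) * x j) ≠ vmax w.1 x}).Finite :=
    hbadL.biUnion fun w _ => finite_bad hL hx w
  have hfinM : (⋃ w ∈ {w : Place F M | w.1 ω₀ ≠ 1} ∪ {w : Place F M | vmax w.1 γ ≠ 1},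
      {t : ℕ | w.1 (∑ j : Fin (n + 1), ((t ^ (j : ℕ) : ℕ) : M) * γ j) ≠ vmax w.1 γ}).Finite :=
    hbadM.biUnion fun w _ => finite_bad hM hγ w
  -- the field
  have hfld : ∀ N : IntermediateField K L, (∀ j, x j / η₀ ∈ N) → N = ⊤ := by
    intro N hN
    rw [eq_top_iff, ← hgx]
    unfold pointField
    rw [IntermediateField.adjoin_le_iff]
    rintro z ⟨i, j, rfl⟩
    have h1 : x i / x j = (x i / η₀) / (x j / η₀) := by
      rw [div_div_div_cancel_right₀ hη₀]
    rw [h1]
    exact div_mem (hN i) (hN j)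
  have hfinK := finite_adjoin_ne (K := K) (y := fun j => x j / η₀) hfld
  obtain ⟨t₁, ht₁⟩ := ((hfinL.union hfinM).union hfinK).exists_notMem
  rw [Set.mem_union, Set.mem_union, not_or, not_or] at ht₁
  obtain ⟨⟨ht₁, ht₁'⟩, ht₁''⟩ := ht₁
  rw [Set.mem_ofPred_eq, not_not] at ht₁''
  set ω₁ : M := ∑ j : Fin (n + 1), ((t₁ ^ (j : ℕ) : ℕ) : M) * γ j with hω₁d
  have hmaxL : ∀ w : Place κ L, vmax w.1 x ≤ max (w.1 η₀)
      (w.1 (∑ j : Fin (n + 1), ((t₁ ^ (j : ℕ) : ℕ) : L) * x j)) := by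
    intro w
    by_cases hw : w ∈ {w : Place κ L | w.1 η₀ ≠ 1} ∪ {w : Place κ L | vmax w.1 x ≠ 1}
    · have h1 : w.1 (∑ j : Fin (n + 1), ((t₁ ^ (j : ℕ) : ℕ) : L) * x j) = vmax w.1 x := by
        by_contra hne
        exact ht₁ (Set.mem_biUnion hw hne)
      rw [← h1]
      exact le_max_right _ _
    · simp only [Set.mem_union, Set.mem_ofPred_eq, not_or, not_not] at hw
      have h2 : vmax w.1 x ≤ w.1 η₀ := by rw [hw.2]; exact hw.1.ge
      exact h2.trans (le_max_left _ _)
  have hmax : ∀ w : Place F M, vmax w.1 γ ≤ max (w.1 ω₀) (w.1 ω₁) := by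
    intro w
    by_cases hw : w ∈ {w : Place F M | w.1 ω₀ ≠ 1} ∪ {w : Place F M | vmax w.1 γ ≠ 1}
    · have h1 : w.1 ω₁ = vmax w.1 γ := by
        by_contra hne
        exact ht₁' (Set.mem_biUnion hw hne)
      rw [← h1]
      exact le_max_right _ _
    · simp only [Set.mem_union, Set.mem_ofPred_eq, not_or, not_not] at hw
      have h2 : vmax w.1 γ ≤ w.1 ω₀ := by rw [hw.2]; exact hw.1.ge
      exact h2.trans (le_max_left _ _)
  -- transcendence
  have hX : Transcendental F (ω₁ / ω₀) := by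
    intro halg
    obtain ⟨c, hc⟩ : ∃ c : F, algebraMap F M c = ω₁ / ω₀ := by
      have h1 : IsIntegral F (ω₁ / ω₀) := halg.isIntegral
      have h2 := IsAlgClosed.degree_eq_one_of_irreducible F (minpoly.irreducible h1)
      exact minpoly.mem_range_of_degree_eq_one F _ h2
    have hle : ∀ w : Place F M, vmax w.1 γ ≤ w.1 ω₀ := by
      intro w
      refine (hmax w).trans (max_le le_rfl ?_)
      have h1 : ω₁ = algebraMap F M c * ω₀ := by rw [hc, div_mul_cancel₀ _ hω₀]
      rw [h1, map_mul]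
      rcases eq_or_ne c 0 with h0 | h0
      · rw [h0, map_zero, map_zero, zero_mul]
        exact zero_le
      · rw [w.2.2 c h0, one_mul]
    have hconst : ∀ j, ∃ a : F, algebraMap F M a = γ j / ω₀ := by
      intro j
      refine Pool.Agent.Lib.MP_44a246_ntR.const_of_rr_zero hM fun w => ?_
      rw [map_div₀]
      exact div_le_one_of_le₀ ((le_vmax w.1 γ j).trans (hle w)) zero_le
    have hbot : pointField F γ ≤ ⊥ := by
      unfold pointField
      rw [IntermediateField.adjoin_le_iff]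
      rintro z ⟨i, j, rfl⟩
      obtain ⟨a, ha⟩ := hconst i
      obtain ⟨b, hb⟩ := hconst j
      have h1 : γ i / γ j = (γ i / ω₀) / (γ j / ω₀) := by
        rw [div_div_div_cancel_right₀ hω₀]
      rw [h1, ← ha, ← hb, ← map_div₀]
      exact IntermediateField.algebraMap_mem _ _
    rw [hgen] at hbot
    obtain ⟨s, hs, -⟩ := hM
    have h1 : s ∈ (⊥ : IntermediateField F M) := hbot trivial
    rw [IntermediateField.mem_bot] at h1
    obtain ⟨a, ha⟩ := h1
    exact hs (ha ▸ isAlgebraic_algebraMap a)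
  refine ⟨fun j => t₀ ^ (j : ℕ), fun j => t₁ ^ (j : ℕ), hη₀, hmaxL, hω₀, hmax, hX, ?_⟩
  have h1 : (∑ j : Fin (n + 1), ((t₁ ^ (j : ℕ) : ℕ) : L) * x j) /
      ∑ j : Fin (n + 1), ((t₀ ^ (j : ℕ) : ℕ) : L) * x j =
      ∑ j : Fin (n + 1), ((t₁ ^ (j : ℕ) : ℕ) : L) * (x j / η₀) := by
    rw [Finset.sum_div]
    exact Finset.sum_congr rfl fun j _ => by rw [mul_div_assoc]
  rw [h1]
  exact ht₁''

end Pool.Agent.Lib.MP_44a246_ntTK
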