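import Mathlib
import Pool.Agent.Lib.MP_44a246_ntSP.NP08
import Pool.Agent.Lib.MP_44a246_ntTK.TK14a

/-!
Section 4 over the base field `K`: **the normalised plane curve** through the projection of the
point, such that the first coordinate of the projection generates the field of definition of the
point over `K`.
-/

namespace Pool.Agent.Lib.MP_44a246_ntTK

open Pool.Agent.Lib.MP_e52354_nt
open Pool.Agent.Lib.MP_44a246_nt
open Pool.Agent.Lib.MP_44a246_ntL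
open Pool.Agent.Lib.MP_44a246_ntS
open Pool.Agent.Lib.MP_44a246_ntE
open Pool.Agent.Lib.MP_44a246_ntG
open Pool.Agent.Lib.MP_44a246_ntK
open Pool.Agent.Lib.MP_44a246_ntC
open Pool.Agent.Lib.MP_44a246_ntSH
open Pool.Agent.Lib.MP_44a246_ntSP
open Pool.Agent.Lib.MP_44a246_ntPC (Tot)
open WithZero Polynomial Module

universe u v w

/-- the functions `γ j` generate the field -/
private theorem pointField_top {F M : Type*} [Field F] [Field M] [Algebra F M] {n : ℕ}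
    {γ : Fin (n + 1) → M} {x y : M} {q₀ q₁ q₂ : Fin (n + 1) → F}
    (h0 : ∑ j, algebraMap F M (q₀ j) * γ j = 1) (h1 : ∑ j, algebraMap F M (q₁ j) * γ j = x)
    (h2 : ∑ j, algebraMap F M (q₂ j) * γ j = y)
    (hxy : IntermediateField.adjoin F {x, y} = ⊤) : pointField F γ = ⊤ := by
  have hg : ∀ i j, γ i / γ j ∈ pointField F γ := fun i j =>
    IntermediateField.subset_adjoin _ _ ⟨i, j, rfl⟩
  have hi : ∀ i, γ i ∈ pointField F γ := by
    intro i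
    by_cases hz : γ i = 0
    · rw [hz]
      exact zero_mem _
    have h3 : (γ i)⁻¹ = ∑ j, algebraMap F M (q₀ j) * (γ j / γ i) := by
      have h4 : ∑ j, algebraMap F M (q₀ j) * (γ j / γ i) =
          (∑ j, algebraMap F M (q₀ j) * γ j) / γ i := by
        rw [Finset.sum_div]
        exact Finset.sum_congr rfl fun j _ => by rw [mul_div_assoc]
      rw [h4, h0, one_div]
    have h4 : (γ i)⁻¹ ∈ pointField F γ := by
      rw [h3]
      exact sum_mem fun j _ => mul_mem (IntermediateField.algebraMap_mem _ _) (hg j i)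
    have h5 := inv_mem h4
    rwa [inv_inv] at h5
  rw [eq_top_iff, ← hxy, IntermediateField.adjoin_le_iff]
  rintro z (rfl | rfl)
  · rw [← h1]
    exact sum_mem fun j _ => mul_mem (IntermediateField.algebraMap_mem _ _) (hi j)
  · rw [← h2]
    exact sum_mem fun j _ => mul_mem (IntermediateField.algebraMap_mem _ _) (hi j)

/-- the relations in the field of functions -/
private theorem rel_fld {L M : Type*} [Field L] [Field M] {n : ℕ} {φ : L →+* M} {x y : M}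
    {A : L[X][X]} {B : Fin (n + 1) → L[X][X]} {γ : Fin (n + 1) → M}
    (c1 : ∀ G : L[X][X], A ∣ G → ev φ x y G = 0) (c2 : ev φ x y (derivative A) ≠ 0)
    (c3 : ∀ j, ev φ x y (B j) = ev φ x y (derivative A) * γ j) {q : Fin (n + 1) → L}
    {R : L[X][X]} (hR : A ∣ ∑ j, C (C (q j)) * B j - R * derivative A) :
    ∑ j, φ (q j) * γ j = ev φ x y R := by
  have h1 := c1 _ hR
  rw [map_sub, sub_eq_zero, map_sum, map_mul] at h1
  have h2 : ∑ j, ev φ x y (C (C (q j)) * B j) =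
      ev φ x y (derivative A) * ∑ j, φ (q j) * γ j := by
    rw [Finset.mul_sum]
    refine Finset.sum_congr rfl fun j _ => ?_
    rw [map_mul, ev_C_C, c3]
    ring
  rw [h2, mul_comm (ev φ x y R)] at h1
  exact mul_left_cancel₀ c2 h1

/-- the plane curve through the projection of a point -/
private theorem crv_key {κ : Type v} {L : Type u} [Field κ] [IsAlgClosed κ] [CharZero κ] [Field L]
    [CharZero L] [Algebra κ L] (h : IsFF κ L) {n d₀ : ℕ} (Z : DatG κ (L := L) n d₀) {a b : ℕ}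
    {α : ℤ} (ha : a ≤ b) {P : MvPolynomial (Fin 3) L} (hP0 : P ≠ 0) (hP : P.IsHomogeneous a)
    (hPe : MvPolynomial.eval Z.p P = 0) (hPα : polyHeight κ P ≤ α)
    (hsm : 9 * (b : ℤ) * α + 3 * b * Z.Δ < height κ Z.x) :
    ∃ (b' : ℕ) (A : L[X][X]) (P : MvPolynomial (Fin 3) L), b' ≤ b ∧
      CrvG Z b' A ∧ A.leadingCoeff.Monic ∧ P.IsHomogeneous b' ∧ deh P = A ∧
      gh κ A ≤ α ∧ 0 ≤ gh κ A ∧ 9 * (b' : ℤ) * gh κ A + 3 * b' * Z.Δ < height κ Z.x := by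
  have hΔ : 0 ≤ Z.Δ := Z.Δ_nonneg
  have hb0 : (0 : ℤ) ≤ b := Int.natCast_nonneg b
  have hα0 : 0 ≤ α := (polyHeight_nonneg h hP0).trans hPα
  have ha' : (a : ℤ) ≤ b := by exact_mod_cast ha
  have h9 : 0 ≤ (b : ℤ) * α := mul_nonneg hb0 hα0
  have h10 : 0 ≤ (b : ℤ) * Z.Δ := mul_nonneg hb0 hΔ
  obtain ⟨b', A, P', h1, h2, h3, h4, h5, -, h7, h8⟩ := exists_curve_hom h Z hP0 hP hPe (by
    refine lt_of_le_of_lt ?_ hsm
    have h1 : (a : ℤ) * polyHeight κ P ≤ b * α :=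
      mul_le_mul ha' hPα (polyHeight_nonneg h hP0) hb0
    nlinarith)
  have hgA : 0 ≤ gh κ A := gh_nonneg h h3.irr.ne_zero
  have hgα : gh κ A ≤ α := h8.trans hPα
  refine ⟨b', A, P', h2.trans ha, h3, h4, h5, h7, hgα, hgA, ?_⟩
  refine lt_of_le_of_lt ?_ hsm
  have hb' : (b' : ℤ) ≤ b := by exact_mod_cast h2.trans ha
  have h11 : (b' : ℤ) * gh κ A ≤ b * α := mul_le_mul hb' hgα hgA hb0
  have h12 : (b' : ℤ) * Z.Δ ≤ b * Z.Δ := mul_le_mul_of_nonneg_right hb' hΔ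
  nlinarith

/-- the main step, for one block -/
private theorem exists_crvN₁ {κ : Type v} {K : Type w} {L : Type u} [Field κ] [IsAlgClosed κ]
    [CharZero κ] [Field K] [CharZero K] [Field L] [CharZero L] [Algebra κ L] [Algebra K L]
    [FiniteDimensional K L] (h : IsFF κ L) {n d₀ : ℕ} (Z : DatG κ (L := L) n d₀)
    (hgx : pointField K Z.x = ⊤)
    (hEκ : ∀ j (u : κ), ∃ u' : κ, Z.E j (algebraMap κ L u) = algebraMap κ L u')
    {b : ℕ} {α : ℤ} {P : MvPolynomial (Fin 3) L} {a : ℕ} (ha : a ≤ b) (hP0 : P ≠ 0)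
    (hP : P.IsHomogeneous a) (hPe : MvPolynomial.eval Z.p P = 0) (hPα : polyHeight κ P ≤ α)
    (hsm : 9 * (b : ℤ) * α + 3 * b * Z.Δ < height κ Z.x) {Q : DatG κ (L := L) n d₀ → Prop}
    (hpl : ∀ ξ₀ ξ₁ : Fin (n + 1) → ℕ, ∑ j, (ξ₀ j : L) * Z.x j ≠ 0 →
      (∀ w : Place κ L, vmax w.1 Z.x ≤
        max (w.1 (∑ j, (ξ₀ j : L) * Z.x j)) (w.1 (∑ j, (ξ₁ j : L) * Z.x j))) →
      IntermediateField.adjoin K
        {(∑ j, (ξ₁ j : L) * Z.x j) / ∑ j, (ξ₀ j : L) * Z.x j} = ⊤ →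
      ∃ Z' : DatG κ (L := L) n d₀, Q Z' ∧ SameG Z Z' ∧ Z'.ξ₀ = ξ₀ ∧ Z'.ξ₁ = ξ₁ ∧
        ∃ (a : ℕ) (P : MvPolynomial (Fin 3) L), a ≤ b ∧ P ≠ 0 ∧ P.IsHomogeneous a ∧
          MvPolynomial.eval Z'.p P = 0 ∧ polyHeight κ P ≤ α) :
    ∃ (Z' : DatG κ (L := L) n d₀) (b' : ℕ) (A : L[X][X]), Q Z' ∧ b' ≤ b ∧ CrvN Z' b' A ∧
      gh κ A ≤ α := by
  classical
  have hΔ : 0 ≤ Z.Δ := Z.Δ_nonneg
  have hb0 : (0 : ℤ) ≤ b := Int.natCast_nonneg b
  -- the first curve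
  obtain ⟨b₁, A₁, P₁, hb₁, hA₁, -, -, -, hα₁, hg₁, hsp₁⟩ := crv_key h Z ha hP0 hP hPe hPα hsm
  have hE₁ := crvE_of_small Z hA₁ h hEκ hsp₁
  have hx : Z.x ≠ 0 := by
    intro h0
    have h1 := Z.h0
    rw [h0] at h1
    simp at h1
  refine with_fld h Z hA₁ hsp₁ ?_
  intro M i1 i2 x y γ D hM hxy c1 c2 c3 c4 c5
  have hcF : CharZero (AlgebraicClosure L) :=
    charZero_of_injective_algebraMap (algebraMap L (AlgebraicClosure L)).injective
  -- the relations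
  have q0 : ∑ j, psi L M (Z.ξ₀ j : L) * γ j = 1 := by
    have h1 := rel_fld c1 c2 c3 (q := fun j => (Z.ξ₀ j : L)) (R := 1) (by
      rw [one_mul]
      exact hE₁.r0)
    rw [map_one] at h1
    exact h1
  have q1 : ∑ j, psi L M (Z.ξ₁ j : L) * γ j = x := by
    have h1 := rel_fld c1 c2 c3 (q := fun j => (Z.ξ₁ j : L)) (R := C Polynomial.X) hE₁.r1
    rw [ev_C_X] at h1
    exact h1
  have q2 : ∑ j, psi L M (algebraMap κ L (Z.z j)) * γ j = y := by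
    have h1 := rel_fld c1 c2 c3 (q := fun j => algebraMap κ L (Z.z j)) (R := Polynomial.X) hE₁.r2
    rw [ev_X] at h1
    exact h1
  have hγ : γ ≠ 0 := by
    intro h0
    rw [h0] at q0
    simp at q0
  have hgen : pointField (AlgebraicClosure L) γ = ⊤ := pointField_top
    (q₀ := fun j => algebraMap L (AlgebraicClosure L) (Z.ξ₀ j : L))
    (q₁ := fun j => algebraMap L (AlgebraicClosure L) (Z.ξ₁ j : L))
    (q₂ := fun j => algebraMap L (AlgebraicClosure L) (algebraMap κ L (Z.z j))) q0 q1 q2 hxy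
  -- the second projection
  obtain ⟨ξ₀, ξ₁, g1, g2, g3, g4, g5, g6⟩ := exists_forms₃ h hM hx hgx hγ hgen
  obtain ⟨Z', hQ, hS, hξ₀, hξ₁, a', P', ha', hP0', hP', hPe', hPα'⟩ := hpl ξ₀ ξ₁ g1 g2 g6
  have hht : height κ Z'.x = height κ Z.x := by
    obtain ⟨s, hs0, hs⟩ := hS.x
    rw [hs]
    exact h.height_smul hs0
  have hΔ' : Z'.Δ = Z.Δ := by
    show ∑ᶠ w, (Z'.δ w : ℤ) = ∑ᶠ w, (Z.δ w : ℤ)
    rw [hS.δ]
  obtain ⟨b₂, A₂, P₂, hb₂, hA₂, hmon, hP₂, hPA₂, hα₂, hg₂, hsp₂⟩ :=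
    crv_key h Z' ha' hP0' hP' hPe' hPα' (by rw [hΔ', hht]; exact hsm)
  have hform : (b₂ : ℤ) * gh κ A₁ + b₁ * gh κ A₂ < height κ Z.x := by
    refine lt_of_le_of_lt ?_ hsm
    have h1 : (b₂ : ℤ) * gh κ A₁ ≤ b * α :=
      mul_le_mul (by exact_mod_cast hb₂) hα₁ hg₁ hb0
    have h2 : (b₁ : ℤ) * gh κ A₂ ≤ b * α :=
      mul_le_mul (by exact_mod_cast hb₁) hα₂ hg₂ hb0
    have h9 : 0 ≤ (b : ℤ) * α := mul_nonneg hb0 (hg₁.trans hα₁)
    have h10 : 0 ≤ (b : ℤ) * Z.Δ := mul_nonneg hb0 hΔ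
    nlinarith
  have e0 : ∑ j, (Z'.ξ₀ j : M) * γ j = ∑ j, (ξ₀ j : M) * γ j := by rw [hξ₀]
  have e1 : ∑ j, (Z'.ξ₁ j : M) * γ j = ∑ j, (ξ₁ j : M) * γ j := by rw [hξ₁]
  obtain ⟨⟨c, hc⟩, htot, hint⟩ := two_proj h hS hA₁ hA₂ hP₂ hPA₂ hEκ hsp₁ hform hM hxy c1 c2 c3
    c4 c5 (by rw [e0]; exact g3) (by rw [e0, e1]; exact g4) (by rw [e0, e1]; exact g5)
  have hEκ' : ∀ j (u : κ), ∃ u' : κ, Z'.E j (algebraMap κ L u) = algebraMap κ L u' := by
    rw [hS.E]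
    exact hEκ
  refine ⟨Z', b₂, A₂, hQ, hb₂, ⟨crvE_of_small _ hA₂ h hEκ' hsp₂,
    dvd_EE _ hA₂ h hsp₂, ?_, htot, hint⟩, hα₂⟩
  unfold Monic
  rw [hc] at hmon ⊢
  have h1 : (C c : L[X]).leadingCoeff = 1 := hmon
  rw [leadingCoeff_C] at h1
  rw [h1, C_1]

/-- **The normalised plane curve** (repair (R1) of paper 667), such that the first coordinate of
the projection of the point generates its field of definition over `K`. -/
theorem exists_crvN_K {κ : Type v} {K : Type w} {L : Type u} [Field κ] [IsAlgClosed κ]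
    [CharZero κ] [Field K] [CharZero K] [Field L] [CharZero L] [Algebra κ L] [Algebra K L]
    [FiniteDimensional K L] (h : IsFF κ L) {n p : ℕ} {d : Fin p → ℕ}
    (X : DatSC κ (L := L) n d) (hgx : pointField K X.x = ⊤) (j₀ : Fin p) {b : ℕ} {α : ℤ}
    (hpl : ∀ X' : DatSC κ (L := L) n d, SameC X X' →
      ∃ (a : ℕ) (P : MvPolynomial (Fin 3) L), a ≤ b ∧ P ≠ 0 ∧ P.IsHomogeneous a ∧
        MvPolynomial.eval X'.toDatC.pt P = 0 ∧ polyHeight κ P ≤ α)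
    (hsm : 9 * (b : ℤ) * α + 3 * b * X.toDatC.Δ < height κ X.x) :
    ∃ (X' : DatSC κ (L := L) n d) (b' : ℕ) (A : L[X][X]), SameC X X' ∧ b' ≤ b ∧
      CrvN (X'.toDatC.blk j₀) b' A ∧ gh κ A ≤ α ∧
      IntermediateField.adjoin K {∑ j, (X'.ξ₁ j : L) * X'.x j} = ⊤ := by
  obtain ⟨a, P, ha, hP0, hP, hPe, hPα⟩ := hpl X (SameC.refl X)
  obtain ⟨Z', b', A, ⟨X', hS, hF, rfl⟩, h1, h2, h3⟩ := exists_crvN₁ (K := K) h (X.toDatC.blk j₀)
    hgx X.hEκ ha hP0 hP hPe hPα hsm (Q := fun Z' => ∃ X' : DatSC κ (L := L) n d, SameC X X' ∧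
      IntermediateField.adjoin K {∑ j, (X'.ξ₁ j : L) * X'.x j} = ⊤ ∧
      Z' = X'.toDatC.blk j₀) (by
    intro ξ₀ ξ₁ g1 g2 g3
    obtain ⟨X', hS, hξ₀, hξ₁, hX'⟩ := exists_reproj X g1 g2
    refine ⟨X'.toDatC.blk j₀, ⟨X', hS, ?_, rfl⟩, ⟨hS.δ, hS.z, hS.E, hS.x⟩, hξ₀, hξ₁, hpl X' hS⟩
    have e1 : ∑ j, (X'.ξ₁ j : L) * X'.x j =
        (∑ j, (ξ₁ j : L) * X.x j) / ∑ j, (ξ₀ j : L) * X.x j := by
      rw [hX', hξ₁, Finset.sum_div]
      refine Finset.sum_congr rfl fun j _ => ?_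
      rw [div_eq_mul_inv]
      ring
    rw [e1]
    exact g3)
  exact ⟨X', b', A, hS, h1, h2, h3, hF⟩

end Pool.Agent.Lib.MP_44a246_ntTK
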