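import Mathlib
import Pool.Agent.Lib.MP_44a246_ntUV.US06
import Pool.Agent.Lib.MP_44a246_ntTK.OverK

/-!
Section 4 over the base field `K`, in one block: the deformations of the form `j` in the directions
`G f` are defined over `K`.
-/

namespace Pool.Agent.Lib.MP_44a246_ntTK

open Pool.Agent.Lib.MP_e52354_nt
open Pool.Agent.Lib.MP_44a246_nt
open Pool.Agent.Lib.MP_44a246_ntL
open Pool.Agent.Lib.MP_44a246_ntS
open Pool.Agent.Lib.MP_44a246_ntX
open Pool.Agent.Lib.MP_44a246_ntA
open Pool.Agent.Lib.MP_44a246_ntF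
open Pool.Agent.Lib.MP_44a246_ntG
open Pool.Agent.Lib.MP_44a246_ntK
open Pool.Agent.Lib.MP_44a246_ntW
open Pool.Agent.Lib.MP_44a246_ntSH
open Pool.Agent.Lib.MP_44a246_ntUV
open Pool.Agent.Lib.MP_44a246_ntR (genus)
open WithZero Polynomial Module

variable {κ K L : Type*} [Field κ] [IsAlgClosed κ] [CharZero κ] [Field K] [CharZero K] [Field L]
  [CharZero L] [Algebra κ K] [Algebra K L] [Algebra κ L] [IsScalarTower κ K L]
  {n p : ℕ} {d : Fin p → ℕ}

/-- **The deformations of one form in the directions `G f`**, over the base field `K`. -/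
theorem exists_defU_K (h : IsFF κ L) (X : DatV κ (L := L) n d) (O : OverK κ K X.toDatSC)
    (S : Finset (Place κ L))
    (hS : ∀ w ∉ S, ∀ j, X.val j ≠ 0 → w.1 (X.val j) = vmax w.1 X.x ^ d j) (j : Fin p) {t : ℕ}
    (ht : t ≤ d j)
    (hN : ((sole X S j).card : ℤ) + t * height κ X.x ≤ d j * height κ X.x) :
    ∃ (DK : (Σ _ : Fin 1, EX (n + 1) t) → Derivation ℤ K K)
      (D : (Σ _ : Fin 1, EX (n + 1) t) → Derivation ℤ L L) (τ : Place κ L → ℤ),
      (∀ s (y : K), D s (algebraMap K L y) = algebraMap K L (DK s y)) ∧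
      (∀ s, PoleBound κ (DK s) O.δ) ∧
      (∀ s, PoleBound κ (D s) (fun w => X.δ w + X.ρ w)) ∧ (Function.support τ).Finite ∧
      ∑ᶠ w, τ w ≤ X.toDatC.Δ + X.toDatC.R ∧
      ∀ (w : Place κ L) (F : (Σ _ : Fin 1, EX (n + 1) t) → L),
      (∀ i, dF D F (X.x i) = 0) → (∀ s, w.1 (F s) ≤ 1) →
      w.1 (bval (d := fun _ => t) X.x 0 F) ≤ exp (τ w) := by
  classical
  have hx0 : X.x ≠ 0 := X.x_ne_zero
  have hΔ := X.toDatC.Δ_nonneg
  have hR := X.toDatC.R_nonneg
  obtain ⟨B, hB⟩ : ∃ B, B = X.toDatC.blk j := ⟨_, rfl⟩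
  have hBx : B.x = X.x := by rw [hB]; rfl
  have hmax : ∀ w : Place κ L, vmax w.1 X.x = max 1 (w.1 B.y₁) := fun w => by
    rw [← hBx]
    exact B.vmax_x w
  -- the linear form
  obtain ⟨c, hc0, hcS⟩ :=
    Pool.Agent.Lib.MP_44a246_ntUV.exists_const S B.y₁
  obtain ⟨ξ, hξ⟩ : ∃ ξ : MvPolynomial (Fin (n + 1)) κ, ξ =
      ∑ i, MvPolynomial.C (c * (X.ξ₀ i : κ) + (X.ξ₁ i : κ)) * MvPolynomial.X i := ⟨_, rfl⟩
  have hξh : ξ.IsHomogeneous 1 := by
    rw [hξ]
    refine MvPolynomial.IsHomogeneous.sum _ _ _ fun i _ => ?_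
    have h1 := (MvPolynomial.isHomogeneous_C (Fin (n + 1)) (c * (X.ξ₀ i : κ) + (X.ξ₁ i : κ))).mul
      (MvPolynomial.isHomogeneous_X κ i)
    simpa using h1
  have hξx : MvPolynomial.aeval X.x ξ = algebraMap κ L c + B.y₁ := by
    rw [hξ, map_sum]
    have h1 : ∀ i, MvPolynomial.aeval X.x
        (MvPolynomial.C (c * (X.ξ₀ i : κ) + (X.ξ₁ i : κ)) * MvPolynomial.X i :
          MvPolynomial (Fin (n + 1)) κ) =
        algebraMap κ L c * ((X.ξ₀ i : L) * X.x i) + (X.ξ₁ i : L) * X.x i := by
      intro i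
      rw [map_mul, MvPolynomial.aeval_C, MvPolynomial.aeval_X, map_add, map_mul, map_natCast,
        map_natCast]
      ring
    rw [Finset.sum_congr rfl fun i _ => h1 i, Finset.sum_add_distrib, ← Finset.mul_sum, X.h0,
      mul_one]
    congr 1
    rw [hB]
    rfl
  obtain ⟨G, hG⟩ : ∃ G : MvPolynomial (Fin (n + 1)) κ, G = ξ ^ (d j - t) := ⟨_, rfl⟩
  have hGh : G.IsHomogeneous (d j - t) := by
    rw [hG]
    have := hξh.pow (d j - t)
    rwa [one_mul] at this
  obtain ⟨γ, hγ⟩ : ∃ γ : L, γ = (algebraMap κ L c + B.y₁) ^ (d j - t) := ⟨_, rfl⟩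
  have hγ0 : γ ≠ 0 := by
    rw [hγ]
    exact pow_ne_zero _ hc0
  have hGx : MvPolynomial.aeval X.x G = γ := by
    rw [hG, map_pow, hξx, hγ]
  -- the directions
  obtain ⟨P, hP⟩ : ∃ P : EX (n + 1) t → MvPolynomial (Fin (n + 1)) κ,
      P = fun K => G * MvPolynomial.monomial K.1 1 := ⟨_, rfl⟩
  have hPh : ∀ K, (P K).IsHomogeneous (d j) := by
    intro K
    rw [hP]
    have h1 := hGh.mul (MvPolynomial.isHomogeneous_monomial (1 : κ) (mem_expo.mp K.2))
    have h2 : d j - t + t = d j := by omega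
    rwa [h2] at h1
  have hPx : ∀ K, MvPolynomial.aeval X.x (P K) = γ * mon X.x K.1 := by
    intro K
    rw [hP]
    simp only [map_mul, hGx]
    congr 1
    rw [MvPolynomial.aeval_monomial, map_one, one_mul]
    unfold mon
    rw [Finsupp.prod_fintype _ _ (fun i => pow_zero _)]
  obtain ⟨D, hD⟩ : ∃ D : (Σ _ : Fin 1, EX (n + 1) t) → Derivation ℤ L L, ∀ s y, D s y =
      ∑ I ∈ expo (Fin (n + 1)) (d j), algebraMap κ L ((P s.2).coeff I) * X.D (j, I) y := by
    refine ⟨fun s => ∑ I ∈ expo (Fin (n + 1)) (d j),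
      algebraMap κ L ((P s.2).coeff I) • X.D (j, I), fun s y => ?_⟩
    rw [← Derivation.coeFnAddMonoidHom_apply, map_sum, Finset.sum_apply]
    rfl
  have hPB : ∀ s, PoleBound κ (D s) (fun w => X.δ w + X.ρ w) := by
    intro s w y hy
    rw [hD]
    refine Valuation.map_sum_le _ fun I hI => ?_
    rw [map_mul]
    have h1 : w.1 (X.D (j, I) y) ≤ exp ((X.δ w + X.ρ w : ℕ) : ℤ) :=
      X.poleBound_D (s := (j, I)) hI w y hy
    calc _ ≤ 1 * exp ((X.δ w + X.ρ w : ℕ) : ℤ) := mul_le_mul' (place_const_le w _) h1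
      _ = _ := one_mul _
  obtain ⟨DK, hDK⟩ : ∃ DK : (Σ _ : Fin 1, EX (n + 1) t) → Derivation ℤ K K, ∀ s y, DK s y =
      ∑ I ∈ expo (Fin (n + 1)) (d j), algebraMap κ K ((P s.2).coeff I) * O.D (j, I) y := by
    refine ⟨fun s => ∑ I ∈ expo (Fin (n + 1)) (d j),
      algebraMap κ K ((P s.2).coeff I) • O.D (j, I), fun s y => ?_⟩
    rw [← Derivation.coeFnAddMonoidHom_apply, map_sum, Finset.sum_apply]
    rfl
  have hDD : ∀ s (y : K), D s (algebraMap K L y) = algebraMap K L (DK s y) := by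
    intro s y
    rw [hD, hDK, map_sum]
    refine Finset.sum_congr rfl fun I _ => ?_
    rw [map_mul, ← IsScalarTower.algebraMap_apply, O.hD]
  have hPBK : ∀ s, PoleBound κ (DK s) O.δ := by
    intro s w y hy
    rw [hDK]
    refine Valuation.map_sum_le _ fun I hI => ?_
    rw [map_mul]
    have h1 : w.1 (O.D (j, I) y) ≤ exp ((O.δ w : ℕ) : ℤ) := O.hDδ (j, I) hI w y hy
    calc _ ≤ 1 * exp ((O.δ w : ℕ) : ℤ) := mul_le_mul' (place_const_le w _) h1
      _ = _ := one_mul _
  have hDv : ∀ s i, D s (X.val i) = (if i = j then γ * mon X.x s.2.1 else 0) +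
      ∑ l, X.col i l * D s (X.x l) := by
    intro s i
    simp only [hD]
    have h1 : ∀ I ∈ expo (Fin (n + 1)) (d j), algebraMap κ L ((P s.2).coeff I) *
        X.D (j, I) (X.val i) = (if i = j then algebraMap κ L ((P s.2).coeff I) * mon X.x I
          else 0) +
        ∑ l, X.col i l * (algebraMap κ L ((P s.2).coeff I) * X.D (j, I) (X.x l)) := by
      intro I hI
      have h2 := X.hcol (j, I) hI i
      rw [h2, mul_add, Finset.mul_sum]
      congr 1
      · by_cases hij : i = j
        · rw [if_pos hij, if_pos hij.symm]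
        · rw [if_neg hij, if_neg fun h => hij h.symm, mul_zero]
      · exact Finset.sum_congr rfl fun l _ => by ring
    rw [Finset.sum_congr rfl h1, Finset.sum_add_distrib, Finset.sum_comm]
    congr 1
    · by_cases hij : i = j
      · simp only [if_pos hij]
        rw [sum_expo_eval (hPh s.2), hPx]
      · simp only [if_neg hij, Finset.sum_const_zero]
    · exact Finset.sum_congr rfl fun l _ => by rw [Finset.mul_sum]
  -- the deformations which kill the point
  have hFv : ∀ F : (Σ _ : Fin 1, EX (n + 1) t) → L, (∀ i, dF D F (X.x i) = 0) → ∀ i,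
      dF D F (X.val i) = if i = j then γ * bval (d := fun _ => t) X.x 0 F else 0 := by
    intro F hF i
    have h1 : dF D F (X.val i) = (∑ s, F s * (if i = j then γ * mon X.x s.2.1 else 0)) +
        ∑ l, X.col i l * dF D F (X.x l) := by
      simp only [dF_apply, Finset.mul_sum]
      rw [Finset.sum_comm, ← Finset.sum_add_distrib]
      refine Finset.sum_congr rfl fun s _ => ?_
      rw [hDv, mul_add, Finset.mul_sum]
      congr 1
      exact Finset.sum_congr rfl fun l _ => by ring
    rw [h1, Finset.sum_eq_zero (s := Finset.univ) (f := fun l => X.col i l * dF D F (X.x l))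
      (fun l _ => by rw [hF l, mul_zero]), add_zero]
    by_cases hij : i = j
    · simp only [if_pos hij]
      unfold bval
      rw [LinearMap.sum_apply, Finset.mul_sum]
      rw [Fintype.sum_sigma, Fintype.sum_subsingleton _ (0 : Fin 1)]
      refine Finset.sum_congr rfl fun K _ => ?_
      rw [LinearMap.smul_apply, LinearMap.proj_apply, smul_eq_mul]
      ring
    · simp only [if_neg hij, mul_zero, Finset.sum_const_zero]
  by_cases hv : X.val j = 0
  · -- the point is on the hypersurface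
    refine ⟨DK, D, fun _ => 0, hDD, hPBK, hPB, ?_, ?_, fun w F hF hF1 => ?_⟩
    · rw [show (fun _ : Place κ L => (0 : ℤ)) = 0 from rfl, Function.support_zero]
      exact Set.finite_empty
    · rw [finsum_zero]
      linarith
    · have h1 := hFv F hF j
      rw [hv, map_zero, if_pos rfl] at h1
      rw [(mul_eq_zero.1 h1.symm).resolve_left hγ0, map_zero]
      exact zero_le
  -- the bounds at the places
  have hcard : ∀ F : Finset (Place κ L), ∑ᶠ w, (if w ∈ F then (1 : ℤ) else 0) = F.card := by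
    intro F
    rw [finsum_eq_sum_of_support_subset (s := F) _ (fun w hw => by
      rw [Function.mem_support] at hw
      by_contra h0
      rw [Finset.mem_coe] at h0
      rw [if_neg h0] at hw
      exact hw rfl)]
    simp
  have hfin : ∀ F : Finset (Place κ L), (Function.support fun w : Place κ L =>
      (if w ∈ F then (1 : ℤ) else 0)).Finite := fun F => F.finite_toSet.subset fun w hw => by
      rw [Function.mem_support] at hw
      by_contra h0
      rw [Finset.mem_coe] at h0
      rw [if_neg h0] at hw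
      exact hw rfl
  have hfδ : (Function.support fun w : Place κ L => ((X.δ w + X.ρ w : ℕ) : ℤ)).Finite := by
    refine (X.hδ.union X.hρ).subset fun w hw => ?_
    rw [Function.mem_support] at hw
    by_contra hcon
    simp only [Set.mem_union, Function.mem_support, not_or, not_not] at hcon
    apply hw
    simp only [hcon.1, hcon.2, add_zero, Nat.cast_zero]
  have hsδ : ∑ᶠ w, ((X.δ w + X.ρ w : ℕ) : ℤ) = X.toDatC.Δ + X.toDatC.R := by
    have f1 : (Function.support fun w => (X.δ w : ℤ)).Finite :=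
      X.hδ.subset fun w hw => by
        rw [Function.mem_support] at hw ⊢
        exact fun h => hw (by rw [h, Nat.cast_zero])
    have f2 : (Function.support fun w => (X.ρ w : ℤ)).Finite :=
      X.hρ.subset fun w hw => by
        rw [Function.mem_support] at hw ⊢
        exact fun h => hw (by rw [h, Nat.cast_zero])
    have e1 : (fun w : Place κ L => ((X.δ w + X.ρ w : ℕ) : ℤ)) =
        fun w => (X.δ w : ℤ) + (X.ρ w : ℤ) := by
      funext w
      push_cast
      rfl
    rw [e1, finsum_add_distrib f1 f2]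
    rfl
  obtain ⟨C, hC⟩ : ∃ C : Finset (Place κ L), C = S.filter fun w => IsCt X j w := ⟨_, rfl⟩
  obtain ⟨χ, hχ⟩ : ∃ χ : Place κ L → ℕ, χ = fun w => if w ∈ sole X S j then 1 else 0 := ⟨_, rfl⟩
  obtain ⟨τ₁, hτ₁⟩ : ∃ τ₁ : Place κ L → ℤ, τ₁ = fun w => log (w.1 (X.val j)) := ⟨_, rfl⟩
  obtain ⟨τ₂, hτ₂⟩ : ∃ τ₂ : Place κ L → ℤ, τ₂ = fun w =>
      (-((d j - t : ℕ) : ℤ)) * log (vmax w.1 X.x) := ⟨_, rfl⟩
  obtain ⟨τ₃, hτ₃⟩ : ∃ τ₃ : Place κ L → ℤ, τ₃ = fun w =>
      if w ∈ C then ((X.δ w + X.ρ w : ℕ) : ℤ) + (χ w : ℤ) else 0 := ⟨_, rfl⟩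
  have s1 : (Function.support τ₁).Finite := by
    rw [hτ₁]
    exact h.place_support hv
  have s2 : (Function.support τ₂).Finite := by
    rw [hτ₂]
    refine (h.vmax_support hx0).subset fun w hw h1 => hw ?_
    simp only at h1 ⊢
    rw [h1, mul_zero]
  have s3 : (Function.support τ₃).Finite := by
    rw [hτ₃]
    refine C.finite_toSet.subset fun w hw => ?_
    rw [Function.mem_support] at hw
    by_contra h0
    rw [Finset.mem_coe] at h0
    rw [if_neg h0] at hw
    exact hw rfl
  have hsum : ∑ᶠ w, (τ₁ w + τ₂ w + τ₃ w) ≤ X.toDatC.Δ + X.toDatC.R := by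
    rw [finsum_add_distrib ((s1.union s2).subset (Function.support_add _ _)) s3,
      finsum_add_distrib s1 s2]
    have h1 : ∑ᶠ w, τ₁ w = 0 := by
      rw [hτ₁]
      exact h.product_formula hv
    have h2 : ∑ᶠ w, τ₂ w = (-((d j - t : ℕ) : ℤ)) * height κ X.x := by
      rw [hτ₂, ← mul_finsum]
      rfl
    have h3 : ∑ᶠ w, τ₃ w ≤ (X.toDatC.Δ + X.toDatC.R) + ((sole X S j).card : ℤ) := by
      rw [← hsδ, ← hcard (sole X S j), ← finsum_add_distrib hfδ (hfin _)]
      refine finsum_mono s3 ((hfδ.union (hfin _)).subset (Function.support_add _ _)) fun w => ?_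
      rw [hτ₃, hχ]
      dsimp only
      split_ifs
      · push_cast
        linarith
      · push_cast
        linarith
      · positivity
      · positivity
    rw [h1, h2, Nat.cast_sub ht]
    linarith
  refine ⟨DK, D, fun w => τ₁ w + τ₂ w + τ₃ w, hDD, hPBK, hPB,
    (((s1.union s2).subset (Function.support_add _ _)).union s3).subset
      (Function.support_add _ _), hsum, fun w F hF hF1 => ?_⟩
  show _ ≤ exp (τ₁ w + τ₂ w + τ₃ w)
  have hv0 : w.1 (X.val j) ≠ 0 := (w.1.ne_zero_iff).mpr hv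
  have hm0 : vmax w.1 X.x ≠ 0 := by
    rw [Ne, vmax_eq_zero_iff]
    exact hx0
  have e1 : exp (τ₁ w) = w.1 (X.val j) := by
    rw [hτ₁]
    exact exp_log hv0
  have e2 : exp (τ₂ w) * vmax w.1 X.x ^ (d j - t) = 1 := by
    have h1 : vmax w.1 X.x ^ (d j - t) = exp (((d j - t : ℕ) : ℤ) * log (vmax w.1 X.x)) := by
      conv_lhs => rw [← exp_log hm0]
      rw [← exp_nsmul, nsmul_eq_mul]
    rw [h1, hτ₂, ← exp_add]
    refine Eq.trans ?_ exp_zero
    congr 1
    ring
  by_cases hw : w ∈ C
  · -- a place of contact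
    have hwS : w ∈ S := by
      rw [hC, Finset.mem_filter] at hw
      exact hw.1
    have hct : IsCt X j w := by
      rw [hC, Finset.mem_filter] at hw
      exact hw.2
    have h1 := hFv F hF j
    rw [if_pos rfl] at h1
    have hb : bval (d := fun _ => t) X.x 0 F = X.val j / γ * (dF D F (X.val j) / X.val j) := by
      rw [h1]
      field_simp
    have h3 : w.1 γ = vmax w.1 X.x ^ (d j - t) := by
      rw [hγ, map_pow, hcS w hwS, hmax]
    have h5 : exp (τ₂ w) = (vmax w.1 X.x ^ (d j - t))⁻¹ := eq_inv_of_mul_eq_one_left e2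
    have h4 : exp (τ₃ w) = exp (((X.δ w + X.ρ w : ℕ) : ℤ) + χ w) := by
      rw [hτ₃]
      simp only [if_pos hw]
    have h2 : w.1 (dF D F (X.val j) / X.val j) ≤ exp (((X.δ w + X.ρ w : ℕ) : ℤ) + χ w) := by
      by_cases hso : w ∈ sole X S j
      · have h6 := dF_log_le hPB w (u := F) (g := 0) (fun s => by rw [exp_zero]; exact hF1 s) hv
        refine h6.trans (le_of_eq ?_)
        rw [hχ]
        simp only [if_pos hso]
        congr 1
        push_cast
        ring
      · have h7 : ∃ i, i ≠ j ∧ IsCt X i w := by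
          by_contra hcon
          push Not at hcon
          apply hso
          unfold sole
          rw [Finset.mem_filter]
          exact ⟨hwS, hct, hcon⟩
        obtain ⟨i, hij, hi⟩ := h7
        obtain ⟨l, hl0, hlv, -⟩ := exists_vmax w.1 hx0
        have h8 : w.1 (dF D F (X.val j) / X.val j) ≤ exp ((X.δ w + X.ρ w : ℕ) : ℤ) := by
          refine dF_log_le_of_zero hPB w hF1 (z := X.val i / X.x l ^ d i)
            (div_ne_zero hi.1 (pow_ne_zero _ hl0)) ?_ ?_ hv
          · intro hcon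
            apply hi.2
            rw [map_div₀, map_pow] at hcon
            have h9 : w.1 (X.x l) ^ d i ≠ 0 := pow_ne_zero _ ((w.1.ne_zero_iff).mpr hl0)
            rw [hlv]
            rwa [div_eq_one_iff_eq h9] at hcon
          · rw [div_eq_mul_inv, Derivation.leibniz, Derivation.leibniz_inv,
              Derivation.leibniz_pow, hF l, hFv F hF i, if_neg hij]
            simp
        refine h8.trans ?_
        rw [exp_le_exp]
        have : (0 : ℤ) ≤ χ w := Int.natCast_nonneg _
        linarith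
    rw [hb, map_mul, map_div₀, exp_add, exp_add, e1, h3, h5, h4, div_eq_mul_inv]
    exact mul_le_mul' le_rfl h2
  · -- no contact
    have h1 : w.1 (X.val j) = vmax w.1 X.x ^ d j := by
      by_cases hwS : w ∈ S
      · by_contra hne
        apply hw
        rw [hC, Finset.mem_filter]
        exact ⟨hwS, hv, hne⟩
      · exact hS w hwS j hv
    have h2 : τ₃ w = 0 := by
      rw [hτ₃]
      simp only [if_neg hw]
    rw [h2, add_zero, exp_add, e1, h1]
    have h3 : w.1 (bval (d := fun _ => t) X.x 0 F) ≤ 1 * vmax w.1 X.x ^ t := by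
      rw [bval_apply]
      refine Fval_le w.1 (fun I hI => ?_) fun i => le_vmax _ _ _
      rw [ex_of_mem _ hI]
      exact hF1 _
    rw [one_mul] at h3
    refine h3.trans (le_of_eq ?_)
    have h5 : vmax w.1 X.x ^ d j = vmax w.1 X.x ^ t * vmax w.1 X.x ^ (d j - t) := by
      rw [← pow_add]
      congr 1
      omega
    rw [h5, mul_assoc, mul_comm (vmax w.1 X.x ^ (d j - t)), e2, mul_one]

end Pool.Agent.Lib.MP_44a246_ntTK
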