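import Mathlib
import Pool.Agent.Lib.MP_44a246_ntUV.OR02
import Pool.Agent.Lib.MP_44a246_ntO.OS1
import Pool.Agent.Lib.MP_44a246_ntTK.TK02

/-!
Section 4 over the base field `K`: heights of kernels of functionals with values in a finite
extension `L` of `K`.
-/

namespace Pool.Agent.Lib.MP_44a246_ntTK

open Pool.Agent.Lib.MP_e52354_nt
open Pool.Agent.Lib.MP_44a246_nt
open Pool.Agent.Lib.MP_44a246_ntL
open Pool.Agent.Lib.MP_44a246_ntS
open Pool.Agent.Lib.MP_44a246_ntO
open Pool.Agent.Lib.MP_44a246_ntSH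
open Pool.Agent.Lib.MP_44a246_ntR (genus)
open WithZero Module

section height

variable {κ K L : Type*} [Field κ] [IsAlgClosed κ] [CharZero κ] [Field K] [Field L]
  [Algebra κ K] [Algebra K L] [Algebra κ L] [IsScalarTower κ K L] [FiniteDimensional K L]
  {ι : Type*} [Fintype ι]

omit [IsAlgClosed κ] [CharZero κ] [Algebra κ K] [Algebra κ L] [IsScalarTower κ K L] in
/-- finitely many linear conditions with values in `L` -/
theorem finrank_le_inf_kers_K (Z : Submodule K (ι → K)) {p : ℕ}
    (l : Fin p → (ι → K) →ₗ[K] L) :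
    finrank K Z ≤
      finrank K (Z ⊓ ⨅ j, LinearMap.ker (l j) : Submodule K (ι → K)) + p * finrank K L := by
  have h1 := ((LinearMap.pi l).domRestrict Z).finrank_range_add_finrank_ker
  have h2 : finrank K (LinearMap.range ((LinearMap.pi l).domRestrict Z)) ≤ p * finrank K L := by
    refine (Submodule.finrank_le _).trans ?_
    rw [Module.finrank_pi_fintype, Finset.sum_const, Finset.card_univ, Fintype.card_fin,
      smul_eq_mul]
  have h3 : finrank K (LinearMap.ker ((LinearMap.pi l).domRestrict Z)) ≤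
      finrank K (Z ⊓ ⨅ j, LinearMap.ker (l j) : Submodule K (ι → K)) := by
    rw [LinearMap.ker_domRestrict, LinearMap.ker_pi]
    have h4 : (Submodule.comap Z.subtype (⨅ j, LinearMap.ker (l j))).map Z.subtype ≤
        Z ⊓ ⨅ j, LinearMap.ker (l j) := by
      rw [Submodule.map_comap_subtype]
    rw [(Submodule.equivMapOfInjective Z.subtype Z.injective_subtype _).finrank_eq]
    exact Submodule.finrank_mono h4
  omega

omit [IsAlgClosed κ] [CharZero κ] [Algebra κ K] [Algebra κ L] [IsScalarTower κ K L] in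
/-- one linear condition with values in `L` -/
theorem finrank_le_inf_ker_K (Z : Submodule K (ι → K)) (l : (ι → K) →ₗ[K] L) :
    finrank K Z ≤
      finrank K (Z ⊓ LinearMap.ker l : Submodule K (ι → K)) + finrank K L := by
  have h1 := finrank_le_inf_kers_K Z (p := 1) fun _ => l
  rw [one_mul, iInf_const] at h1
  exact h1

/-- the height of the kernel of a functional with values in `L` -/
theorem ht_inf_ker_K (hK : IsFF κ K) {Z : Submodule K (ι → K)} (l : (ι → K) →ₗ[K] L)
    {τ : Place κ L → ℤ} (hτ : (Function.support τ).Finite) (hτ0 : ∀ w, 0 ≤ τ w)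
    (hl : ∀ (w : Place κ L), ∀ u ∈ Z, (∀ k, w.1 (algebraMap K L (u k)) ≤ 1) →
      w.1 (l u) ≤ exp (τ w)) :
    ht κ (Z ⊓ LinearMap.ker l : Submodule K (ι → K)) ≤
      ht κ Z + ∑ᶠ w, τ w + finrank K L * (genus κ K + 1) := by
  classical
  have hL : IsFF κ L := IsFF.of_finite (K := K) hK
  obtain ⟨A, hA⟩ : ∃ A : Submodule K (ι → K), A = Z ⊓ LinearMap.ker l := ⟨_, rfl⟩
  have hAZ : A ≤ Z := hA.le.trans inf_le_left
  have hm : 0 < finrank K L := finrank_pos
  have hs : 0 ≤ ∑ᶠ w, τ w := finsum_nonneg hτ0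
  -- the distances
  have key : ∀ v ∈ Z, v ∉ A → ∀ g : Place κ K → ℤ, DistLE κ A v g →
      -(∑ᶠ w, τ w) ≤ (finrank K L : ℕ) * ∑ᶠ w, g w := by
    intro v hv hvA g hg
    have hy : l v ≠ 0 := by
      intro h0
      exact hvA (by rw [hA]; exact ⟨hv, LinearMap.mem_ker.2 h0⟩)
    have hle : ∀ w : Place κ L, log (w.1 (l v)) ≤ τ w + (ramIdx K w.1 : ℤ) * g (below K w) := by
      intro w
      obtain ⟨u, hu, hub⟩ := hg.2 (below K w)
      have hlu : l u = l v := by
        rw [hA] at hu
        have h1 := LinearMap.mem_ker.1 hu.2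
        rwa [map_sub, sub_eq_zero] at h1
      have huZ : u ∈ Z := by
        have h1 := Z.add_mem (hAZ hu) hv
        rwa [sub_add_cancel] at h1
      obtain ⟨a, ha⟩ := (below K w).2.1 (exp (-(g (below K w))))
      have hw : ∀ k, w.1 (algebraMap K L ((a • u) k)) ≤ 1 := by
        intro k
        rw [below_pow, Pi.smul_apply, smul_eq_mul, map_mul, ha]
        refine pow_le_one₀ zero_le ?_
        calc exp (-(g (below K w))) * (below K w).1 (u k)
            ≤ exp (-(g (below K w))) * exp (g (below K w)) := mul_le_mul_right (hub k) _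
          _ = 1 := by rw [← exp_add, neg_add_cancel, exp_zero]
      have h2 := hl w (a • u) (Z.smul_mem a huZ) hw
      rw [map_smul, hlu, Algebra.smul_def, map_mul, below_pow, ha, ← exp_nsmul, nsmul_eq_mul] at h2
      have hv0 : w.1 (l v) ≠ 0 := (Valuation.ne_zero_iff _).2 hy
      rw [← exp_log hv0, ← exp_add, exp_le_exp] at h2
      linarith
    have hf := finsum_below (L := L) hK hg.1
    have h3 := hL.product_formula hy
    have h4 : ∑ᶠ w : Place κ L, log (w.1 (l v)) ≤
        ∑ᶠ w : Place κ L, (τ w + (ramIdx K w.1 : ℤ) * g (below K w)) :=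
      finsum_mono (hL.place_support hy) ((hτ.union hf.1).subset (Function.support_add _ _))
        hle
    rw [finsum_add_distrib hτ hf.1, hf.2, h3] at h4
    linarith
  have h1 := ht_ge_of_dist hK hAZ (m := finrank K L) key
  have h2 : (finrank K Z : ℤ) ≤ finrank K A + finrank K L := by
    have h3 := finrank_le_inf_ker_K Z l
    rw [← hA] at h3
    exact_mod_cast h3
  have h3 : (finrank K A : ℤ) ≤ finrank K Z := by exact_mod_cast Submodule.finrank_mono hAZ
  rw [← hA]
  obtain ⟨k, hk⟩ : ∃ k : ℤ, k = (finrank K Z : ℤ) - finrank K A := ⟨_, rfl⟩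
  rw [← hk] at h1
  have hk0 : 0 ≤ k := by omega
  have hk1 : k ≤ finrank K L := by omega
  have hm' : (0 : ℤ) < finrank K L := by exact_mod_cast hm
  have hg : (0 : ℤ) ≤ (genus κ K : ℤ) + 1 := by positivity
  have h5 : k * ∑ᶠ w, τ w ≤ (finrank K L : ℤ) * ∑ᶠ w, τ w := mul_le_mul_of_nonneg_right hk1 hs
  have h6 : k * ((genus κ K : ℤ) + 1) ≤ (finrank K L : ℤ) * ((genus κ K : ℤ) + 1) :=
    mul_le_mul_of_nonneg_right hk1 hg
  have h7 : (finrank K L : ℤ) * ht κ A ≤
      (finrank K L : ℤ) * (ht κ Z + ∑ᶠ w, τ w + finrank K L * (genus κ K + 1)) := by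
    have h8 := mul_le_mul_of_nonneg_left h6 hm'.le
    nlinarith
  exact le_of_mul_le_mul_left h7 hm'

/-- the height of the intersection of a space with the kernels of functionals with values in `L`,
where the functional `j` is bounded on the kernels of the previous ones -/
theorem ht_inf_kers_K (hK : IsFF κ K) {Z : Submodule K (ι → K)} {p : ℕ}
    (l : Fin p → (ι → K) →ₗ[K] L) {τ : Fin p → Place κ L → ℤ}
    (hτ : ∀ j, (Function.support (τ j)).Finite) (hτ0 : ∀ j w, 0 ≤ τ j w)
    (hl : ∀ (w : Place κ L) j, ∀ u ∈ Z, (∀ i < j, l i u = 0) →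
      (∀ k, w.1 (algebraMap K L (u k)) ≤ 1) → w.1 (l j u) ≤ exp (τ j w)) :
    ht κ (Z ⊓ ⨅ j, LinearMap.ker (l j) : Submodule K (ι → K)) ≤
      ht κ Z + ∑ j, ∑ᶠ w, τ j w + p * (finrank K L * (genus κ K + 1)) := by
  classical
  -- the spaces
  obtain ⟨V, hV⟩ : ∃ V : ℕ → Submodule K (ι → K), ∀ q, V q =
      Z ⊓ ⨅ j : Fin p, ⨅ (_ : j.1 < q), LinearMap.ker (l j) := ⟨_, fun q => rfl⟩
  have hmem : ∀ q u, u ∈ V q ↔ u ∈ Z ∧ ∀ j : Fin p, j.1 < q → l j u = 0 := by
    intro q u
    rw [hV, Submodule.mem_inf, Submodule.mem_iInf]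
    refine and_congr_right fun _ => forall_congr' fun j => ?_
    rw [Submodule.mem_iInf]
    exact forall_congr' fun _ => LinearMap.mem_ker
  have key : ∀ q, q ≤ p → ht κ (V q) ≤ ht κ Z +
      ∑ j ∈ Finset.univ.filter (fun j : Fin p => j.1 < q), ∑ᶠ w, τ j w +
      q * (finrank K L * (genus κ K + 1)) := by
    intro q
    induction q with
    | zero =>
      intro _
      have h1 : V 0 = Z := by
        ext u
        rw [hmem]
        exact ⟨fun h => h.1, fun h => ⟨h, fun j hj => absurd hj (Nat.not_lt_zero _)⟩⟩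
      have h2 : (Finset.univ.filter fun j : Fin p => j.1 < 0) = ∅ := by
        rw [Finset.filter_eq_empty_iff]
        exact fun j _ => Nat.not_lt_zero _
      rw [h1, h2, Finset.sum_empty, add_zero, Nat.cast_zero, zero_mul, add_zero]
    | succ q ih =>
      intro hq
      have ih := ih (by omega)
      obtain ⟨j, hj⟩ : ∃ j : Fin p, j.1 = q := ⟨⟨q, by omega⟩, rfl⟩
      have h1 : V (q + 1) = V q ⊓ LinearMap.ker (l j) := by
        ext u
        rw [hmem, Submodule.mem_inf, hmem]
        constructor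
        · rintro ⟨h1, h2⟩
          exact ⟨⟨h1, fun i hi => h2 i (by omega)⟩, LinearMap.mem_ker.2 (h2 j (by omega))⟩
        · rintro ⟨⟨h1, h2⟩, h3⟩
          refine ⟨h1, fun i hi => ?_⟩
          rcases Nat.lt_or_ge i.1 q with h4 | h4
          · exact h2 i h4
          · have h5 : i = j := Fin.ext (by omega)
            rw [h5]
            exact LinearMap.mem_ker.1 h3
      have h2 : (Finset.univ.filter fun i : Fin p => i.1 < q + 1) =
          insert j (Finset.univ.filter fun i : Fin p => i.1 < q) := by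
        ext i
        rw [Finset.mem_insert, Finset.mem_filter, Finset.mem_filter]
        constructor
        · rintro ⟨_, h3⟩
          rcases Nat.lt_or_ge i.1 q with h4 | h4
          · exact Or.inr ⟨Finset.mem_univ _, h4⟩
          · exact Or.inl (Fin.ext (by omega))
        · rintro (h3 | ⟨_, h3⟩)
          · exact ⟨Finset.mem_univ _, by rw [h3]; omega⟩
          · exact ⟨Finset.mem_univ _, by omega⟩
      have h3 : j ∉ (Finset.univ.filter fun i : Fin p => i.1 < q) := by
        rw [Finset.mem_filter]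
        rintro ⟨_, h3⟩
        omega
      have h4 := ht_inf_ker_K hK (Z := V q) (l j) (τ := τ j) (hτ j)
        (fun w => hτ0 j w) (fun w u hu hub => by
          obtain ⟨h5, h6⟩ := (hmem q u).1 hu
          exact hl w j u h5 (fun i hi => h6 i (by
            have : i.1 < j.1 := hi
            omega)) hub)
      rw [h1, h2, Finset.sum_insert h3]
      push_cast
      linarith
  have h1 := key p le_rfl
  have h2 : V p = Z ⊓ ⨅ j, LinearMap.ker (l j) := by
    ext u
    rw [hmem, Submodule.mem_inf, Submodule.mem_iInf]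
    exact and_congr_right fun _ => ⟨fun h j => LinearMap.mem_ker.2 (h j j.2),
      fun h j _ => LinearMap.mem_ker.1 (h j)⟩
  have h3 : (Finset.univ.filter fun j : Fin p => j.1 < p) = Finset.univ := by
    rw [Finset.filter_eq_self]
    exact fun j _ => j.2
  rw [h2, h3] at h1
  exact h1

end height

end Pool.Agent.Lib.MP_44a246_ntTK
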