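import Mathlib
import Pool.Agent.Lib.MP_44a246_ntTK.TK09

/-!
Section 4 over the base field `K`: section 3 (the dimension of the deformations which do not move
the curve, modulo the deformations which vanish on the curve) over `K`.
-/

namespace Pool.Agent.Lib.MP_44a246_ntTK

open Pool.Agent.Lib.MP_e52354_nt
open Pool.Agent.Lib.MP_44a246_nt
open Pool.Agent.Lib.MP_44a246_ntL
open Pool.Agent.Lib.MP_44a246_ntS
open Pool.Agent.Lib.MP_44a246_ntA
open Pool.Agent.Lib.MP_44a246_ntF
open Pool.Agent.Lib.MP_44a246_ntO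
open Pool.Agent.Lib.MP_44a246_ntW
open Pool.Agent.Lib.MP_44a246_ntE
open Pool.Agent.Lib.MP_44a246_ntG
open Pool.Agent.Lib.MP_44a246_ntSH
open Pool.Agent.Lib.MP_44a246_ntSP
open Pool.Agent.Lib.MP_44a246_ntUV
open Pool.Agent.Lib.MP_44a246_ntR (genus)
open WithZero Polynomial Module

variable {κ K L : Type*} [Field κ] [IsAlgClosed κ] [CharZero κ] [Field K] [CharZero K] [Field L]
  [CharZero L] [Algebra κ K] [Algebra K L] [Algebra κ L] [IsScalarTower κ K L]
  [FiniteDimensional K L]

/-- a functional over `L` on the vectors over `K` -/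
noncomputable def resK (K : Type*) {L : Type*} [Field K] [Field L] [Algebra K L] {T : Type*}
    (φ : (T → L) →ₗ[L] L) : (T → K) →ₗ[K] L :=
  (φ.restrictScalars K) ∘ₗ (Algebra.linearMap K L).compLeft T

omit [CharZero K] [CharZero L] [FiniteDimensional K L] in
theorem resK_apply {T : Type*} (φ : (T → L) →ₗ[L] L) (F : T → K) :
    resK K φ F = φ (am L F) := rfl

/-- **Section 3** over the base field `K`, from the arithmetic Bezout theorem over `K`. -/
theorem r2_le_K_of (hK : IsFF κ K) {n p d₀ b : ℕ} {X : DatG κ (L := L) n d₀} {A : L[X][X]}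
    (hA : CrvE X b A) {E : Fin (n + 1) → Derivation ℤ K K} {P : K[X][X]} (hP : CrvK X A E P)
    {d : Fin p → ℕ}
    {D : (Σ j, EX (n + 1) (d j)) → Derivation ℤ K K}
    {D' : (Σ j, EX (n + 1) (d j)) → Derivation ℤ L L}
    (hD : ∀ s (y : K), D' s (algebraMap K L y) = algebraMap K L (D s y))
    {v : Fin p → L} {g : Fin p → Fin (n + 1) → L}
    (hcol : ∀ s j, D' s (v j) = (if s.1 = j then mon X.x s.2.1 else 0) +
      ∑ i, g j i * D' s (X.x i))
    {δ : Place κ L → ℕ} (hδ : (Function.support δ).Finite) (hDδ : ∀ s, PoleBound κ (D' s) δ)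
    (S : Finset (Place κ L))
    (hS : ∀ w ∉ S, ∀ j, v j ≠ 0 → vmax w.1 X.x ^ d j ≤ w.1 (v j))
    {d' : ℕ} (hd : ∀ j, d j ≤ d')
    (hbez : ∀ (e : ℕ) (f : EX (n + 1) e → K), f ∉ VI P (BK E P) e →
      Fval e (ex (am L f)) X.x = 0 → ∀ g : Place κ K → ℤ,
      DistLE κ (VI P (BK E P) e) f g →
      height κ X.x - (e : ℤ) * gh κ P ≤ P.natDegree * ∑ᶠ v, g v) :
    ∃ r₂ : ℕ, finrank K (ZF P (BK E P) D) ≤
        finrank K (ZF P (BK E P) D ⊓ IId P (BK E P) d : Submodule K _) +
          ((1 + p) * finrank K L + r₂) ∧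
      (r₂ : ℤ) * (height κ X.x - d' * gh κ P - P.natDegree * (genus κ K + 1)) ≤
      P.natDegree * (ht κ (ZF P (BK E P) D) + (∑ᶠ w, (δ w : ℤ)) + 2 * height κ X.x +
        (p * (∑ᶠ w, (δ w : ℤ)) + S.card) + (1 + p) * (finrank K L * (genus κ K + 1))) := by
  classical
  have h : IsFF κ L := IsFF.of_finite (K := K) hK
  obtain ⟨B, hB⟩ : ∃ B, B = BK E P := ⟨_, rfl⟩
  obtain ⟨Z, hZ⟩ : ∃ Z, Z = ZF P B D := ⟨_, rfl⟩
  rw [← hB, ← hZ]
  have hZmem : ∀ F, F ∈ Z → am L F ∈ ZF A (X.B A) D' := by
    intro F hF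
    rw [hZ, hB] at hF
    exact (hP.mem_ZF hA.irr.prime hD).1 hF
  -- the deformations which kill the point
  let φ₀ : ((Σ j, EX (n + 1) (d j)) → L) →ₗ[L] L := ∑ s, D' s X.y₁ •
    (LinearMap.proj (R := L) (φ := fun _ : (Σ j, EX (n + 1) (d j)) => L) s)
  have hφ₀ : ∀ G, φ₀ G = dF D' G X.y₁ := by
    intro G
    rw [LinearMap.sum_apply, dF_apply]
    refine Finset.sum_congr rfl fun s _ => ?_
    rw [LinearMap.smul_apply, LinearMap.proj_apply, smul_eq_mul, mul_comm]
  let Z2 : Submodule K ((Σ j, EX (n + 1) (d j)) → K) := Z ⊓ LinearMap.ker (resK K φ₀)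
  have hZ2 : ∀ F, F ∈ Z2 ↔ F ∈ Z ∧ dF D' (am L F) X.y₁ = 0 := by
    intro F
    rw [Submodule.mem_inf, LinearMap.mem_ker, resK_apply, hφ₀]
  have hpt : ∀ F ∈ Z2, ∀ i, dF D' (am L F) (X.x i) = 0 := by
    intro F hF i
    obtain ⟨h1, h2⟩ := (hZ2 F).1 hF
    have h3 := hZmem F h1
    rw [MP_44a246_ntSH.mem_ZF] at h3
    exact der_point hA.zero hA.der h2 (X.B_eval hA.toCrvG i) (h3 i)
  -- the functionals
  let l : Fin p → ((Σ j, EX (n + 1) (d j)) → K) →ₗ[K] L := fun j =>
    resK K ((v j)⁻¹ • bval X.x j)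
  have hl : ∀ j F, l j F = (v j)⁻¹ * bval X.x j (am L F) := fun j F => rfl
  let Z3 : Submodule K ((Σ j, EX (n + 1) (d j)) → K) := Z2 ⊓ ⨅ j, LinearMap.ker (l j)
  have hZ3 : ∀ F, F ∈ Z3 ↔ F ∈ Z2 ∧ ∀ j, bval X.x j (am L F) = 0 := by
    intro F
    rw [Submodule.mem_inf, Submodule.mem_iInf]
    refine and_congr_right fun hF => ⟨fun h1 j => ?_, fun h1 j => ?_⟩
    · by_cases hj : v j = 0
      · rw [← der_col hcol (hpt F hF) j, hj, map_zero]
      · have h2 := h1 j
        rw [LinearMap.mem_ker, hl] at h2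
        exact (mul_eq_zero.1 h2).resolve_left (inv_ne_zero hj)
    · rw [LinearMap.mem_ker, hl, h1 j, mul_zero]
  let Z30 : Submodule K ((Σ j, EX (n + 1) (d j)) → K) := Z3 ⊓ IId P B d
  have hZ30le : Z30 ≤ Z3 := inf_le_left
  have hZ3le : Z3 ≤ Z2 := inf_le_left
  have hZ2le : Z2 ≤ Z := inf_le_left
  refine ⟨finrank K Z3 - finrank K Z30, ?_, ?_⟩
  · -- dimensions
    have h1 : finrank K Z ≤ finrank K Z2 + finrank K L := finrank_le_inf_ker_K Z (resK K φ₀)
    have h2 : finrank K Z2 ≤ finrank K Z3 + p * finrank K L := finrank_le_inf_kers_K Z2 l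
    have h3 : Z30 ≤ Z ⊓ IId P B d := inf_le_inf_right _ (hZ3le.trans hZ2le)
    have h4 := Submodule.finrank_mono h3
    have h5 := Submodule.finrank_mono hZ30le
    have h6 : (1 + p) * finrank K L = finrank K L + p * finrank K L := by ring
    rw [h6]
    omega
  · -- heights
    have hgP : 0 ≤ gh κ P := gh_nonneg hK hP.irr.ne_zero
    have key : ∀ F ∈ Z3, F ∉ Z30 → ∀ g : Place κ K → ℤ, DistLE κ Z30 F g →
        height κ X.x - d' * gh κ P ≤ P.natDegree * ∑ᶠ w, g w := by
      intro F hF hF0 g hg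
      obtain ⟨j, hj⟩ : ∃ j, bk F j ∉ VI P B (d j) := by
        by_contra hcon
        push Not at hcon
        exact hF0 ⟨hF, mem_IId.2 hcon⟩
      have hz : Fval (d j) (ex (am L (bk F j))) X.x = 0 := by
        have h1 := ((hZ3 F).1 hF).2 j
        rw [bval_apply] at h1
        exact h1
      have hg' : DistLE κ (VI P B (d j)) (bk F j) g := by
        refine ⟨hg.1, fun w => ?_⟩
        obtain ⟨u, hu, hub⟩ := hg.2 w
        exact ⟨bk u j, mem_IId.1 hu.2 j, fun K => hub ⟨j, K⟩⟩
      have h1 := hbez (d j) (bk F j) (by rwa [← hB]) hz g (by rwa [← hB])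
      have h3 : (d j : ℤ) * gh κ P ≤ d' * gh κ P :=
        mul_le_mul_of_nonneg_right (by exact_mod_cast hd j) hgP
      linarith
    have h1 := ht_ge_of_dist hK hZ30le key
    have h2 : ((finrank K Z3 - finrank K Z30 : ℕ) : ℤ) = (finrank K Z3 : ℤ) - finrank K Z30 :=
      Nat.cast_sub (Submodule.finrank_mono hZ30le)
    rw [← h2] at h1
    have hs1 : (Function.support fun w : Place κ L => (δ w : ℤ)).Finite := by
      refine hδ.subset fun w hw h0 => hw ?_
      simp only
      rw [h0, Nat.cast_zero]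
    have hx0 : X.x ≠ 0 := by
      intro h0
      have := X.h0
      rw [h0] at this
      simp at this
    have hx1 : ∀ w : Place κ L, 1 ≤ vmax w.1 X.x := fun w => by
      rw [X.vmax_x]
      exact le_max_left _ _
    have h3 : ht κ Z2 ≤ ht κ Z + ((∑ᶠ w, (δ w : ℤ)) + 2 * height κ X.x) +
        finrank K L * (genus κ K + 1) := by
      have hs2 : (Function.support fun w : Place κ L => 2 * log (vmax w.1 X.x)).Finite := by
        refine (h.vmax_support hx0).subset fun w hw h0 => hw ?_
        have h0' : log (vmax w.1 X.x) = 0 := h0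
        simp only
        rw [h0', mul_zero]
      have h5 : ∑ᶠ w : Place κ L, ((δ w : ℤ) + 2 * log (vmax w.1 X.x)) =
          (∑ᶠ w, (δ w : ℤ)) + 2 * height κ X.x := by
        rw [finsum_add_distrib hs1 hs2, ← mul_finsum]
        rfl
      rw [← h5]
      refine ht_inf_ker_K hK (resK K φ₀) ((hs1.union hs2).subset (Function.support_add _ _))
        (fun w => ?_) (fun w u hu hub => ?_)
      · have h8 : vmax w.1 X.x ≠ 0 := by
          intro h0
          have := hx1 w
          rw [h0] at this
          exact absurd this (by simp)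
        have h9 : 0 ≤ log (vmax w.1 X.x) := by
          rw [← log_one]
          exact (log_le_log one_ne_zero h8).2 (hx1 w)
        positivity
      · have h8 : vmax w.1 X.x ≠ 0 := by
          intro h0
          have := hx1 w
          rw [h0] at this
          exact absurd this (by simp)
        rw [resK_apply, hφ₀, dF_apply]
        refine Valuation.map_sum_le _ fun s _ => ?_
        rw [map_mul]
        have h7 := der_le (hDδ s) w (hx1 w) (y := X.y₁) (by
          rw [X.vmax_x]; exact le_max_right _ _)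
        calc w.1 (am L u s) * w.1 (D' s X.y₁) ≤ 1 * _ := mul_le_mul' (hub s) h7
          _ = exp ((δ w : ℤ) + 2 * log (vmax w.1 X.x)) := by
            rw [one_mul]
            conv_lhs => rw [← exp_log h8]
            rw [← exp_nsmul, ← exp_add, nsmul_eq_mul, add_comm]
            norm_num
    -- the first contact
    obtain ⟨ct, hct⟩ : ∃ ct : Place κ L → Fin p → Prop, ∀ w j, ct w j ↔
        (v j ≠ 0 ∧ w.1 (v j) < vmax w.1 X.x ^ d j) := ⟨_, fun _ _ => Iff.rfl⟩
    obtain ⟨fc, hfc⟩ : ∃ fc : Place κ L → Fin p → Prop, ∀ w j, fc w j ↔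
        (ct w j ∧ ∀ i < j, ¬ ct w i) := ⟨_, fun _ _ => Iff.rfl⟩
    have hfcS : ∀ w j, fc w j → w ∈ S := by
      intro w j hj
      by_contra hw
      have h4 := (hct w j).1 ((hfc w j).1 hj).1
      exact absurd (hS w hw j h4.1) (not_le.2 h4.2)
    have hfc1 : ∀ w i j, fc w i → fc w j → i = j := by
      intro w i j hi hj
      rcases lt_trichotomy i j with h4 | h4 | h4
      · exact absurd ((hfc w i).1 hi).1 (((hfc w j).1 hj).2 i h4)
      · exact h4
      · exact absurd ((hfc w j).1 hj).1 (((hfc w i).1 hi).2 j h4)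
    obtain ⟨χ, hχ⟩ : ∃ χ : Fin p → Place κ L → ℤ, ∀ j w, χ j w = if fc w j then 1 else 0 :=
      ⟨_, fun _ _ => rfl⟩
    have hχ0 : ∀ j w, 0 ≤ χ j w := by
      intro j w
      rw [hχ]
      split_ifs <;> norm_num
    have hχs : ∀ j, Function.support (χ j) ⊆ (S : Set (Place κ L)) := by
      intro j w hw
      rw [Function.mem_support, hχ] at hw
      by_contra h0
      apply hw
      rw [if_neg fun h4 => h0 (hfcS w j h4)]
    have hχf : ∀ j, (Function.support (χ j)).Finite := fun j => S.finite_toSet.subset (hχs j)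
    have hχsum : ∑ j, ∑ᶠ w, χ j w ≤ S.card := by
      have h4 : ∀ j, ∑ᶠ w, χ j w = ∑ w ∈ S, χ j w := fun j =>
        finsum_eq_sum_of_support_subset _ (hχs j)
      simp only [h4]
      rw [Finset.sum_comm]
      have h5 : ∀ w ∈ S, ∑ j, χ j w ≤ 1 := by
        intro w _
        by_cases h6 : ∃ j, fc w j
        · obtain ⟨j, hj⟩ := h6
          rw [Finset.sum_eq_single j]
          · rw [hχ, if_pos hj]
          · intro i _ hi
            rw [hχ, if_neg fun h7 => hi (hfc1 w i j h7 hj)]
          · intro h0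
            exact absurd (Finset.mem_univ _) h0
        · push Not at h6
          rw [Finset.sum_eq_zero fun j _ => by rw [hχ, if_neg (h6 j)]]
          norm_num
      calc ∑ w ∈ S, ∑ j, χ j w ≤ ∑ _w ∈ S, (1 : ℤ) := Finset.sum_le_sum h5
        _ = S.card := by rw [Finset.sum_const, nsmul_eq_mul, mul_one]
    have h4 : ht κ Z3 ≤ ht κ Z2 + (p * (∑ᶠ w, (δ w : ℤ)) + S.card) +
        p * (finrank K L * (genus κ K + 1)) := by
      have h6 := ht_inf_kers_K hK (Z := Z2) l
        (τ := fun j w => (δ w : ℤ) + χ j w)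
        (fun j => (hs1.union (hχf j)).subset (Function.support_add _ _))
        (fun j w => add_nonneg (Int.natCast_nonneg _) (hχ0 j w))
        (fun w j u hu hli hub => by
          have hub0 : ∀ s, w.1 (am L u s) ≤ 1 := hub
          have hub' : ∀ s, w.1 (am L u s) ≤ exp (0 : ℤ) := fun s => by rw [exp_zero]; exact hub s
          rw [hl]
          by_cases hj : v j = 0
          · rw [hj, inv_zero, zero_mul, map_zero]
            exact zero_le
          rw [inv_mul_eq_div]
          by_cases hcj : ct w j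
          · rw [← der_col hcol (hpt u hu) j]
            by_cases hfj : fc w j
            · rw [hχ, if_pos hfj]
              have h7 := dF_log_le hDδ w hub' hj
              rwa [zero_add] at h7
            · -- there is an earlier contact
              rw [hχ, if_neg hfj, add_zero]
              have h7 : ∃ i < j, ct w i := by
                by_contra h8
                push Not at h8
                exact hfj ((hfc w j).2 ⟨hcj, h8⟩)
              obtain ⟨i, hij, hi⟩ := h7
              obtain ⟨hi0, hi1⟩ := (hct w i).1 hi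
              by_cases hv1 : vmax w.1 X.x = 1
              · -- the value at `i` vanishes at `w`
                refine dF_log_le_of_zero hDδ w hub0 hi0 ?_ ?_ hj
                · rw [hv1, one_pow] at hi1
                  exact hi1.ne
                · rw [der_col hcol (hpt u hu) i]
                  have h8 := hli i hij
                  rw [hl] at h8
                  exact (mul_eq_zero.1 h8).resolve_left (inv_ne_zero hi0)
              · -- a coordinate has a pole
                obtain ⟨k, hk0, hk, -⟩ := exists_vmax w.1 hx0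
                exact dF_log_le_of_zero hDδ w hub0 hk0 (by rw [← hk]; exact hv1) (hpt u hu k) hj
          · -- no contact
            have h2 : vmax w.1 X.x ^ d j ≤ w.1 (v j) := by
              by_contra h7
              exact hcj ((hct w j).2 ⟨hj, not_le.1 h7⟩)
            have h3 : w.1 (bval X.x j (am L u)) ≤ exp (0 : ℤ) * vmax w.1 X.x ^ d j := by
              rw [bval_apply]
              refine Fval_le w.1 (fun I hI => ?_) fun i => le_vmax _ _ _
              rw [ex_of_mem _ hI]
              exact hub' _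
            have h4 : w.1 (v j) ≠ 0 := (Valuation.ne_zero_iff _).2 hj
            rw [map_div₀, div_le_iff₀ (zero_lt_iff.2 h4)]
            refine h3.trans (mul_le_mul' ?_ h2)
            rw [exp_le_exp]
            exact add_nonneg (Int.natCast_nonneg _) (hχ0 j w))
      have h7 : ∑ j : Fin p, ∑ᶠ w : Place κ L, ((δ w : ℤ) + χ j w) =
          p * (∑ᶠ w, (δ w : ℤ)) + ∑ j, ∑ᶠ w, χ j w := by
        rw [Finset.sum_congr rfl fun j _ => finsum_add_distrib hs1 (hχf j),
          Finset.sum_add_distrib, Finset.sum_const, Finset.card_univ, Fintype.card_fin,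
          nsmul_eq_mul]
      rw [h7] at h6
      linarith
    have h5 := ht_nonneg hK Z30
    have h6 : (P.natDegree : ℤ) * (ht κ Z3 - ht κ Z30) ≤
        P.natDegree * (ht κ Z + (∑ᶠ w, (δ w : ℤ)) + 2 * height κ X.x +
          (p * (∑ᶠ w, (δ w : ℤ)) + S.card) + (1 + p) * (finrank K L * (genus κ K + 1))) :=
      mul_le_mul_of_nonneg_left (by linarith) (Int.natCast_nonneg _)
    nlinarith

end Pool.Agent.Lib.MP_44a246_ntTK
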