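import Mathlib
import Pool.Agent.Lib.MP_44a246_ntTK.TK09b

/-!
Section 4 over the base field `K`, in one block: section 3 over `K`, where the value at the point is
a functional with small local norms.
-/

namespace Pool.Agent.Lib.MP_44a246_ntTK

open Pool.Agent.Lib.MP_e52354_nt
open Pool.Agent.Lib.MP_44a246_nt
open Pool.Agent.Lib.MP_44a246_ntL
open Pool.Agent.Lib.MP_44a246_ntS
open Pool.Agent.Lib.MP_44a246_ntA
open Pool.Agent.Lib.MP_44a246_ntF
open Pool.Agent.Lib.MP_44a246_ntO
open Pool.Agent.Lib.MP_44a246_ntW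
open Pool.Agent.Lib.MP_44a246_ntE
open Pool.Agent.Lib.MP_44a246_ntG
open Pool.Agent.Lib.MP_44a246_ntSH
open Pool.Agent.Lib.MP_44a246_ntSP
open Pool.Agent.Lib.MP_44a246_ntUV
open Pool.Agent.Lib.MP_44a246_ntR (genus)
open WithZero Polynomial Module

section height

variable {κ K L : Type*} [Field κ] [IsAlgClosed κ] [CharZero κ] [Field K] [Field L]
  [Algebra κ K] [Algebra K L] [Algebra κ L] [IsScalarTower κ K L] [FiniteDimensional K L]
  {ι : Type*} [Fintype ι]

/-- the height of the kernel of a functional with values in `L`, with bounds of any sign -/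
theorem ht_inf_ker_K' (hK : IsFF κ K) {Z : Submodule K (ι → K)} (l : (ι → K) →ₗ[K] L)
    {τ : Place κ L → ℤ} (hτ : (Function.support τ).Finite)
    (hl : ∀ (w : Place κ L), ∀ u ∈ Z, (∀ k, w.1 (algebraMap K L (u k)) ≤ 1) →
      w.1 (l u) ≤ exp (τ w)) {T : ℤ} (hT0 : 0 ≤ T) (hT : ∑ᶠ w, τ w ≤ T) :
    ht κ (Z ⊓ LinearMap.ker l : Submodule K (ι → K)) ≤
      ht κ Z + T + finrank K L * (genus κ K + 1) := by
  classical
  have hL : IsFF κ L := IsFF.of_finite (K := K) hK
  obtain ⟨A, hA⟩ : ∃ A : Submodule K (ι → K), A = Z ⊓ LinearMap.ker l := ⟨_, rfl⟩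
  have hAZ : A ≤ Z := hA.le.trans inf_le_left
  have hm : 0 < finrank K L := finrank_pos
  -- the distances
  have key : ∀ v ∈ Z, v ∉ A → ∀ g : Place κ K → ℤ, DistLE κ A v g →
      -T ≤ (finrank K L : ℕ) * ∑ᶠ w, g w := by
    intro v hv hvA g hg
    have hy : l v ≠ 0 := by
      intro h0
      exact hvA (by rw [hA]; exact ⟨hv, LinearMap.mem_ker.2 h0⟩)
    have hle : ∀ w : Place κ L, log (w.1 (l v)) ≤ τ w + (ramIdx K w.1 : ℤ) * g (below K w) := by
      intro w
      obtain ⟨u, hu, hub⟩ := hg.2 (below K w)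
      have hlu : l u = l v := by
        rw [hA] at hu
        have h1 := LinearMap.mem_ker.1 hu.2
        rwa [map_sub, sub_eq_zero] at h1
      have huZ : u ∈ Z := by
        have h1 := Z.add_mem (hAZ hu) hv
        rwa [sub_add_cancel] at h1
      obtain ⟨a, ha⟩ := (below K w).2.1 (exp (-(g (below K w))))
      have hw : ∀ k, w.1 (algebraMap K L ((a • u) k)) ≤ 1 := by
        intro k
        rw [below_pow, Pi.smul_apply, smul_eq_mul, map_mul, ha]
        refine pow_le_one₀ zero_le ?_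
        calc exp (-(g (below K w))) * (below K w).1 (u k)
            ≤ exp (-(g (below K w))) * exp (g (below K w)) := mul_le_mul_right (hub k) _
          _ = 1 := by rw [← exp_add, neg_add_cancel, exp_zero]
      have h2 := hl w (a • u) (Z.smul_mem a huZ) hw
      rw [map_smul, hlu, Algebra.smul_def, map_mul, below_pow, ha, ← exp_nsmul, nsmul_eq_mul] at h2
      have hv0 : w.1 (l v) ≠ 0 := (Valuation.ne_zero_iff _).2 hy
      rw [← exp_log hv0, ← exp_add, exp_le_exp] at h2
      linarith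
    have hf := finsum_below (L := L) hK hg.1
    have h3 := hL.product_formula hy
    have h4 : ∑ᶠ w : Place κ L, log (w.1 (l v)) ≤
        ∑ᶠ w : Place κ L, (τ w + (ramIdx K w.1 : ℤ) * g (below K w)) :=
      finsum_mono (hL.place_support hy) ((hτ.union hf.1).subset (Function.support_add _ _))
        hle
    rw [finsum_add_distrib hτ hf.1, hf.2, h3] at h4
    linarith
  have h1 := ht_ge_of_dist hK hAZ (m := finrank K L) key
  have h2 : (finrank K Z : ℤ) ≤ finrank K A + finrank K L := by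
    have h3 := finrank_le_inf_ker_K Z l
    rw [← hA] at h3
    exact_mod_cast h3
  have h3 : (finrank K A : ℤ) ≤ finrank K Z := by exact_mod_cast Submodule.finrank_mono hAZ
  rw [← hA]
  obtain ⟨k, hk⟩ : ∃ k : ℤ, k = (finrank K Z : ℤ) - finrank K A := ⟨_, rfl⟩
  rw [← hk] at h1
  have hk0 : 0 ≤ k := by omega
  have hk1 : k ≤ finrank K L := by omega
  have hm' : (0 : ℤ) < finrank K L := by exact_mod_cast hm
  have hg : (0 : ℤ) ≤ (genus κ K : ℤ) + 1 := by positivity
  have h5 : k * T ≤ (finrank K L : ℤ) * T := mul_le_mul_of_nonneg_right hk1 hT0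
  have h6 : k * ((genus κ K : ℤ) + 1) ≤ (finrank K L : ℤ) * ((genus κ K : ℤ) + 1) :=
    mul_le_mul_of_nonneg_right hk1 hg
  have h7 : (finrank K L : ℤ) * ht κ A ≤
      (finrank K L : ℤ) * (ht κ Z + T + finrank K L * (genus κ K + 1)) := by
    have h8 := mul_le_mul_of_nonneg_left h6 hm'.le
    nlinarith
  exact le_of_mul_le_mul_left h7 hm'

end height

variable {κ K L : Type*} [Field κ] [IsAlgClosed κ] [CharZero κ] [Field K] [CharZero K] [Field L]
  [CharZero L] [Algebra κ K] [Algebra K L] [Algebra κ L] [IsScalarTower κ K L]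
  [FiniteDimensional K L]

/-- **Section 3 in one block** over the base field `K`, from the arithmetic Bezout theorem over
`K`. -/
theorem r2_leU_K_of (hK : IsFF κ K) {n d₀ b t : ℕ} {X : DatG κ (L := L) n d₀} {A : L[X][X]}
    (hA : CrvE X b A) {E : Fin (n + 1) → Derivation ℤ K K} {P : K[X][X]} (hP : CrvK X A E P)
    {D : (Σ _ : Fin 1, EX (n + 1) t) → Derivation ℤ K K}
    {D' : (Σ _ : Fin 1, EX (n + 1) t) → Derivation ℤ L L}
    (hD : ∀ s (y : K), D' s (algebraMap K L y) = algebraMap K L (D s y))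
    {δ : Place κ L → ℕ} (hδ : (Function.support δ).Finite) (hDδ : ∀ s, PoleBound κ (D' s) δ)
    {τ : Place κ L → ℤ} (hτ : (Function.support τ).Finite)
    (hl : ∀ (w : Place κ L) (F : (Σ _ : Fin 1, EX (n + 1) t) → L),
      (∀ i, dF D' F (X.x i) = 0) → (∀ s, w.1 (F s) ≤ 1) →
      w.1 (bval (d := fun _ => t) X.x 0 F) ≤ exp (τ w)) {T : ℤ} (hT0 : 0 ≤ T)
    (hT : ∑ᶠ w, τ w ≤ T)
    (hbez : ∀ (e : ℕ) (f : EX (n + 1) e → K), f ∉ VI P (BK E P) e →
      Fval e (ex (am L f)) X.x = 0 → ∀ g : Place κ K → ℤ,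
      DistLE κ (VI P (BK E P) e) f g →
      height κ X.x - (e : ℤ) * gh κ P ≤ P.natDegree * ∑ᶠ v, g v) :
    ∃ r₂ : ℕ, finrank K (ZF P (BK E P) D) ≤
        finrank K (ZF P (BK E P) D ⊓ IId P (BK E P) (fun _ : Fin 1 => t) : Submodule K _) +
          (2 * finrank K L + r₂) ∧
      (r₂ : ℤ) * (height κ X.x - t * gh κ P - P.natDegree * (genus κ K + 1)) ≤
      P.natDegree * (ht κ (ZF P (BK E P) D) + (∑ᶠ w, (δ w : ℤ)) + 2 * height κ X.x + T +
        2 * (finrank K L * (genus κ K + 1))) := by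
  classical
  have h : IsFF κ L := IsFF.of_finite (K := K) hK
  obtain ⟨B, hB⟩ : ∃ B, B = BK E P := ⟨_, rfl⟩
  obtain ⟨Z, hZ⟩ : ∃ Z, Z = ZF P B D := ⟨_, rfl⟩
  rw [← hB, ← hZ]
  have hZmem : ∀ F, F ∈ Z → am L F ∈ ZF A (X.B A) D' := by
    intro F hF
    rw [hZ, hB] at hF
    exact (hP.mem_ZF hA.irr.prime hD).1 hF
  -- the deformations which kill the point
  let φ₀ : ((Σ _ : Fin 1, EX (n + 1) t) → L) →ₗ[L] L := ∑ s, D' s X.y₁ •
    (LinearMap.proj (R := L) (φ := fun _ : (Σ _ : Fin 1, EX (n + 1) t) => L) s)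
  have hφ₀ : ∀ G, φ₀ G = dF D' G X.y₁ := by
    intro G
    rw [LinearMap.sum_apply, dF_apply]
    refine Finset.sum_congr rfl fun s _ => ?_
    rw [LinearMap.smul_apply, LinearMap.proj_apply, smul_eq_mul, mul_comm]
  let Z2 : Submodule K ((Σ _ : Fin 1, EX (n + 1) t) → K) := Z ⊓ LinearMap.ker (resK K φ₀)
  have hZ2 : ∀ F, F ∈ Z2 ↔ F ∈ Z ∧ dF D' (am L F) X.y₁ = 0 := by
    intro F
    rw [Submodule.mem_inf, LinearMap.mem_ker, resK_apply, hφ₀]
  have hpt : ∀ F ∈ Z2, ∀ i, dF D' (am L F) (X.x i) = 0 := by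
    intro F hF i
    obtain ⟨h1, h2⟩ := (hZ2 F).1 hF
    have h3 := hZmem F h1
    rw [MP_44a246_ntSH.mem_ZF] at h3
    exact der_point hA.zero hA.der h2 (X.B_eval hA.toCrvG i) (h3 i)
  -- the functional
  let l : ((Σ _ : Fin 1, EX (n + 1) t) → K) →ₗ[K] L := resK K (bval (d := fun _ => t) X.x 0)
  have hlF : ∀ F, l F = bval (d := fun _ => t) X.x 0 (am L F) := fun F => rfl
  let Z3 : Submodule K ((Σ _ : Fin 1, EX (n + 1) t) → K) := Z2 ⊓ LinearMap.ker l
  have hZ3 : ∀ F, F ∈ Z3 ↔ F ∈ Z2 ∧ bval (d := fun _ => t) X.x 0 (am L F) = 0 := by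
    intro F
    rw [Submodule.mem_inf, LinearMap.mem_ker, hlF]
  let Z30 : Submodule K ((Σ _ : Fin 1, EX (n + 1) t) → K) := Z3 ⊓ IId P B (fun _ : Fin 1 => t)
  have hZ30le : Z30 ≤ Z3 := inf_le_left
  have hZ3le : Z3 ≤ Z2 := inf_le_left
  have hZ2le : Z2 ≤ Z := inf_le_left
  refine ⟨finrank K Z3 - finrank K Z30, ?_, ?_⟩
  · -- dimensions
    have h1 : finrank K Z ≤ finrank K Z2 + finrank K L := finrank_le_inf_ker_K Z (resK K φ₀)
    have h2 : finrank K Z2 ≤ finrank K Z3 + finrank K L := finrank_le_inf_ker_K Z2 l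
    have h3 : Z30 ≤ Z ⊓ IId P B (fun _ : Fin 1 => t) := inf_le_inf_right _ (hZ3le.trans hZ2le)
    have h4 := Submodule.finrank_mono h3
    have h5 := Submodule.finrank_mono hZ30le
    omega
  · -- heights
    have hgP : 0 ≤ gh κ P := gh_nonneg hK hP.irr.ne_zero
    have key : ∀ F ∈ Z3, F ∉ Z30 → ∀ g : Place κ K → ℤ, DistLE κ Z30 F g →
        height κ X.x - t * gh κ P ≤ P.natDegree * ∑ᶠ w, g w := by
      intro F hF hF0 g hg
      have hj : bk (d := fun _ : Fin 1 => t) F 0 ∉ VI P B t := by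
        intro hcon
        refine hF0 ⟨hF, mem_IId.2 fun j => ?_⟩
        rw [Subsingleton.elim j 0]
        exact hcon
      have hz : Fval t (ex (am L (bk (d := fun _ : Fin 1 => t) F 0))) X.x = 0 := by
        have h1 := ((hZ3 F).1 hF).2
        rw [bval_apply] at h1
        exact h1
      have hg' : DistLE κ (VI P B t) (bk (d := fun _ : Fin 1 => t) F 0) g := by
        refine ⟨hg.1, fun w => ?_⟩
        obtain ⟨u, hu, hub⟩ := hg.2 w
        exact ⟨bk (d := fun _ : Fin 1 => t) u 0, mem_IId.1 hu.2 0, fun K => hub ⟨0, K⟩⟩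
      exact hbez t (bk (d := fun _ : Fin 1 => t) F 0) (by rwa [← hB]) hz g (by rwa [← hB])
    have h1 := ht_ge_of_dist hK hZ30le key
    have h2 : ((finrank K Z3 - finrank K Z30 : ℕ) : ℤ) = (finrank K Z3 : ℤ) - finrank K Z30 :=
      Nat.cast_sub (Submodule.finrank_mono hZ30le)
    rw [← h2] at h1
    have hs1 : (Function.support fun w : Place κ L => (δ w : ℤ)).Finite := by
      refine hδ.subset fun w hw h0 => hw ?_
      simp only
      rw [h0, Nat.cast_zero]
    have hx0 : X.x ≠ 0 := by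
      intro h0
      have := X.h0
      rw [h0] at this
      simp at this
    have hx1 : ∀ w : Place κ L, 1 ≤ vmax w.1 X.x := fun w => by
      rw [X.vmax_x]
      exact le_max_left _ _
    have h3 : ht κ Z2 ≤ ht κ Z + ((∑ᶠ w, (δ w : ℤ)) + 2 * height κ X.x) +
        finrank K L * (genus κ K + 1) := by
      have hs2 : (Function.support fun w : Place κ L => 2 * log (vmax w.1 X.x)).Finite := by
        refine (h.vmax_support hx0).subset fun w hw h0 => hw ?_
        have h0' : log (vmax w.1 X.x) = 0 := h0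
        simp only
        rw [h0', mul_zero]
      have h5 : ∑ᶠ w : Place κ L, ((δ w : ℤ) + 2 * log (vmax w.1 X.x)) =
          (∑ᶠ w, (δ w : ℤ)) + 2 * height κ X.x := by
        rw [finsum_add_distrib hs1 hs2, ← mul_finsum]
        rfl
      rw [← h5]
      refine ht_inf_ker_K hK (resK K φ₀) ((hs1.union hs2).subset (Function.support_add _ _))
        (fun w => ?_) (fun w u hu hub => ?_)
      · have h8 : vmax w.1 X.x ≠ 0 := by
          intro h0
          have := hx1 w
          rw [h0] at this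
          exact absurd this (by simp)
        have h9 : 0 ≤ log (vmax w.1 X.x) := by
          rw [← log_one]
          exact (log_le_log one_ne_zero h8).2 (hx1 w)
        positivity
      · have h8 : vmax w.1 X.x ≠ 0 := by
          intro h0
          have := hx1 w
          rw [h0] at this
          exact absurd this (by simp)
        rw [resK_apply, hφ₀, dF_apply]
        refine Valuation.map_sum_le _ fun s _ => ?_
        rw [map_mul]
        have h7 := der_le (hDδ s) w (hx1 w) (y := X.y₁) (by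
          rw [X.vmax_x]; exact le_max_right _ _)
        calc w.1 (am L u s) * w.1 (D' s X.y₁) ≤ 1 * _ := mul_le_mul' (hub s) h7
          _ = exp ((δ w : ℤ) + 2 * log (vmax w.1 X.x)) := by
            rw [one_mul]
            conv_lhs => rw [← exp_log h8]
            rw [← exp_nsmul, ← exp_add, nsmul_eq_mul, add_comm]
            norm_num
    have h4 : ht κ Z3 ≤ ht κ Z2 + T + finrank K L * (genus κ K + 1) :=
      ht_inf_ker_K' hK (Z := Z2) l hτ (fun w u hu hub => hl w (am L u) (hpt u hu) hub) hT0 hT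
    have h5 := ht_nonneg hK Z30
    have h6 : (P.natDegree : ℤ) * (ht κ Z3 - ht κ Z30) ≤
        P.natDegree * (ht κ Z + (∑ᶠ w, (δ w : ℤ)) + 2 * height κ X.x + T +
          2 * (finrank K L * (genus κ K + 1))) :=
      mul_le_mul_of_nonneg_left (by linarith) (Int.natCast_nonneg _)
    nlinarith

end Pool.Agent.Lib.MP_44a246_ntTK
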