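import Mathlib
import Pool.Agent.Lib.MP_44a246_ntTK.TK02

/-!
Section 4 over the base field `K`: the conormal lemma for curves which are not necessarily
geometrically irreducible; the codimension of the rational vectors of a space.
-/

namespace Pool.Agent.Lib.MP_44a246_ntTK

open Pool.Agent.Lib.MP_e52354_nt
open Pool.Agent.Lib.MP_44a246_nt
open Pool.Agent.Lib.MP_44a246_ntL
open Pool.Agent.Lib.MP_44a246_ntS
open Pool.Agent.Lib.MP_44a246_ntF
open Pool.Agent.Lib.MP_44a246_ntO
open Pool.Agent.Lib.MP_44a246_ntW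
open Pool.Agent.Lib.MP_44a246_ntE
open Pool.Agent.Lib.MP_44a246_ntG
open Pool.Agent.Lib.MP_44a246_ntSH
open Pool.Agent.Lib.MP_44a246_ntSP
open WithZero Polynomial Module

section codim

variable {K L : Type*} [Field K] [Field L] [Algebra K L] [FiniteDimensional K L] {T : Type*}
  [Fintype T]

/-- the codimension of the rational vectors -/
theorem codim_am {V : Submodule L (T → L)} {W : Submodule K (T → K)}
    (h : ∀ c, am L c ∈ V → c ∈ W) {w : ℕ} (hw : Fintype.card T ≤ finrank L V + w) :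
    Fintype.card T ≤ finrank K W + finrank K L * w := by
  classical
  -- the map to the quotient
  let φ : (T → K) →ₗ[K] ((T → L) ⧸ V) :=
    { toFun := fun c => V.mkQ (am L c)
      map_add' := fun c d => by
        rw [← map_add]
        congr 1
        funext t
        exact map_add _ _ _
      map_smul' := fun a c => by
        rw [RingHom.id_apply, ← algebraMap_smul L a (V.mkQ (am L c)), ← map_smul]
        congr 1
        funext t
        show algebraMap K L (a * c t) = algebraMap K L a • am L c t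
        rw [map_mul]
        rfl }
  have hker : LinearMap.ker φ ≤ W := by
    intro c hc
    refine h c ?_
    rw [LinearMap.mem_ker] at hc
    have h1 : V.mkQ (am L c) = 0 := hc
    rwa [Submodule.mkQ_apply, Submodule.Quotient.mk_eq_zero] at h1
  have h1 := φ.finrank_range_add_finrank_ker
  rw [Module.finrank_fintype_fun_eq_card] at h1
  have h2 := Submodule.finrank_mono hker
  have hfin : Module.Finite K ((T → L) ⧸ V) := Module.Finite.trans L _
  have h3 : finrank K (LinearMap.range φ) ≤ finrank K ((T → L) ⧸ V) := Submodule.finrank_le _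
  have h4 : finrank K ((T → L) ⧸ V) = finrank K L * finrank L ((T → L) ⧸ V) :=
    (Module.finrank_mul_finrank K L ((T → L) ⧸ V)).symm
  have h5 := Submodule.finrank_quotient_add_finrank V
  rw [Module.finrank_fintype_fun_eq_card] at h5
  have h6 : finrank L ((T → L) ⧸ V) ≤ w := by omega
  have h7 : finrank K L * finrank L ((T → L) ⧸ V) ≤ finrank K L * w := Nat.mul_le_mul_left _ h6
  omega

end codim

section Main

variable {L k M : Type*} [Field L] [Field k] [Field M] [Algebra L k] [Algebra k M] [Algebra L M]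
  [IsScalarTower L k M]

/-- **The conormal lemma**, for a curve which is not necessarily geometrically irreducible. -/
theorem conormalM [CharZero k] [FiniteDimensional k M] {n : ℕ} {γ : Fin (n + 1) → M}
    {D : Derivation ℤ M M} {X : k} (hX : Transcendental L X) {ξ₀ ξ₁ : Fin (n + 1) → L}
    (h0 : ∑ j, ξ₀ j • γ j = 1) (h1 : ∑ j, ξ₁ j • γ j = algebraMap k M X)
    (d0 : ∀ j, D (algebraMap L M (ξ₀ j)) = 0) (d1 : ∀ j, D (algebraMap L M (ξ₁ j)) = 0)
    (dX : D (algebraMap k M X) = 0) {j₀ : ℕ} (hj0 : 1 ≤ j₀)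
    (hj : Submodule.span k ((Submodule.span L (Set.range γ) ^ j₀ : Submodule L M) : Set M) = ⊤)
    (hd : finrank L ↥(Submodule.span L (Set.range γ) ^ (8 * j₀)) ≤ 8 * j₀ * finrank k M + finrank k M)
    (hv : ∀ v : ↥(expo (Fin (n + 1)) (8 * j₀)) → L, ∑ I, v I • mon γ I.1 = 0 →
      ∑ I, D (algebraMap L M (v I)) * mon γ I.1 = 0) (l : Fin (n + 1)) :
    D (γ l) = 0 := by
  classical
  obtain ⟨W, hW⟩ : ∃ W : Submodule L M, W = Submodule.span L (Set.range γ) := ⟨_, rfl⟩
  rw [← hW] at hj hd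
  obtain ⟨φ, hφ⟩ : ∃ φ, φ = dualHom D := ⟨_, rfl⟩
  have φf : ∀ u, (φ u).fst = u := fun u => by rw [hφ, fst_dualHom]
  have φs : ∀ u, (φ u).snd = D u := fun u => by rw [hφ, snd_dualHom]
  obtain ⟨G, hG⟩ : ∃ G : Submodule L (DualNumber M),
    G = Submodule.span L (Set.range fun l => φ (γ l)) := ⟨_, rfl⟩
  have hGfg : G.FG := by
    rw [hG]
    exact Submodule.fg_span (Set.finite_range _)
  have hlin : ∀ c : Fin (n + 1) → L, (∀ j, D (algebraMap L M (c j)) = 0) → ∀ u : M,
      ∑ j, c j • γ j = u → φ u ∈ G := by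
    intro c hc u hu
    have h2 : φ u = ∑ j, c j • φ (γ j) := by
      rw [← hu, map_sum]
      refine Finset.sum_congr rfl fun j _ => ?_
      ext
      · rw [φf, TrivSqZeroExt.fst_smul, φf]
      · rw [φs, TrivSqZeroExt.snd_smul, φs, Algebra.smul_def, Derivation.leibniz, hc j, smul_zero,
          add_zero, smul_eq_mul, Algebra.smul_def]
    rw [h2, hG]
    exact Submodule.sum_mem _ fun j _ => Submodule.smul_mem _ _ (Submodule.subset_span ⟨j, rfl⟩)
  have h1G : (1 : DualNumber M) ∈ G := by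
    have := hlin ξ₀ d0 1 h0
    rwa [map_one] at this
  have hXG : algebraMap k (DualNumber M) X ∈ G := by
    have h2 := hlin ξ₁ d1 _ h1
    have h3 : φ (algebraMap k M X) = algebraMap k (DualNumber M) X := by
      ext
      · rw [φf]
        rfl
      · rw [φs, dX]
        rfl
    rwa [h3] at h2
  -- the projection of `G ^ j` is `W ^ j`
  have hmap : ∀ j : ℕ, (G ^ j).map (TrivSqZeroExt.fstHom L M M).toLinearMap = W ^ j := by
    intro j
    rw [Submodule.map_pow, hG, hW, Submodule.map_span]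
    congr 2
    ext y
    constructor
    · rintro ⟨_, ⟨l, rfl⟩, rfl⟩
      exact ⟨l, (φf _).symm⟩
    · rintro ⟨l, rfl⟩
      exact ⟨_, ⟨l, rfl⟩, φf _⟩
  -- `G ^ d` is spanned by the monomials
  have hspan : ∀ d : ℕ, G ^ d ≤ Submodule.span L
      (Set.range fun I : ↥(expo (Fin (n + 1)) d) => φ (mon γ I.1)) := by
    intro d
    induction d with
    | zero =>
      rw [pow_zero, Submodule.one_le]
      refine Submodule.subset_span ⟨⟨0, mem_expo.2 (by simp)⟩, ?_⟩
      show φ (mon γ 0) = 1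
      rw [mon_zero, map_one]
    | succ d ih =>
      rw [pow_succ]
      refine (mul_le_mul' ih le_rfl).trans ?_
      rw [hG, Submodule.span_mul_span, Submodule.span_le]
      rintro _ ⟨_, ⟨I, rfl⟩, _, ⟨l, rfl⟩, rfl⟩
      refine Submodule.subset_span ⟨⟨I.1 + Finsupp.single l 1, ?_⟩, ?_⟩
      · rw [mem_expo, map_add, mem_expo.1 I.2, Finsupp.degree_single]
      · show φ (mon γ (I.1 + Finsupp.single l 1)) = φ (mon γ I.1) * φ (γ l)
        rw [mon_add, mon_single, pow_one, map_mul]
  -- the projection is injective on `G ^ (8 j₀)`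
  have hinj : ∀ y ∈ G ^ (8 * j₀), y.fst = 0 → y = 0 := by
    intro y hy hy0
    obtain ⟨v, hv1⟩ := Submodule.mem_span_range_iff_exists_fun L |>.1 (hspan _ hy)
    have h2 : ∑ I, v I • mon γ I.1 = 0 := by
      rw [← hy0, ← hv1, TrivSqZeroExt.fst_sum]
      refine Finset.sum_congr rfl fun I _ => ?_
      rw [TrivSqZeroExt.fst_smul, φf]
    have h3 := hv v h2
    have h4 : ∑ I, v I • D (mon γ I.1) = 0 := by
      have h5 := congrArg D h2
      rw [map_sum, map_zero] at h5
      have h6 : ∀ I : ↥(expo (Fin (n + 1)) (8 * j₀)), D (v I • mon γ I.1) =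
          v I • D (mon γ I.1) + D (algebraMap L M (v I)) * mon γ I.1 := by
        intro I
        rw [Algebra.smul_def, Derivation.leibniz, smul_eq_mul, smul_eq_mul, Algebra.smul_def]
        ring
      simp only [h6] at h5
      rw [Finset.sum_add_distrib, h3, add_zero] at h5
      exact h5
    ext
    · exact hy0
    · rw [← hv1, TrivSqZeroExt.snd_sum, TrivSqZeroExt.snd_zero, ← h4]
      refine Finset.sum_congr rfl fun I _ => ?_
      rw [TrivSqZeroExt.snd_smul, φs]
  have hfinle : finrank L ↥(G ^ (8 * j₀)) ≤ finrank L ↥(W ^ (8 * j₀)) := by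
    rw [← hmap (8 * j₀)]
    refine (LinearEquiv.ofInjective ((TrivSqZeroExt.fstHom L M M).toLinearMap.comp
      (G ^ (8 * j₀)).subtype) ?_).finrank_eq.trans_le ?_
    · rw [← LinearMap.ker_eq_bot, LinearMap.ker_eq_bot']
      rintro ⟨y, hy⟩ hy0
      exact Subtype.ext (hinj y hy hy0)
    · rw [LinearMap.range_comp, Submodule.range_subtype]
  -- the spaces `A j`
  obtain ⟨A, hA⟩ : ∃ A : ℕ → Submodule k (DualNumber M),
    ∀ j, A j = Submodule.span k ((G ^ j : Submodule L (DualNumber M)) : Set (DualNumber M)) :=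
    ⟨_, fun _ => rfl⟩
  have hAmono : ∀ i j, i ≤ j → A i ≤ A j := by
    intro i j hij
    rw [hA, hA]
    exact Submodule.span_mono (pow_mono_one h1G hij)
  have hAmul : ∀ i j a b, a ∈ A i → b ∈ A j → a * b ∈ A (i + j) := by
    intro i j a b ha hb
    have h2 := Submodule.mul_mem_mul ha hb
    rw [hA, hA, Submodule.span_mul_span] at h2
    rw [hA]
    refine Submodule.span_mono ?_ h2
    rintro _ ⟨x, hx, y, hy, rfl⟩
    rw [pow_add]
    exact Submodule.mul_mem_mul hx hy
  have hAonto : ∀ j, j₀ ≤ j → ∀ u : M, ∃ a ∈ A j, a.fst = u := by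
    intro j hjj u
    have h2 : (A j₀).map (TrivSqZeroExt.fstHom k M M).toLinearMap = ⊤ := by
      rw [hA, Submodule.map_span, ← hj, ← hmap j₀]
      rfl
    have h3 : u ∈ (A j₀).map (TrivSqZeroExt.fstHom k M M).toLinearMap := by
      rw [h2]
      trivial
    obtain ⟨a, ha, rfl⟩ := h3
    exact ⟨a, hAmono _ _ hjj ha, rfl⟩
  have hm : 0 < finrank k M := finrank_pos
  -- the first case: the dual numbers are generated
  have hcase : ∀ c : M, TrivSqZeroExt.inr c ∈ A (2 * j₀) → c = 0 := by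
    intro c hc
    by_contra hc0
    have h2 : ∀ u : M, TrivSqZeroExt.inr u ∈ A (4 * j₀) := by
      intro u
      obtain ⟨a, ha, ha2⟩ := hAonto (2 * j₀) (by omega) (u / c)
      have h3 := hAmul _ _ _ _ ha hc
      rw [show 2 * j₀ + 2 * j₀ = 4 * j₀ by ring] at h3
      have h4 : a * TrivSqZeroExt.inr c = TrivSqZeroExt.inr u := by
        ext
        · simp
        · simp only [TrivSqZeroExt.snd_mul, ha2, TrivSqZeroExt.snd_inr, TrivSqZeroExt.fst_inr,
            smul_eq_mul, MulOpposite.op_zero, zero_smul, add_zero]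
          exact div_mul_cancel₀ u hc0
      rwa [h4] at h3
    have h3 : A (4 * j₀) = ⊤ := by
      rw [eq_top_iff]
      intro y _
      obtain ⟨a, ha, ha2⟩ := hAonto (4 * j₀) (by omega) y.fst
      have h4 : y = a + TrivSqZeroExt.inr (y.snd - a.snd) := by
        ext
        · simp [ha2]
        · simp
      rw [h4]
      exact Submodule.add_mem _ ha (h2 _)
    rw [hA] at h3
    have h4 := finrank_pow_ge_span (L := L) (k := k) hGfg hX hXG h1G
      (show 4 * j₀ ≤ 8 * j₀ by omega) h3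
    rw [finrank_dual] at h4
    have h5 : 8 * j₀ - 4 * j₀ + 1 = 4 * j₀ + 1 := by omega
    rw [h5] at h4
    nlinarith
  have hdown : ∀ y ∈ A (2 * j₀), y ∈ A j₀ := by
    intro y hy
    obtain ⟨a, ha, ha2⟩ := hAonto j₀ le_rfl y.fst
    have h2 : y - a ∈ A (2 * j₀) := Submodule.sub_mem _ hy (hAmono _ _ (by omega) ha)
    have h3 : y - a = TrivSqZeroExt.inr (y.snd - a.snd) := by
      ext
      · simp [ha2]
      · simp
    rw [h3] at h2
    have h4 := hcase _ h2
    rw [h4, TrivSqZeroExt.inr_zero, sub_eq_zero] at h3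
    rw [h3]
    exact ha
  -- the powers of the generic point
  have hz1 : φ (γ l) ∈ A j₀ := by
    refine hAmono 1 _ hj0 ?_
    rw [hA, pow_one]
    refine Submodule.subset_span ?_
    rw [SetLike.mem_coe, hG]
    exact Submodule.subset_span ⟨l, rfl⟩
  have hz : ∀ t : ℕ, φ (γ l) ^ t ∈ A j₀ := by
    intro t
    induction t with
    | zero =>
      rw [pow_zero, hA]
      exact Submodule.subset_span (one_mem_pow h1G _)
    | succ t ih =>
      rw [pow_succ]
      apply hdown
      rw [two_mul]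
      exact hAmul _ _ _ _ ih hz1
  have hint : IsIntegral k (γ l) := Algebra.IsIntegral.isIntegral _
  obtain ⟨p, hp⟩ : ∃ p, p = minpoly k (γ l) := ⟨_, rfl⟩
  have hp0 : aeval (γ l) p = 0 := by rw [hp, minpoly.aeval]
  have hpd : aeval (γ l) (derivative p) ≠ 0 := by
    have h2 : p.Separable := by
      rw [hp]
      exact (minpoly.irreducible hint).separable
    exact h2.aeval_derivative_ne_zero hp0
  have hpz : aeval (φ (γ l)) p ∈ A j₀ := by
    rw [aeval_eq_sum_range]
    exact Submodule.sum_mem _ fun t _ => Submodule.smul_mem _ _ (hz t)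
  have hdec : φ (γ l) = TrivSqZeroExt.inl (γ l) + TrivSqZeroExt.inr (D (γ l)) := by
    ext
    · rw [φf]; simp
    · rw [φs]; simp
  have hinl : ∀ q : k[X], aeval (TrivSqZeroExt.inl (γ l) : DualNumber M) q =
      TrivSqZeroExt.inl (aeval (γ l) q) := by
    intro q
    exact aeval_algHom_apply (TrivSqZeroExt.inlAlgHom k M M) (γ l) q
  have hexp : aeval (φ (γ l)) p = TrivSqZeroExt.inr (aeval (γ l) (derivative p) * D (γ l)) := by
    rw [hdec, aeval_add_of_sq_eq_zero _ _ _ (by rw [sq, TrivSqZeroExt.inr_mul_inr]), hinl, hinl,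
      hp0, TrivSqZeroExt.inl_zero, zero_add, TrivSqZeroExt.inl_mul_inr]
    rfl
  rw [hexp] at hpz
  have h2 := hcase _ (hAmono _ _ (by omega) hpz)
  exact (mul_eq_zero.1 h2).resolve_left hpd

end Main

section

variable {κ M : Type*} [Field κ] [Field M] [Algebra κ M] [Algebra κ[X] M]
  [IsScalarTower κ κ[X] M] [Algebra (RatFunc κ) M] [IsScalarTower κ[X] (RatFunc κ) M]

/-- **The conormal lemma**, on the function field `M` of the curve `A = 0` over `κ`. -/
theorem conormal_curveM [CharZero κ] [FiniteDimensional (RatFunc κ) M] {A : κ[X][X]} {Y : M}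
    (hev : ∀ G : κ[X][X], aeval Y G = 0 ↔ A ∣ G)
    (ht : Transcendental κ (algebraMap κ[X] M X))
    (halg : Algebra.IsAlgebraic (IntermediateField.adjoin κ {algebraMap κ[X] M X}) M)
    (hY : ¬ A ∣ derivative A) {n : ℕ} {B : Fin (n + 1) → κ[X][X]} {ξ₀ ξ₁ : Fin (n + 1) → κ}
    (r0 : A ∣ ∑ j, C (C (ξ₀ j)) * B j - derivative A)
    (r1 : A ∣ ∑ j, C (C (ξ₁ j)) * B j - C X * derivative A)
    {γ : Fin (n + 1) → M} (hγ : ∀ j, γ j * aeval Y (derivative A) = aeval Y (B j))
    {j₀ : ℕ} (hj0 : 1 ≤ j₀) (hgrow : Submodule.span (RatFunc κ) (Set.range γ) ^ j₀ = ⊤)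
    (hdim : finrank κ ↥(Submodule.span κ (Set.range γ) ^ (8 * j₀)) ≤
      8 * j₀ * finrank (RatFunc κ) M + finrank (RatFunc κ) M)
    {D : Derivation ℤ κ κ} (d0 : ∀ j, D (ξ₀ j) = 0) (d1 : ∀ j, D (ξ₁ j) = 0)
    (h : ∀ f ∈ VI A B (8 * j₀), (fun K => D (f K)) ∈ VI A B (8 * j₀)) (j : Fin (n + 1)) :
    A ∣ wr A D (B j) := by
  classical
  have hA : aeval Y A = 0 := (hev A).2 dvd_rfl
  have hω : aeval Y (derivative A) ≠ 0 := fun h0 => hY ((hev _).1 h0)
  obtain ⟨E, hE, hEX⟩ := exists_der_ext ht halg D 0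
  have t1 : IsScalarTower κ (RatFunc κ) M := MP_44a246_ntSP.tower_ratFunc
  have hXM : algebraMap (RatFunc κ) M RatFunc.X = algebraMap κ[X] M X := by
    rw [← RatFunc.algebraMap_X, ← IsScalarTower.algebraMap_apply κ[X] (RatFunc κ) M]
  have hCC : ∀ c : κ, (aeval Y) (C (C c) : κ[X][X]) = algebraMap κ M c := by
    intro c
    rw [aeval_C, IsScalarTower.algebraMap_apply κ κ[X] M]
    rfl
  have hlin : ∀ (ξ : Fin (n + 1) → κ) (R : κ[X][X]), A ∣ ∑ j, C (C (ξ j)) * B j - R →
      (∑ j, ξ j • γ j) * aeval Y (derivative A) = aeval Y R := by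
    intro ξ R hR
    have h1 := (hev _).2 hR
    rw [map_sub, sub_eq_zero, map_sum] at h1
    rw [← h1, Finset.sum_mul]
    refine Finset.sum_congr rfl fun j _ => ?_
    rw [map_mul, hCC, ← hγ j, Algebra.smul_def, mul_assoc]
  have h0 : ∑ j, ξ₀ j • γ j = 1 := by
    have h1 := hlin ξ₀ _ r0
    exact mul_right_cancel₀ hω (by rw [h1, one_mul])
  have h1 : ∑ j, ξ₁ j • γ j = algebraMap (RatFunc κ) M RatFunc.X := by
    have h1 := hlin ξ₁ _ r1
    refine mul_right_cancel₀ hω ?_
    rw [h1, hXM, map_mul, aeval_C]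
  have htR : Transcendental κ (RatFunc.X : RatFunc κ) := by
    intro halg'
    apply ht
    rw [← hXM]
    exact halg'.algebraMap
  have hspan : Submodule.span (RatFunc κ)
      ((Submodule.span κ (Set.range γ) ^ j₀ : Submodule κ M) : Set M) = ⊤ := by
    rw [← hgrow, Submodule.span_pow, Submodule.span_pow, Submodule.span_span_of_tower]
  have key : ∀ f : EX (n + 1) (8 * j₀) → κ, f ∈ VI A B (8 * j₀) ↔ ∑ K, f K • mon γ K.1 = 0 := by
    intro f
    rw [mem_VI, ← hev, aeval_form hγ, mul_eq_zero, or_iff_right (pow_ne_zero _ hω)]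
  have hD := conormalM (L := κ) (k := RatFunc κ) (D := E) htR h0 h1
    (fun j => by rw [hE, d0, map_zero]) (fun j => by rw [hE, d1, map_zero])
    (by rw [hXM]; exact hEX) hj0 hspan hdim (fun v hv => by
      have h2 := (key _).1 (h v ((key v).2 hv))
      rw [← h2]
      refine Finset.sum_congr rfl fun K _ => ?_
      rw [hE, Algebra.smul_def]) j
  rw [← hev, aeval_wr hA hE hEX (hγ j), hD, mul_zero]

/-- The form in which the conormal lemma is used: a deformation of the equations which moves the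
curve does not preserve the forms of degree `8 j₀` which vanish on the curve. -/
theorem hcon_curveM [CharZero κ] [FiniteDimensional (RatFunc κ) M] {A : κ[X][X]} {Y : M}
    (hev : ∀ G : κ[X][X], aeval Y G = 0 ↔ A ∣ G)
    (ht : Transcendental κ (algebraMap κ[X] M X))
    (halg : Algebra.IsAlgebraic (IntermediateField.adjoin κ {algebraMap κ[X] M X}) M)
    (hY : ¬ A ∣ derivative A) {n : ℕ} {B : Fin (n + 1) → κ[X][X]} {ξ₀ ξ₁ : Fin (n + 1) → κ}
    (r0 : A ∣ ∑ j, C (C (ξ₀ j)) * B j - derivative A)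
    (r1 : A ∣ ∑ j, C (C (ξ₁ j)) * B j - C X * derivative A)
    {γ : Fin (n + 1) → M} (hγ : ∀ j, γ j * aeval Y (derivative A) = aeval Y (B j))
    {j₀ : ℕ} (hj0 : 1 ≤ j₀) (hgrow : Submodule.span (RatFunc κ) (Set.range γ) ^ j₀ = ⊤)
    (hdim : finrank κ ↥(Submodule.span κ (Set.range γ) ^ (8 * j₀)) ≤
      8 * j₀ * finrank (RatFunc κ) M + finrank (RatFunc κ) M)
    {T : Type*} [Fintype T] {D : T → Derivation ℤ κ κ} (d0 : ∀ t j, D t (ξ₀ j) = 0)
    (d1 : ∀ t j, D t (ξ₁ j) = 0) {F : T → κ} (hF : F ∉ ZF A B D) :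
    ∃ f ∈ VI A B (8 * j₀), (fun K => dF D F (f K)) ∉ VI A B (8 * j₀) := by
  by_contra hcon
  push Not at hcon
  apply hF
  rw [mem_ZF]
  have h0 : ∀ j, dF D F (ξ₀ j) = 0 := by
    intro j
    rw [dF_apply]
    exact Finset.sum_eq_zero fun t _ => by rw [d0, mul_zero]
  have h1 : ∀ j, dF D F (ξ₁ j) = 0 := by
    intro j
    rw [dF_apply]
    exact Finset.sum_eq_zero fun t _ => by rw [d1, mul_zero]
  exact fun j => conormal_curveM hev ht halg hY r0 r1 hγ hj0 hgrow hdim h0 h1 hcon j

end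

end Pool.Agent.Lib.MP_44a246_ntTK
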