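import Mathlib
import Pool.Agent.Lib.MP_44a246_ntTK.TK02

/-!
The conjugates of the curve `A` over the field generated by its coefficients.
-/

namespace Pool.Agent.Lib.MP_44a246_ntTK

open Pool.Agent.Lib.MP_e52354_nt
open Pool.Agent.Lib.MP_44a246_nt
open Pool.Agent.Lib.MP_44a246_ntL
open Pool.Agent.Lib.MP_44a246_ntS
open Pool.Agent.Lib.MP_44a246_ntF
open Pool.Agent.Lib.MP_44a246_ntO
open Pool.Agent.Lib.MP_44a246_ntW
open Pool.Agent.Lib.MP_44a246_ntE
open Pool.Agent.Lib.MP_44a246_ntG
open Pool.Agent.Lib.MP_44a246_ntSH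
open Pool.Agent.Lib.MP_44a246_ntSP
open WithZero Polynomial Module

/-- the field generated by the coefficients -/
noncomputable def cfield (K : Type*) {L : Type*} [Field K] [Field L] [Algebra K L] (A : L[X][X]) :
    IntermediateField K L :=
  IntermediateField.adjoin K {c | ∃ i j, c = (A.coeff i).coeff j}

section conj

variable {K L F : Type*} [Field K] [Field L] [Field F]

/-- a homomorphism applied to the coefficients -/
private noncomputable def sm {R F : Type*} [CommRing R] [CommRing F] (σ : R →+* F) :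
    R[X][X] →+* F[X][X] := mapRingHom (mapRingHom σ)

private theorem sm_coeff {R F : Type*} [CommRing R] [CommRing F] (σ : R →+* F) (P : R[X][X])
    (i j : ℕ) : ((sm σ P).coeff i).coeff j = σ ((P.coeff i).coeff j) := by
  unfold sm
  rw [coe_mapRingHom, coeff_map, coe_mapRingHom, coeff_map]

private theorem fn_mp'' [Algebra L F] {φ : F →ₗ[L] L} (hφ : φ 1 = 1) (A : L[X][X]) :
    fn φ (mp L F A) = A := by
  ext i j
  rw [fn_coeff, mp_coeff, Algebra.algebraMap_eq_smul_one, map_smul, hφ, smul_eq_mul, mul_one]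

private theorem exists_fn'' (L F : Type*) [Field L] [Field F] [Algebra L F] :
    ∃ φ : F →ₗ[L] L, φ 1 = 1 := by
  have h1 : ¬ ∀ φ : Module.Dual L F, φ 1 = 0 := by
    rw [Module.forall_dual_apply_eq_zero_iff]
    exact one_ne_zero
  push Not at h1
  obtain ⟨φ, hφ⟩ := h1
  refine ⟨(φ 1)⁻¹ • φ, ?_⟩
  rw [LinearMap.smul_apply, smul_eq_mul, inv_mul_cancel₀ hφ]

private theorem sm_monic (σ : L →+* F) {A : L[X][X]} (hA : A.Monic) : (sm σ A).Monic :=
  hA.map _

private theorem sm_natDegree (σ : L →+* F) (A : L[X][X]) :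
    (sm σ A).natDegree = A.natDegree :=
  natDegree_map_eq_of_injective (Polynomial.map_injective σ σ.injective) A

end conj

theorem finrank_cfield_mul_le {K L : Type*} [Field K] [CharZero K] [Field L] [CharZero L]
    [Algebra K L] [FiniteDimensional K L] {A : L[X][X]} (hA : A.Monic)
    (hirr : Irreducible (mp L (AlgebraicClosure L) A)) {P : K[X][X]} (hP : P ≠ 0)
    (hAP : A ∣ mp K L P) :
    finrank K (cfield K A) * A.natDegree ≤ P.natDegree := by
  classical
  set F := AlgebraicClosure L with hF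
  set L₁ := cfield K A with hL₁
  obtain ⟨φ, hφ⟩ := exists_fn'' L₁ L
  set A₁ : L₁[X][X] := fn φ A with hA₁
  have hmem : ∀ i j, (A.coeff i).coeff j ∈ L₁ := fun i j =>
    IntermediateField.subset_adjoin K _ ⟨i, j, rfl⟩
  have hc : ∀ i j, (A₁.coeff i).coeff j = (⟨(A.coeff i).coeff j, hmem i j⟩ : L₁) := by
    intro i j
    have h1 : (A.coeff i).coeff j = algebraMap L₁ L ⟨(A.coeff i).coeff j, hmem i j⟩ := rfl
    rw [hA₁, fn_coeff]
    conv_lhs => rw [h1]
    rw [Algebra.algebraMap_eq_smul_one, map_smul, hφ, smul_eq_mul, mul_one]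
  have hAA : mp L₁ L A₁ = A := by
    ext i j
    rw [mp_coeff, hc]
    rfl
  have hA₁m : A₁.Monic := by
    have h1 : (mp L₁ L A₁).Monic := by rw [hAA]; exact hA
    exact Polynomial.monic_of_injective
      (Polynomial.map_injective (algebraMap L₁ L) (algebraMap L₁ L).injective) h1
  have hdeg : A₁.natDegree = A.natDegree := by
    conv_rhs => rw [← hAA]
    exact (sm_natDegree (algebraMap L₁ L) A₁).symm
  have hdvd : A₁ ∣ mp K L₁ P := by
    have h1 : mp L₁ L (mp K L₁ P) = mp K L P := by
      ext i j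
      rw [mp_coeff, mp_coeff, mp_coeff]
      rfl
    have h2 : mp L₁ L A₁ ∣ mp L₁ L (mp K L₁ P) := by rw [hAA, h1]; exact hAP
    have h3 := dvd_fn φ h2
    rwa [fn_mp'' hφ] at h3
  have halg : Algebra.IsAlgebraic K F := Algebra.IsAlgebraic.trans K L F
  have hcl : IsAlgClosure K F := ⟨inferInstance, halg⟩
  have hnorm : Normal K F := IsAlgClosure.normal K F
  -- the conjugates
  set B : (L₁ →ₐ[K] F) → F[X][X] := fun σ => sm (σ : L₁ →+* F) A₁ with hB
  have hBm : ∀ σ, (B σ).Monic := fun σ => sm_monic _ hA₁m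
  have hBd : ∀ σ, (B σ).natDegree = A.natDegree := fun σ => by
    rw [← hdeg]
    exact sm_natDegree _ A₁
  have hBdvd : ∀ σ, B σ ∣ mp K F P := by
    intro σ
    have h1 : sm (σ : L₁ →+* F) (mp K L₁ P) = mp K F P := by
      ext i j
      rw [sm_coeff, mp_coeff, mp_coeff]
      exact σ.commutes _
    rw [← h1]
    exact _root_.map_dvd _ hdvd
  have hBirr : ∀ σ, Irreducible (B σ) := by
    intro σ
    set τ₀ : F →ₐ[K] F := σ.liftNormal F with hτ₀
    have hτ₀c : ∀ x : L₁, τ₀ (algebraMap L₁ F x) = σ x := fun x => by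
      rw [hτ₀, AlgHom.liftNormal_commutes]
      rfl
    set τ : F ≃ₐ[K] F := AlgEquiv.ofBijective τ₀ (Algebra.IsAlgebraic.algHom_bijective τ₀) with hτ
    have h1 : B σ = mapEquiv (mapEquiv τ.toRingEquiv) (mp L F A) := by
      ext i j
      rw [mapEquiv_apply, coeff_map]
      change _ = (mapEquiv τ.toRingEquiv ((mp L F A).coeff i)).coeff j
      rw [mapEquiv_apply, coeff_map, mp_coeff, hB]
      simp only []
      rw [sm_coeff, hc]
      exact (hτ₀c ⟨(A.coeff i).coeff j, hmem i j⟩).symm
    rw [h1]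
    exact (MulEquiv.irreducible_iff (mapEquiv (mapEquiv τ.toRingEquiv))).mpr hirr
  have hBinj : Function.Injective B := by
    intro σ σ' h
    have hS : L₁ = IntermediateField.adjoin K {c | ∃ i j, c = (A.coeff i).coeff j} := rfl
    refine IntermediateField.algHom_ext_of_eq_adjoin K hS ?_
    rintro x ⟨i, j, rfl⟩
    have h1 := congrArg (fun G : F[X][X] => (G.coeff i).coeff j) h
    simp only [hB, sm_coeff, hc] at h1
    exact h1
  have hprod : ∏ σ, B σ ∣ mp K F P := by
    refine Finset.prod_dvd_of_isRelPrime ?_ fun σ _ => hBdvd σ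
    intro σ _ σ' _ hne
    show IsRelPrime (B σ) (B σ')
    rw [(hBirr σ).isRelPrime_iff_not_dvd]
    intro h
    have h1 := (hBirr σ).associated_of_dvd (hBirr σ') h
    exact hne (hBinj (eq_of_monic_of_associated (hBm σ) (hBm σ') h1))
  have hne : mp K F P ≠ 0 := by
    intro h
    have : mp K F P = mp K F 0 := by rw [h, map_zero]
    exact hP (mp_injective this)
  have h1 := natDegree_le_of_dvd hprod hne
  have h2 : (∏ σ, B σ).natDegree = finrank K L₁ * A.natDegree := by
    rw [natDegree_prod_of_monic _ _ fun σ _ => hBm σ, Finset.sum_congr rfl fun σ _ => hBd σ,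
      Finset.sum_const, Finset.card_univ, AlgHom.card K L₁ F, smul_eq_mul]
  have h3 : (mp K F P).natDegree = P.natDegree := sm_natDegree (algebraMap K F) P
  rw [h2, h3] at h1
  exact h1

end Pool.Agent.Lib.MP_44a246_ntTK
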