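import Mathlib
import Pool.Agent.Lib.MP_44a246_ntTK.TK03
import Pool.Agent.Lib.MP_44a246_ntTK.TK04a

/-!
Section 4 over the base field `K`: the upper bound for the codimension of the forms over `K` which
vanish on the curve.
-/

namespace Pool.Agent.Lib.MP_44a246_ntTK

open Pool.Agent.Lib.MP_e52354_nt
open Pool.Agent.Lib.MP_44a246_nt
open Pool.Agent.Lib.MP_44a246_ntL
open Pool.Agent.Lib.MP_44a246_ntS
open Pool.Agent.Lib.MP_44a246_ntF
open Pool.Agent.Lib.MP_44a246_ntO
open Pool.Agent.Lib.MP_44a246_ntW
open Pool.Agent.Lib.MP_44a246_ntE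
open Pool.Agent.Lib.MP_44a246_ntG
open Pool.Agent.Lib.MP_44a246_ntSH
open Pool.Agent.Lib.MP_44a246_ntSP
open WithZero Polynomial Module

section field

variable {K L : Type*} [Field K] [Field L] [Algebra K L]

/-- a polynomial whose coefficients are in a subfield -/
theorem exists_mp_eq {A : L[X][X]}
    (h : ∀ i j, (A.coeff i).coeff j ∈ Set.range (algebraMap K L)) : ∃ A₁, mp K L A₁ = A := by
  obtain ⟨φ, hφ⟩ : ∃ φ : L →ₗ[K] K, φ 1 = 1 := by
    have hinj : LinearMap.ker (Algebra.linearMap K L) = ⊥ := by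
      rw [LinearMap.ker_eq_bot]
      exact (algebraMap K L).injective
    obtain ⟨g, hg⟩ := LinearMap.exists_leftInverse_of_injective (Algebra.linearMap K L) hinj
    refine ⟨g, ?_⟩
    have := LinearMap.congr_fun hg 1
    simpa using this
  refine ⟨fn φ A, ?_⟩
  ext i j
  rw [mp_coeff, fn_coeff]
  obtain ⟨l, hl⟩ := h i j
  have h1 : φ (algebraMap K L l) = l := by
    rw [Algebra.algebraMap_eq_smul_one, map_smul, hφ, smul_eq_mul, mul_one]
  rw [← hl, h1]

/-- the curve over the field generated by its coefficients -/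
theorem exists_mp_cfield (A : L[X][X]) : ∃ A₁, mp (cfield K A) L A₁ = A := by
  refine exists_mp_eq fun i j => ?_
  exact ⟨⟨(A.coeff i).coeff j, IntermediateField.subset_adjoin K _ ⟨i, j, rfl⟩⟩, rfl⟩

/-- the extension of a derivation to an algebraic extension is unique -/
theorem der_unique {L₁ : Type*} [CharZero K] [Field L₁] [Algebra K L₁] [Algebra L₁ L]
    [IsScalarTower K L₁ L] [Algebra.IsAlgebraic K L₁] {D : Derivation ℤ K K}
    {D₁ : Derivation ℤ L₁ L₁} {D' : Derivation ℤ L L}
    (h₁ : ∀ y : K, D₁ (algebraMap K L₁ y) = algebraMap K L₁ (D y))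
    (h' : ∀ y : K, D' (algebraMap K L y) = algebraMap K L (D y)) (y : L₁) :
    D' (algebraMap L₁ L y) = algebraMap L₁ L (D₁ y) := by
  have hu : Algebra.FormallyUnramified K L₁ := Algebra.FormallyUnramified.of_isSeparable K L₁
  obtain ⟨d, hd⟩ : ∃ d : Derivation ℤ L₁ L, ∀ z, d z =
      D' (algebraMap L₁ L z) - algebraMap L₁ L (D₁ z) :=
    ⟨D'.compAlgebraMap L₁ - (Algebra.linearMap L₁ L).compDer D₁, fun z => rfl⟩
  have hd0 : ∀ z : K, d (algebraMap K L₁ z) = 0 := by
    intro z
    rw [hd, h₁, ← IsScalarTower.algebraMap_apply, ← IsScalarTower.algebraMap_apply, h', sub_self]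
  let d₁ : Derivation K L₁ L := Derivation.mk'
    { toFun := d
      map_add' := map_add d
      map_smul' := fun c z => by
        rw [Algebra.smul_def, Derivation.leibniz, hd0, smul_zero, add_zero, algebraMap_smul]
        rfl }
    (fun a b => Derivation.leibniz d a b)
  have h2 : d₁ y = 0 := by
    rw [← d₁.liftKaehlerDifferential_comp_D y,
      Subsingleton.elim (KaehlerDifferential.D K L₁ y) 0, map_zero]
  have h3 : d y = 0 := h2
  rw [hd, sub_eq_zero] at h3
  exact h3

end field

section Main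

variable {κ K L : Type*} [Field κ] [Field K] [CharZero K] [Field L] [CharZero L] [Algebra κ K]
  [Algebra K L] [Algebra κ L] [FiniteDimensional K L]

/-- **The codimension of the forms over `K` which vanish on the curve.** -/
theorem codim_VI_K {n d₀ b : ℕ} {X : DatG κ (L := L) n d₀} {A : L[X][X]} (hA : CrvE X b A)
    (hmon : A.Monic) {E : Fin (n + 1) → Derivation ℤ K K} {P : K[X][X]} (hP : CrvK X A E P)
    (hcod : ∀ e, Fintype.card (EX (n + 1) e) ≤
      finrank L (VI A (X.B A) e) + (e * A.natDegree + 1)) (e : ℕ) :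
    Fintype.card (EX (n + 1) e) ≤ finrank K (VI P (BK E P) e) + (e + 1) * P.natDegree := by
  classical
  obtain ⟨A₁, hA₁⟩ := exists_mp_cfield (K := K) A
  choose E₁ hE₁ using fun j => exists_extension (L := cfield K A) (E j)
  have hE : ∀ j (y : cfield K A), X.E j (algebraMap (cfield K A) L y) =
      algebraMap (cfield K A) L (E₁ j y) := fun j y => der_unique (hE₁ j) (hP.hE j) y
  have hB : (fun j => mp (cfield K A) L (-cd (E₁ j) A₁)) = X.B A := by
    funext j
    rw [map_neg]
    unfold DatG.B
    congr 1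
    rw [cd_eq_cq, cd_eq_cq, ← cqd_apply, ← cqd_apply, ← cqd_mp (hE j), hA₁]
  have hV : bc L (VI A₁ (fun j => -cd (E₁ j) A₁) e) = VI A (X.B A) e := by
    rw [← VI_mp, hA₁, hB]
  have h1 := hcod e
  rw [← hV, finrank_bc] at h1
  have h2 := codim_am (K := K) (W := VI P (BK E P) e) (fun c hc => ?_) h1
  · have h3 := finrank_cfield_mul_le (K := K) hmon (irreducible_mp hA.irr hA.zero hA.der)
      hP.irr.ne_zero ((hP.dvd P).2 dvd_rfl)
    have h4 : 1 ≤ A.natDegree := Nat.one_le_iff_ne_zero.2 hA.deg
    have h5 : finrank K (cfield K A) * (e * A.natDegree + 1) ≤ (e + 1) * P.natDegree := by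
      calc finrank K (cfield K A) * (e * A.natDegree + 1) =
          e * (finrank K (cfield K A) * A.natDegree) + finrank K (cfield K A) * 1 := by ring
        _ ≤ e * P.natDegree + finrank K (cfield K A) * A.natDegree :=
          add_le_add (Nat.mul_le_mul_left _ h3) (Nat.mul_le_mul_left _ h4)
        _ ≤ e * P.natDegree + P.natDegree := add_le_add le_rfl h3
        _ = (e + 1) * P.natDegree := by ring
    omega
  · rw [hP.mem_VI hA.irr.prime, ← hV]
    have h3 : am L c = fun k => algebraMap (cfield K A) L (am (cfield K A) c k) := by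
      funext k
      exact IsScalarTower.algebraMap_apply K (cfield K A) L (c k)
    rw [h3, am_mem_bc_iff]
    exact hc

end Main

end Pool.Agent.Lib.MP_44a246_ntTK
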