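import Mathlib
import Pool.Agent.Lib.MP_44a246_ntTK.TK02
import Pool.Agent.Lib.MP_44a246_ntSH.CV03

/-!
Section 4 over the base field `K`: the growth of the powers of the space of functions over `K`.
-/

namespace Pool.Agent.Lib.MP_44a246_ntTK

open Pool.Agent.Lib.MP_e52354_nt
open Pool.Agent.Lib.MP_44a246_nt
open Pool.Agent.Lib.MP_44a246_ntL
open Pool.Agent.Lib.MP_44a246_ntR
open Pool.Agent.Lib.MP_44a246_ntS
open Pool.Agent.Lib.MP_44a246_ntF
open Pool.Agent.Lib.MP_44a246_ntO
open Pool.Agent.Lib.MP_44a246_ntW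
open Pool.Agent.Lib.MP_44a246_ntE
open Pool.Agent.Lib.MP_44a246_ntG
open Pool.Agent.Lib.MP_44a246_ntSH
open Pool.Agent.Lib.MP_44a246_ntSP
open WithZero Polynomial Module

universe u v

/-- the number of elements in a set of generators -/
private theorem tk_extend {κ L : Type*} [Field κ] [Field L] [Algebra κ L] {W : Submodule κ L}
    [FiniteDimensional κ W] (h1 : (1 : L) ∈ W) {x : L} (hx : x ∈ W)
    (hx1 : (1 : L) ∉ Submodule.span κ {x}) (hx0 : x ≠ 0) {s : ℕ} (hs : finrank κ W = s + 2) :
    ∃ g : Fin s → L, (∀ i, g i ∈ W) ∧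
      LinearIndependent κ (Fin.cons 1 (Fin.cons x g) : Fin (s + 2) → L) := by
  classical
  have hs0 : LinearIndepOn κ id ({1, x} : Set L) := by
    refine LinearIndepOn.id_insert ?_ hx1
    rw [linearIndepOn_singleton_iff]
    exact hx0
  obtain ⟨B, hBW, hsB, hWB, hB⟩ := exists_linearIndepOn_id_extension (t := (W : Set L)) hs0 (by
    intro y hy
    rcases hy with rfl | hy
    · exact h1
    · rw [Set.mem_singleton_iff.1 hy]
      exact hx)
  have h1B : (1 : L) ∈ B := hsB (Set.mem_insert _ _)
  have hxB : x ∈ B := hsB (Set.mem_insert_of_mem _ (Set.mem_singleton _))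
  have hne : (1 : L) ≠ x := by
    rintro rfl
    exact hx1 (Submodule.mem_span_singleton_self _)
  have hspB : Submodule.span κ B = W :=
    le_antisymm (Submodule.span_le.2 hBW) hWB
  have hBf : B.Finite := by
    have h2 : LinearIndependent κ (fun y : B => (⟨(y : L), hBW y.2⟩ : W)) := by
      apply LinearIndependent.of_comp W.subtype
      exact hB
    exact Set.finite_coe_iff.1 h2.finite
  have : Fintype B := hBf.fintype
  have hcard : B.toFinset.card = s + 2 := by
    rw [← finrank_span_set_eq_card hB, hspB, hs]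
  have hcard2 : ((B.toFinset.erase 1).erase x).card = s := by
    rw [Finset.card_erase_of_mem, Finset.card_erase_of_mem, hcard]
    · rfl
    · rw [Set.mem_toFinset]
      exact h1B
    · rw [Finset.mem_erase, Set.mem_toFinset]
      exact ⟨Ne.symm hne, hxB⟩
  let e := (((B.toFinset.erase 1).erase x).equivFinOfCardEq hcard2).symm
  have he : ∀ i, ((e i : L) ∈ B ∧ (e i : L) ≠ 1) ∧ (e i : L) ≠ x := by
    intro i
    have h2 := (e i).2
    rw [Finset.mem_erase, Finset.mem_erase, Set.mem_toFinset] at h2
    exact ⟨⟨h2.2.2, h2.2.1⟩, h2.1⟩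
  refine ⟨fun i => (e i : L), fun i => hBW (he i).1.1, ?_⟩
  obtain ⟨σ, hσ⟩ : ∃ σ : Fin (s + 2) → B, σ =
      Fin.cons ⟨1, h1B⟩ (Fin.cons ⟨x, hxB⟩ (fun i => ⟨(e i : L), (he i).1.1⟩)) := ⟨_, rfl⟩
  have hσi : Function.Injective σ := by
    rw [hσ, Fin.cons_injective_iff, Fin.cons_injective_iff]
    refine ⟨?_, ?_, ?_⟩
    · rintro ⟨i, hi⟩
      revert hi
      refine Fin.cases ?_ (fun i => ?_) i
      · intro hi
        exact hne (congrArg (fun y : B => (y : L)) hi).symm
      · intro hi
        exact (he i).1.2 (congrArg (fun y : B => (y : L)) hi)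
    · rintro ⟨i, hi⟩
      exact (he i).2 (congrArg (fun y : B => (y : L)) hi)
    · intro i i' hii
      apply e.injective
      exact Subtype.ext (congrArg (fun y : B => (y : L)) hii)
  have h3 := hB.comp σ hσi
  have h4 : (Subtype.val ∘ σ : Fin (s + 2) → L) = Fin.cons 1 (Fin.cons x fun i => (e i : L)) := by
    funext i
    rw [hσ]
    refine Fin.cases rfl (fun i => ?_) i
    exact Fin.cases rfl (fun i => rfl) i
  rw [← h4]
  exact h3

/-- the dimension over `κ (X)` of the span of a space of functions with small poles -/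
private theorem span_ge {κ L : Type*} [Field κ] [IsAlgClosed κ] [CharZero κ] [Field L]
    [Algebra κ L] [Algebra (RatFunc κ) L] [IsScalarTower κ (RatFunc κ) L]
    [FiniteDimensional (RatFunc κ) L] {P : Place κ L →₀ ℤ} (hP : IsPole P)
    {W : Submodule κ L} [FiniteDimensional κ W] (h1 : (1 : L) ∈ W) (hX : tL κ L ∈ W)
    (hW : W ≤ rr P) {s : ℕ} (hs : finrank κ W = s + 1) :
    s ≤ finrank (RatFunc κ) (Submodule.span (RatFunc κ) (W : Set L)) := by
  classical
  rcases Nat.eq_zero_or_pos s with rfl | hpos
  · exact Nat.zero_le _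
  obtain ⟨s', rfl⟩ : ∃ s', s = s' + 1 := ⟨s - 1, by omega⟩
  have htr : Transcendental κ (tL κ L) := transcendental_tL
  have ht0 : tL κ L ≠ 0 := by
    intro h
    exact htr (h ▸ isAlgebraic_zero)
  have ht1 : (1 : L) ∉ Submodule.span κ {tL κ L} := by
    intro h
    obtain ⟨c, hc⟩ := Submodule.mem_span_singleton.1 h
    have hc0 : c ≠ 0 := by
      rintro rfl
      rw [zero_smul] at hc
      exact zero_ne_one hc
    apply htr
    have h2 : tL κ L = algebraMap κ L c⁻¹ := by
      rw [Algebra.smul_def] at hc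
      rw [map_inv₀]
      exact eq_inv_of_mul_eq_one_right hc
    rw [h2]
    exact isAlgebraic_algebraMap _
  obtain ⟨g, hg, hgi⟩ := tk_extend h1 hX ht1 ht0 (s := s') hs
  have hind := indep_over hP (fun i => hW (hg i)) hgi
  have h2 : LinearIndependent (RatFunc κ) (fun i : Fin (s' + 1) =>
      (⟨(Fin.cons 1 g : Fin (s' + 1) → L) i, by
        refine Submodule.subset_span ?_
        refine Fin.cases ?_ (fun i => ?_) i
        · exact h1
        · exact hg i⟩ : Submodule.span (RatFunc κ) (W : Set L))) := by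
    apply LinearIndependent.of_comp (Submodule.subtype _)
    exact hind
  have h3 := h2.fintype_card_le_finrank
  rwa [Fintype.card_fin] at h3

/-- The numerators which generate the others over the rational functions are at least `N` in
number. -/
private theorem le_of_rel {κ : Type v} {L : Type u} [Field κ] [Field L] [CharZero L]
    [Algebra κ L] {R d₀ b : ℕ} {Z : DatG κ (L := L) (R + 2) d₀} {A : L[X][X]}
    (hA : CrvN Z b A) {N : ℕ} (hN : N + 1 + finrank L (dvS A (Z.B A)) ≤ R + 3)
    {r : ℕ} (J : Fin r → Fin (R + 3))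
    (h : ∀ k, ∃ q : L[X], q ≠ 0 ∧ ∃ p : Fin r → L[X],
      A ∣ C q * Z.B A k - ∑ i, C (p i) * Z.B A (J i)) : N ≤ r := by
  classical
  set F := AlgebraicClosure L with hFd
  have hchar : CharZero F := charZero_of_injective_algebraMap (algebraMap L F).injective
  obtain ⟨f, hfd⟩ : ∃ f : F[X][X], f = mp L F A := ⟨_, rfl⟩
  have hf : Irreducible f := by rw [hfd]; exact irreducible_mp hA.irr hA.zero hA.der
  have hnd : ∀ G : L[X][X], (mp L F G).natDegree = G.natDegree := by
    intro G
    unfold mp
    rw [coe_mapRingHom]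
    refine natDegree_map_eq_of_injective ?_ G
    rw [coe_mapRingHom]
    exact map_injective _ (algebraMap L F).injective
  have hfdeg : f.natDegree = A.natDegree := by rw [hfd, hnd]
  have hA0 : A.natDegree ≠ 0 := hA.deg
  have hfY : ¬ f ∣ derivative f := by
    intro h
    have h1 : derivative f ≠ 0 := by
      intro h2
      have h3 : mp L F (derivative A) = 0 := by rw [← mp_derivative', ← hfd, h2]
      have h4 : derivative A = 0 := mp_injective (by rw [h3, map_zero])
      have h5 := hA.der
      rw [h4, evalEval_zero] at h5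
      exact h5 rfl
    have h2 := natDegree_le_of_dvd h h1
    have h3 := natDegree_derivative_lt (p := f) (by omega)
    omega
  refine with_curve hf (by omega) ?_
  intro M i1 i2 i3 i4 i5 i6 i7 i8 i9 Y hker hgen hfr htr halg
  have hIs : IsScalarTower F (RatFunc F) M := by
    refine IsScalarTower.of_algebraMap_eq fun u => ?_
    rw [IsScalarTower.algebraMap_apply F F[X] M, IsScalarTower.algebraMap_apply F F[X] (RatFunc F),
      ← IsScalarTower.algebraMap_apply F[X] (RatFunc F) M]
  obtain ⟨X', hX'⟩ : ∃ X' : M, X' = algebraMap F[X] M X := ⟨_, rfl⟩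
  have hψ : ∀ G : F[X][X], ev (algebraMap F M) X' Y G = 0 ↔ f ∣ G := by
    intro G
    rw [hX', ev_aeval]
    exact hker G
  have hω : ev (algebraMap F M) X' Y (derivative f) ≠ 0 := fun h => hfY ((hψ _).1 h)
  -- the functions
  obtain ⟨γ, hγd⟩ : ∃ γ : Fin (R + 3) → M, γ = fun j =>
      ev (algebraMap F M) X' Y (mp L F (Z.B A j)) /
        ev (algebraMap F M) X' Y (derivative f) := ⟨_, rfl⟩
  have hγ : ∀ j, ev (algebraMap F M) X' Y (mp L F (Z.B A j)) =
      ev (algebraMap F M) X' Y (derivative f) * γ j := by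
    intro j
    rw [hγd]
    field_simp
  have hmax : ∀ (w : Place F M) j, w.1 (γ j) ≤ max 1 (w.1 X') := by
    intro w j
    rw [hγd]
    have e1 : derivative f = mp L F (derivative A) := by rw [hfd, mp_derivative']
    simp only [e1, ev_mp]
    refine hA.val_le ((algebraMap F M).comp (algebraMap L F)) ?_ ?_ w.1 ?_ j
    · rw [← ev_mp, ← hfd]
      exact (hψ f).2 dvd_rfl
    · rw [← ev_mp, ← e1]
      exact hω
    · intro a
      rw [RingHom.comp_apply]
      by_cases ha : algebraMap L F a = 0
      · rw [ha, map_zero, map_zero]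
        exact zero_le
      · exact (w.2.2 _ ha).le
  have hdv : finrank F (dvS f (fun j => mp L F (Z.B A j))) = finrank L (dvS A (Z.B A)) := by
    rw [hfd, dvS_mp, finrank_bc]
  have hspan := finrank_dvS_add hψ hfY hγ
  rw [hdv] at hspan
  have hNs : N + 1 ≤ finrank F (Submodule.span F (Set.range γ)) := by omega
  -- the relations
  have hrel : ∀ (q : Fin (R + 3) → L) (S : L[X][X]),
      A ∣ ∑ j, C (C (q j)) * Z.B A j - S * derivative A →
      ∑ j, algebraMap F M (algebraMap L F (q j)) * γ j =
        ev (algebraMap F M) X' Y (mp L F S) := by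
    intro q S hS
    have h1 : f ∣ mp L F (∑ j, C (C (q j)) * Z.B A j - S * derivative A) := by
      rw [hfd]
      exact _root_.map_dvd (mp L F) hS
    rw [← hψ, map_sub, map_mul, mp_lin, ← mp_derivative', ← hfd, map_sub, map_mul, map_sum,
      sub_eq_zero] at h1
    have h2 : ∑ j, ev (algebraMap F M) X' Y (C (C (algebraMap L F (q j))) * mp L F (Z.B A j)) =
        ev (algebraMap F M) X' Y (derivative f) *
          ∑ j, algebraMap F M (algebraMap L F (q j)) * γ j := by
      rw [Finset.mul_sum]
      refine Finset.sum_congr rfl fun j _ => ?_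
      rw [map_mul, ev_C_C, hγ]
      ring
    rw [h2, mul_comm (ev (algebraMap F M) X' Y (mp L F S))] at h1
    exact mul_left_cancel₀ hω h1
  obtain ⟨W, hWd⟩ : ∃ W : Submodule F M, W = Submodule.span F (Set.range γ) := ⟨_, rfl⟩
  have hγW : ∀ j, γ j ∈ W := fun j => by
    rw [hWd]
    exact Submodule.subset_span ⟨j, rfl⟩
  have hlin : ∀ q : Fin (R + 3) → F, ∑ j, algebraMap F M (q j) * γ j ∈ W := by
    intro q
    refine Submodule.sum_mem _ fun j _ => ?_
    rw [← Algebra.smul_def]
    exact Submodule.smul_mem _ _ (hγW j)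
  have h1W : (1 : M) ∈ W := by
    have h1 := hrel (fun j => (Z.ξ₀ j : L)) 1 (by rw [one_mul]; exact hA.r0)
    rw [map_one, map_one] at h1
    rw [← h1]
    exact hlin _
  have hXW : tL F M ∈ W := by
    have h1 := hrel (fun j => (Z.ξ₁ j : L)) (C X) hA.r1
    rw [mp_CX, ev_apply, eval₂_C, coe_eval₂RingHom, eval₂_X] at h1
    rw [tL_eq, ← hX', ← h1]
    exact hlin _
  have hWf : FiniteDimensional F W := by
    rw [hWd]
    exact FiniteDimensional.span_of_finite _ (Set.finite_range γ)
  obtain ⟨P, hP⟩ := exists_pole F M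
  have hWP : W ≤ rr P := by
    rw [hWd, Submodule.span_le]
    rintro _ ⟨j, rfl⟩ v
    refine (hmax v j).trans (max_le ?_ ?_)
    · rw [← exp_zero, exp_le_exp]
      exact hP.nonneg v
    · refine le_exp_log.trans ?_
      rw [exp_le_exp, hP v, tL_eq, ← hX']
      exact le_max_right _ _
  obtain ⟨s, hs⟩ : ∃ s, finrank F W = s + 1 := ⟨finrank F W - 1, by rw [hWd]; omega⟩
  have hsN : N ≤ s := by rw [hWd] at hs; omega
  have h4 := span_ge hP h1W hXW hWP hs
  have h5 : Submodule.span (RatFunc F) (W : Set M) ≤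
      Submodule.span (RatFunc F) (Set.range fun i => γ (J i)) := by
    have h6 : ∀ k, γ k ∈ Submodule.span (RatFunc F) (Set.range fun i => γ (J i)) := by
      intro k
      obtain ⟨q, hq, p, hqp⟩ := h k
      have h7 : f ∣ mp L F (C q * Z.B A k - ∑ i, C (p i) * Z.B A (J i)) := by
        rw [hfd]
        exact _root_.map_dvd (mp L F) hqp
      have hC : ∀ g : L[X], mp L F (C g) = C (g.map (algebraMap L F)) := by
        intro g
        unfold mp
        rw [coe_mapRingHom, map_C, coe_mapRingHom]
      have hev : ∀ g : F[X], ev (algebraMap F M) X' Y (C g) = algebraMap F[X] M g := by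
        intro g
        rw [hX', ev_aeval, aeval_C]
      rw [← hψ, map_sub, map_mul, map_sum, hC, map_sub, map_mul, map_sum, hev, hγ,
        sub_eq_zero] at h7
      have h8 : ∑ i, ev (algebraMap F M) X' Y (mp L F (C (p i) * Z.B A (J i))) =
          ev (algebraMap F M) X' Y (derivative f) *
            ∑ i, algebraMap F[X] M ((p i).map (algebraMap L F)) * γ (J i) := by
        rw [Finset.mul_sum]
        refine Finset.sum_congr rfl fun i _ => ?_
        rw [map_mul, hC, map_mul, hev, hγ]
        ring
      rw [h8] at h7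
      have h9 : algebraMap F[X] M (q.map (algebraMap L F)) * γ k =
          ∑ i, algebraMap F[X] M ((p i).map (algebraMap L F)) * γ (J i) := by
        refine mul_left_cancel₀ hω ?_
        rw [← h7]
        ring
      have hq0 : algebraMap F[X] (RatFunc F) (q.map (algebraMap L F)) ≠ 0 := by
        rw [Ne, FaithfulSMul.algebraMap_eq_zero_iff]
        intro h10
        apply hq
        exact (Polynomial.map_eq_zero_iff (algebraMap L F).injective).1 h10
      have hsm : ∀ (g : F[X]) (y : M), algebraMap F[X] M g * y =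
          algebraMap F[X] (RatFunc F) g • y := by
        intro g y
        rw [Algebra.smul_def, ← IsScalarTower.algebraMap_apply F[X] (RatFunc F) M]
      rw [hsm] at h9
      have h11 : algebraMap F[X] (RatFunc F) (q.map (algebraMap L F)) • γ k ∈
          Submodule.span (RatFunc F) (Set.range fun i => γ (J i)) := by
        rw [h9]
        refine Submodule.sum_mem _ fun i _ => ?_
        rw [hsm]
        exact Submodule.smul_mem _ _ (Submodule.subset_span ⟨i, rfl⟩)
      exact (Submodule.smul_mem_iff _ hq0).1 h11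
    rw [Submodule.span_le, hWd]
    intro y hy
    have h7 : Submodule.span F (Set.range γ) ≤
        (Submodule.span (RatFunc F) (Set.range fun i => γ (J i))).restrictScalars F := by
      rw [Submodule.span_le]
      rintro _ ⟨k, rfl⟩
      exact h6 k
    exact h7 hy
  have h6 := Submodule.finrank_mono h5
  have h7 := finrank_range_le_card (R := RatFunc F) (fun i => γ (J i))
  rw [Fintype.card_fin] at h7
  unfold Set.finrank at h7
  omega

/-- **Growth over the base field.** -/
theorem growth_K {κ : Type*} {K : Type*} {L : Type u} [Field κ] [Field K] [CharZero K] [Field L]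
    [CharZero L] [Algebra κ K] [Algebra K L] [Algebra κ L] {R d₀ b : ℕ}
    {Z : DatG κ (L := L) (R + 2) d₀} {A : L[X][X]} (hA : CrvN Z b A)
    {E : Fin (R + 3) → Derivation ℤ K K} {P : K[X][X]} (hP : CrvK Z A E P) {N i : ℕ}
    (hN : N + 1 + finrank L (dvS A (Z.B A)) ≤ R + 3) (hi : 2 ^ i * P.natDegree ≤ 3 ^ i * N)
    {M : Type*} [Field M] [Algebra K M] [Algebra K[X] M] [IsScalarTower K K[X] M]
    [Algebra (RatFunc K) M] [IsScalarTower K[X] (RatFunc K) M]
    [FiniteDimensional (RatFunc K) M] {Y : M}
    (hker : ∀ G : K[X][X], aeval Y G = 0 ↔ P ∣ G)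
    (hgen : IntermediateField.adjoin (RatFunc K) {Y} = ⊤)
    (hfr : finrank (RatFunc K) M = P.natDegree)
    {γ : Fin (R + 3) → M}
    (hγ : ∀ j, γ j * aeval Y (derivative P) = aeval Y (BK E P j)) :
    Submodule.span (RatFunc K) (Set.range γ) ^ (2 ^ i) = ⊤ := by
  classical
  have hω : aeval Y (derivative P) ≠ 0 := fun h => hP.sep ((hker _).1 h)
  have hsm : ∀ (g : K[X]) (y : M), algebraMap K[X] M g * y =
      algebraMap K[X] (RatFunc K) g • y := by
    intro g y
    rw [Algebra.smul_def, ← IsScalarTower.algebraMap_apply K[X] (RatFunc K) M]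
  obtain ⟨V, hV⟩ : ∃ V, V = Submodule.span (RatFunc K) (Set.range γ) := ⟨_, rfl⟩
  rw [← hV]
  -- linear relations
  have hlin : ∀ (q : Fin (R + 3) → K) (S : K[X][X]),
      P ∣ ∑ j, C (C (q j)) * BK E P j - S * derivative P → aeval Y S ∈ V := by
    intro q S h1
    rw [← hker, map_sub, map_mul, map_sum, sub_eq_zero] at h1
    have h2 : ∑ j, aeval Y (C (C (q j)) * BK E P j) =
        aeval Y (derivative P) * ∑ j, algebraMap K[X] M (C (q j)) * γ j := by
      rw [Finset.mul_sum]
      refine Finset.sum_congr rfl fun j _ => ?_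
      rw [map_mul, aeval_C, ← hγ]
      ring
    rw [h2, mul_comm (aeval Y S)] at h1
    have h3 := mul_left_cancel₀ hω h1
    rw [← h3, hV]
    refine Submodule.sum_mem _ fun j _ => ?_
    rw [hsm]
    exact Submodule.smul_mem _ _ (Submodule.subset_span ⟨j, rfl⟩)
  have h1V : (1 : M) ∈ V := by
    have h1 := hlin (fun j => (Z.ξ₀ j : K)) 1 (by rw [one_mul]; exact hP.r0)
    rwa [map_one] at h1
  have hYV : Y ∈ V := by
    have h1 := hlin (fun j => algebraMap κ K (Z.z j)) X hP.r2
    rwa [aeval_X] at h1
  -- a basis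
  obtain ⟨f, hfs, hfsp, -⟩ := Submodule.exists_fun_fin_finrank_span_eq (RatFunc K) (Set.range γ)
  choose J hJ using hfs
  have hr : N ≤ finrank (RatFunc K) (Submodule.span (RatFunc K) (Set.range γ)) := by
    obtain ⟨Q, hQ, hQA⟩ := hP.quo
    have hAp : Prime A := hA.irr.prime
    refine le_of_rel hA hN J fun k => ?_
    have h1 : γ k ∈ Submodule.span (RatFunc K) (Set.range f) := by
      rw [hfsp]
      exact Submodule.subset_span ⟨k, rfl⟩
    obtain ⟨c, hc⟩ := (Submodule.mem_span_range_iff_exists_fun (RatFunc K)).1 h1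
    obtain ⟨⟨q, hq⟩, hq1⟩ := IsLocalization.exist_integer_multiples_of_finite
      (nonZeroDivisors K[X]) c
    choose p hp using hq1
    have hq0 : q ≠ 0 := nonZeroDivisors.ne_zero hq
    have h2 : algebraMap K[X] M q * γ k = ∑ i, algebraMap K[X] M (p i) * γ (J i) := by
      rw [hsm, ← hc, Finset.smul_sum]
      refine Finset.sum_congr rfl fun i _ => ?_
      rw [hsm, hp, hJ, smul_smul]
      congr 1
      exact (Algebra.smul_def q (c i)).symm
    have h3 : P ∣ C q * BK E P k - ∑ i, C (p i) * BK E P (J i) := by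
      rw [← hker, map_sub, map_mul, map_sum, sub_eq_zero, aeval_C, ← hγ, ← mul_assoc, h2,
        Finset.sum_mul]
      refine Finset.sum_congr rfl fun i _ => ?_
      rw [map_mul, aeval_C, ← hγ, mul_assoc]
    have hC : ∀ g : K[X], mp K L (C g) = C (g.map (algebraMap K L)) := by
      intro g
      unfold mp
      rw [coe_mapRingHom, map_C, coe_mapRingHom]
    refine ⟨q.map (algebraMap K L), ?_, fun i => (p i).map (algebraMap K L), ?_⟩
    · rw [Ne, Polynomial.map_eq_zero_iff (algebraMap K L).injective]
      exact hq0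
    · rw [← hP.dvd] at h3
      obtain ⟨T, _, φ, hφ⟩ := exists_mod A
      have hB : ∀ j, φ (mp K L (BK E P j)) = φ Q * φ (Z.B A j) := by
        intro j
        rw [(hφ _ _).1 (CrvK.mp_BK (P := P) hP.hE hQ j), map_mul]
      have h5 : A ∣ mp K L (C q * BK E P k - ∑ i, C (p i) * BK E P (J i)) - 0 := by
        rw [sub_zero]
        exact h3
      have h4 : A ∣ Q * (C (q.map (algebraMap K L)) * Z.B A k -
          ∑ i, C ((p i).map (algebraMap K L)) * Z.B A (J i)) - 0 := by
        rw [hφ] at h5 ⊢
        rw [← h5]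
        simp only [map_sub, map_mul, map_sum, hC, hB]
        rw [mul_sub, Finset.mul_sum]
        congr 1
        · ring
        · refine Finset.sum_congr rfl fun i _ => ?_
          ring
      rw [sub_zero] at h4
      exact (hAp.dvd_or_dvd h4).resolve_left hQA
  have hchar : CharZero (RatFunc K) := charZero_of_injective_algebraMap
    (algebraMap K (RatFunc K)).injective
  have hinf : Infinite (RatFunc K) := inferInstance
  have hint : IsIntegral (RatFunc K) Y := Algebra.IsIntegral.isIntegral Y
  have hadj : Algebra.adjoin (RatFunc K) (V : Set M) = ⊤ := by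
    rw [eq_top_iff]
    have h2 := IntermediateField.adjoin_simple_toSubalgebra_of_isAlgebraic hint.isAlgebraic
    rw [hgen, IntermediateField.top_toSubalgebra] at h2
    rw [h2]
    exact Algebra.adjoin_mono (Set.singleton_subset_iff.2 hYV)
  refine pow_eq_top V h1V hadj ?_
  rw [hfr, hV]
  exact hi.trans (Nat.mul_le_mul_left _ hr)

end Pool.Agent.Lib.MP_44a246_ntTK
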