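import Mathlib
import Pool.Agent.Lib.MP_44a246_ntTK.TK03
import Pool.Agent.Lib.MP_44a246_ntTK.TK04b
import Pool.Agent.Lib.MP_44a246_ntTK.TK04c
import Pool.Agent.Lib.MP_44a246_ntSH.CB02

/-!
Section 4 over the base field `K`: the codimensions of the spaces of forms and of deformations,
over the base field.
-/

namespace Pool.Agent.Lib.MP_44a246_ntTK

open Pool.Agent.Lib.MP_e52354_nt
open Pool.Agent.Lib.MP_44a246_nt
open Pool.Agent.Lib.MP_44a246_ntL
open Pool.Agent.Lib.MP_44a246_ntS
open Pool.Agent.Lib.MP_44a246_ntF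
open Pool.Agent.Lib.MP_44a246_ntO
open Pool.Agent.Lib.MP_44a246_ntW
open Pool.Agent.Lib.MP_44a246_ntE
open Pool.Agent.Lib.MP_44a246_ntG
open Pool.Agent.Lib.MP_44a246_ntSH
open Pool.Agent.Lib.MP_44a246_ntSP
open WithZero Polynomial Module

universe u v w

variable {κ : Type v} {K : Type u} {L : Type w} [Field κ] [IsAlgClosed κ] [CharZero κ] [Field K]
  [CharZero K] [Field L] [CharZero L] [Algebra κ K] [Algebra K L] [Algebra κ L]
  [IsScalarTower κ K L] [FiniteDimensional K L]

/-- **The codimensions, over the base field.** -/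
theorem codims_K {R d₀ b : ℕ} {Z : DatG κ (L := L) (R + 2) d₀} {A : L[X][X]} (hA : CrvN Z b A)
    {E : Fin (R + 3) → Derivation ℤ K K} {P : K[X][X]} (hP : CrvK Z A E P) {N i : ℕ}
    (hN : N + 1 + finrank L (dvS A (Z.B A)) ≤ R + 3) (hi : 2 ^ i * P.natDegree ≤ 3 ^ i * N)
    (hN2 : 2 ≤ N) :
    N ≤ P.natDegree ∧
    (∀ e, Fintype.card (EX (R + 3) e) ≤
      finrank K (VI P (BK E P) e) + (e + 1) * P.natDegree) ∧
    (∀ e, finrank K (VI P (BK E P) e) + P.natDegree * (e + 1) ≤
      Fintype.card (EX (R + 3) e) + 2 ^ i * P.natDegree) ∧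
    (∀ (T : Type) (_ : Fintype T) (D : T → Derivation ℤ K K), Fintype.card T ≤
      finrank K (ZF P (BK E P) D) + finrank K L * (R * (P.natDegree + 1) + (P.natDegree +
        2 * (2 ^ i * P.natDegree) + 1) + (R + 3))) ∧
    (∀ (T : Type) (_ : Fintype T) (D : T → Derivation ℤ K K) (G : T → K),
      G ∉ ZF P (BK E P) D → ∃ g ∈ VI P (BK E P) (8 * 2 ^ i),
        (fun I => dF D G (g I)) ∉ VI P (BK E P) (8 * 2 ^ i)) := by
  classical
  have hAp : Prime A := hA.irr.prime
  have hnd : ∀ G : K[X][X], (mp K L G).natDegree = G.natDegree := by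
    intro G
    unfold mp
    rw [coe_mapRingHom]
    refine natDegree_map_eq_of_injective ?_ G
    rw [coe_mapRingHom]
    exact map_injective _ (algebraMap K L).injective
  -- the degree of `A` is at most the degree of `P`
  have hAP : A.natDegree ≤ P.natDegree := by
    have h1 : A ∣ mp K L P := (hP.dvd P).2 dvd_rfl
    have h2 : mp K L P ≠ 0 := by
      intro h3
      have h4 := hnd P
      rw [h3, natDegree_zero] at h4
      exact hP.deg h4.symm
    have h3 := natDegree_le_of_dvd h1 h2
    rwa [hnd] at h3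
  obtain ⟨hNA, hcod, -, hZF, -⟩ := codims_crvN hA hN
    ((Nat.mul_le_mul_left _ hAP).trans hi) hN2
  have hc2 := codim_VI_K hA.toCrvE hA.monic hP hcod
  have hmain : (∀ e, finrank K (VI P (BK E P) e) + P.natDegree * (e + 1) ≤
      Fintype.card (EX (R + 3) e) + 2 ^ i * P.natDegree) ∧
    (∀ (T : Type) (_ : Fintype T) (D : T → Derivation ℤ K K) (G : T → K),
      G ∉ ZF P (BK E P) D → ∃ g ∈ VI P (BK E P) (8 * 2 ^ i),
        (fun I => dF D G (g I)) ∉ VI P (BK E P) (8 * 2 ^ i)) := by
    refine with_curve hP.irr (Nat.pos_of_ne_zero hP.deg) ?_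
    intro M i1 i2 i3 i4 i5 i6 i7 i8 i9 Y hker hgen hfr htr halg
    have t1 : IsScalarTower K (RatFunc K) M := MP_44a246_ntSP.tower_ratFunc
    have hω : aeval Y (derivative P) ≠ 0 := fun h0 => hP.sep ((hker _).1 h0)
    obtain ⟨γ, hγd⟩ : ∃ γ : Fin (R + 3) → M, γ = fun j =>
      aeval Y (BK E P j) / aeval Y (derivative P) := ⟨_, rfl⟩
    have hγ : ∀ j, γ j * aeval Y (derivative P) = aeval Y (BK E P j) := by
      intro j
      rw [hγd]
      exact div_mul_cancel₀ _ hω
    have hgrow := growth_K hA hP hN hi hker hgen hfr hγ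
    have hVI : ∀ e, finrank K (VI P (BK E P) e) +
        finrank K ↥(Submodule.span K (Set.range γ) ^ e) = Fintype.card (EX (R + 3) e) := by
      intro e
      refine finrank_VI_add (s := algebraMap K[X] M X) (t := Y) (fun G => ?_) hω (fun j => ?_) e
      · rw [ev_aeval]
        exact hker G
      · rw [ev_aeval, ← hγ j, mul_comm]
    have hXM : algebraMap (RatFunc K) M RatFunc.X = algebraMap K[X] M X := by
      rw [← RatFunc.algebraMap_X, ← IsScalarTower.algebraMap_apply K[X] (RatFunc K) M]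
    have hCC : ∀ c : K, (aeval Y) (C (C c) : K[X][X]) = algebraMap K M c := by
      intro c
      rw [aeval_C, IsScalarTower.algebraMap_apply K K[X] M]
      rfl
    have hlin : ∀ (ξ : Fin (R + 3) → K) (S : K[X][X]),
        P ∣ ∑ j, C (C (ξ j)) * BK E P j - S →
        (∑ j, ξ j • γ j) * aeval Y (derivative P) = aeval Y S := by
      intro ξ S hS
      have h1 := (hker _).2 hS
      rw [map_sub, sub_eq_zero, map_sum] at h1
      rw [← h1, Finset.sum_mul]
      refine Finset.sum_congr rfl fun j _ => ?_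
      rw [map_mul, hCC, ← hγ j, Algebra.smul_def, mul_assoc]
    have h0 : ∑ j, (Z.ξ₀ j : K) • γ j = 1 := by
      have h1 := hlin (fun j => (Z.ξ₀ j : K)) _ hP.r0
      exact mul_right_cancel₀ hω (by rw [h1, one_mul])
    have h1 : ∑ j, (Z.ξ₁ j : K) • γ j = algebraMap (RatFunc K) M RatFunc.X := by
      have h1 := hlin (fun j => (Z.ξ₁ j : K)) _ hP.r1
      refine mul_right_cancel₀ hω ?_
      rw [h1, hXM, map_mul, aeval_C]
    have hmemG : ∀ ξ : Fin (R + 3) → K, ∑ j, ξ j • γ j ∈ Submodule.span K (Set.range γ) :=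
      fun ξ => Submodule.sum_mem _ fun j _ =>
        Submodule.smul_mem _ _ (Submodule.subset_span ⟨j, rfl⟩)
    have htR : Transcendental K (RatFunc.X : RatFunc K) := by
      intro halg'
      apply htr
      rw [← hXM]
      exact halg'.algebraMap
    have hspan : Submodule.span (RatFunc K)
        ((Submodule.span K (Set.range γ) ^ 2 ^ i : Submodule K M) : Set M) = ⊤ := by
      rw [← hgrow, Submodule.span_pow, Submodule.span_pow, Submodule.span_span_of_tower]
    refine ⟨fun e => ?_, fun T _ D G hG => ?_⟩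
    · have h2 := hVI e
      rcases le_or_gt (2 ^ i) e with hie | hie
      · have h3 := finrank_pow_ge_span (L := K) (k := RatFunc K)
          (G := Submodule.span K (Set.range γ))
          (Submodule.fg_span (Set.finite_range _)) htR
          (by rw [← h1]; exact hmemG _) (by rw [← h0]; exact hmemG _) hie hspan
        rw [hfr] at h3
        obtain ⟨t, rfl⟩ := Nat.exists_eq_add_of_le hie
        rw [show 2 ^ i + t - 2 ^ i = t by omega] at h3
        have h4 : P.natDegree * (2 ^ i + t + 1) = 2 ^ i * P.natDegree + (t + 1) * P.natDegree := by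
          ring
        omega
      · have h3 : P.natDegree * (e + 1) ≤ 2 ^ i * P.natDegree := by
          rw [mul_comm]
          exact Nat.mul_le_mul_right _ hie
        omega
    · have hdim : finrank K ↥(Submodule.span K (Set.range γ) ^ (8 * 2 ^ i)) ≤
          8 * 2 ^ i * finrank (RatFunc K) M + finrank (RatFunc K) M := by
        rw [hfr]
        have h2 := hVI (8 * 2 ^ i)
        have h3 : Fintype.card (EX (R + 3) (8 * 2 ^ i)) ≤
          finrank K (VI P (BK E P) (8 * 2 ^ i)) + (8 * 2 ^ i + 1) * P.natDegree := hc2 (8 * 2 ^ i)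
        have h4 : (8 * 2 ^ i + 1) * P.natDegree = 8 * 2 ^ i * P.natDegree + P.natDegree := by
          ring
        omega
      exact hcon_curveM hker htr halg hP.sep (ξ₀ := fun j => (Z.ξ₀ j : K))
        (ξ₁ := fun j => (Z.ξ₁ j : K)) hP.r0 hP.r1 hγ Nat.one_le_two_pow hgrow hdim
        (fun t j => Derivation.map_natCast _ _) (fun t j => Derivation.map_natCast _ _) hG
  refine ⟨hNA.trans hAP, hc2, hmain.1, fun T _ D => ?_, hmain.2⟩
  have h3 : ∀ t, ∃ D' : Derivation ℤ L L, ∀ y, D' (algebraMap K L y) =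
      algebraMap K L (D t y) := fun t => exists_extension (D t)
  choose D' hD' using h3
  have h4 := hZF T inferInstance D'
  have h5 : R * (A.natDegree + 1) + (A.natDegree + 2 * (2 ^ i * A.natDegree) + 1) + (R + 3) ≤
      R * (P.natDegree + 1) + (P.natDegree + 2 * (2 ^ i * P.natDegree) + 1) + (R + 3) := by
    gcongr
  refine codim_am (V := ZF A (Z.B A) D') (fun c hc => (hP.mem_ZF hAp hD').2 hc) (h4.trans ?_)
  exact Nat.add_le_add_left h5 _

end Pool.Agent.Lib.MP_44a246_ntTK
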