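import Mathlib
import Pool.Agent.Lib.MP_44a246_ntO.OG4a
import Pool.Agent.Lib.MP_44a246_ntO.OS1
import Pool.Agent.Lib.MP_44a246_ntTK.TK02

/-!
Section 4 over the base field `K`: the norm of a polynomial in two variables.
-/

namespace Pool.Agent.Lib.MP_44a246_ntTK

open Pool.Agent.Lib.MP_e52354_nt
open Pool.Agent.Lib.MP_44a246_nt
open Pool.Agent.Lib.MP_44a246_ntL
open Pool.Agent.Lib.MP_44a246_ntR
open Pool.Agent.Lib.MP_44a246_ntS
open Pool.Agent.Lib.MP_44a246_ntF
open Pool.Agent.Lib.MP_44a246_ntO
open Pool.Agent.Lib.MP_44a246_ntW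
open Pool.Agent.Lib.MP_44a246_ntE
open Pool.Agent.Lib.MP_44a246_ntG
open Pool.Agent.Lib.MP_44a246_ntSH
open Pool.Agent.Lib.MP_44a246_ntSP
open WithZero Polynomial Module

section values

/-- the values of natural numbers -/
private theorem nat_le {κ L : Type*} [Field κ] [Field L] [Algebra κ L] (w : Place κ L)
    (m : ℕ) : w.1 (m : L) ≤ 1 := natCast_mem w.1.integer m

/-- the value of a polynomial at a natural number -/
private theorem eval_le {κ L : Type*} [Field κ] [Field L] [Algebra κ L] (w : Place κ L)
    (p : L[X]) (t : ℕ) : w.1 (p.eval (t : L)) ≤ gv w.1 p := by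
  rw [eval_eq_sum_range]
  refine Valuation.map_sum_le _ fun i _ => ?_
  rw [map_mul, map_pow]
  calc w.1 (p.coeff i) * w.1 (t : L) ^ i ≤ gv w.1 p * 1 :=
        mul_le_mul' (le_gn w.1 p i) (pow_le_one' (nat_le w t) i)
    _ = gv w.1 p := mul_one _

/-- at one place all but finitely many natural numbers give the Gauss norm -/
private theorem fin_bad {κ L : Type*} [Field κ] [IsAlgClosed κ] [CharZero κ] [Field L]
    [Algebra κ L] (h : IsFF κ L) (w : Place κ L) {N : L[X]} (hN : N ≠ 0) :
    {t : ℕ | w.1 (N.eval (t : L)) ≠ gv w.1 N}.Finite := by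
  have hx : (fun i : Fin (N.natDegree + 1) => N.coeff i) ≠ 0 := by
    intro h0
    apply hN
    have h1 := congrFun h0 ⟨N.natDegree, Nat.lt_succ_self _⟩
    exact leadingCoeff_eq_zero.1 h1
  refine (finite_bad h hx w).subset fun t ht => ?_
  have e1 : ∑ j : Fin (N.natDegree + 1), ((t ^ (j : ℕ) : ℕ) : L) * N.coeff j =
      N.eval (t : L) := by
    rw [Fin.sum_univ_eq_sum_range (fun i => ((t ^ i : ℕ) : L) * N.coeff i), eval_eq_sum_range]
    refine Finset.sum_congr rfl fun i _ => ?_
    rw [Nat.cast_pow, mul_comm]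
  have e2 : vmax w.1 (fun i : Fin (N.natDegree + 1) => N.coeff i) = gv w.1 N := by
    refine le_antisymm (Finset.sup_le fun i _ => le_gn w.1 N i) (gn_le w.1 fun i => ?_)
    rcases Nat.lt_or_ge N.natDegree i with hi | hi
    · rw [coeff_eq_zero_of_natDegree_lt hi, map_zero]
      exact zero_le
    · exact Finset.le_sup (f := fun i : Fin (N.natDegree + 1) => w.1 (N.coeff i))
        (Finset.mem_univ ⟨i, Nat.lt_succ_of_le hi⟩)
  rw [Set.mem_ofPred_eq] at ht ⊢
  rw [e1, e2]
  exact ht

/-- a nonzero polynomial has finitely many natural roots -/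
private theorem fin_roots {L : Type*} [Field L] [CharZero L] {p : L[X]} (hp : p ≠ 0) :
    {t : ℕ | p.eval (t : L) = 0}.Finite := by
  classical
  have hfin : {c : L | p.IsRoot c}.Finite := by
    refine p.roots.toFinset.finite_toSet.subset fun c hc => ?_
    rw [Finset.mem_coe, Multiset.mem_toFinset, Polynomial.mem_roots hp]
    exact hc
  exact hfin.preimage (f := fun t : ℕ => (t : L)) (fun a _ b _ hab => Nat.cast_injective hab)

end values

section ev

/-- the evaluation at natural numbers -/
noncomputable def evN (L : Type*) [Field L] (s t : ℕ) : L[X][X] →+* L :=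
  (evalRingHom (t : L)).comp (mapRingHom (evalRingHom (s : L)))

theorem evN_apply {L : Type*} [Field L] (s t : ℕ) (P : L[X][X]) :
    evN L s t P = (P.map (evalRingHom (s : L))).eval (t : L) := rfl

/-- the value at natural numbers is at most the Gauss norm -/
theorem evN_le {κ L : Type*} [Field κ] [Field L] [Algebra κ L] (w : Place κ L)
    (P : L[X][X]) (s t : ℕ) : w.1 (evN L s t P) ≤ gg w.1 P := by
  rw [evN_apply]
  refine (eval_le w _ t).trans (gn_le w.1 fun i => ?_)
  rw [coeff_map, coe_evalRingHom]
  exact (eval_le w _ s).trans (le_gn (gv w.1) P i)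

theorem exists_evN_ne_zero {L : Type*} [Field L] [CharZero L] {P : L[X][X]} (hP : P ≠ 0) :
    ∃ s t : ℕ, evN L s t P ≠ 0 := by
  obtain ⟨i, hi⟩ : ∃ i, P.coeff i ≠ 0 := by
    by_contra hcon
    push Not at hcon
    exact hP (Polynomial.ext fun i => by rw [hcon i, coeff_zero])
  obtain ⟨s, hs⟩ := (fin_roots hi).infinite_compl.nonempty
  have h1 : P.map (evalRingHom (s : L)) ≠ 0 := by
    intro h0
    apply hs
    have h2 := congrArg (fun Q : L[X] => Q.coeff i) h0
    simp only [coeff_map, coeff_zero] at h2
    exact h2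
  obtain ⟨t, ht⟩ := (fin_roots h1).infinite_compl.nonempty
  exact ⟨s, t, ht⟩

/-- at one place some natural numbers give the Gauss norm -/
theorem exists_evN_eq {κ L : Type*} [Field κ] [IsAlgClosed κ] [CharZero κ] [Field L] [CharZero L]
    [Algebra κ L] (h : IsFF κ L) (w : Place κ L) {P : L[X][X]} (hP : P ≠ 0) :
    ∃ s t : ℕ, w.1 (evN L s t P) = gg w.1 P := by
  classical
  have hfin : (⋃ i ∈ P.support, {s : ℕ | w.1 ((P.coeff i).eval (s : L)) ≠
      gv w.1 (P.coeff i)}).Finite :=
    Set.Finite.biUnion (Finset.finite_toSet _) fun i hi => fin_bad h w (mem_support_iff.1 hi)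
  obtain ⟨s, hs⟩ := hfin.infinite_compl.nonempty
  have hs' : ∀ i, w.1 ((P.coeff i).eval (s : L)) = gv w.1 (P.coeff i) := by
    intro i
    by_cases hi : P.coeff i = 0
    · rw [hi, eval_zero, map_zero, map_zero]
    · by_contra hcon
      apply hs
      rw [Set.mem_iUnion₂]
      exact ⟨i, mem_support_iff.2 hi, hcon⟩
  have h1 : gv w.1 (P.map (evalRingHom (s : L))) = gg w.1 P := by
    refine le_antisymm (gn_le w.1 fun i => ?_) (gn_le (gv w.1) fun i => ?_)
    · rw [coeff_map, coe_evalRingHom, hs']
      exact le_gn (gv w.1) P i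
    · rw [← hs', ← coe_evalRingHom, ← coeff_map]
      exact le_gn w.1 _ i
  have h2 : P.map (evalRingHom (s : L)) ≠ 0 := by
    intro h0
    rw [h0, map_zero] at h1
    exact hP ((gg_eq_zero w.1).1 h1.symm)
  obtain ⟨t, ht⟩ := (fin_bad h w h2).infinite_compl.nonempty
  refine ⟨s, t, ?_⟩
  rw [evN_apply, ← h1]
  by_contra hcon
  exact ht hcon

end ev

section fnlin

variable {K L : Type*} [Field K] [Field L] [Algebra K L]

private theorem fn_add' (φ : L →ₗ[K] K) (P Q : L[X][X]) : fn φ (P + Q) = fn φ P + fn φ Q := by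
  ext i j
  rw [fn_coeff, coeff_add, coeff_add, coeff_add, coeff_add, map_add, fn_coeff, fn_coeff]

private theorem fn_mono (φ : L →ₗ[K] K) (i j : ℕ) (c : L) :
    fn φ (monomial i (monomial j c)) = monomial i (monomial j (φ c)) := by
  ext a b
  rw [fn_coeff, coeff_monomial, coeff_monomial]
  split_ifs with h
  · rw [coeff_monomial, coeff_monomial]
    split_ifs with h'
    · rfl
    · exact map_zero φ
  · rw [coeff_zero, coeff_zero, map_zero]

/-- a functional commutes with the evaluation at natural numbers -/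
private theorem evN_fn (φ : L →ₗ[K] K) (P : L[X][X]) (s t : ℕ) :
    evN K s t (fn φ P) = φ (evN L s t P) := by
  induction P using Polynomial.induction_on' with
  | add P Q hP hQ => rw [fn_add', map_add, map_add, map_add, hP, hQ]
  | monomial i p =>
    induction p using Polynomial.induction_on' with
    | add p q hp hq => rw [map_add, fn_add', map_add, map_add, map_add, hp, hq]
    | monomial j c =>
      rw [fn_mono, evN_apply, evN_apply, map_monomial, map_monomial, coe_evalRingHom,
        coe_evalRingHom, eval_monomial, eval_monomial, eval_monomial, eval_monomial]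
      have e : c * (s : L) ^ j * (t : L) ^ i = (s ^ j * t ^ i : ℕ) • c := by
        rw [nsmul_eq_mul]
        push_cast
        ring
      rw [e, map_nsmul, nsmul_eq_mul]
      push_cast
      ring

end fnlin

variable {κ K L : Type*} [Field κ] [IsAlgClosed κ] [CharZero κ] [Field K] [CharZero K] [Field L]
  [CharZero L] [Algebra κ K] [Algebra K L] [Algebra κ L] [IsScalarTower κ K L]
  [FiniteDimensional K L]

omit [CharZero L] in
private theorem norm_form (h : IsFF κ K) (v : Place κ K) :
    ∃ S : Finset (Place κ L), (∀ w, w ∈ S ↔ below K w = v) ∧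
    (∀ y : L, y ≠ 0 → log (v.1 (Algebra.norm K y)) = ∑ w ∈ S, log (w.1 y)) := by
  refine (h.of_finite (L := L)).ind ?_
  intro _ _ _ _ _ _ _ _ _
  obtain ⟨S, h1, h2, -⟩ := local_main (L := L) v
  exact ⟨S, h1, h2⟩

/-- the norm of a polynomial in two variables -/
theorem exists_norm_poly (hK : IsFF κ K) {G : L[X][X]} (hG : G ≠ 0) :
    ∃ N : K[X][X], N ≠ 0 ∧ G ∣ mp K L N ∧ N.natDegree ≤ finrank K L * G.natDegree ∧
      gh κ N ≤ gh κ G := by
  classical
  have hL : IsFF κ L := IsFF.of_finite (K := K) hK
  let b := Module.finBasis K L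
  -- the functionals
  let φ : Fin (finrank K L) → Fin (finrank K L) → (L →ₗ[K] K) := fun i j =>
    (b.coord i).comp (LinearMap.mulRight K (b j))
  have hφ : ∀ i j (x : L), φ i j x = Algebra.leftMulMatrix b x i j := by
    intro i j x
    rw [Algebra.leftMulMatrix_eq_repr_mul]
    rfl
  let Φ : Matrix (Fin (finrank K L)) (Fin (finrank K L)) K[X][X] := fun i j => fn (φ i j) G
  have hev : ∀ s t : ℕ, evN K s t Φ.det = Algebra.norm K (evN L s t G) := by
    intro s t
    rw [RingHom.map_det, Algebra.norm_eq_matrix_det b]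
    congr 1
    ext i j
    rw [RingHom.mapMatrix_apply, Matrix.map_apply]
    change evN K s t (fn (φ i j) G) = _
    rw [evN_fn, hφ]
  have hN0 : Φ.det ≠ 0 := by
    intro h0
    obtain ⟨s, t, hst⟩ := exists_evN_ne_zero hG
    have h1 := hev s t
    rw [h0, map_zero] at h1
    exact hst ((Algebra.norm_eq_zero_iff (R := K)).1 h1.symm)
  refine ⟨Φ.det, hN0, ?_, ?_, ?_⟩
  · -- divisibility
    have h1 : ∀ j, G * C (C (b j)) = ∑ i, mp K L (Φ i j) * C (C (b i)) := by
      intro j
      ext p q
      rw [coeff_mul_C, coeff_mul_C, finsetSum_coeff, finsetSum_coeff]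
      have h2 : ∀ i, ((mp K L (Φ i j) * C (C (b i))).coeff p).coeff q =
          (b.repr ((G.coeff p).coeff q * b j) i) • b i := by
        intro i
        rw [coeff_mul_C, coeff_mul_C, mp_coeff]
        change algebraMap K L (((fn (φ i j) G).coeff p).coeff q) * b i = _
        rw [fn_coeff, hφ, Algebra.leftMulMatrix_eq_repr_mul, Algebra.smul_def]
      rw [Finset.sum_congr rfl fun i _ => h2 i, b.sum_repr]
    let e : Fin (finrank K L) → K := fun i => b.repr 1 i
    have he : ∑ i, C (C (algebraMap K L (e i))) * C (C (b i)) = (1 : L[X][X]) := by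
      have h3 : ∑ i, e i • b i = (1 : L) := b.sum_repr 1
      have h4 : ∀ i, C (C (algebraMap K L (e i))) * C (C (b i)) =
          (C (C (e i • b i)) : L[X][X]) := by
        intro i
        rw [Algebra.smul_def, C_mul, C_mul]
      rw [Finset.sum_congr rfl fun i _ => h4 i, ← map_sum, ← map_sum, h3, C_1, C_1]
    let V : Fin (finrank K L) → K[X][X] := Φ.adjugate.mulVec fun i => C (C (e i))
    have hV : ∀ i, ∑ j, Φ i j * V j = Φ.det * C (C (e i)) := by
      intro i
      have h5 : Φ.mulVec V = Φ.det • fun i => (C (C (e i)) : K[X][X]) := by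
        simp only [V]
        rw [Matrix.mulVec_mulVec, Matrix.mul_adjugate, Matrix.smul_mulVec, Matrix.one_mulVec]
      have h6 := congrFun h5 i
      simp only [Matrix.mulVec, dotProduct, Pi.smul_apply, smul_eq_mul] at h6
      exact h6
    refine ⟨∑ j, mp K L (V j) * C (C (b j)), ?_⟩
    have hmpC : ∀ c : K, mp K L (C (C c)) = C (C (algebraMap K L c)) := by
      intro c
      unfold mp
      rw [coe_mapRingHom, map_C, coe_mapRingHom, map_C]
    calc mp K L Φ.det = mp K L Φ.det * ∑ i, C (C (algebraMap K L (e i))) * C (C (b i)) := by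
          rw [he, mul_one]
      _ = ∑ i, mp K L (∑ j, Φ i j * V j) * C (C (b i)) := by
          rw [Finset.mul_sum]
          refine Finset.sum_congr rfl fun i _ => ?_
          rw [hV, map_mul, hmpC, mul_assoc]
      _ = ∑ i, ∑ j, mp K L (Φ i j) * mp K L (V j) * C (C (b i)) := by
          refine Finset.sum_congr rfl fun i _ => ?_
          rw [map_sum, Finset.sum_mul]
          refine Finset.sum_congr rfl fun j _ => ?_
          rw [map_mul]
      _ = ∑ j, ∑ i, mp K L (Φ i j) * mp K L (V j) * C (C (b i)) := Finset.sum_comm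
      _ = ∑ j, mp K L (V j) * (G * C (C (b j))) := by
          refine Finset.sum_congr rfl fun j _ => ?_
          rw [h1 j, Finset.mul_sum]
          refine Finset.sum_congr rfl fun i _ => ?_
          ring
      _ = G * ∑ j, mp K L (V j) * C (C (b j)) := by
          rw [Finset.mul_sum]
          refine Finset.sum_congr rfl fun j _ => ?_
          ring
  · -- degree
    have hdeg : ∀ i j, (Φ i j).natDegree ≤ G.natDegree := by
      intro i j
      rw [natDegree_le_iff_coeff_eq_zero]
      intro m hm
      ext q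
      change ((fn (φ i j) G).coeff m).coeff q = _
      rw [fn_coeff, coeff_eq_zero_of_natDegree_lt hm, coeff_zero, coeff_zero, map_zero]
    rw [Matrix.det_apply]
    refine natDegree_sum_le_of_forall_le _ _ fun σ _ => ?_
    refine (natDegree_smul_le _ _).trans ((natDegree_prod_le _ _).trans ?_)
    refine (Finset.sum_le_sum fun i _ => hdeg (σ i) i).trans ?_
    rw [Finset.sum_const, Finset.card_univ, Fintype.card_fin, smul_eq_mul]
  · -- heights
    choose S hS hnorm using fun v : Place κ K => norm_form (L := L) hK v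
    have hloc : ∀ v : Place κ K, log (gg v.1 Φ.det) ≤ ∑ w ∈ S v, log (gg w.1 G) := by
      intro v
      obtain ⟨s, t, hst⟩ := exists_evN_eq hK v hN0
      have h1 : gg v.1 Φ.det ≠ 0 := fun h0 => hN0 ((gg_eq_zero v.1).1 h0)
      have h2 : evN L s t G ≠ 0 := by
        intro h0
        rw [hev, h0, Algebra.norm_zero, map_zero] at hst
        exact h1 hst.symm
      rw [← hst, hev, hnorm v _ h2]
      refine Finset.sum_le_sum fun w _ => ?_
      refine (log_le_log ((Valuation.ne_zero_iff _).2 h2) fun h0 => hG ((gg_eq_zero w.1).1 h0)).2 ?_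
      exact evN_le w G s t
    have hf1 := gg_support hK hN0
    have hf2 := gg_support hL hG
    set F : Finset (Place κ K) := hf1.toFinset ∪ hf2.toFinset.image (below K) with hF
    have e1 : gh κ Φ.det = ∑ v ∈ F, log (gg v.1 Φ.det) := by
      unfold gh
      refine finsum_eq_sum_of_support_subset _ fun v hv => ?_
      rw [Finset.mem_coe, hF, Finset.mem_union]
      left
      rw [Set.Finite.mem_toFinset]
      exact hv
    have e2 : gh κ G = ∑ w ∈ F.biUnion S, log (gg w.1 G) := by
      unfold gh
      refine finsum_eq_sum_of_support_subset _ fun w hw => ?_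
      rw [Finset.mem_coe, Finset.mem_biUnion]
      refine ⟨below K w, ?_, (hS _ w).2 rfl⟩
      rw [hF, Finset.mem_union]
      right
      rw [Finset.mem_image]
      refine ⟨w, ?_, rfl⟩
      rw [Set.Finite.mem_toFinset]
      exact hw
    rw [e1, e2, Finset.sum_biUnion]
    · exact Finset.sum_le_sum fun v _ => hloc v
    · intro v _ v' _ hne
      rw [Function.onFun, Finset.disjoint_left]
      intro w hw hw'
      exact hne (((hS v w).1 hw).symm.trans ((hS v' w).1 hw'))

end Pool.Agent.Lib.MP_44a246_ntTK
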