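import Mathlib
import Pool.Agent.Lib.MP_44a246_ntE.E20
import Pool.Agent.Lib.MP_44a246_ntS.SJ2b
import Pool.Agent.Lib.MP_44a246_ntS.SJ4b
import Pool.Agent.Lib.MP_44a246_ntTK.TK05a

/-!
Section 4 over the base field `K`: the curve `P` over `K` under the curve `A` over `L`, with its
degree and its height.
-/

namespace Pool.Agent.Lib.MP_44a246_ntTK

open Pool.Agent.Lib.MP_e52354_nt
open Pool.Agent.Lib.MP_44a246_nt
open Pool.Agent.Lib.MP_44a246_ntL
open Pool.Agent.Lib.MP_44a246_ntS
open Pool.Agent.Lib.MP_44a246_ntW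
open Pool.Agent.Lib.MP_44a246_ntE
open WithZero Polynomial Module

section algebra

variable {K L : Type*} [Field K] [Field L] [Algebra K L]

private theorem mp_C (p : K[X]) : mp K L (C p) = C (p.map (algebraMap K L)) := by
  unfold mp
  rw [coe_mapRingHom, map_C, coe_mapRingHom]

private theorem mp_natDegree (P : K[X][X]) : (mp K L P).natDegree = P.natDegree := by
  unfold mp
  rw [coe_mapRingHom]
  refine natDegree_map_eq_of_injective ?_ P
  rw [coe_mapRingHom]
  exact map_injective _ (algebraMap K L).injective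

private theorem mp_ne_zero {P : K[X][X]} (hP : P ≠ 0) : mp K L P ≠ 0 := by
  rwa [Ne, map_eq_zero_iff _ mp_injective]

/-- a curve of positive degree does not divide the base change of a polynomial in one variable -/
private theorem not_dvd_mp_C {A : L[X][X]} (hm : A.natDegree ≠ 0) {p : K[X]} (hp : p ≠ 0) :
    ¬ A ∣ mp K L (C p) := by
  intro h
  have h0 : mp K L (C p) ≠ 0 := mp_ne_zero (by rwa [Ne, C_eq_zero])
  have h1 := natDegree_le_of_dvd h h0
  rw [mp_natDegree, natDegree_C] at h1
  omega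

/-- the curve over `K` under an irreducible curve over `L` -/
theorem exists_under {A : L[X][X]} (hA : Irreducible A) (hm : A.natDegree ≠ 0) {N : K[X][X]}
    (hN : N ≠ 0) (hAN : A ∣ mp K L N) :
    ∃ P : K[X][X], Irreducible P ∧ P.natDegree ≠ 0 ∧ P ∣ N ∧ ∀ G : K[X][X], A ∣ mp K L G ↔ P ∣ G := by
  have hAp : Prime A := hA.prime
  obtain ⟨f, hf, hfN⟩ := WfDvdMonoid.exists_factors N hN
  have h1 : A ∣ mp K L f.prod := by
    obtain ⟨u, hu⟩ := hfN
    rw [← hu, map_mul] at hAN
    exact (IsUnit.dvd_mul_right (u.isUnit.map (mp K L))).1 hAN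
  rw [map_multiset_prod] at h1
  obtain ⟨P, hPf, hAP⟩ := hAp.exists_mem_multiset_map_dvd h1
  have hP := hf P hPf
  have hPdeg : P.natDegree ≠ 0 := by
    intro h0
    rw [eq_C_of_natDegree_eq_zero h0] at hAP
    refine not_dvd_mp_C hm ?_ hAP
    intro h2
    apply hP.ne_zero
    rw [eq_C_of_natDegree_eq_zero h0, h2, C_0]
  refine ⟨P, hP, hPdeg, (Multiset.dvd_prod hPf).trans hfN.dvd, fun G => ⟨fun hG => ?_, fun hG => ?_⟩⟩
  · by_contra hPG
    have hr : resultant P G ≠ 0 := fun h => hPG (dvd_of_resultant hP hPdeg h)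
    obtain ⟨p, q, -, -, hpq⟩ := exists_mul_add_mul_eq_C_resultant P G le_rfl le_rfl
      (Or.inl hPdeg)
    refine not_dvd_mp_C hm hr ?_
    rw [← hpq, map_add, map_mul, map_mul]
    exact dvd_add (dvd_mul_of_dvd_left hAP _) (dvd_mul_of_dvd_left hG _)
  · exact hAP.trans (map_dvd (mp K L) hG)

end algebra

section heights

variable {κ K L : Type*} [Field κ] [IsAlgClosed κ] [CharZero κ] [Field K] [CharZero K] [Field L]
  [CharZero L] [Algebra κ K] [Algebra K L] [Algebra κ L] [IsScalarTower κ K L]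
  [FiniteDimensional K L]

omit [IsAlgClosed κ] [CharZero κ] [CharZero K] [CharZero L] [IsScalarTower κ K L]
  [FiniteDimensional K L] [Algebra κ K] in
private theorem gg_mp (v : Valuation L ℤᵐ⁰) (A : K[X][X]) :
    gg v (mp K L A) = vmax v (fun p : A.support ×
      (A.support.biUnion fun i => (A.coeff i).support : Finset ℕ) =>
        algebraMap K L ((A.coeff p.1.1).coeff p.2.1)) := by
  refine le_antisymm (gg_le v fun i j => ?_) (Finset.sup_le fun p _ => ?_)
  · rw [mp_coeff]
    by_cases hj : j ∈ (A.coeff i).support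
    · have hi : i ∈ A.support := by
        rw [Polynomial.mem_support_iff]
        intro h0
        rw [h0, support_zero] at hj
        exact absurd hj (Finset.notMem_empty j)
      exact Finset.le_sup (f := fun p : A.support ×
        (A.support.biUnion fun i => (A.coeff i).support : Finset ℕ) =>
          v (algebraMap K L ((A.coeff p.1.1).coeff p.2.1)))
        (Finset.mem_univ (⟨i, hi⟩, ⟨j, Finset.mem_biUnion.2 ⟨i, hi, hj⟩⟩))
    · rw [notMem_support_iff.1 hj, map_zero, map_zero]
      exact zero_le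
  · have h1 := le_gg v (mp K L A) p.1.1 p.2.1
    rwa [mp_coeff] at h1

omit [CharZero K] [CharZero L] in
theorem gh_mp (hK : IsFF κ K) {P : K[X][X]} (hP : P ≠ 0) :
    gh κ (mp K L P) = finrank K L * gh κ P := by
  have hL : IsFF κ L := IsFF.of_finite (K := K) hK
  have h1 := hL.height_ext (K := K) (gg_coeffs_ne_zero hP)
  unfold height at h1
  unfold gh
  simp only [gg_mp]
  rw [h1]
  simp only [gg_eq_vmax]

/-- the curve over `K` under an irreducible curve over `L`, with its degree and its height -/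
theorem exists_crvP (hK : IsFF κ K) {A : L[X][X]} (hA : Irreducible A) (hm : A.natDegree ≠ 0) :
    ∃ P : K[X][X], Irreducible P ∧ P.natDegree ≠ 0 ∧ (∀ G : K[X][X], A ∣ mp K L G ↔ P ∣ G) ∧
      A.natDegree ≤ P.natDegree ∧ P.natDegree ≤ finrank K L * A.natDegree ∧
      gh κ P ≤ gh κ A ∧ gh κ A ≤ finrank K L * gh κ P := by
  obtain ⟨N, hN, hAN, hNd, hNh⟩ := exists_norm_poly (κ := κ) hK hA.ne_zero
  obtain ⟨P, hP, hPd, hPN, hPG⟩ := exists_under hA hm hN hAN
  have hL : IsFF κ L := IsFF.of_finite (K := K) hK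
  have hAP : A ∣ mp K L P := (hPG P).2 dvd_rfl
  refine ⟨P, hP, hPd, hPG, ?_, (natDegree_le_of_dvd hPN hN).trans hNd,
    (gh_le_of_dvd hK hPN hN).trans hNh, ?_⟩
  · have h1 := natDegree_le_of_dvd hAP (mp_ne_zero hP.ne_zero)
    rwa [mp_natDegree] at h1
  · have h1 := gh_le_of_dvd hL hAP (mp_ne_zero hP.ne_zero)
    rwa [gh_mp hK hP.ne_zero] at h1

end heights

end Pool.Agent.Lib.MP_44a246_ntTK
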