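import Mathlib
import Pool.Agent.Lib.MP_44a246_ntTK.TK02
import Pool.Agent.Lib.MP_44a246_ntO.OS1
import Pool.Agent.Lib.MP_44a246_nt.MinInv

/-!
The height of a generator of a finite extension is at most the total Gauss norm of a polynomial
over the base field which it satisfies.
-/

namespace Pool.Agent.Lib.MP_44a246_ntTK

open Pool.Agent.Lib.MP_e52354_nt
open Pool.Agent.Lib.MP_44a246_nt
open Pool.Agent.Lib.MP_44a246_ntL
open Pool.Agent.Lib.MP_44a246_ntS
open Pool.Agent.Lib.MP_44a246_ntF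
open Pool.Agent.Lib.MP_44a246_ntO
open Pool.Agent.Lib.MP_44a246_ntW
open Pool.Agent.Lib.MP_44a246_ntE
open Pool.Agent.Lib.MP_44a246_ntG
open Pool.Agent.Lib.MP_44a246_ntSH
open Pool.Agent.Lib.MP_44a246_ntSP
open WithZero Polynomial Module

variable {κ K L : Type*} [Field κ] [IsAlgClosed κ] [CharZero κ] [Field K] [CharZero K]
  [Field L] [CharZero L] [Algebra κ K] [Algebra K L] [Algebra κ L] [IsScalarTower κ K L]
  [FiniteDimensional K L]

private theorem tk_norm_form (h : IsFF κ K) (v : Place κ K) :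
    ∃ S : Finset (Place κ L), (∀ w, w ∈ S ↔ below K w = v) ∧
    (∀ y : L, y ≠ 0 → log (v.1 (Algebra.norm K y)) = ∑ w ∈ S, log (w.1 y)) := by
  refine (h.of_finite (L := L)).ind ?_
  intro _ _ _ _ _ _ _ _ _
  obtain ⟨S, h1, h2, -⟩ := local_main (L := L) v
  exact ⟨S, h1, h2⟩

/-- the value of a polynomial at an integral point is at most its Gauss norm -/
theorem eval_le_gv {F : Type*} [Field F] (v : Valuation F ℤᵐ⁰) (P : F[X]) {c : F} (hc : v c ≤ 1) :
    v (P.eval c) ≤ gv v P := by
  rw [eval_eq_sum, Polynomial.sum]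
  refine Valuation.map_sum_le v fun i _ => ?_
  rw [map_mul, map_pow]
  calc v (P.coeff i) * v c ^ i ≤ gv v P * 1 :=
        mul_le_mul' (le_gn v P i) (pow_le_one' hc i)
    _ = gv v P := mul_one _

/-- the local inequality for the minimal polynomial -/
theorem sum_over_le (hK : IsFF κ K) {y : L} (hgen : Algebra.adjoin K {y} = ⊤) (v : Place κ K) :
    ∃ S : Finset (Place κ L), (∀ w, w ∈ S ↔ below K w = v) ∧
      ∑ w ∈ S, log (vmax w.1 ![1, y]) ≤ log (gv v.1 (minpoly K y)) := by
  classical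
  obtain ⟨S, hS, hN⟩ := tk_norm_form (L := L) hK v
  refine ⟨S, hS, ?_⟩
  -- the bad constants
  have hsub : ∀ w : Place κ L, {c : κ | w.1 (algebraMap κ L c - y) < 1}.Subsingleton := by
    intro w c hc c' hc'
    by_contra hne
    have h1 : w.1 (algebraMap κ L (c - c')) = 1 := w.2.2 _ (sub_ne_zero.2 hne)
    have h2 : algebraMap κ L (c - c') = (algebraMap κ L c - y) - (algebraMap κ L c' - y) := by
      rw [map_sub]
      ring
    have h3 : w.1 (algebraMap κ L (c - c')) < 1 := by
      rw [h2]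
      exact (w.1.map_sub _ _).trans_lt (max_lt hc hc')
    rw [h1] at h3
    exact lt_irrefl _ h3
  have hfin : ({c : κ | algebraMap κ L c = y} ∪
      ⋃ w ∈ S, {c : κ | w.1 (algebraMap κ L c - y) < 1}).Finite := by
    refine Set.Finite.union ?_ ?_
    · refine Set.Subsingleton.finite fun c hc c' hc' => ?_
      have h1 : algebraMap κ L c = algebraMap κ L c' := Eq.trans hc (Eq.symm hc')
      exact (algebraMap κ L).injective h1
    · exact S.finite_toSet.biUnion fun w _ => (hsub w).finite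
  have hinf : Infinite κ := IsAlgClosed.instInfinite
  obtain ⟨c, hc⟩ := hfin.exists_notMem
  rw [Set.mem_union, not_or, Set.mem_iUnion₂] at hc
  obtain ⟨hc1, hc2⟩ := hc
  have hy0 : algebraMap κ L c - y ≠ 0 := fun h0 => hc1 (sub_eq_zero.1 h0)
  have hc3 : ∀ w ∈ S, 1 ≤ w.1 (algebraMap κ L c - y) := by
    intro w hw
    by_contra hlt
    exact hc2 ⟨w, hw, not_le.1 hlt⟩
  have hcw : ∀ w : Place κ L, w.1 (algebraMap κ L c) ≤ 1 := by
    intro w
    by_cases hc0 : c = 0
    · rw [hc0, map_zero, map_zero]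
      exact zero_le
    · rw [w.2.2 c hc0]
  have hcv : v.1 (algebraMap κ K c) ≤ 1 := by
    by_cases hc0 : c = 0
    · rw [hc0, map_zero, map_zero]
      exact zero_le
    · rw [v.2.2 c hc0]
  have h1 : ∑ w ∈ S, log (vmax w.1 ![1, y]) ≤ ∑ w ∈ S, log (w.1 (algebraMap κ L c - y)) := by
    refine Finset.sum_le_sum fun w hw => ?_
    rw [Pool.Agent.Lib.MP_44a246_ntL.vmax_pair]
    refine (log_le_log (ne_of_gt (lt_of_lt_of_le zero_lt_one (le_max_left _ _)))
      ((w.1.ne_zero_iff).2 hy0)).2 (max_le (hc3 w hw) ?_)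
    have h2 : y = algebraMap κ L c - (algebraMap κ L c - y) := by ring
    conv_lhs => rw [h2]
    exact (w.1.map_sub _ _).trans (max_le ((hcw w).trans (hc3 w hw)) le_rfl)
  refine h1.trans ?_
  rw [← hN _ hy0]
  have h2 : Algebra.norm K (algebraMap κ L c - y) = (minpoly K y).eval (algebraMap κ K c) := by
    rw [IsScalarTower.algebraMap_apply κ K L]
    exact norm_sub_eq hgen _
  have h3 : v.1 (Algebra.norm K (algebraMap κ L c - y)) ≠ 0 :=
    (v.1.ne_zero_iff).2 (Algebra.norm_ne_zero_iff.2 hy0)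
  have h4 : v.1 (Algebra.norm K (algebraMap κ L c - y)) ≤ gv v.1 (minpoly K y) := by
    rw [h2]
    exact eval_le_gv v.1 _ hcv
  exact (log_le_log h3 (ne_of_gt (lt_of_lt_of_le (zero_lt_iff.2 h3) h4))).2 h4

theorem height_le_gv (hK : IsFF κ K) {y : L} (hy : IntermediateField.adjoin K {y} = ⊤) {N : K[X]}
    (hN : N ≠ 0) (h0 : aeval y N = 0) :
    height κ ![1, y] ≤ ∑ᶠ v : Place κ K, log (gv v.1 N) := by
  classical
  have hL : IsFF κ L := IsFF.of_finite (K := K) hK
  have hint : IsIntegral K y := IsIntegral.of_finite K y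
  have hgen : Algebra.adjoin K {y} = ⊤ := by
    rw [← IntermediateField.adjoin_simple_toSubalgebra_of_isAlgebraic hint.isAlgebraic, hy]
    rfl
  have hm0 : minpoly K y ≠ 0 := minpoly.ne_zero hint
  -- the minimal polynomial
  obtain ⟨Q, hQ⟩ := minpoly.dvd K y h0
  have hQ0 : Q ≠ 0 := by
    rintro rfl
    rw [mul_zero] at hQ
    exact hN hQ
  have hsum : ∑ᶠ v : Place κ K, log (gv v.1 N) =
      ∑ᶠ v : Place κ K, log (gv v.1 (minpoly K y)) + ∑ᶠ v : Place κ K, log (gv v.1 Q) := by
    rw [← finsum_add_distrib (gv_support hK hm0) (gv_support hK hQ0)]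
    refine finsum_congr fun v => ?_
    rw [hQ, map_mul, log_mul (fun h => hm0 ((gv_eq_zero v.1).1 h))
      (fun h => hQ0 ((gv_eq_zero v.1).1 h))]
  have hQn := gv_nonneg hK hQ0
  rw [hsum]
  refine le_trans ?_ (le_add_of_nonneg_right hQn)
  -- the sum over the fibres
  choose T hT hle using fun v : Place κ K => sum_over_le hK hgen v
  have hy0 : (![1, y] : Fin 2 → L) ≠ 0 := by
    intro h
    have := congrFun h 0
    simp at this
  have hsg := hL.vmax_support hy0
  have hsf := gv_support hK hm0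
  set F : Finset (Place κ K) := hsf.toFinset ∪ hsg.toFinset.image (below K) with hF
  have hsub : (Function.support fun w : Place κ L => log (vmax w.1 ![1, y])) ⊆
      (F.biUnion T : Finset (Place κ L)) := by
    intro w hw
    rw [Finset.mem_coe, Finset.mem_biUnion]
    refine ⟨below K w, ?_, (hT _ w).2 rfl⟩
    rw [hF, Finset.mem_union]
    exact Or.inr (Finset.mem_image_of_mem _ ((Set.Finite.mem_toFinset _).2 hw))
  have hfs : ∑ᶠ v : Place κ K, log (gv v.1 (minpoly K y)) =
      ∑ v ∈ F, log (gv v.1 (minpoly K y)) := by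
    refine finsum_eq_sum_of_support_subset _ fun v hv => ?_
    rw [hF, Finset.mem_coe, Finset.mem_union]
    exact Or.inl ((Set.Finite.mem_toFinset _).2 hv)
  unfold height
  rw [finsum_eq_sum_of_support_subset _ hsub, Finset.sum_biUnion, hfs]
  · exact Finset.sum_le_sum fun v _ => hle v
  · intro v _ v' _ hne
    rw [Function.onFun, Finset.disjoint_left]
    intro w hw hw'
    exact hne (((hT v w).1 hw).symm.trans ((hT v' w).1 hw'))

end Pool.Agent.Lib.MP_44a246_ntTK
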