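import Mathlib
import Pool.Agent.Lib.MP_44a246_ntSH.CV14
import Pool.Agent.Lib.MP_44a246_ntTK.TK02

/-!
The quotient of the resultant by the power of the discriminant vanishes at the point, for a curve
`A * Q` of which only the factor `A` has the point as a simple zero.
-/

namespace Pool.Agent.Lib.MP_44a246_ntTK

open Pool.Agent.Lib.MP_e52354_nt
open Pool.Agent.Lib.MP_44a246_nt
open Pool.Agent.Lib.MP_44a246_ntL
open Pool.Agent.Lib.MP_44a246_ntS
open Pool.Agent.Lib.MP_44a246_ntF
open Pool.Agent.Lib.MP_44a246_ntO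
open Pool.Agent.Lib.MP_44a246_ntW
open Pool.Agent.Lib.MP_44a246_ntE
open Pool.Agent.Lib.MP_44a246_ntG
open Pool.Agent.Lib.MP_44a246_ntSH
open Pool.Agent.Lib.MP_44a246_ntSP
open WithZero Polynomial Module

private theorem poly_le {κ F : Type*} [Field κ] [Field F]
    [Algebra κ F] {ξ : F} {w : Place κ F} (hw : w.1 ξ ≤ 1) (p : κ[X]) :
    w.1 (aeval ξ p) ≤ 1 := by
  rw [aeval_eq_sum_range]
  refine Valuation.map_sum_le w.1 fun i _ => ?_
  rw [Algebra.smul_def, map_mul, map_pow]
  exact _root_.mul_le_one' (place_const_le w _) (pow_le_one' hw i)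

private theorem xi_le {κ F : Type*} [Field κ] [Field F]
    [Algebra κ F] {ξ : F} {w : Place κ F} {c : κ}
    (hw : w.1 (ξ - algebraMap κ F c) < 1) : w.1 ξ ≤ 1 := by
  have h1 : ξ = (ξ - algebraMap κ F c) + algebraMap κ F c := by ring
  rw [h1]
  exact (w.1.map_add _ _).trans (max_le hw.le (place_const_le w c))

private theorem value_one {κ F : Type*} [Field κ] [Field F]
    [Algebra κ F] {ξ : F} {w : Place κ F} {c : κ}
    (hw : w.1 (ξ - algebraMap κ F c) < 1) {p : κ[X]} (hp : p.eval c ≠ 0) :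
    w.1 (aeval ξ p) = 1 := by
  obtain ⟨q, hq⟩ : (X - C c) ∣ p - C (p.eval c) := by
    rw [dvd_iff_isRoot, IsRoot, eval_sub, eval_C, sub_self]
  have h1 : aeval ξ p = algebraMap κ F (p.eval c) +
      (ξ - algebraMap κ F c) * aeval ξ q := by
    have h2 := congrArg (aeval ξ) hq
    rw [map_sub, map_mul, map_sub, aeval_X, aeval_C, aeval_C] at h2
    rw [← h2]
    ring
  have h3 : w.1 (algebraMap κ F (p.eval c)) = 1 := w.2.2 _ hp
  have h4 : w.1 ((ξ - algebraMap κ F c) * aeval ξ q) < 1 := by
    rw [map_mul]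
    exact mul_lt_one_of_lt_of_le hw (poly_le (xi_le hw) q)
  rw [h1, Valuation.map_add_eq_of_lt_left w.1 (by rw [h3]; exact h4), h3]

universe u

private theorem with_split {L : Type u} [Field L] [CharZero L] (A : L[X][X]) {N : Type*}
    (E : N → Derivation ℤ L L) {P : Prop}
    (hP : ∀ (F : Type u) [Field F] [Algebra (AlgebraicClosure L) F] [Algebra L[X] F] (ξ : F)
      (D : N → Derivation ℤ F F), IsFF (AlgebraicClosure L) F →
      Transcendental (AlgebraicClosure L) ξ →
      (∀ p : L[X], algebraMap L[X] F p = aeval ξ (p.map (algebraMap L (AlgebraicClosure L)))) →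
      (∀ j, ∀ p : L[X], D j (algebraMap L[X] F p) = algebraMap L[X] F (cp (E j) p)) →
      (∀ j, ∀ u : AlgebraicClosure L, ∃ u' : AlgebraicClosure L,
        D j (algebraMap (AlgebraicClosure L) F u) = algebraMap (AlgebraicClosure L) F u') →
      (∀ j, D j ξ = 0) → (A.map (algebraMap L[X] F)).Splits → P) : P := by
  classical
  set κ := AlgebraicClosure L with hκ
  have hchar : CharZero κ := charZero_of_injective_algebraMap (algebraMap L κ).injective
  let ψ : L[X] →+* RatFunc κ := (algebraMap κ[X] (RatFunc κ)).comp (mapRingHom (algebraMap L κ))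
  obtain ⟨F, _, _, hfin, hs⟩ : ∃ (F : Type u) (_ : Field F) (_ : Algebra (RatFunc κ) F),
      FiniteDimensional (RatFunc κ) F ∧
        ((A.map ψ).map (algebraMap (RatFunc κ) F)).Splits :=
    ⟨(A.map ψ).SplittingField, inferInstance, inferInstance, inferInstance,
      SplittingField.splits _⟩
  let iκ : Algebra κ F := ((algebraMap (RatFunc κ) F).comp (algebraMap κ (RatFunc κ))).toAlgebra
  have hT : IsScalarTower κ (RatFunc κ) F := IsScalarTower.of_algebraMap_eq fun _ => rfl
  let iX : Algebra L[X] F := ((algebraMap (RatFunc κ) F).comp ψ).toAlgebra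
  have hFF : IsFF κ F := (sp5b_isFF κ).of_finite
  set ξ : F := algebraMap (RatFunc κ) F RatFunc.X with hξd
  have hξ : Transcendental κ ξ := by
    intro hcon
    exact RatFunc.transcendental_X
      ((isAlgebraic_algebraMap_iff (algebraMap (RatFunc κ) F).injective).mp hcon)
  have halg : Algebra.IsAlgebraic (IntermediateField.adjoin κ {ξ}) F := by
    have h2 : ∀ x : RatFunc κ, algebraMap (RatFunc κ) F x ∈ IntermediateField.adjoin κ {ξ} := by
      intro x
      have h3 : (⊤ : IntermediateField κ (RatFunc κ)).map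
          (IsScalarTower.toAlgHom κ (RatFunc κ) F) = IntermediateField.adjoin κ {ξ} := by
        rw [← RatFunc.adjoin_X, IntermediateField.adjoin_map, Set.image_singleton]
        rfl
      rw [← h3]
      exact ⟨x, IntermediateField.mem_top, rfl⟩
    let f : RatFunc κ →+* IntermediateField.adjoin κ {ξ} :=
      { toFun := fun x => ⟨algebraMap (RatFunc κ) F x, h2 x⟩
        map_one' := by apply Subtype.ext; simp
        map_zero' := by apply Subtype.ext; simp
        map_add' := fun x y => by apply Subtype.ext; simp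
        map_mul' := fun x y => by apply Subtype.ext; simp }
    let iF : Algebra (RatFunc κ) (IntermediateField.adjoin κ {ξ}) := f.toAlgebra
    have : IsScalarTower (RatFunc κ) (IntermediateField.adjoin κ {ξ}) F :=
      IsScalarTower.of_algebraMap_eq fun x => rfl
    exact Algebra.IsAlgebraic.tower_top (K := RatFunc κ) (IntermediateField.adjoin κ {ξ})
  have hψ : ∀ p : L[X], algebraMap L[X] F p = aeval ξ (p.map (algebraMap L κ)) := by
    intro p
    have h1 : algebraMap L[X] F p =
        algebraMap (RatFunc κ) F (algebraMap κ[X] (RatFunc κ) (p.map (algebraMap L κ))) := rfl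
    have h2 : algebraMap κ[X] (RatFunc κ) (p.map (algebraMap L κ)) =
        aeval (RatFunc.X : RatFunc κ) (p.map (algebraMap L κ)) := by
      rw [← RatFunc.algebraMap_X, aeval_algebraMap_apply, aeval_X_left_apply]
    rw [h1, h2, hξd, aeval_algebraMap_apply]
  have hext : ∀ j, ∃ (D' : Derivation ℤ F F), D' ξ = 0 ∧
      (∀ u : κ, ∃ u' : κ, D' (algebraMap κ F u) = algebraMap κ F u') ∧
      ∀ p : L[X], D' (algebraMap L[X] F p) = algebraMap L[X] F (cp (E j) p) := by
    intro j
    obtain ⟨D₀, hD₀⟩ := exists_extension (L := κ) (E j)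
    obtain ⟨D', hD', hX'⟩ := exists_der_ext hξ halg D₀ 0
    refine ⟨D', hX', fun u => ⟨_, hD' u⟩, fun p => ?_⟩
    induction p using Polynomial.induction_on' with
    | add p q hp hq => rw [map_add, map_add, hp, hq, cp_add, map_add]
    | monomial n a =>
      have e1 : cp (E j) (monomial n a) = monomial n (E j a) := by
        ext i
        rw [cp_coeff, coeff_monomial, coeff_monomial]
        split_ifs
        · rfl
        · exact map_zero (E j)
      have e2 : ∀ c : L, algebraMap L[X] F (monomial n c) =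
          algebraMap κ F (algebraMap L κ c) * ξ ^ n := by
        intro c
        rw [hψ, map_monomial, aeval_monomial]
      rw [e1, e2, e2, Derivation.leibniz, Derivation.leibniz_pow, hX', hD', hD₀]
      simp only [smul_eq_mul, mul_zero, zero_add, smul_zero]
      ring
  choose D' hD1 hD2 hD3 using hext
  refine hP F ξ D' hFF hξ hψ hD3 hD2 hD1 ?_
  have h1 : A.map (algebraMap L[X] F) = (A.map ψ).map (algebraMap (RatFunc κ) F) := by
    rw [map_map]
    rfl
  rw [h1]
  exact hs

/-- congruence modulo the maximal ideal of a valuation ring -/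
private def Cg {F : Type*} [Field F] (v : Valuation F ℤᵐ⁰) (a b : F) : Prop :=
  v a ≤ 1 ∧ v b ≤ 1 ∧ v (a - b) < 1

private theorem Cg.add {F : Type*} [Field F] {v : Valuation F ℤᵐ⁰} {a b a' b' : F}
    (h : Cg v a a') (h' : Cg v b b') : Cg v (a + b) (a' + b') := by
  refine ⟨(v.map_add _ _).trans (max_le h.1 h'.1), (v.map_add _ _).trans (max_le h.2.1 h'.2.1), ?_⟩
  have e : a + b - (a' + b') = (a - a') + (b - b') := by ring
  rw [e]
  exact lt_of_le_of_lt (v.map_add _ _) (max_lt h.2.2 h'.2.2)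

private theorem Cg.mul {F : Type*} [Field F] {v : Valuation F ℤᵐ⁰} {a b a' b' : F}
    (h : Cg v a a') (h' : Cg v b b') : Cg v (a * b) (a' * b') := by
  refine ⟨?_, ?_, ?_⟩
  · rw [map_mul]
    exact _root_.mul_le_one' h.1 h'.1
  · rw [map_mul]
    exact _root_.mul_le_one' h.2.1 h'.2.1
  · have e : a * b - a' * b' = (a - a') * b + a' * (b - b') := by ring
    rw [e]
    refine lt_of_le_of_lt (v.map_add _ _) (max_lt ?_ ?_)
    · rw [map_mul]
      exact mul_lt_one_of_lt_of_le h.2.2 h'.1
    · rw [map_mul, mul_comm]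
      exact mul_lt_one_of_lt_of_le h'.2.2 h.2.1

private theorem Cg.pow {F : Type*} [Field F] {v : Valuation F ℤᵐ⁰} {a a' : F}
    (h : Cg v a a') (n : ℕ) : Cg v (a ^ n) (a' ^ n) := by
  induction n with
  | zero =>
    rw [pow_zero, pow_zero]
    refine ⟨?_, ?_, ?_⟩
    · rw [map_one]
    · rw [map_one]
    · rw [sub_self, map_zero]
      exact zero_lt_one
  | succ n ih =>
    rw [pow_succ, pow_succ]
    exact ih.mul h

private theorem Cg.eq_one {F : Type*} [Field F] {v : Valuation F ℤᵐ⁰} {a a' : F}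
    (h : Cg v a a') (h1 : v a' = 1) : v a = 1 := by
  have e : a = a' + (a - a') := by ring
  rw [e, Valuation.map_add_eq_of_lt_left v (by rw [h1]; exact h.2.2), h1]

/-- **The quotient vanishes at the point, reducible case.** -/
theorem quot_eval_zero' {L : Type*} [Field L] [CharZero L] {A Q : L[X][X]}
    (hm : (A * Q).natDegree ≠ 0) {n d : ℕ} {E : Fin (n + 1) → Derivation ℤ L L}
    (hEE : ∀ j, A * Q ∣ EE (E j) (E j) (A * Q)) (hd : dsc (A * Q) ≠ 0)
    {a : (Fin (n + 1) →₀ ℕ) → L} {y₁ y : L} (h0 : A.evalEval y₁ y = 0)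
    (h1 : (derivative A).evalEval y₁ y ≠ 0)
    (hG : (FB d a fun j => -cd (E j) A).evalEval y₁ y = 0) {N : L[X]}
    (hN : rsl (A * Q) d a E = dsc (A * Q) ^ d * N) : N.eval y₁ = 0 := by
  classical
  set κ := AlgebraicClosure L with hκ
  have hchar : CharZero κ := charZero_of_injective_algebraMap (algebraMap L κ).injective
  have hinj : Function.Injective (Polynomial.map (algebraMap L κ)) :=
    map_injective _ (algebraMap L κ).injective
  have hAQ0 : A * Q ≠ 0 := by
    intro h
    rw [h, natDegree_zero] at hm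
    exact hm rfl
  refine with_split (A * Q) E ?_
  intro F _ _ _ ξ D hF hξ hψ hD hDκ hDξ hs
  have hne : ∀ p : L[X], p ≠ 0 → algebraMap L[X] F p ≠ 0 := by
    intro p hp h
    rw [hψ] at h
    have h1 : p.map (algebraMap L κ) ≠ 0 := by
      intro h2
      apply hp
      apply hinj
      rw [h2, Polynomial.map_zero]
    exact hξ ⟨_, h1, h⟩
  have htr : Transcendental κ (ξ - algebraMap κ F (algebraMap L κ y₁)) := by
    intro h
    apply hξ
    have h1 := h.add (isAlgebraic_algebraMap (A := F) (algebraMap L κ y₁))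
    rwa [sub_add_cancel] at h1
  obtain ⟨w, hw⟩ := exists_place_zero hF htr
  have hX := xi_le hw
  have hint : ∀ p : L[X], w.1 (algebraMap L[X] F p) ≤ 1 := fun p => by
    rw [hψ]
    exact poly_le hX _
  let cst : L →+* F := (algebraMap κ F).comp (algebraMap L κ)
  have hcst : ∀ x : L, x ≠ 0 → w.1 (cst x) = 1 := fun x hx =>
    w.2.2 _ ((map_ne_zero (algebraMap L κ)).mpr hx)
  have hcst' : ∀ x : L, w.1 (cst x) ≤ 1 := fun x => place_const_le w _
  -- polynomials in one variable
  have hev : ∀ p : L[X], (p.map (algebraMap L κ)).eval (algebraMap L κ y₁) =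
      algebraMap L κ (p.eval y₁) := fun p => by
    rw [eval_map, eval₂_at_apply]
  have hcg1 : ∀ p : L[X], Cg w.1 (algebraMap L[X] F p) (cst (p.eval y₁)) := by
    intro p
    refine ⟨hint p, hcst' _, ?_⟩
    obtain ⟨q, hq⟩ : (X - C (algebraMap L κ y₁)) ∣
        p.map (algebraMap L κ) - C (algebraMap L κ (p.eval y₁)) := by
      rw [dvd_iff_isRoot, IsRoot, eval_sub, eval_C, hev, sub_self]
    have h2 := congrArg (aeval ξ) hq
    rw [map_sub, map_mul, map_sub, aeval_X, aeval_C, aeval_C, ← hψ] at h2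
    have h3 : algebraMap L[X] F p - cst (p.eval y₁) =
        (ξ - algebraMap κ F (algebraMap L κ y₁)) * aeval ξ q := h2
    rw [h3, map_mul]
    exact mul_lt_one_of_lt_of_le hw (poly_le hX q)
  -- polynomials in two variables
  have hcg2 : ∀ {ρ : F}, Cg w.1 ρ (cst y) → ∀ G : L[X][X],
      Cg w.1 (aeval ρ G) (cst (G.evalEval y₁ y)) := by
    intro ρ hρ G
    induction G using Polynomial.induction_on' with
    | add p q hp hq =>
      rw [map_add, evalEval_add, map_add]
      exact hp.add hq
    | monomial m p =>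
      have e : (monomial m p).evalEval y₁ y = p.eval y₁ * y ^ m := by
        unfold evalEval
        rw [eval_monomial, eval_mul, eval_pow, eval_C]
      rw [e, aeval_monomial, map_mul, map_pow]
      exact (hcg1 p).mul (hρ.pow m)
  have hyy : Cg w.1 (cst y) (cst y) := by
    refine ⟨hcst' y, hcst' y, ?_⟩
    rw [sub_self, map_zero]
    exact zero_lt_one
  -- the Gauss norm of the first factor
  set f : F[X] := A.map (algebraMap L[X] F) with hf
  have hinjF : Function.Injective (algebraMap L[X] F) := by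
    rw [injective_iff_map_eq_zero]
    intro p hp
    by_contra h
    exact hne p h hp
  have hsf : f.Splits := by
    refine hs.of_dvd ?_ ?_
    · rw [Ne, Polynomial.map_eq_zero_iff hinjF]
      exact hAQ0
    · rw [Polynomial.map_mul]
      exact dvd_mul_right _ _
  have hgn : gn w.1 f = 1 := by
    refine le_antisymm (gn_le w.1 fun i => ?_) ?_
    · rw [hf, coeff_map]
      exact hint _
    · obtain ⟨i, hi⟩ : ∃ i, (A.coeff i).eval y₁ ≠ 0 := by
        by_contra hcon
        push Not at hcon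
        apply h1
        unfold evalEval
        rw [eval_eq_sum_range (p := derivative A), eval_finsetSum]
        refine Finset.sum_eq_zero fun i _ => ?_
        rw [coeff_derivative, eval_mul, eval_mul, hcon, zero_mul, zero_mul]
      have h2 := (hcg1 (A.coeff i)).eq_one (hcst _ hi)
      calc (1 : ℤᵐ⁰) = w.1 (algebraMap L[X] F (A.coeff i)) := h2.symm
        _ = w.1 (f.coeff i) := by rw [hf, coeff_map]
        _ ≤ gn w.1 f := le_gn w.1 f i
  have hprod := gn_root_prod w.1 hsf
  rw [hgn] at hprod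
  -- a root which is close to `y`
  have hfy : w.1 (f.eval (cst y)) < 1 := by
    have h2 := (hcg2 hyy A).2.2
    rw [h0, map_zero, sub_zero] at h2
    have e : f.eval (cst y) = aeval (cst y) A := by
      rw [hf, eval_map, aeval_def]
    rw [e]
    exact h2
  obtain ⟨ρ₀, hρ₀, hlt⟩ : ∃ ρ₀ ∈ f.roots, w.1 (cst y - ρ₀) < max 1 (w.1 ρ₀) := by
    by_contra hcon
    push Not at hcon
    have e1 : f.eval (cst y) = f.leadingCoeff * (f.roots.map fun ρ => cst y - ρ).prod := by
      conv_lhs => rw [hsf.eq_prod_roots]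
      rw [eval_mul, eval_C, eval_multiset_prod, Multiset.map_map]
      congr 2
      refine Multiset.map_congr rfl fun ρ _ => ?_
      rw [Function.comp_apply, eval_sub, eval_X, eval_C]
    have e2 : w.1 (f.eval (cst y)) =
        w.1 f.leadingCoeff * (f.roots.map fun ρ => w.1 (cst y - ρ)).prod := by
      rw [e1, map_mul, map_multiset_prod, Multiset.map_map]
      rfl
    have h2 : (f.roots.map fun ρ => max 1 (w.1 ρ)).prod ≤
        (f.roots.map fun ρ => w.1 (cst y - ρ)).prod :=
      Multiset.prod_map_le_prod_map _ _ fun ρ hρ => hcon ρ hρ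
    have h3 : (1 : ℤᵐ⁰) ≤ w.1 (f.eval (cst y)) := by
      rw [e2]
      calc (1 : ℤᵐ⁰) = w.1 f.leadingCoeff * (f.roots.map fun ρ => max 1 (w.1 ρ)).prod := hprod
        _ ≤ _ := mul_le_mul' le_rfl h2
    exact absurd hfy (not_lt.mpr h3)
  have hρ1 : w.1 ρ₀ ≤ 1 := by
    by_contra hcon
    push Not at hcon
    have h2 : w.1 (cst y - ρ₀) = w.1 ρ₀ :=
      Valuation.map_sub_eq_of_lt_right w.1 (lt_of_le_of_lt (hcst' y) hcon)
    rw [h2, max_eq_right hcon.le] at hlt
    exact lt_irrefl _ hlt
  rw [max_eq_left hρ1] at hlt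
  have hρy : Cg w.1 ρ₀ (cst y) := ⟨hρ1, hcst' y, by rw [Valuation.map_sub_swap]; exact hlt⟩
  have hρA : aeval ρ₀ A = 0 := by
    have h2 := (mem_roots'.mp hρ₀).2
    rw [hf, IsRoot, eval_map, ← aeval_def] at h2
    exact h2
  have hd1 : w.1 (aeval ρ₀ (derivative A)) = 1 := (hcg2 hρy _).eq_one (hcst _ h1)
  have hG1 : w.1 (aeval ρ₀ (FB d a fun j => -cd (E j) A)) < 1 := by
    have h2 := (hcg2 hρy (FB d a fun j => -cd (E j) A)).2.2
    rw [hG, map_zero, sub_zero] at h2
    exact h2
  -- passage to the product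
  have hρAQ : aeval ρ₀ (A * Q) = 0 := by
    rw [map_mul, hρA, zero_mul]
  have hlc := hne _ (leadingCoeff_ne_zero.mpr hAQ0)
  have hsimple := root_simple hlc hs (hne _ hd) hρAQ
  have eder : aeval ρ₀ (derivative (A * Q)) = aeval ρ₀ Q * aeval ρ₀ (derivative A) := by
    rw [derivative_mul, map_add, map_mul, map_mul, hρA, zero_mul, add_zero, mul_comm]
  have hq0 : aeval ρ₀ Q ≠ 0 := by
    intro h
    apply hsimple
    rw [eder, h, zero_mul]
  have ecd : ∀ j, aeval ρ₀ (-cd (E j) (A * Q)) = aeval ρ₀ Q * aeval ρ₀ (-cd (E j) A) := by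
    intro j
    obtain ⟨g, hg⟩ := cq_mul_left A Q (E j)
    have h2 := congrArg (aeval ρ₀) hg
    rw [map_sub, map_mul (aeval ρ₀) A, hρA, zero_mul, sub_eq_zero, map_mul] at h2
    exact h2
  have eFB : aeval ρ₀ (FB d a fun j => -cd (E j) (A * Q)) =
      aeval ρ₀ Q ^ d * aeval ρ₀ (FB d a fun j => -cd (E j) A) := by
    unfold FB
    rw [map_sum, map_sum, Finset.mul_sum]
    refine Finset.sum_congr rfl fun I hI => ?_
    have h2 : ∑ j, I j = d := by
      rw [← Finsupp.degree_eq_sum]; exact mem_expo.1 hI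
    rw [map_mul, map_mul, map_prod, map_prod]
    have h3 : ∏ j, aeval ρ₀ ((-cd (E j) (A * Q)) ^ I j) =
        aeval ρ₀ Q ^ d * ∏ j, aeval ρ₀ ((-cd (E j) A) ^ I j) := by
      rw [← h2, ← Finset.prod_pow_eq_pow_sum, ← Finset.prod_mul_distrib]
      refine Finset.prod_congr rfl fun j _ => ?_
      rw [map_pow, map_pow, ecd, mul_pow]
    rw [h3]
    ring
  have hlt' : w.1 (aeval ρ₀ (FB d a fun j => -cd (E j) (A * Q))) <
      w.1 (aeval ρ₀ (derivative (A * Q))) ^ d := by
    rw [eFB, eder, map_mul, map_mul, map_pow, hd1, mul_one]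
    have h2 : (0 : ℤᵐ⁰) < w.1 (aeval ρ₀ Q) ^ d :=
      pow_pos (zero_lt_iff.2 ((Valuation.ne_zero_iff _).2 hq0)) d
    calc w.1 (aeval ρ₀ Q) ^ d * w.1 (aeval ρ₀ (FB d a fun j => -cd (E j) A))
        < w.1 (aeval ρ₀ Q) ^ d * 1 := mul_lt_mul_of_pos_left hG1 h2
      _ = w.1 (aeval ρ₀ Q) ^ d := mul_one _
  have hloc := local_res_lt (d := d) (a := a) hF hξ hD hDκ hDξ hm
    hlc hs (hne _ hd) hEE w (fun I _ => hint _) hρAQ hlt'
  have hgn2 : gn w.1 ((A * Q).map (algebraMap L[X] F)) ≤ 1 := gn_le w.1 fun i => by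
    rw [coeff_map]
    exact hint _
  have hloc2 : w.1 (algebraMap L[X] F (rsl (A * Q) d a E)) <
      w.1 (algebraMap L[X] F (dsc (A * Q))) ^ d := by
    refine hloc.trans_le ?_
    calc _ ≤ w.1 (algebraMap L[X] F (dsc (A * Q))) ^ d * 1 :=
          mul_le_mul' le_rfl (pow_le_one' hgn2 d)
      _ = _ := mul_one _
  rw [hN, map_mul, map_mul, map_pow, map_pow] at hloc2
  have hNlt : w.1 (algebraMap L[X] F N) < 1 := by
    by_contra hcon
    push Not at hcon
    have h2 : w.1 (algebraMap L[X] F (dsc (A * Q))) ^ d * 1 ≤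
        w.1 (algebraMap L[X] F (dsc (A * Q))) ^ d * w.1 (algebraMap L[X] F N) :=
      mul_le_mul' le_rfl hcon
    rw [mul_one] at h2
    exact absurd hloc2 (not_lt.mpr h2)
  by_contra hN0
  have h2 := (hcg1 N).eq_one (hcst _ hN0)
  rw [h2] at hNlt
  exact lt_irrefl _ hNlt

end Pool.Agent.Lib.MP_44a246_ntTK
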