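import Mathlib
import Pool.Agent.Lib.MP_44a246_ntTK.TK02
import Pool.Agent.Lib.MP_44a246_ntTK.TK06
import Pool.Agent.Lib.MP_44a246_ntTK.TK07a
import Pool.Agent.Lib.MP_44a246_ntSH.PR07

/-!
Section 4 over the base field `K`: arithmetic Bezout over `K`.
-/

namespace Pool.Agent.Lib.MP_44a246_ntTK

open Pool.Agent.Lib.MP_e52354_nt
open Pool.Agent.Lib.MP_44a246_nt
open Pool.Agent.Lib.MP_44a246_ntL
open Pool.Agent.Lib.MP_44a246_ntS
open Pool.Agent.Lib.MP_44a246_ntA
open Pool.Agent.Lib.MP_44a246_ntF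
open Pool.Agent.Lib.MP_44a246_ntW
open Pool.Agent.Lib.MP_44a246_ntE
open Pool.Agent.Lib.MP_44a246_ntG
open Pool.Agent.Lib.MP_44a246_ntO
open Pool.Agent.Lib.MP_44a246_ntSH
open Pool.Agent.Lib.MP_44a246_ntSP
open WithZero Polynomial Module

section algebra

variable {K L : Type*} [Field K] [Field L] [Algebra K L]

private theorem mp_natDegree' (P : K[X][X]) : (mp K L P).natDegree = P.natDegree := by
  unfold mp
  rw [coe_mapRingHom]
  exact natDegree_map_eq_of_injective
    (Polynomial.map_injective _ (algebraMap K L).injective) P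

private theorem mp_FB {n e : ℕ} (f : EX (n + 1) e → K) (B : Fin (n + 1) → K[X][X]) :
    mp K L (FB e (ex f) B) = FB e (ex (am L f)) fun j => mp K L (B j) := by
  unfold FB
  rw [map_sum]
  refine Finset.sum_congr rfl fun I hI => ?_
  rw [map_mul, mp_CC, map_prod, ex_of_mem _ hI, ex_of_mem _ hI]
  simp only [map_pow]
  rfl

private theorem res_map (P Q : K[X][X]) (m N : ℕ) :
    resultant (mp K L P) (mp K L Q) m N = (resultant P Q m N).map (algebraMap K L) := by
  unfold mp
  rw [coe_mapRingHom, resultant_map_map, coe_mapRingHom]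

private theorem dsc_map (P : K[X][X]) : dsc (mp K L P) = (dsc P).map (algebraMap K L) := by
  unfold dsc
  rw [mp_derivative', res_map, mp_natDegree']

private theorem rsl_map {n e : ℕ} (P : K[X][X]) (f : EX (n + 1) e → K)
    {E : Fin (n + 1) → Derivation ℤ K K} {E' : Fin (n + 1) → Derivation ℤ L L}
    (h : ∀ j (y : K), E' j (algebraMap K L y) = algebraMap K L (E j y)) :
    rsl (mp K L P) e (ex (am L f)) E' = (rsl P e (ex f) E).map (algebraMap K L) := by
  have h1 : (fun j => mp K L (-cd (E j) P)) = fun j => -cd (E' j) (mp K L P) := by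
    funext j
    rw [cd_eq_cq, cd_eq_cq, ← cqd_apply, ← cqd_apply, cqd_mp (h j), map_neg]
  unfold rsl
  rw [← res_map, mp_FB, mp_natDegree', h1]

/-- a derivation which kills an algebraic element kills the coefficients of the minimal
polynomial -/
private theorem der_minpoly [FiniteDimensional K L] {D : Derivation ℤ K K} {D' : Derivation ℤ L L}
    (h : ∀ y : K, D' (algebraMap K L y) = algebraMap K L (D y)) {y : L} (hy : D' y = 0) (i : ℕ) :
    D ((minpoly K y).coeff i) = 0 := by
  have hint : IsIntegral K y := IsIntegral.of_finite K y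
  have hy' : ∀ k : ℕ, D' (y ^ k) = 0 := by
    intro k
    rw [Derivation.leibniz_pow, hy, smul_zero, smul_zero]
  have hD1 : D 1 = 0 := D.map_one_eq_zero
  obtain ⟨p, hp⟩ : ∃ p, p = minpoly K y := ⟨_, rfl⟩
  obtain ⟨q, hq⟩ : ∃ q : K[X], q = ∑ k ∈ Finset.range p.natDegree, monomial k (D (p.coeff k)) :=
    ⟨_, rfl⟩
  have hqc : ∀ k < p.natDegree, q.coeff k = D (p.coeff k) := by
    intro k hk
    rw [hq, finsetSum_coeff]
    rw [Finset.sum_eq_single k]
    · rw [coeff_monomial, if_pos rfl]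
    · intro l _ hl
      rw [coeff_monomial, if_neg hl]
    · intro h1
      exact absurd (Finset.mem_range.mpr hk) h1
  have hq0 : aeval y q = 0 := by
    have h1 : D' (aeval y p) = 0 := by rw [hp, minpoly.aeval, map_zero]
    rw [aeval_eq_sum_range, map_sum, Finset.sum_range_succ] at h1
    have h2 : D' (p.coeff p.natDegree • y ^ p.natDegree) = 0 := by
      have h3 : p.coeff p.natDegree = 1 := by
        rw [hp]
        exact (minpoly.monic hint)
      rw [h3, one_smul, hy']
    rw [h2, add_zero] at h1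
    rw [hq, map_sum, ← h1]
    refine Finset.sum_congr rfl fun k _ => ?_
    rw [aeval_monomial, Algebra.smul_def, Derivation.leibniz, hy', smul_zero, zero_add, smul_eq_mul,
      h]
    ring
  have hqz : q = 0 := by
    by_contra hne
    have h1 := minpoly.degree_le_of_ne_zero K y hne hq0
    rw [← hp] at h1
    have h2 : q.degree < p.degree := by
      have hp0 : p ≠ 0 := by
        rw [hp]
        exact minpoly.ne_zero hint
      rw [degree_eq_natDegree hp0, hq]
      refine (degree_sum_le _ _).trans_lt ?_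
      rw [Finset.sup_lt_iff (WithBot.bot_lt_coe _)]
      intro k hk
      refine (degree_monomial_le _ _).trans_lt ?_
      exact_mod_cast Finset.mem_range.mp hk
    exact absurd h1 (not_le.mpr h2)
  rw [← hp]
  rcases lt_trichotomy i p.natDegree with hi | hi | hi
  · rw [← hqc i hi, hqz, coeff_zero]
  · have h3 : p.coeff i = 1 := by
      rw [hi, hp]
      exact (minpoly.monic hint)
    rw [h3, hD1]
  · rw [coeff_eq_zero_of_natDegree_lt hi, map_zero]

end algebra

variable {κ K L : Type*} [Field κ] [IsAlgClosed κ] [CharZero κ] [Field K] [CharZero K] [Field L]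
  [CharZero L] [Algebra κ K] [Algebra K L] [Algebra κ L] [IsScalarTower κ K L]
  [FiniteDimensional K L] {n d₀ b : ℕ} {X : DatG κ (L := L) n d₀} {A : L[X][X]}
  (hA : CrvE X b A) {E : Fin (n + 1) → Derivation ℤ K K} {P : K[X][X]} (hP : CrvK X A E P)
  (hK : IsFF κ K) (hpos : 0 < height κ X.x)

omit [CharZero K] in
include hP hpos in
/-- a transcendental element of `K` which is killed by the derivations -/
theorem exists_transc : ∃ ξ : K, Transcendental κ ξ ∧ ∀ j, E j ξ = 0 := by
  by_contra hcon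
  push Not at hcon
  have halg : ∀ i, IsAlgebraic κ ((minpoly K X.y₁).coeff i) := by
    intro i
    by_contra h1
    obtain ⟨j, hj⟩ := hcon _ h1
    exact hj (der_minpoly (hP.hE j) (X.E_y₁ j) i)
  have hκ : ∀ i, ∃ c : κ, algebraMap κ K c = (minpoly K X.y₁).coeff i := by
    intro i
    have hint : IsIntegral κ ((minpoly K X.y₁).coeff i) := (halg i).isIntegral
    exact minpoly.mem_range_of_degree_eq_one κ _
      (IsAlgClosed.degree_eq_one_of_irreducible κ (minpoly.irreducible hint))
  have hl : minpoly K X.y₁ ∈ Polynomial.lifts (algebraMap κ K) := by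
    rw [Polynomial.lifts_iff_coeff_lifts]
    exact fun i => hκ i
  rw [Polynomial.mem_lifts] at hl
  obtain ⟨q, hq⟩ := hl
  apply transc_y₁ X hpos
  refine ⟨q, ?_, ?_⟩
  · rintro rfl
    rw [Polynomial.map_zero] at hq
    exact minpoly.ne_zero (IsIntegral.of_finite K X.y₁) hq.symm
  · have h1 := minpoly.aeval K X.y₁
    rw [← hq, aeval_map_algebraMap] at h1
    exact h1

include hA hP hK hpos

/-- **The norm of a form on the curve over `K`.** -/
theorem exists_norm_K {e : ℕ} {f : EX (n + 1) e → K} (hf : f ∉ VI P (BK E P) e)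
    {g : Place κ K → ℤ} (hg : DistLE κ (VI P (BK E P) e) f g) :
    ∃ N : K[X], N ≠ 0 ∧ (Fval e (ex (am L f)) X.x = 0 → aeval X.y₁ N = 0) ∧
      ∑ᶠ v : Place κ K, log (gv v.1 N) ≤ e * gh κ P + P.natDegree * ∑ᶠ v, g v := by
  obtain ⟨ξ, hξ, hEξ⟩ := exists_transc hP hpos
  have hA0 : P ≠ 0 := hP.irr.ne_zero
  obtain ⟨N, hN⟩ := dsc_pow_dvd hP.irr hP.deg hP.EE (d := e) (a := ex f)
  have hN0 : N ≠ 0 := by
    rintro rfl
    apply hf
    unfold BK
    rw [mem_VI']
    refine Pool.Agent.Lib.MP_44a246_ntSH.dvd_of_res hP.irr hP.deg (natDegree_FB_cd P (ex f) E) ?_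
    have h1 : rsl P e (ex f) E = 0 := by rw [hN, mul_zero]
    exact h1
  refine ⟨N, hN0, fun hz => ?_, ?_⟩
  · obtain ⟨Q, hQ, -⟩ := hP.quo
    rw [aeval_def, ← eval_map]
    refine quot_eval_zero' (A := A) (Q := Q) (n := n) (d := e) (E := X.E) (a := ex (am L f))
      (y := X.y) ?_ ?_ ?_ hA.zero hA.der (FB_zero_point X hA.toCrvG hz) ?_
    · rw [← hQ, mp_natDegree']
      exact hP.deg
    · intro j
      have h1 : EE (X.E j) (X.E j) (A * Q) = mp K L (EE (E j) (E j) P) := by
        rw [EE_eq_wr, EE_eq_wr, ← wr_mp (hP.hE j), ← hQ, map_neg, ← cqd_apply, ← cqd_apply,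
          cqd_mp (hP.hE j)]
      rw [h1, ← hQ]
      obtain ⟨T, hT⟩ := hP.EE j
      rw [hT, map_mul]
      exact dvd_mul_right _ _
    · rw [← hQ, dsc_map]
      intro h1
      rw [Polynomial.map_eq_zero_iff (algebraMap K L).injective] at h1
      exact dsc_ne_zero hP.irr hP.deg h1
    · rw [← hQ, rsl_map P f hP.hE, hN, Polynomial.map_mul, Polynomial.map_pow, dsc_map]
  have s3 := gg_support hK hA0
  have s4 : (Function.support fun w : Place κ K => (e : ℤ) * log (gg w.1 P)).Finite := by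
    refine s3.subset fun w hw h0 => hw ?_
    have h0' : log (gg w.1 P) = 0 := h0
    simp only
    rw [h0', mul_zero]
  have s5 : (Function.support fun w : Place κ K => (P.natDegree : ℤ) * g w).Finite := by
    refine hg.1.subset fun w hw h0 => hw ?_
    simp only
    rw [h0, mul_zero]
  have hsum : ∑ᶠ w : Place κ K, ((e : ℤ) * log (gg w.1 P) + (P.natDegree : ℤ) * g w) =
      (e : ℤ) * gh κ P + (P.natDegree : ℤ) * ∑ᶠ w, g w := by
    rw [finsum_add_distrib s4 s5, ← mul_finsum, ← mul_finsum]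
    rfl
  rw [← hsum]
  refine finsum_mono (gv_support hK hN0)
    ((s4.union s5).subset (Function.support_add _ _)) fun w => ?_
  obtain ⟨u, hu, hub⟩ := hg.2 w
  have hN' : rsl P e (ex u) E = dsc P ^ e * N := by
    rw [← hN]
    exact rsl_congr hA0 hu
  have h3 := local_quot hK hP.irr hP.deg hP.Eκ hξ hEξ hP.EE w
    (a := ex u) (s := exp (g w)) (fun I hI => by
      rw [ex_of_mem _ hI]
      exact hub _) hN'
  have hgA : gg w.1 P ≠ 0 := by
    rw [Ne, gg_eq_zero]
    exact hA0
  have hgN : gv w.1 N ≠ 0 := by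
    rw [Ne, gv_eq_zero]
    exact hN0
  rw [log_le_iff_le_exp hgN]
  refine h3.trans (le_of_eq ?_)
  have e1 : gg w.1 P ^ e = exp ((e : ℤ) * log (gg w.1 P)) := by
    conv_lhs => rw [← exp_log hgA]
    rw [← exp_nsmul, nsmul_eq_mul]
  have e2 : exp (g w) ^ P.natDegree = exp ((P.natDegree : ℤ) * g w) := by
    rw [← exp_nsmul, nsmul_eq_mul]
  rw [exp_add, e1, e2]

/-- **Arithmetic Bezout over `K`.** -/
theorem bezout_K {e : ℕ} {f : EX (n + 1) e → K} (hf : f ∉ VI P (BK E P) e)
    {g : Place κ K → ℤ} (hg : DistLE κ (VI P (BK E P) e) f g) :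
    -((e : ℤ) * gh κ P) ≤ P.natDegree * ∑ᶠ v, g v := by
  obtain ⟨N, hN, -, h1⟩ := exists_norm_K hA hP hK hpos hf hg
  have h2 := gv_nonneg hK hN
  linarith

/-- Arithmetic Bezout over `K`, for a form which vanishes at the point. -/
theorem bezout_K_zero (hy : IntermediateField.adjoin K {X.y₁} = ⊤) {e : ℕ}
    {f : EX (n + 1) e → K} (hf : f ∉ VI P (BK E P) e) (hz : Fval e (ex (am L f)) X.x = 0)
    {g : Place κ K → ℤ} (hg : DistLE κ (VI P (BK E P) e) f g) :
    height κ X.x - (e : ℤ) * gh κ P ≤ P.natDegree * ∑ᶠ v, g v := by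
  obtain ⟨N, hN, hN', h1⟩ := exists_norm_K hA hP hK hpos hf hg
  have h2 := height_le_gv hK hy hN (hN' hz)
  rw [X.height_y₁] at h2
  linarith

end Pool.Agent.Lib.MP_44a246_ntTK
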