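import Mathlib
import Pool.Agent.Lib.MP_44a246_ntTK.TK07b
import Pool.Agent.Lib.MP_44a246_ntTK.TK03
import Pool.Agent.Lib.MP_44a246_ntSH.EL03a
import Pool.Agent.Lib.MP_44a246_ntSP.GH01

/-!
Section 4 over the base field `K`: the heights of the spaces of forms which vanish on the curve,
Bezout for forms in constant linear forms, the number of independent functions.
-/

namespace Pool.Agent.Lib.MP_44a246_ntTK

open Pool.Agent.Lib.MP_e52354_nt
open Pool.Agent.Lib.MP_44a246_nt
open Pool.Agent.Lib.MP_44a246_ntL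
open Pool.Agent.Lib.MP_44a246_ntS
open Pool.Agent.Lib.MP_44a246_ntA
open Pool.Agent.Lib.MP_44a246_ntF
open Pool.Agent.Lib.MP_44a246_ntW
open Pool.Agent.Lib.MP_44a246_ntE
open Pool.Agent.Lib.MP_44a246_ntG
open Pool.Agent.Lib.MP_44a246_ntO
open Pool.Agent.Lib.MP_44a246_ntSH
open Pool.Agent.Lib.MP_44a246_ntSP
open Pool.Agent.Lib.MP_44a246_ntR (genus)
open WithZero Polynomial Module

variable {κ K L : Type*} [Field κ] [IsAlgClosed κ] [CharZero κ] [Field K] [CharZero K] [Field L]
  [CharZero L] [Algebra κ K] [Algebra K L] [Algebra κ L] [IsScalarTower κ K L]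
  [FiniteDimensional K L]

section

variable {n d₀ b : ℕ} {X : DatG κ (L := L) n d₀} {A : L[X][X]} (hA : CrvE X b A)
  {E : Fin (n + 1) → Derivation ℤ K K} {P : K[X][X]} (hP : CrvK X A E P) (hK : IsFF κ K)
  (hpos : 0 < height κ X.x)

include hA hP hK hpos

theorem bezout4_K {k e : ℕ} {c : Fin k → Fin (n + 1) → κ} {f : EX k e → K}
    (hf : f ∉ VI P (B4 (fun i j => algebraMap κ K (c i j)) (BK E P)) e) {g : Place κ K → ℤ}
    (hg : DistLE κ (VI P (B4 (fun i j => algebraMap κ K (c i j)) (BK E P)) e) f g) :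
    -((e : ℤ) * gh κ P) ≤ P.natDegree * ∑ᶠ v, g v :=
  bezout_K hA hP hK hpos (fun h1 => hf ((lsub_mem_VI c).1 h1)) hg.lsub

theorem ht_VI_K_le (e : ℕ) : (P.natDegree : ℤ) * ht κ (VI P (BK E P) e) ≤
    ((Fintype.card (EX (n + 1) e) : ℤ) - finrank K (VI P (BK E P) e)) *
      (e * gh κ P + P.natDegree * (genus κ K + 1)) := by
  have h1 := ht_ge_of_dist hK (le_top : VI P (BK E P) e ≤ ⊤)
    (fun v _ hv g hg => bezout_K hA hP hK hpos hv hg)
  rw [finrank_top, Module.finrank_fintype_fun_eq_card, ht_top hK] at h1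
  linarith

theorem ht_VI4_K_le {k : ℕ} (c : Fin k → Fin (n + 1) → κ) (e : ℕ) :
    (P.natDegree : ℤ) * ht κ (VI P (B4 (fun i j => algebraMap κ K (c i j)) (BK E P)) e) ≤
      ((Fintype.card (EX k e) : ℤ) -
        finrank K (VI P (B4 (fun i j => algebraMap κ K (c i j)) (BK E P)) e)) *
      (e * gh κ P + P.natDegree * (genus κ K + 1)) := by
  have h1 := ht_ge_of_dist hK (le_top :
    VI P (B4 (fun i j => algebraMap κ K (c i j)) (BK E P)) e ≤ ⊤)
    (fun v _ hv g hg => bezout4_K hA hP hK hpos hv hg)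
  rw [finrank_top, Module.finrank_fintype_fun_eq_card, ht_top hK] at h1
  linarith

/-- **Bezout for forms in constant linear forms** which vanish at the point -/
theorem bezout4_zero_K (hy : IntermediateField.adjoin K {X.y₁} = ⊤) {k e : ℕ}
    (c : Fin k → Fin (n + 1) → κ) {f : MvPolynomial (Fin k) K} (hf : f.IsHomogeneous e)
    (hf0 : f ≠ 0)
    (hnd : ¬ P ∣ MvPolynomial.aeval
      (fun i => ∑ j, C (C (algebraMap κ K (c i j))) * BK E P j) f)
    (hz : MvPolynomial.eval (fun i => ∑ j, algebraMap κ L (c i j) * X.x j)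
      (MvPolynomial.map (algebraMap K L) f) = 0) :
    height κ X.x - (e : ℤ) * gh κ P ≤ P.natDegree * polyHeight κ f := by
  classical
  obtain ⟨F, hF⟩ : ∃ F : MvPolynomial (Fin (n + 1)) K,
    F = MvPolynomial.aeval (fun i => clin (L := K) (c i)) f := ⟨_, rfl⟩
  have hFh : F.IsHomogeneous e := by
    have h1 := hf.aeval (fun i => clin (L := K) (c i)) (n := 1) fun i => clin_hom (c i)
    rwa [one_mul, ← hF] at h1
  obtain ⟨F', hF'⟩ : ∃ F' : EX (n + 1) e → K, F' = fun I => F.coeff I.1 := ⟨_, rfl⟩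
  have hpf : pf F' = F := by rw [hF']; exact pf_coeff hFh
  have hnot : F' ∉ VI P (BK E P) e := by
    rw [mem_VI, hpf, hF, MvPolynomial.comp_aeval_apply]
    intro h1
    apply hnd
    have h2 : (fun i => MvPolynomial.aeval (BK E P) (clin (L := K) (c i))) =
        fun i => ∑ j, C (C (algebraMap κ K (c i j))) * BK E P j := by
      funext i
      unfold clin
      rw [map_sum]
      refine Finset.sum_congr rfl fun j _ => ?_
      rw [map_mul, MvPolynomial.aeval_X, MvPolynomial.aeval_C]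
      rfl
    rw [h2] at h1
    exact h1
  have hzero : Fval e (ex (am L F')) X.x = 0 := by
    have h1 : Fval e (ex (am L F')) X.x =
        Fval e (fun I => (MvPolynomial.map (algebraMap K L) F).coeff I) X.x := by
      unfold Fval
      refine Finset.sum_congr rfl fun I hI => ?_
      rw [ex_of_mem _ hI]
      congr 1
      show algebraMap K L (F' ⟨I, hI⟩) = (MvPolynomial.map (algebraMap K L) F).coeff I
      rw [MvPolynomial.coeff_map, hF']
    have hFhL : (MvPolynomial.map (algebraMap K L) F).IsHomogeneous e := hFh.map _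
    rw [h1, ← eval_eq_Fval' hFhL]
    have h2 : MvPolynomial.map (algebraMap K L) F =
        MvPolynomial.aeval (fun i => clin (L := L) (c i)) (MvPolynomial.map (algebraMap K L) f) := by
      rw [hF]
      have h3 : (MvPolynomial.map (algebraMap K L)).comp
          (MvPolynomial.aeval (R := K) (fun i => clin (n := n + 1) (L := K) (c i))).toRingHom =
          ((MvPolynomial.aeval (R := L) (fun i => clin (n := n + 1) (L := L) (c i))).toRingHom).comp
            (MvPolynomial.map (algebraMap K L)) := by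
        apply MvPolynomial.ringHom_ext
        · intro u
          simp
        · intro i
          simp only [RingHom.comp_apply, AlgHom.toRingHom_eq_coe, RingHom.coe_coe,
            MvPolynomial.aeval_X, MvPolynomial.map_X]
          unfold clin
          rw [map_sum]
          refine Finset.sum_congr rfl fun j _ => ?_
          rw [map_mul, MvPolynomial.map_C, MvPolynomial.map_X, ← IsScalarTower.algebraMap_apply]
      exact congrArg (fun F : MvPolynomial (Fin k) K →+* MvPolynomial (Fin (n + 1)) L => F f) h3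
    rw [h2, ← MvPolynomial.coe_aeval_eq_eval]
    change MvPolynomial.aeval X.x _ = 0
    rw [MvPolynomial.comp_aeval_apply, ← hz, ← MvPolynomial.coe_aeval_eq_eval]
    change _ = MvPolynomial.aeval _ (MvPolynomial.map (algebraMap K L) f)
    congr 2
    funext i
    unfold clin
    rw [map_sum]
    refine Finset.sum_congr rfl fun j _ => ?_
    rw [map_mul, MvPolynomial.aeval_X, MvPolynomial.aeval_C]
    rfl
  rw [polyHeight_eq]
  refine bezout_K_zero hA hP hK hpos hy hnot hzero
    ⟨nrm_support hK hf0, fun v => ⟨F', ?_, fun I => ?_⟩⟩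
  · rw [sub_self]
    exact Submodule.zero_mem _
  · have h1 : v.1 (F' I) ≤ nrm v.1 F := by
      rw [hF']
      exact le_nrm v.1 F I.1
    rw [exp_log (nrm_ne_zero v.1 hf0)]
    refine h1.trans ?_
    rw [hF]
    exact nrm_aeval_clin_le v c f

/-- the height of the space of the linear relations -/
theorem ht_dvS_K_le : (P.natDegree : ℤ) * ht κ (dvS P (BK E P)) ≤
    (((n : ℤ) + 1) - finrank K (dvS P (BK E P))) *
      (gh κ P + P.natDegree * (genus κ K + 1)) := by
  have h1 := ht_ge_of_dist hK (le_top : dvS P (BK E P) ≤ ⊤) (c := -(((1 : ℕ) : ℤ) * gh κ P))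
    (m := P.natDegree) (fun v _ hv g hg => by
      refine bezout_K hA hP hK hpos (fun h0 => hv (v1_mem_VI.1 h0)) ⟨hg.1, fun w => ?_⟩
      obtain ⟨u, hu1, hu2⟩ := hg.2 w
      refine ⟨v1 u, ?_, v1_le w.1 hu2⟩
      rw [← v1_sub]
      exact v1_mem_VI.2 hu1)
  rw [finrank_top, Module.finrank_fintype_fun_eq_card, Fintype.card_fin, ht_top hK] at h1
  push_cast at h1
  linarith

/-- **The number of independent functions** over `K`. -/
theorem indep_K {C₀ : ℕ} (hC₀ : 0 < C₀) (hsl : ∀ Q : Submodule L (Fin (n + 1) → L), X.x ∈ Q →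
      n * ((height κ X.x : ℝ) - ht κ Q) ≤ C₀ * height κ X.x * ((finrank L Q : ℝ) - 1))
    (hsm : 2 * (finrank K L * (((n : ℤ) + 1) * (gh κ P + (genus κ K + 1)))) ≤ height κ X.x) :
    n / (2 * C₀) + 1 + finrank K (dvS P (BK E P)) ≤ n + 1 := by
  have h : IsFF κ L := IsFF.of_finite (K := K) hK
  obtain ⟨V, hV⟩ : ∃ V, V = dvS P (BK E P) := ⟨_, rfl⟩
  have h1 := ht_dvS_K_le hA hP hK hpos
  rw [← hV] at h1 ⊢
  have hx : X.x ∈ orth (bc L V) := by
    rw [mem_orth]
    have hle : bc L V ≤ dvS A (X.B A) := by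
      unfold bc
      rw [Submodule.span_le]
      rintro _ ⟨c, hc, rfl⟩
      rw [hV] at hc
      exact (hP.mem_dvS hA.irr.prime).1 hc
    intro c hc
    exact mem_orth.1 (mem_orth_dvS hA.toCrvG) c (hle hc)
  have h2 := hsl _ hx
  rw [ht_orth h, ht_bc hK] at h2
  have h3 := finrank_orth (bc L V)
  rw [Fintype.card_fin, finrank_bc] at h3
  have hm : (1 : ℤ) ≤ P.natDegree := by
    have := Nat.pos_of_ne_zero hP.deg
    exact_mod_cast this
  have hg : 0 ≤ gh κ P := gh_nonneg hK hP.irr.ne_zero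
  have hγ : (0 : ℤ) ≤ genus κ K + 1 := by positivity
  have h4 : (P.natDegree : ℤ) * ht κ V ≤
      P.natDegree * (((n : ℤ) + 1) * (gh κ P + (genus κ K + 1))) := by
    have e1 : (((n : ℤ) + 1) - finrank K V) ≤ (n : ℤ) + 1 := by
      have : (0 : ℤ) ≤ finrank K V := Int.natCast_nonneg _
      linarith
    have e2 : (0 : ℤ) ≤ gh κ P + P.natDegree * (genus κ K + 1) := by positivity
    have e3 := mul_le_mul_of_nonneg_right e1 e2
    have e4 : gh κ P ≤ P.natDegree * gh κ P := le_mul_of_one_le_left hg hm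
    have e5 : (0 : ℤ) ≤ (n : ℤ) + 1 := by positivity
    nlinarith [mul_le_mul_of_nonneg_left e4 e5]
  have h5 : ht κ V ≤ ((n : ℤ) + 1) * (gh κ P + (genus κ K + 1)) :=
    le_of_mul_le_mul_left h4 (by linarith)
  have h6 : 2 * ((finrank K L * ht κ V : ℤ) : ℝ) ≤ height κ X.x := by
    have h7 : (finrank K L : ℤ) * ht κ V ≤
        finrank K L * (((n : ℤ) + 1) * (gh κ P + (genus κ K + 1))) :=
      mul_le_mul_of_nonneg_left h5 (Int.natCast_nonneg _)
    have : 2 * (finrank K L * ht κ V) ≤ height κ X.x := by linarith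
    exact_mod_cast this
  have hH : (0 : ℝ) < height κ X.x := by exact_mod_cast hpos
  obtain ⟨q, hq⟩ : ∃ q : ℕ, q = finrank L (orth (bc L V)) := ⟨_, rfl⟩
  rw [← hq] at h2 h3
  have h7 : (n : ℝ) ≤ 2 * C₀ * ((q : ℝ) - 1) := by
    have h8 : (n : ℝ) * (height κ X.x : ℝ) ≤ (2 * C₀ * ((q : ℝ) - 1)) * height κ X.x := by
      have h9 : (0 : ℝ) ≤ n := Nat.cast_nonneg n
      nlinarith [mul_le_mul_of_nonneg_left h6 h9]
    exact le_of_mul_le_mul_right h8 hH
  have h8 : n + 2 * C₀ ≤ 2 * C₀ * q := by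
    have : (n : ℝ) + 2 * C₀ ≤ 2 * C₀ * q := by linarith
    exact_mod_cast this
  have h9 : 2 * C₀ * (n / (2 * C₀)) ≤ n := Nat.mul_div_le n (2 * C₀)
  have h10 : 2 * C₀ * (n / (2 * C₀) + 1) ≤ 2 * C₀ * q := by
    rw [mul_add, mul_one]
    omega
  have h11 : n / (2 * C₀) + 1 ≤ q := Nat.le_of_mul_le_mul_left h10 (by omega)
  omega

end

omit [IsAlgClosed κ] [CharZero κ] [CharZero K] [CharZero L] in
/-- **The number of independent functions** over `L`. -/
theorem indep_L {n d₀ b : ℕ} {X : DatG κ (L := L) n d₀} {A : L[X][X]} (hA : CrvE X b A)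
    {E : Fin (n + 1) → Derivation ℤ K K} {P : K[X][X]} (hP : CrvK X A E P) {N r : ℕ}
    (hr : finrank K L ≤ r) (hN : N * r + 1 + finrank K (dvS P (BK E P)) ≤ n + 1) :
    N + 1 + finrank L (dvS A (X.B A)) ≤ n + 1 := by
  obtain ⟨V, hV⟩ : ∃ V, V = dvS A (X.B A) := ⟨_, rfl⟩
  rw [← hV]
  have h1 : finrank L V ≤ n + 1 := by
    have := Submodule.finrank_le V
    rwa [Module.finrank_fintype_fun_eq_card, Fintype.card_fin] at this
  obtain ⟨w, hw⟩ := Nat.exists_eq_add_of_le h1
  have h2 := codim_am (V := V) (W := dvS P (BK E P)) (fun c hc => by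
    rw [hV] at hc
    exact (hP.mem_dvS hA.irr.prime).2 hc) (w := w) (by
      rw [Fintype.card_fin]
      omega)
  rw [Fintype.card_fin] at h2
  have h3 : N * r + 1 ≤ finrank K L * w := by omega
  have h4 : N < w := by
    by_contra hcon
    push Not at hcon
    have h5 : finrank K L * w ≤ r * N := Nat.mul_le_mul hr hcon
    have h6 : r * N = N * r := mul_comm _ _
    omega
  omega

end Pool.Agent.Lib.MP_44a246_ntTK
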