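import Mathlib
import Pool.Agent.Lib.MP_44a246_ntTK.TK09b
import Pool.Agent.Lib.MP_44a246_ntTK.TK07b

/-!
Section 4 over the base field `K`: section 3 over `K`.
-/

namespace Pool.Agent.Lib.MP_44a246_ntTK

open Pool.Agent.Lib.MP_e52354_nt
open Pool.Agent.Lib.MP_44a246_nt
open Pool.Agent.Lib.MP_44a246_ntL
open Pool.Agent.Lib.MP_44a246_ntS
open Pool.Agent.Lib.MP_44a246_ntA
open Pool.Agent.Lib.MP_44a246_ntF
open Pool.Agent.Lib.MP_44a246_ntO
open Pool.Agent.Lib.MP_44a246_ntW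
open Pool.Agent.Lib.MP_44a246_ntE
open Pool.Agent.Lib.MP_44a246_ntG
open Pool.Agent.Lib.MP_44a246_ntSH
open Pool.Agent.Lib.MP_44a246_ntSP
open Pool.Agent.Lib.MP_44a246_ntUV
open Pool.Agent.Lib.MP_44a246_ntR (genus)
open WithZero Polynomial Module

variable {κ K L : Type*} [Field κ] [IsAlgClosed κ] [CharZero κ] [Field K] [CharZero K] [Field L]
  [CharZero L] [Algebra κ K] [Algebra K L] [Algebra κ L] [IsScalarTower κ K L]
  [FiniteDimensional K L]

/-- **Section 3** over the base field `K`. -/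
theorem r2_le_K (hK : IsFF κ K) {n p d₀ b : ℕ} {X : DatG κ (L := L) n d₀} {A : L[X][X]}
    (hA : CrvE X b A) {E : Fin (n + 1) → Derivation ℤ K K} {P : K[X][X]} (hP : CrvK X A E P)
    (hpos : 0 < height κ X.x) (hy : IntermediateField.adjoin K {X.y₁} = ⊤) {d : Fin p → ℕ}
    {D : (Σ j, EX (n + 1) (d j)) → Derivation ℤ K K}
    {D' : (Σ j, EX (n + 1) (d j)) → Derivation ℤ L L}
    (hD : ∀ s (y : K), D' s (algebraMap K L y) = algebraMap K L (D s y))
    {v : Fin p → L} {g : Fin p → Fin (n + 1) → L}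
    (hcol : ∀ s j, D' s (v j) = (if s.1 = j then mon X.x s.2.1 else 0) +
      ∑ i, g j i * D' s (X.x i))
    {δ : Place κ L → ℕ} (hδ : (Function.support δ).Finite) (hDδ : ∀ s, PoleBound κ (D' s) δ)
    (S : Finset (Place κ L))
    (hS : ∀ w ∉ S, ∀ j, v j ≠ 0 → vmax w.1 X.x ^ d j ≤ w.1 (v j))
    {d' : ℕ} (hd : ∀ j, d j ≤ d') :
    ∃ r₂ : ℕ, finrank K (ZF P (BK E P) D) ≤
        finrank K (ZF P (BK E P) D ⊓ IId P (BK E P) d : Submodule K _) +
          ((1 + p) * finrank K L + r₂) ∧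
      (r₂ : ℤ) * (height κ X.x - d' * gh κ P - P.natDegree * (genus κ K + 1)) ≤
      P.natDegree * (ht κ (ZF P (BK E P) D) + (∑ᶠ w, (δ w : ℤ)) + 2 * height κ X.x +
        (p * (∑ᶠ w, (δ w : ℤ)) + S.card) + (1 + p) * (finrank K L * (genus κ K + 1))) :=
  r2_le_K_of hK hA hP hD hcol hδ hDδ S hS hd fun _ _ hf hz _ hg =>
    bezout_K_zero hA hP hK hpos hy hf hz hg

end Pool.Agent.Lib.MP_44a246_ntTK
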