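import Mathlib
import Pool.Agent.Lib.MP_44a246_ntO.OS1
import Pool.Agent.Lib.MP_44a246_ntSH.EL03
import Pool.Agent.Lib.MP_44a246_ntTK.TK02
import Pool.Agent.Lib.MP_44a246_ntTK.TK07c

/-!
Section 4 over the base field `K`: no form of small degree over `K` in `z' γ, 1, X, Y` vanishes on
the curve.
-/

namespace Pool.Agent.Lib.MP_44a246_ntTK

open Pool.Agent.Lib.MP_e52354_nt
open Pool.Agent.Lib.MP_44a246_nt
open Pool.Agent.Lib.MP_44a246_ntL
open Pool.Agent.Lib.MP_44a246_ntS
open Pool.Agent.Lib.MP_44a246_ntF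
open Pool.Agent.Lib.MP_44a246_ntO
open Pool.Agent.Lib.MP_44a246_ntW
open Pool.Agent.Lib.MP_44a246_ntE
open Pool.Agent.Lib.MP_44a246_ntG
open Pool.Agent.Lib.MP_44a246_ntSH
open Pool.Agent.Lib.MP_44a246_ntSP
open Pool.Agent.Lib.MP_44a246_ntR (genus)
open WithZero Polynomial Module

variable {κ K L : Type*} [Field κ] [IsAlgClosed κ] [CharZero κ] [Field K] [CharZero K] [Field L]
  [CharZero L] [Algebra κ K] [Algebra K L] [Algebra κ L] [IsScalarTower κ K L]
  [FiniteDimensional K L]

section height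

omit [CharZero L] in
/-- the height of a polynomial over a finite extension -/
theorem polyHeight_map_alg (hL : IsFF κ L) {σ : Type*} {A : MvPolynomial σ K} (hA : A ≠ 0) :
    polyHeight κ (MvPolynomial.map (algebraMap K L) A) = finrank K L * polyHeight κ A := by
  classical
  have hs : (MvPolynomial.map (algebraMap K L) A).support = A.support :=
    MvPolynomial.support_map_of_injective A (algebraMap K L).injective
  have hx : (fun I : A.support => A.coeff I.1) ≠ 0 := by
    intro h0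
    apply hA
    ext I
    rw [MvPolynomial.coeff_zero]
    by_contra hI
    exact hI (congrFun h0 ⟨I, MvPolynomial.mem_support_iff.2 hI⟩)
  have e1 : polyHeight κ (MvPolynomial.map (algebraMap K L) A) =
      height κ (fun I : A.support => algebraMap K L (A.coeff I.1)) := by
    unfold polyHeight height vmax
    refine finsum_congr fun w => ?_
    rw [hs, Finset.univ_eq_attach,
      Finset.sup_attach A.support (fun I => w.1 (algebraMap K L (A.coeff I)))]
    simp only [MvPolynomial.coeff_map]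
  have e2 : polyHeight κ A = height κ (fun I : A.support => A.coeff I.1) := by
    unfold polyHeight height vmax
    refine finsum_congr fun v => ?_
    rw [Finset.univ_eq_attach, Finset.sup_attach A.support (fun I => v.1 (A.coeff I))]
  rw [e1, e2]
  exact hL.height_ext hx

/-- a form over `K` over the larger field -/
theorem map_pf {n e : ℕ} (f : EX n e → K) :
    MvPolynomial.map (algebraMap K L) (pf f) = pf (am L f) := by
  ext I
  rw [MvPolynomial.coeff_map, coeff_pf, coeff_pf]
  unfold am ex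
  split_ifs
  · rfl
  · rw [map_zero]

end height

section point

variable {n : ℕ} (X : DatP κ (L := L) n)

/-- **(A5) over the base field.** A form `B` over `K` of degree `b` in four variables which vanishes
at the projection of the point and has smaller height than the point, such that no form over `K` of
smaller degree and of at most the same height vanishes there. -/
theorem a5_K (hL : IsFF κ L) (hK : IsFF κ K) {b : ℕ} {B : MvPolynomial (Fin 4) K}
    (hB : B.IsHomogeneous b) (hB0 : B ≠ 0)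
    (hp : MvPolynomial.eval X.p4 (MvPolynomial.map (algebraMap K L) B) = 0)
    (hmin : ∀ c < b, ∀ C : MvPolynomial (Fin 4) K, C.IsHomogeneous c → C ≠ 0 →
      polyHeight κ C ≤ polyHeight κ B →
      MvPolynomial.eval X.p4 (MvPolynomial.map (algebraMap K L) C) ≠ 0)
    (hlt : finrank K L * polyHeight κ B < height κ X.x) :
    ∃ Q : Submodule L (Fin (n + 1) → L), X.x ∈ Q ∧ finrank L Q ≤ Fintype.card (EX 4 b) ∧
      ht κ Q ≤ Fintype.card (EX 4 b) * (2 * (finrank K L * polyHeight κ B) + X.Δ) := by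
  -- normalise
  obtain ⟨K₀, hK₀⟩ := MvPolynomial.ne_zero_iff.1 hB0
  set c := B.coeff K₀ with hc
  have hci : c⁻¹ ≠ 0 := inv_ne_zero hK₀
  set B₁ := MvPolynomial.C c⁻¹ * B with hB₁
  have hB₁h : B₁.IsHomogeneous b := by
    have := (MvPolynomial.isHomogeneous_C (Fin 4) c⁻¹).mul hB
    rwa [zero_add] at this
  have hB₁0 : B₁ ≠ 0 := mul_ne_zero (by rwa [Ne, MvPolynomial.C_eq_zero]) hB0
  have hB₁K : B₁.coeff K₀ = 1 := by
    rw [hB₁, MvPolynomial.coeff_C_mul, ← hc, inv_mul_cancel₀ hK₀]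
  have hB₁p : MvPolynomial.eval X.p4 (MvPolynomial.map (algebraMap K L) B₁) = 0 := by
    rw [hB₁, map_mul, map_mul, hp, mul_zero]
  have hB₁α : polyHeight κ B₁ = polyHeight κ B := polyHeight_smul hK hB0 hci
  obtain ⟨B₂, hB₂⟩ : ∃ B₂, B₂ = MvPolynomial.map (algebraMap K L) B₁ := ⟨_, rfl⟩
  have hinj : Function.Injective (MvPolynomial.map (σ := Fin 4) (algebraMap K L)) :=
    MvPolynomial.map_injective _ (algebraMap K L).injective
  have hB₂h : B₂.IsHomogeneous b := by rw [hB₂]; exact hB₁h.map _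
  have hB₂0 : B₂ ≠ 0 := by
    rw [hB₂]
    intro h0
    exact hB₁0 (hinj (by rw [h0, map_zero]))
  have hB₂K : B₂.coeff K₀ = 1 := by rw [hB₂, MvPolynomial.coeff_map, hB₁K, map_one]
  have hB₂p : MvPolynomial.eval X.p4 B₂ = 0 := by rw [hB₂, hB₁p]
  have hB₂α : polyHeight κ B₂ = finrank K L * polyHeight κ B := by
    rw [hB₂, polyHeight_map_alg hL hB₁0, hB₁α]
  have hpd : ∀ l : Fin 4, MvPolynomial.pderiv l B₂ =
      MvPolynomial.map (algebraMap K L) (MvPolynomial.pderiv l B₁) := by
    intro l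
    rw [hB₂, MvPolynomial.pderiv_map]
  -- the derivatives
  have key : ∀ l : Fin 4, MvPolynomial.pderiv l B₂ ≠ 0 →
      MvPolynomial.eval X.p4 (MvPolynomial.pderiv l B₂) ≠ 0 := by
    intro l hl
    have hl' : MvPolynomial.pderiv l B₁ ≠ 0 := by
      intro h0
      apply hl
      rw [hpd, h0, map_zero]
    have hb : b ≠ 0 := by
      rintro rfl
      apply hl'
      have h1 := MvPolynomial.totalDegree_eq_zero_iff_eq_C.1 (Nat.le_zero.1 hB₁h.totalDegree_le)
      rw [h1, MvPolynomial.pderiv_C]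
    rw [hpd]
    refine hmin (b - 1) (by omega) _ hB₁h.pderiv hl' ?_
    rw [← hB₁α, polyHeight_eq, polyHeight_eq]
    refine finsum_mono (nrm_support hK hl') (nrm_support hK hB₁0) fun w => ?_
    exact (log_le_log (nrm_ne_zero w.1 hl') (nrm_ne_zero w.1 hB₁0)).2 (nrm_pderiv_le w.1 l B₁)
  have e0 : X.p4 0 = ∑ j, algebraMap κ L (X.z' j) * X.x j := rfl
  have e1 : X.p4 1 = 1 := rfl
  have e2 : X.p4 2 = ∑ j, (X.ξ₁ j : L) * X.x j := rfl
  have e3 : X.p4 3 = ∑ j, algebraMap κ L (X.z j) * X.x j := rfl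
  have d0 : ∀ (D : Derivation ℤ L L) (c : Fin (n + 1) → L), (∀ j, D (X.x j) = 0) →
      D (∑ j, c j * X.x j) = ∑ j, D (c j) * X.x j := by
    intro D c hD
    rw [map_sum]
    refine Finset.sum_congr rfl fun j _ => ?_
    rw [Derivation.leibniz, hD, smul_zero, zero_add, smul_eq_mul, mul_comm]
  have hnat : ∀ (D : Derivation ℤ L L) (ξ : Fin (n + 1) → ℕ), (∀ j, D (X.x j) = 0) →
      D (∑ j, (ξ j : L) * X.x j) = 0 := by
    intro D ξ hD
    rw [d0 D _ hD]
    exact Finset.sum_eq_zero fun j _ => by rw [Derivation.map_natCast, zero_mul]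
  have hsingle : ∀ (D : Derivation ℤ L L) (z : Fin (n + 1) → κ) (i : Fin (n + 1)),
      (∀ j, D (X.x j) = 0) → (∀ j, D (algebraMap κ L (z j)) = if i = j then 1 else 0) →
      D (∑ j, algebraMap κ L (z j) * X.x j) = X.x i := by
    intro D z i hD hz
    rw [d0 D _ hD, Finset.sum_eq_single i]
    · rw [hz, if_pos rfl, one_mul]
    · intro j _ hj
      rw [hz, if_neg (Ne.symm hj), zero_mul]
    · intro h1
      exact absurd (Finset.mem_univ _) h1
  have hzero : ∀ (D : Derivation ℤ L L) (z : Fin (n + 1) → κ),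
      (∀ j, D (X.x j) = 0) → (∀ j, D (algebraMap κ L (z j)) = 0) →
      D (∑ j, algebraMap κ L (z j) * X.x j) = 0 := by
    intro D z hD hz
    rw [d0 D _ hD]
    exact Finset.sum_eq_zero fun j _ => by rw [hz, zero_mul]
  by_cases h3 : MvPolynomial.pderiv 3 B₂ = 0
  · by_cases h0 : MvPolynomial.pderiv 0 B₂ = 0
    · exfalso
      have h4 := X.height_le_of_two hL hB₂h hB₂0 hB₂p (fun K hK => eq_zero_of_pderiv h0 hK)
        (fun K hK => eq_zero_of_pderiv h3 hK)
      rw [hB₂α] at h4
      linarith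
    · have h4 := X.a5_aux hL hB₂h hB₂0 hB₂K hB₂p X.hE' (key 0 h0) (fun i j => by
        fin_cases j
        · exact (hsingle _ _ _ (X.hE'x i) (X.hE'z' i)).trans (if_pos rfl).symm
        · exact (Derivation.map_one_eq_zero _).trans (if_neg (by decide)).symm
        · exact (hnat _ _ (X.hE'x i)).trans (if_neg (by decide)).symm
        · exact (hzero _ _ (X.hE'x i) (X.hE'z i)).trans (if_neg (by decide)).symm)
      rwa [hB₂α] at h4
  · have h4 := X.a5_aux hL hB₂h hB₂0 hB₂K hB₂p X.hE (key 3 h3) (fun i j => by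
      fin_cases j
      · exact (hzero _ _ (X.hEx i) (X.hEz' i)).trans (if_neg (by decide)).symm
      · exact (Derivation.map_one_eq_zero _).trans (if_neg (by decide)).symm
      · exact (hnat _ _ (X.hEx i)).trans (if_neg (by decide)).symm
      · exact (hsingle _ _ _ (X.hEx i) (X.hEz i)).trans (if_pos rfl).symm)
    rwa [hB₂α] at h4

end point

/-- **(4.2) over the base field.** No form over `K` of degree at most `bs` in the four coordinates
vanishes on the curve. -/
theorem no_small_form_K (hK : IsFF κ K) {n d₀ b N bs : ℕ} {C₀ : ℝ} {X : DatG κ (L := L) n d₀}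
    {A : L[X][X]} (hA : CrvE X b A) {E : Fin (n + 1) → Derivation ℤ K K} {P : K[X][X]}
    (hP : CrvK X A E P) (hpos : 0 < height κ X.x) (hy : IntermediateField.adjoin K {X.y₁} = ⊤)
    (W : DatP κ (L := L) n) (hWx : W.x = X.x)
    {c : Fin 4 → Fin (n + 1) → κ} (hc0 : c 0 = W.z') (hc1 : ∀ j, c 1 j = (W.ξ₀ j : κ))
    (hc2 : ∀ j, c 2 j = (W.ξ₁ j : κ)) (hc3 : c 3 = W.z)
    (hN : Fintype.card (EX 4 bs) ≤ N) (hC₀ : 0 ≤ C₀)
    (hsl : ∀ Q : Submodule L (Fin (n + 1) → L), X.x ∈ Q →
      n * ((height κ X.x : ℝ) - ht κ Q) ≤ C₀ * height κ X.x * ((finrank L Q : ℝ) - 1))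
    (hn : 2 * C₀ * N < n) {β : ℤ} (hβ : β = N * (bs * gh κ P + genus κ K + 1) + genus κ K + 1)
    (h1 : bs * gh κ P + P.natDegree * β < height κ X.x)
    (h2 : 2 * (N * (2 * (finrank K L * β) + W.Δ)) ≤ height κ X.x) :
    ∀ e ≤ bs, VI P (B4 (fun i j => algebraMap κ K (c i j)) (BK E P)) e = ⊥ := by
  classical
  have hL : IsFF κ L := IsFF.of_finite (K := K) hK
  by_contra hcon
  push Not at hcon
  obtain ⟨q, hq⟩ : ∃ q : Fin 4 → K[X][X],
    q = B4 (fun i j => algebraMap κ K (c i j)) (BK E P) := ⟨_, rfl⟩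
  rw [← hq] at hcon
  -- the smallest degree
  have hex : ∃ e, e ≤ bs ∧ VI P q e ≠ ⊥ := by
    obtain ⟨e, he, hne⟩ := hcon
    exact ⟨e, he, hne⟩
  obtain ⟨he, hne⟩ := Nat.find_spec hex
  have hmin := fun e' (he' : e' < Nat.find hex) => Nat.find_min hex he'
  obtain ⟨e, hed⟩ : ∃ e, e = Nat.find hex := ⟨_, rfl⟩
  rw [← hed] at he hne hmin
  have hα : 0 ≤ gh κ P := gh_nonneg hK hP.irr.ne_zero
  have hg0 : (0 : ℤ) ≤ genus κ K := Int.natCast_nonneg _
  have hm1 : (1 : ℤ) ≤ P.natDegree := by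
    have : 1 ≤ P.natDegree := Nat.one_le_iff_ne_zero.2 hP.deg
    exact_mod_cast this
  have hez : (e : ℤ) ≤ bs := by exact_mod_cast he
  have hcard : (Fintype.card (EX 4 e) : ℤ) ≤ N := by
    exact_mod_cast (card_EX4_mono he).trans hN
  have hbsα : (e : ℤ) * gh κ P ≤ bs * gh κ P := mul_le_mul_of_nonneg_right hez hα
  -- the height of the space
  have hht : ht κ (VI P q e) ≤ N * (bs * gh κ P + genus κ K + 1) := by
    have k1 := ht_VI4_K_le hA hP hK hpos c e
    rw [← hq] at k1
    have k2 : (0 : ℤ) ≤ e * gh κ P + P.natDegree * (genus κ K + 1) := by positivity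
    have k3 : ((Fintype.card (EX 4 e) : ℤ) - finrank K (VI P q e)) ≤ N := by
      have : (0 : ℤ) ≤ finrank K (VI P q e) := Int.natCast_nonneg _
      linarith
    have k4 : ((Fintype.card (EX 4 e) : ℤ) - finrank K (VI P q e)) *
        (e * gh κ P + P.natDegree * (genus κ K + 1)) ≤
        N * (e * gh κ P + P.natDegree * (genus κ K + 1)) := mul_le_mul_of_nonneg_right k3 k2
    have k5 : (e : ℤ) * gh κ P ≤ P.natDegree * (bs * gh κ P) := by
      have k6 : (0 : ℤ) ≤ bs * gh κ P := by positivity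
      nlinarith
    have k6 : (N : ℤ) * (e * gh κ P + P.natDegree * (genus κ K + 1)) ≤
        P.natDegree * (N * (bs * gh κ P + genus κ K + 1)) := by
      have k7 : (N : ℤ) * (e * gh κ P) ≤ N * (P.natDegree * (bs * gh κ P)) :=
        mul_le_mul_of_nonneg_left k5 (Int.natCast_nonneg _)
      linarith
    exact le_of_mul_le_mul_left (k1.trans (k4.trans k6)) (by linarith)
  -- a small form
  obtain ⟨f, hf, hf0, g, ⟨hgf, hg⟩, hle⟩ := rel_vec hK bot_le (Ne.symm hne)
  have hf0' : f ≠ 0 := fun h0 => hf0 (by rw [h0]; exact Submodule.zero_mem _)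
  have hP0 : pf f ≠ 0 := fun h0 => hf0' (pf_inj h0)
  rw [finrank_bot, ht_bot hK] at hle
  simp only [Nat.cast_zero, sub_zero] at hle
  obtain ⟨r, hr⟩ : ∃ r : ℕ, r = finrank K (VI P q e) := ⟨_, rfl⟩
  have hr1 : (1 : ℤ) ≤ r := by
    have : 0 < r := by
      rw [hr]
      exact Submodule.one_le_finrank_iff.2 hne
    exact_mod_cast this
  rw [← hr] at hle
  have hβ0 : 0 ≤ (N : ℤ) * (bs * gh κ P + genus κ K + 1) := by positivity
  have hσ : ∑ᶠ w, g w ≤ β := by
    rcases le_or_gt (∑ᶠ w, g w - (genus κ K + 1)) 0 with h0 | h0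
    · rw [hβ]
      linarith
    · have k1 : ∑ᶠ w, g w - (genus κ K + 1) ≤ r * (∑ᶠ w, g w - (genus κ K + 1)) := by
        nlinarith
      rw [hβ]
      linarith
  have hαP : polyHeight κ (pf f) ≤ β := by
    refine le_trans ?_ hσ
    rw [polyHeight_eq]
    refine finsum_mono (nrm_support hK hP0) hgf fun w => ?_
    obtain ⟨u, hu, hug⟩ := hg w
    have huv : u = f := sub_eq_zero.1 ((Submodule.mem_bot K).1 hu)
    rw [huv] at hug
    have k1 : nrm w.1 (pf f) ≤ exp (g w) := nrm_le w.1 (coeff_pf_le w.1 hug)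
    have k2 := (log_le_log (nrm_ne_zero w.1 hP0) exp_ne_zero).2 k1
    rwa [log_exp] at k2
  -- the four coordinates
  have hp4 : (fun i => ∑ j, algebraMap κ L (c i j) * X.x j) = W.p4 := by
    funext i
    fin_cases i
    · show ∑ j, algebraMap κ L (c 0 j) * X.x j = W.p4 0
      rw [hc0, ← hWx]
      rfl
    · show ∑ j, algebraMap κ L (c 1 j) * X.x j = W.p4 1
      have e1 : W.p4 1 = 1 := rfl
      rw [e1, ← W.h0, ← hWx]
      refine Finset.sum_congr rfl fun j _ => ?_
      rw [hc1, map_natCast]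
    · show ∑ j, algebraMap κ L (c 2 j) * X.x j = W.p4 2
      have e1 : W.p4 2 = ∑ j, (W.ξ₁ j : L) * W.x j := rfl
      rw [e1, ← hWx]
      refine Finset.sum_congr rfl fun j _ => ?_
      rw [hc2, map_natCast]
    · show ∑ j, algebraMap κ L (c 3 j) * X.x j = W.p4 3
      rw [hc3, ← hWx]
      rfl
  have hev : MvPolynomial.eval W.p4 (MvPolynomial.map (algebraMap K L) (pf f)) = 0 := by
    rw [hq, hP.mem_VI4 hA.irr.prime] at hf
    have k0 : (fun (i : Fin 4) (j : Fin (n + 1)) => algebraMap K L (algebraMap κ K (c i j))) =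
        fun i j => algebraMap κ L (c i j) := by
      funext i j
      rw [← IsScalarTower.algebraMap_apply]
    rw [k0] at hf
    have k1 := eval_of_mem_VI4 X hA.toCrvG hf
    rwa [hp4, ← map_pf] at k1
  have hβm : β ≤ P.natDegree * β := by
    have : 0 ≤ β := by rw [hβ]; linarith
    nlinarith
  have hβ1 : 0 ≤ β := by rw [hβ]; linarith
  have hβ2 : 1 ≤ β := by rw [hβ]; linarith
  have hd1 : (1 : ℤ) ≤ finrank K L := by
    have : 0 < finrank K L := finrank_pos
    exact_mod_cast this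
  have hfrβ : (finrank K L : ℤ) * polyHeight κ (pf f) ≤ finrank K L * β :=
    mul_le_mul_of_nonneg_left hαP (by linarith)
  have hΔ : 0 ≤ W.Δ := finsum_nonneg fun w => Int.natCast_nonneg _
  have hN1 : (1 : ℤ) ≤ N := by
    have k1 : Fintype.card (EX 4 0) ≤ Fintype.card (EX 4 bs) := card_EX4_mono (Nat.zero_le _)
    have k2 := card_EX4 0
    have k3 : 1 ≤ Fintype.card (EX 4 bs) := by omega
    exact_mod_cast k3.trans hN
  have hfβ1 : (1 : ℤ) ≤ finrank K L * β := by nlinarith
  have hlt : (finrank K L : ℤ) * polyHeight κ (pf f) < height κ X.x := by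
    have k1 : 2 * ((finrank K L : ℤ) * β) + W.Δ ≤ N * (2 * (finrank K L * β) + W.Δ) := by
      nlinarith
    linarith
  have hbs0 : (0 : ℤ) ≤ bs * gh κ P := by positivity
  obtain ⟨Q, hxQ, hQd, hQh⟩ := a5_K W hL hK (pf_hom f) hP0 hev
    (fun e' he' F hF hF0 hFh hev' => by
      have hnd : ¬ P ∣ MvPolynomial.aeval
          (fun i => ∑ j, C (C (algebraMap κ K (c i j))) * BK E P j) F := by
        intro hdv
        refine hmin e' he' ⟨by omega, ?_⟩
        intro h0
        have k1 : (fun I : EX 4 e' => F.coeff I.1) ∈ VI P q e' := by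
          rw [MP_44a246_ntSH.mem_VI, pf_coeff hF, hq]
          exact hdv
        rw [h0, Submodule.mem_bot] at k1
        have k2 := pf_coeff hF
        rw [k1, pf_zero] at k2
        exact hF0 k2.symm
      have k1 := bezout4_zero_K hA hP hK hpos hy c hF hF0 hnd (by rw [hp4]; exact hev')
      have k2 : (e' : ℤ) * gh κ P ≤ bs * gh κ P := by
        refine mul_le_mul_of_nonneg_right ?_ hα
        have : e' ≤ bs := by omega
        exact_mod_cast this
      have k3 : (P.natDegree : ℤ) * polyHeight κ F ≤ P.natDegree * β :=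
        mul_le_mul_of_nonneg_left (hFh.trans hαP) (by linarith)
      linarith) (by rw [hWx]; exact hlt)
  rw [hWx] at hxQ
  have hpol : 0 ≤ polyHeight κ (pf f) := polyHeight_nonneg hK hP0
  have hpol' : 0 ≤ (finrank K L : ℤ) * polyHeight κ (pf f) :=
    mul_nonneg (by linarith) hpol
  have k1 : ht κ Q ≤ N * (2 * (finrank K L * β) + W.Δ) :=
    hQh.trans (mul_le_mul hcard (by linarith) (by linarith) (Int.natCast_nonneg _))
  have k2 : 2 * ht κ Q ≤ height κ X.x := by linarith
  have k2r : 2 * (ht κ Q : ℝ) ≤ height κ X.x := by exact_mod_cast k2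
  have hHr : (0 : ℝ) < height κ X.x := by exact_mod_cast hpos
  have k3 := hsl Q hxQ
  have k4 : (finrank L Q : ℝ) ≤ N := by
    have k5 : finrank L Q ≤ N := hQd.trans ((card_EX4_mono he).trans hN)
    exact_mod_cast k5
  have k5 : (n : ℝ) * height κ X.x ≤ 2 * (n * ((height κ X.x : ℝ) - ht κ Q)) := by
    have : (0 : ℝ) ≤ n := Nat.cast_nonneg _
    nlinarith
  have k6 : C₀ * height κ X.x * ((finrank L Q : ℝ) - 1) ≤ C₀ * height κ X.x * N :=
    mul_le_mul_of_nonneg_left (by linarith) (by positivity)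
  have k7 : (n : ℝ) * height κ X.x ≤ 2 * C₀ * N * height κ X.x := by linarith
  have k8 := le_of_mul_le_mul_right k7 hHr
  linarith

end Pool.Agent.Lib.MP_44a246_ntTK
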