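import Mathlib
import Pool.Agent.Lib.MP_44a246_ntTK.OverK
import Pool.Agent.Lib.MP_44a246_ntTK.TK04d
import Pool.Agent.Lib.MP_44a246_ntTK.TK05b
import Pool.Agent.Lib.MP_44a246_ntTK.TK07c
import Pool.Agent.Lib.MP_44a246_ntTK.TK09c
import Pool.Agent.Lib.MP_44a246_ntTK.TK10
import Pool.Agent.Lib.MP_44a246_ntUV.OR05

/-!
Section 4 over the base field `K`: the height of the plane curve is bounded by the errors over `K`,
for a block and a constant form `y` as in Lemma G.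
-/

namespace Pool.Agent.Lib.MP_44a246_ntTK

open Pool.Agent.Lib.MP_e52354_nt
open Pool.Agent.Lib.MP_44a246_nt
open Pool.Agent.Lib.MP_44a246_ntL
open Pool.Agent.Lib.MP_44a246_ntS
open Pool.Agent.Lib.MP_44a246_ntA
open Pool.Agent.Lib.MP_44a246_ntF
open Pool.Agent.Lib.MP_44a246_ntO
open Pool.Agent.Lib.MP_44a246_ntW
open Pool.Agent.Lib.MP_44a246_ntE
open Pool.Agent.Lib.MP_44a246_ntG
open Pool.Agent.Lib.MP_44a246_ntSH
open Pool.Agent.Lib.MP_44a246_ntSP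
open Pool.Agent.Lib.MP_44a246_ntUV
open Pool.Agent.Lib.MP_44a246_ntR (genus)
open WithZero Polynomial Module

variable {κ K L : Type*} [Field κ] [IsAlgClosed κ] [CharZero κ] [Field K] [CharZero K] [Field L]
  [CharZero L] [Algebra κ K] [Algebra K L] [Algebra κ L] [IsScalarTower κ K L]
  [FiniteDimensional K L]

/-- the height of the space of the deformations which do not move the curve, over `K` -/
theorem ht_ZF_K_num (hK : IsFF κ K) {n p d₀ b : ℕ} {X : DatG κ (L := L) n d₀} {A : L[X][X]}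
    (hA : CrvE X b A) {E : Fin (n + 1) → Derivation ℤ K K} {P : K[X][X]} (hP : CrvK X A E P)
    (hpos : 0 < height κ X.x) {d : Fin p → ℕ}
    {D : (Σ j, EX (n + 1) (d j)) → Derivation ℤ K K}
    {δ : Place κ K → ℕ} (hδ : (Function.support δ).Finite) (hD : ∀ s, PoleBound κ (D s) δ)
    {e : ℕ} (hcon : ∀ F : (Σ j, EX (n + 1) (d j)) → K, F ∉ ZF P (BK E P) D →
      ∃ f ∈ VI P (BK E P) e, (fun I => dF D F (f I)) ∉ VI P (BK E P) e)
    {ρ₀ w v' W : ℕ} (hρ : ρ₀ + finrank K (dvS P (BK E P)) ≤ n + 1) (hρ0 : 0 < ρ₀)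
    (hw : Fintype.card (Σ j, EX (n + 1) (d j)) ≤ finrank K (ZF P (BK E P) D) + w)
    (hv' : Fintype.card (EX (n + 1) (e + 1)) ≤ finrank K (VI P (BK E P) (e + 1)) + v')
    (hwW : w ≤ W * ρ₀) (hv'm : v' ≤ 2 * (e + 1) * P.natDegree) :
    ht κ (ZF P (BK E P) D) ≤ 4 * W * (e + 1) * ((e + 1) * gh κ P +
      P.natDegree * (genus κ K + 1)) + w * ((∑ᶠ v, (δ v : ℤ)) + (genus κ K + 1)) := by
  have hm : 0 < P.natDegree := Nat.pos_of_ne_zero hP.deg
  have hPp : Prime P := hP.irr.prime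
  have hg : 0 ≤ gh κ P := gh_nonneg hK hP.irr.ne_zero
  obtain ⟨γ, hγ⟩ : ∃ γ : ℤ, γ = (genus κ K : ℤ) + 1 := ⟨_, rfl⟩
  have hγ0 : 0 ≤ γ := by rw [hγ]; positivity
  obtain ⟨Δ, hΔ⟩ : ∃ Δ : ℤ, Δ = ∑ᶠ v, (δ v : ℤ) := ⟨_, rfl⟩
  have hΔ0 : 0 ≤ Δ := by rw [hΔ]; exact finsum_nonneg fun w => Int.natCast_nonneg _
  have hV := ht_VI_K_le hA hP hK hpos (e + 1)
  have hZ := ht_ZF_le hK hδ hD hPp hP.sep hcon hρ
  rw [← hγ] at hV ⊢
  rw [add_assoc, ← hγ, ← hΔ] at hZ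
  rw [← hΔ]
  have c1 : finrank K (VI P (BK E P) (e + 1)) ≤ Fintype.card (EX (n + 1) (e + 1)) := by
    have := Submodule.finrank_le (VI P (BK E P) (e + 1))
    rwa [Module.finrank_fintype_fun_eq_card] at this
  have c2 : finrank K (ZF P (BK E P) D) ≤ Fintype.card (Σ j, EX (n + 1) (d j)) := by
    have := Submodule.finrank_le (ZF P (BK E P) D)
    rwa [Module.finrank_fintype_fun_eq_card] at this
  exact num_ht_ZF hρ0 hwW hm hv'm hg hγ0 hΔ0 (ht_nonneg hK _) (by omega) (by omega)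
    (by omega) (by omega) hV hZ

/-- **Section 4 over `K`**: the height of the plane curve is bounded by the errors over `K`, for a
constant form `y` as in Lemma G. -/
theorem gh_le_errorsK (hK : IsFF κ K) {n p d₀ b : ℕ} {X : DatG κ (L := L) n d₀} {A : L[X][X]}
    (hA : CrvE X b A) {E : Fin (n + 1) → Derivation ℤ K K} {P : K[X][X]} (hP : CrvK X A E P)
    (hpos : 0 < height κ X.x) (hy₁ : IntermediateField.adjoin K {X.y₁} = ⊤) {d : Fin p → ℕ}
    {D : (Σ j, EX (n + 1) (d j)) → Derivation ℤ K K}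
    {δ : Place κ K → ℕ} (hδ : (Function.support δ).Finite) (hD : ∀ s, PoleBound κ (D s) δ)
    -- the block and the form `y`
    (j₁ : Fin p) {e₁ a : ℕ} (he₁ : 1 ≤ e₁) (y : EX (n + 1) a → κ)
    (hy : ∀ u : EX (n + 1) e₁ → K, my (d j₁) (fun I => algebraMap κ K (y I)) u ∈
      Sj (ZF P (BK E P) D) P (BK E P) j₁ → u ∈ VI P (BK E P) e₁)
    -- the coordinates of the space
    (W' : DatP κ (L := L) n) (hPx : W'.x = X.x) (hPz : W'.z = X.z) (hP0 : W'.ξ₀ = X.ξ₀)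
    (hP1 : W'.ξ₁ = X.ξ₁) {c : Fin 4 → Fin (n + 1) → κ} (hc0 : c 0 = W'.z')
    (hc1 : ∀ j, c 1 j = (W'.ξ₀ j : κ)) (hc2 : ∀ j, c 2 j = (W'.ξ₁ j : κ)) (hc3 : c 3 = W'.z)
    -- the conormal lemma
    {e : ℕ} (hcon : ∀ F : (Σ j, EX (n + 1) (d j)) → K, F ∉ ZF P (BK E P) D →
      ∃ f ∈ VI P (BK E P) e, (fun I => dF D F (f I)) ∉ VI P (BK E P) e)
    -- the codimensions
    {ρ₀ w v' W : ℕ} (hρ : ρ₀ + finrank K (dvS P (BK E P)) ≤ n + 1) (hρ0 : 0 < ρ₀)
    (hw : Fintype.card (Σ j, EX (n + 1) (d j)) ≤ finrank K (ZF P (BK E P) D) + w)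
    (hv' : Fintype.card (EX (n + 1) (e + 1)) ≤ finrank K (VI P (BK E P) (e + 1)) + v')
    (hwW : w ≤ W * ρ₀) (hv'm : v' ≤ 2 * (e + 1) * P.natDegree)
    -- no form of small degree vanishes on the curve
    {N bs : ℕ} {C₀ : ℝ} (hN : Fintype.card (EX 4 bs) ≤ N) (hC₀ : 0 ≤ C₀)
    (hsl : ∀ Q : Submodule L (Fin (n + 1) → L), X.x ∈ Q →
      n * ((height κ X.x : ℝ) - ht κ Q) ≤ C₀ * height κ X.x * ((finrank L Q : ℝ) - 1))
    (hn : 2 * C₀ * N < n) {β : ℤ}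
    (hβ : β = N * (bs * gh κ P + genus κ K + 1) + genus κ K + 1)
    (hβ1 : bs * gh κ P + P.natDegree * β < height κ X.x)
    (hβ2 : 2 * (N * (2 * (finrank K L * β) + W'.Δ)) ≤ height κ X.x)
    -- the numbers
    (hc1' : 12 * w ≤ (bs + 1) * e₁ ^ 2) (hc2' : 42 * w ≤ e₁ ^ 3)
    (hbig : 48 * (4 * W * (e + 1) ^ 2) ≤ e₁ ^ 2) :
    ((e₁ : ℕ) : ℤ) ^ 2 * gh κ P ≤
      48 * (4 * W * (e + 1) * P.natDegree + w + Fintype.card (EX 4 e₁)) *
        ((∑ᶠ v, (δ v : ℤ)) + (genus κ K + 1)) := by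
  have hm : 0 < P.natDegree := Nat.pos_of_ne_zero hP.deg
  have hg : 0 ≤ gh κ P := gh_nonneg hK hP.irr.ne_zero
  have hZle := ht_ZF_K_num hK hA hP hpos hδ hD hcon hρ hρ0 hw hv' hwW hv'm
  obtain ⟨γ, hγ⟩ : ∃ γ : ℤ, γ = (genus κ K : ℤ) + 1 := ⟨_, rfl⟩
  have hγ0 : 0 ≤ γ := by rw [hγ]; positivity
  obtain ⟨Δ, hΔ⟩ : ∃ Δ : ℤ, Δ = ∑ᶠ v, (δ v : ℤ) := ⟨_, rfl⟩
  have hΔ0 : 0 ≤ Δ := by rw [hΔ]; exact finsum_nonneg fun w => Int.natCast_nonneg _
  rw [← hγ, ← hΔ] at hZle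
  -- the height of `K`
  have hKle : ht κ (KY c j₁ e₁ y P (BK E P) D) ≤ ht κ (ZF P (BK E P) D) :=
    ht_KY_le hK _ _ _ _ _ _
  -- elimination
  obtain ⟨q, hq⟩ : ∃ q : Fin 4 → K[X][X], q =
      ![B4 (fun i j => algebraMap κ K (c i j)) (BK E P) 0, derivative P,
        C Polynomial.X * derivative P, Polynomial.X * derivative P] := ⟨_, rfl⟩
  have hnat : ∀ (ξ : Fin (n + 1) → ℕ), ∑ j, C (C (algebraMap κ K ((ξ j : ℕ) : κ))) * BK E P j =
      ∑ j, C (C ((ξ j : ℕ) : K)) * BK E P j := by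
    intro ξ
    exact Finset.sum_congr rfl fun j _ => by rw [map_natCast]
  have hVI : ∀ e' : ℕ, VI P (B4 (fun i j => algebraMap κ K (c i j)) (BK E P)) e' =
      VI P q e' := by
    have q0 : q 0 = B4 (fun i j => algebraMap κ K (c i j)) (BK E P) 0 := by rw [hq]; rfl
    have q1 : q 1 = derivative P := by rw [hq]; rfl
    have q2 : q 2 = C Polynomial.X * derivative P := by rw [hq]; rfl
    have q3 : q 3 = Polynomial.X * derivative P := by rw [hq]; rfl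
    refine VI_congr fun j => ?_
    match j with
    | 0 => rw [q0, sub_self]; exact dvd_zero _
    | 1 =>
      rw [q1]
      have h1 := hP.r0
      rw [← hP0] at h1
      have h2 : B4 (fun i j => algebraMap κ K (c i j)) (BK E P) 1 =
          ∑ j, C (C ((W'.ξ₀ j : ℕ) : K)) * BK E P j := by
        rw [← hnat]
        unfold B4
        exact Finset.sum_congr rfl fun j _ => by simp only [hc1]
      rw [h2]
      exact h1
    | 2 =>
      rw [q2]
      have h1 := hP.r1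
      rw [← hP1] at h1
      have h2 : B4 (fun i j => algebraMap κ K (c i j)) (BK E P) 2 =
          ∑ j, C (C ((W'.ξ₁ j : ℕ) : K)) * BK E P j := by
        rw [← hnat]
        unfold B4
        exact Finset.sum_congr rfl fun j _ => by simp only [hc2]
      rw [h2]
      exact h1
    | 3 =>
      rw [q3]
      have h1 := hP.r2
      rw [← hPz] at h1
      have h2 : B4 (fun i j => algebraMap κ K (c i j)) (BK E P) 3 =
          ∑ j, C (C (algebraMap κ K (W'.z j))) * BK E P j := by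
        unfold B4
        exact Finset.sum_congr rfl fun j _ => by simp only [hc3]
      rw [h2]
      exact h1
  have hbs := no_small_form_K hK hA hP hpos hy₁ W' hPx hc0 hc1 hc2 hc3 hN hC₀ hsl hn hβ hβ1 hβ2
  have hfin := elim4 hK hP.irr hP.sep (q := q) (by rw [hq]; rfl) (by rw [hq]; rfl)
    (by rw [hq]; rfl) he₁ (K := KY c j₁ e₁ y P (BK E P) D) ((KY_le c j₁ hy).trans (hVI _).le)
    (KY_codim c j₁ y P (BK E P) D hw) (fun e' he' => by rw [← hVI]; exact hbs e' he') hc1' hc2'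
  rw [← hγ] at hfin
  rw [← hγ, ← hΔ]
  -- the numbers
  have hbig' : (48 : ℤ) * (4 * W * (e + 1) ^ 2) ≤ (e₁ : ℤ) ^ 2 := by
    exact_mod_cast hbig
  have h5 := mul_le_mul_of_nonneg_right hbig' hg
  have h6 : (0 : ℤ) ≤ (4 * W * (e + 1) * P.natDegree +
      Fintype.card (EX 4 e₁)) * Δ := by positivity
  nlinarith [hfin, hKle, hZle, h5, h6]

end Pool.Agent.Lib.MP_44a246_ntTK
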