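import Mathlib
import Pool.Agent.Lib.MP_44a246_ntUV.OR05

/-!
Section 4 over the base field `K`: numerical lemmas.
-/

namespace Pool.Agent.Lib.MP_44a246_ntTK

open Pool.Agent.Lib.MP_44a246_ntSP
open Pool.Agent.Lib.MP_44a246_ntUV

/-- the numbers for Lemma G -/
theorem num_GK {S VD cD Ve ce Va ca m a e₁ q f : ℕ} (hm : 1 ≤ m)
    (hf : f + S = cD) (hfm : (2 * e₁ + q + 2) * m ≤ f)
    (hD : cD ≤ VD + (a + e₁ + 1) * m) (he : ce ≤ Ve + (e₁ + 1) * m)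
    (ha : Va + m * (a + 1) ≤ ca + q * m) : S + ce + Va < VD + Ve + ca := by
  nlinarith

/-- the numbers for the forms of small degree -/
theorem num_bs2K {n N₄ bs r : ℕ} {γ g H E Δ ΔL r' : ℤ} (hg0 : 0 ≤ g) (hγ0 : 0 ≤ γ)
    (hΔ0 : 0 ≤ Δ) (hng : g ≤ n * g) (hγE : γ ≤ E) (hΔE : Δ ≤ E) (hΔL : ΔL ≤ r * Δ)
    (hr : r' ≤ r)
    (h1 : ((4 * N₄ ^ 2 * bs * r : ℕ) : ℤ) * (n * g) +
      ((4 * N₄ * (N₄ + 1) * r + 2 * N₄ * r : ℕ) : ℤ) * E < H) :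
    2 * (N₄ * (2 * (r' * (N₄ * (bs * g + γ) + γ)) + ΔL)) ≤ H := by
  have hN : (0 : ℤ) ≤ N₄ := Int.natCast_nonneg _
  have hbs : (0 : ℤ) ≤ bs := Int.natCast_nonneg _
  have hr0 : (0 : ℤ) ≤ r := Int.natCast_nonneg _
  have h0 : 0 ≤ (N₄ : ℤ) * (bs * g + γ) + γ := by positivity
  have h2 : (N₄ : ℤ) * (bs * g + γ) + γ ≤ N₄ * (bs * ((n : ℤ) * g) + E) + E := by
    have h3 : (bs : ℤ) * g + γ ≤ bs * ((n : ℤ) * g) + E :=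
      add_le_add (mul_le_mul_of_nonneg_left hng hbs) hγE
    have h4 := mul_le_mul_of_nonneg_left h3 hN
    linarith
  have h3 : r' * ((N₄ : ℤ) * (bs * g + γ) + γ) ≤ r * (N₄ * (bs * ((n : ℤ) * g) + E) + E) :=
    (mul_le_mul_of_nonneg_right hr h0).trans (mul_le_mul_of_nonneg_left h2 hr0)
  have h4 : ΔL ≤ r * E := hΔL.trans (mul_le_mul_of_nonneg_left hΔE hr0)
  have h5 : (N₄ : ℤ) * (2 * (r' * (N₄ * (bs * g + γ) + γ)) + ΔL) ≤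
      N₄ * (2 * (r * (N₄ * (bs * ((n : ℤ) * g) + E) + E)) + r * E) :=
    mul_le_mul_of_nonneg_left (by linarith) hN
  have h6 : 2 * ((N₄ : ℤ) * (2 * (r * (N₄ * (bs * ((n : ℤ) * g) + E) + E)) + r * E)) =
    4 * N₄ ^ 2 * bs * r * ((n : ℤ) * g) + (4 * N₄ * (N₄ + 1) * r + 2 * N₄ * r) * E := by ring
  push_cast at h1
  linarith

/-- the heights of section 3 -/
theorem num_RK {n C₀ Kw e Cb W w p k r q₀ : ℕ} {m γ g H E Δ DL s Z r' : ℤ} (hm0 : 0 ≤ m)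
    (hm' : m ≤ Cb * (n : ℤ)) (hγ0 : 0 ≤ γ) (hE : E = Δ + γ) (hΔ0 : 0 ≤ Δ)
    (h1 : ((8 * C₀ * Kw * (e + 1) ^ 2 : ℕ) : ℤ) * (n * g) +
      ((4 * W * (e + 1) * (Cb * n) + w + (1 + p) * r : ℕ) : ℤ) * E < H)
    (hW : (W : ℤ) = 2 * C₀ * Kw * (n : ℤ)) (hs : s ≤ k * H)
    (hDL : DL ≤ r * Δ + q₀ * H) (hr : r' ≤ r)
    (hZ : Z ≤ 4 * W * (e + 1) * ((e + 1) * g + m * γ) + w * (Δ + γ)) :
    Z + DL + 2 * H + (p * DL + s) + (1 + p) * (r' * γ) ≤ (k + (1 + p) * q₀ + 3) * H := by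
  have hγE : γ ≤ E := by rw [hE]; linarith
  have hE0 : 0 ≤ E := hγ0.trans hγE
  have hp : (0 : ℤ) ≤ 1 + p := by positivity
  have h2 : (m : ℤ) * γ ≤ (Cb * (n : ℤ)) * E := mul_le_mul hm' hγE hγ0 (by positivity)
  have h3 : (4 * (W : ℤ) * (e + 1)) * (m * γ) ≤ (4 * (W : ℤ) * (e + 1)) * ((Cb * (n : ℤ)) * E) :=
    mul_le_mul_of_nonneg_left h2 (by positivity)
  have h4 : (w : ℤ) * (Δ + γ) = w * E := by rw [hE]
  have h5 : (1 + (p : ℤ)) * DL ≤ (1 + p) * (r * Δ + q₀ * H) := mul_le_mul_of_nonneg_left hDL hp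
  have h7 : (1 + (p : ℤ)) * (r' * γ) ≤ (1 + p) * (r * γ) :=
    mul_le_mul_of_nonneg_left (mul_le_mul_of_nonneg_right hr hγ0) hp
  have h6 : (4 * (W : ℤ) * (e + 1)) * ((e + 1) * g) =
      8 * C₀ * Kw * (e + 1) ^ 2 * ((n : ℤ) * g) := by
    rw [hW]
    ring
  have h8 : (1 + (p : ℤ)) * (r * Δ) + (1 + p) * (r * γ) = ((1 + p) * r) * E := by
    rw [hE]
    ring
  push_cast at h1
  linarith

end Pool.Agent.Lib.MP_44a246_ntTK
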