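import Mathlib
import Pool.Agent.Lib.MP_44a246_ntTK.TK11
import Pool.Agent.Lib.MP_44a246_ntTK.TK12a
import Pool.Agent.Lib.MP_44a246_ntTK.TK09d

/-!
Section 4 over the base field `K` in one block, for any number of places of contact: for points over
extensions of degree at most `r` whose ramification is at most a multiple of the height, the height
of the plane curve is bounded by a constant which depends on `K` only.
-/

namespace Pool.Agent.Lib.MP_44a246_ntTK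

open Pool.Agent.Lib.MP_e52354_nt
open Pool.Agent.Lib.MP_44a246_nt
open Pool.Agent.Lib.MP_44a246_ntL
open Pool.Agent.Lib.MP_44a246_ntR
open Pool.Agent.Lib.MP_44a246_ntS
open Pool.Agent.Lib.MP_44a246_ntA
open Pool.Agent.Lib.MP_44a246_ntF
open Pool.Agent.Lib.MP_44a246_ntO
open Pool.Agent.Lib.MP_44a246_ntW
open Pool.Agent.Lib.MP_44a246_ntE
open Pool.Agent.Lib.MP_44a246_ntG
open Pool.Agent.Lib.MP_44a246_ntK
open Pool.Agent.Lib.MP_44a246_ntSH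
open Pool.Agent.Lib.MP_44a246_ntSP
open Pool.Agent.Lib.MP_44a246_ntUV
open WithZero Polynomial Module

universe u v w

/-- **Section 4 over `K` in one block**: the height of the plane curve is bounded by the errors over
`K`, if the value at the point is a functional with small local norms on the deformations of degree
`t` which kill the point. -/
theorem gh_le_sec4KU (p C₀ C₈ Cb q₀ r : ℕ) (hp0 : 0 < p) (hC₀ : 0 < C₀) (hr0 : 0 < r) :
    ∃ n₀ : ℕ, ∀ n t : ℕ, n₀ ≤ n → p * t ≤ n → n < p * (t + 1) → ∃ c : ℕ,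
    ∀ (κ : Type v) (K : Type w) (L : Type u) [Field κ] [IsAlgClosed κ] [CharZero κ] [Field K]
      [CharZero K] [Field L] [CharZero L] [Algebra κ K] [Algebra K L] [Algebra κ L]
      [IsScalarTower κ K L] [FiniteDimensional K L], IsFF κ K → finrank K L ≤ r →
      ∀ (p' : ℕ) (d : Fin p' → ℕ) (X : DatSC κ (L := L) n d) (O : OverK κ K X) (j₀ : Fin p')
      (b : ℕ) (A : L[X][X]),
      CrvN (X.toDatC.blk j₀) b A → b ≤ Cb * n →
      IntermediateField.adjoin K {∑ j, (X.ξ₁ j : L) * X.x j} = ⊤ →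
      (∀ Q : Submodule L (Fin (n + 1) → L), X.x ∈ Q →
        n * ((height κ X.x : ℝ) - ht κ Q) ≤ C₀ * height κ X.x * ((finrank L Q : ℝ) - 1)) →
      gh κ A * (n : ℤ) ^ 2 ≤ C₈ * height κ X.x →
      ∀ (D : (Σ _ : Fin 1, EX (n + 1) t) → Derivation ℤ K K)
      (D' : (Σ _ : Fin 1, EX (n + 1) t) → Derivation ℤ L L),
      (∀ s (y : K), D' s (algebraMap K L y) = algebraMap K L (D s y)) →
      (∀ s, PoleBound κ (D s) O.δ) → (∀ s, PoleBound κ (D' s) (fun w => X.δ w + X.ρ w)) →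
      ∀ τ : Place κ L → ℤ, (Function.support τ).Finite →
      ∑ᶠ w, τ w ≤ X.toDatC.Δ + X.toDatC.R →
      (∀ (w : Place κ L) (F : (Σ _ : Fin 1, EX (n + 1) t) → L),
        (∀ i, dF D' F (X.x i) = 0) → (∀ s, w.1 (F s) ≤ 1) →
        w.1 (bval (d := fun _ => t) X.x 0 F) ≤ exp (τ w)) →
      X.toDatC.Δ ≤ r * O.Δ → X.toDatC.R ≤ q₀ * height κ X.x →
      c * (O.Δ + genus κ K + 1) < height κ X.x →
      gh κ A ≤ c * (O.Δ + genus κ K + 1) ∧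
      n / (2 * C₀) / r + 1 + finrank L (dvS A ((X.toDatC.blk j₀).B A)) ≤ n + 1 := by
  obtain ⟨CB, hCB⟩ : ∃ CB : ℕ, CB = r * Cb := ⟨_, rfl⟩
  obtain ⟨i, hi⟩ := exists_exp (CB * (4 * C₀ * r))
  obtain ⟨e, he⟩ : ∃ e : ℕ, e = 8 * 2 ^ i := ⟨_, rfl⟩
  obtain ⟨q, hq⟩ : ∃ q : ℕ, q = 2 ^ i := ⟨_, rfl⟩
  obtain ⟨Kw, hKw⟩ : ∃ Kw : ℕ, Kw = r * ((CB + 1) + ((1 + 2 * q) * CB + 1) + 2) := ⟨_, rfl⟩
  obtain ⟨M₁, hM₁⟩ : ∃ M₁ : ℕ, M₁ = 64 * Kw * p ^ 2 := ⟨_, rfl⟩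
  obtain ⟨bs, hbs⟩ : ∃ bs : ℕ, bs = 12 * M₁ := ⟨_, rfl⟩
  obtain ⟨N₄, hN₄⟩ : ∃ N₄ : ℕ, N₄ = Fintype.card (EX 4 bs) := ⟨_, rfl⟩
  obtain ⟨M₂, hM₂⟩ : ∃ M₂ : ℕ, M₂ = 48 * (64 * C₀ * Kw * (e + 1) ^ 2 * p) := ⟨_, rfl⟩
  obtain ⟨Kk, hKk⟩ : ∃ Kk : ℕ, Kk = 2 * (4 * r + (bs + CB * N₄ * bs) + 4 * N₄ ^ 2 * bs * r +
    8 * C₀ * Kw * (e + 1) ^ 2) := ⟨_, rfl⟩
  obtain ⟨c', hc'⟩ : ∃ c' : ℕ, c' = 1 * C₈ + 1 := ⟨_, rfl⟩
  obtain ⟨q₁, hq₁⟩ : ∃ q₁ : ℕ, q₁ = (1 + 1) * q₀ := ⟨_, rfl⟩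
  obtain ⟨Q, hQ⟩ : ∃ Q : ℕ, Q = 2 * q + (3 + q₁) + 2 * (1 * c') + (1 + 1) * r + 5 := ⟨_, rfl⟩
  refine ⟨Kk * C₈ + 8 * p * (42 * M₁ + M₂ + 1) + 4 * C₀ * r + 2 * C₀ * N₄ + 3 +
    2 * c' + 8 * p * (Q + 1) + q₁, fun n t hn ht1 ht2 => ?_⟩
  -- the degree of the forms in four variables
  obtain ⟨e₁, he₁⟩ : ∃ e₁ : ℕ, e₁ = t / 4 := ⟨_, rfl⟩
  have hte : 4 * e₁ ≤ t := by
    rw [he₁]
    exact Nat.mul_div_le t 4
  have hte2 : t < 4 * (e₁ + 1) := by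
    rw [he₁]
    exact Nat.lt_mul_div_succ _ (by omega)
  have hpe2 : n < 4 * p * (e₁ + 1) := by
    refine lt_of_lt_of_le ht2 ?_
    calc p * (t + 1) ≤ p * (4 * (e₁ + 1)) := Nat.mul_le_mul_left _ (by omega)
      _ = 4 * p * (e₁ + 1) := by ring
  have htn : t ≤ n := by
    refine le_trans ?_ ht1
    exact Nat.le_mul_of_pos_left _ hp0
  have hen : ∀ t : ℕ, 8 * p * (t + 1) ≤ n → t + 1 ≤ e₁ := by
    intro t ht
    by_contra hcon
    have h1 : e₁ + 1 ≤ t + 1 := by omega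
    have h2 : 4 * p * (e₁ + 1) ≤ 4 * p * (t + 1) := Nat.mul_le_mul_left _ h1
    have h3 : 8 * p * (t + 1) = 4 * p * (t + 1) + 4 * p * (t + 1) := by ring
    omega
  have he₁M : 42 * M₁ + M₂ + 1 ≤ e₁ := hen _ (by omega)
  have he₁Q : Q + 1 ≤ e₁ := hen _ (by omega)
  have he₁1 : 1 ≤ e₁ := by omega
  have hn8 : n ≤ 8 * p * e₁ := by
    have h1 : 4 * p * (e₁ + 1) ≤ 8 * p * e₁ := by
      calc 4 * p * (e₁ + 1) ≤ 4 * p * (2 * e₁) := Nat.mul_le_mul_left _ (by omega)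
        _ = 8 * p * e₁ := by ring
    omega
  obtain ⟨w, hw⟩ : ∃ w : ℕ, w = Kw * n ^ 2 := ⟨_, rfl⟩
  obtain ⟨W, hW⟩ : ∃ W : ℕ, W = 2 * C₀ * Kw * n := ⟨_, rfl⟩
  obtain ⟨cf, hcf⟩ : ∃ cf : ℕ, cf = 48 * (4 * W * (e + 1) * (CB * n) + w +
    Fintype.card (EX 4 e₁)) := ⟨_, rfl⟩
  refine ⟨2 * (4 * n * r + CB * n * (N₄ + 1) + (4 * N₄ * (N₄ + 1) * r + 2 * N₄ * r) +
    CB * n ^ 2 + (4 * W * (e + 1) * (CB * n) + w + (1 + 1) * r)) + r * cf, ?_⟩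
  intro κ K L _ _ _ _ _ _ _ _ _ _ _ _ hK hLr p' d X O j₀ b A hAj hb hy₁ hsl hsmall D D' hDD hPBK
    hPB τ hτ hτs hl hΔL hRH hbig
  obtain ⟨c, hc⟩ : ∃ c : ℕ, c = 2 * (4 * n * r + CB * n * (N₄ + 1) +
    (4 * N₄ * (N₄ + 1) * r + 2 * N₄ * r) + CB * n ^ 2 +
    (4 * W * (e + 1) * (CB * n) + w + (1 + 1) * r)) + r * cf := ⟨_, rfl⟩
  rw [← hc] at hbig ⊢
  have hL : IsFF κ L := IsFF.of_finite (K := K) hK
  -- the curve
  obtain ⟨P, hPirr, hPdeg, hPdvd, hAP, hPA, hghP, hghA⟩ := exists_crvP (κ := κ) hK hAj.irr hAj.deg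
  have hPK : CrvK (X.toDatC.blk j₀) A O.E P :=
    CrvK.of_dvd hAj.toCrvE (fun j y => O.hE j y) hPirr hPdeg hPdvd
  obtain ⟨m, hm⟩ : ∃ m : ℕ, m = P.natDegree := ⟨_, rfl⟩
  have hm0 : 0 < m := by rw [hm]; exact Nat.pos_of_ne_zero hPdeg
  have hm1 : m ≤ CB * n := by
    rw [hm, hCB]
    calc P.natDegree ≤ finrank K L * A.natDegree := hPA
      _ ≤ r * (Cb * n) := Nat.mul_le_mul hLr (hAj.box.1.trans hb)
      _ = r * Cb * n := by ring
  obtain ⟨g, hg⟩ : ∃ g : ℤ, g = gh κ P := ⟨_, rfl⟩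
  have hg0 : 0 ≤ g := by rw [hg]; exact gh_nonneg hK hPirr.ne_zero
  obtain ⟨H, hH⟩ : ∃ H : ℤ, H = height κ X.x := ⟨_, rfl⟩
  obtain ⟨r', hr'⟩ : ∃ r' : ℤ, r' = (finrank K L : ℤ) := ⟨_, rfl⟩
  have hr'0 : 0 ≤ r' := by rw [hr']; exact Int.natCast_nonneg _
  have hr'r : r' ≤ r := by rw [hr']; exact_mod_cast hLr
  -- the errors
  obtain ⟨γ, hγ⟩ : ∃ γ : ℤ, γ = (genus κ K : ℤ) + 1 := ⟨_, rfl⟩
  have hγ0 : 1 ≤ γ := by
    rw [hγ]
    have : (0 : ℤ) ≤ genus κ K := Int.natCast_nonneg _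
    linarith
  obtain ⟨Δ, hΔ⟩ : ∃ Δ : ℤ, Δ = O.Δ := ⟨_, rfl⟩
  have hΔ0 : 0 ≤ Δ := by rw [hΔ]; exact O.Δ_nonneg
  obtain ⟨ΔL, hΔLd⟩ : ∃ ΔL : ℤ, ΔL = X.toDatC.Δ := ⟨_, rfl⟩
  obtain ⟨R', hR'⟩ : ∃ R' : ℤ, R' = X.toDatC.R := ⟨_, rfl⟩
  rw [← hΔ] at hbig ⊢
  rw [← hΔLd, ← hΔ] at hΔL
  rw [← hR', ← hH] at hRH
  rw [add_assoc _ (genus κ K : ℤ) 1, ← hγ, ← hH] at hbig
  rw [add_assoc _ (genus κ K : ℤ) 1, ← hγ]
  have hsmall : g * (n : ℤ) ^ 2 ≤ C₈ * H := by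
    rw [hg, hH]
    refine le_trans ?_ hsmall
    exact mul_le_mul_of_nonneg_right hghP (by positivity)
  obtain ⟨E, hE⟩ : ∃ E : ℤ, E = Δ + γ := ⟨_, rfl⟩
  rw [← hE] at hbig ⊢
  have hE0 : 0 ≤ E := by rw [hE]; positivity
  have hH0 : 0 < H := lt_of_le_of_lt (mul_nonneg (Int.natCast_nonneg _) hE0) hbig
  have hn0 : 0 < n := by omega
  have hKn : Kk * C₈ ≤ n := by omega
  have F1 : ∀ k : ℕ, 2 * k ≤ Kk → 2 * ((k : ℤ) * (n * g)) ≤ H := fun k hk =>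
    num_F1 hn0 hKn hH0.le hg0 hsmall hk
  have F2 : ∀ l : ℕ, 2 * l ≤ c → 2 * ((l : ℤ) * E) < H := fun l hl => num_F2 hE0 hbig hl
  have F12 : ∀ k l : ℕ, 2 * k ≤ Kk → 2 * l ≤ c → (k : ℤ) * (n * g) + l * E < H := by
    intro k l hk hl
    have h1 := F1 k hk
    have h2 := F2 l hl
    linarith
  have hpos : 0 < height κ (X.toDatC.blk j₀).x := by rw [DatC.blk_x, ← hH]; exact hH0
  have hy₁' : IntermediateField.adjoin K {(X.toDatC.blk j₀).y₁} = ⊤ := hy₁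
  have hn' : (1 : ℤ) ≤ n := by exact_mod_cast hn0
  have hm' : (m : ℤ) ≤ CB * n := by exact_mod_cast hm1
  have hm0' : (0 : ℤ) ≤ m := Int.natCast_nonneg _
  have hγE : γ ≤ E := by rw [hE]; linarith
  have hΔE : Δ ≤ E := by rw [hE]; linarith
  have hng : g ≤ n * g := le_mul_of_one_le_left hg0 hn'
  have hr0' : (0 : ℤ) ≤ r := Int.natCast_nonneg _
  -- the number of independent functions
  have hindK : n / (2 * C₀) + 1 + finrank K (dvS P (BK O.E P)) ≤ n + 1 := by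
    refine indep_K hAj.toCrvE hPK hK hpos hC₀ hsl ?_
    rw [DatC.blk_x, ← hH, ← hg, ← hγ, ← hr']
    have h1 := F12 (4 * r) (4 * n * r) (by omega) (by omega)
    push_cast at h1
    have h2 : ((n : ℤ) + 1) * (g + γ) ≤ (2 * n) * (g + E) :=
      mul_le_mul (by linarith) (by linarith) (by linarith) (by linarith)
    have h3 : r' * (((n : ℤ) + 1) * (g + γ)) ≤ r * ((2 * n) * (g + E)) :=
      mul_le_mul hr'r h2 (by positivity) hr0'
    linarith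
  obtain ⟨NK, hNK⟩ : ∃ NK : ℕ, NK = n / (2 * C₀) := ⟨_, rfl⟩
  rw [← hNK] at hindK
  have hind : n / (2 * C₀) / r + 1 + finrank L (dvS A ((X.toDatC.blk j₀).B A)) ≤ n + 1 := by
    refine indep_L hAj.toCrvE hPK hLr ?_
    rw [← hNK]
    have h1 : NK / r * r ≤ NK := Nat.div_mul_le_self _ _
    omega
  refine ⟨?_, hind⟩
  have hindL := hind
  -- the codimensions
  obtain ⟨R, rfl⟩ : ∃ R, n = R + 2 := ⟨n - 2, by omega⟩
  obtain ⟨N, hN⟩ : ∃ N : ℕ, N = (R + 2) / (2 * C₀) / r := ⟨_, rfl⟩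
  rw [← hN] at hindL
  have hNK1 : R + 2 < 2 * C₀ * (NK + 1) := by
    rw [hNK]
    exact Nat.lt_mul_div_succ _ (by omega)
  have hNr : NK < r * (N + 1) := by
    rw [hN, ← hNK]
    exact Nat.lt_mul_div_succ _ hr0
  have hN1 : R + 2 < 2 * C₀ * (r * (N + 1)) := by
    refine hNK1.trans_le (Nat.mul_le_mul_left _ ?_)
    omega
  have hN2 : 2 ≤ N := by
    rw [hN, Nat.le_div_iff_mul_le hr0, Nat.le_div_iff_mul_le (by omega)]
    have : 2 * r * (2 * C₀) = 4 * C₀ * r := by ring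
    omega
  have hiN : 2 ^ i * P.natDegree ≤ 3 ^ i * N := by
    rw [← hm]
    have h1 : m ≤ CB * (4 * C₀ * r) * N := by
      have h2 : 2 * C₀ * (r * (N + 1)) ≤ 4 * C₀ * r * N := by
        calc 2 * C₀ * (r * (N + 1)) ≤ 2 * C₀ * (r * (2 * N)) :=
              Nat.mul_le_mul_left _ (Nat.mul_le_mul_left _ (by omega))
          _ = 4 * C₀ * r * N := by ring
      calc m ≤ CB * (R + 2) := hm1
        _ ≤ CB * (4 * C₀ * r * N) := Nat.mul_le_mul_left _ (by omega)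
        _ = CB * (4 * C₀ * r) * N := by ring
    calc 2 ^ i * m ≤ 2 ^ i * (CB * (4 * C₀ * r) * N) := Nat.mul_le_mul_left _ h1
      _ = (CB * (4 * C₀ * r) * 2 ^ i) * N := by ring
      _ ≤ 3 ^ i * N := Nat.mul_le_mul_right _ hi
  obtain ⟨hNm, hcod1, hcod4, hcod3, hcon⟩ := codims_K hAj hPK (N := N) (i := i)
    (by omega) hiN hN2
  rw [← hm, ← hq] at hcod4
  rw [← hm] at hNm hcod1 hcod3
  -- the data
  obtain ⟨δ, hδ⟩ : ∃ δ : Place κ L → ℕ, δ = fun w => X.δ w + X.ρ w := ⟨_, rfl⟩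
  have hδf : (Function.support δ).Finite := by
    refine (X.hδ.union X.hρ).subset fun w hw => ?_
    rw [hδ] at hw
    simp only [Function.mem_support, Set.mem_union] at hw ⊢
    omega
  have hδsum : ∑ᶠ w, (δ w : ℤ) = ΔL + R' := by
    have s1 : (Function.support fun w : Place κ L => (X.δ w : ℤ)).Finite := by
      refine X.hδ.subset fun w hw h0 => hw ?_
      simp only
      rw [h0, Nat.cast_zero]
    have s2 : (Function.support fun w : Place κ L => (X.ρ w : ℤ)).Finite := by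
      refine X.hρ.subset fun w hw h0 => hw ?_
      simp only
      rw [h0, Nat.cast_zero]
    rw [hΔLd, hR', DatC.Δ, DatC.R, ← finsum_add_distrib s1 s2, hδ]
    exact finsum_congr fun w => by push_cast; ring
  have hDL : ΔL + R' ≤ r * Δ + q₀ * H := add_le_add hΔL hRH
  obtain ⟨v', hv'⟩ : ∃ v' : ℕ, v' = (e + 1 + 1) * m := ⟨_, rfl⟩
  obtain ⟨cc, hcc⟩ : ∃ cc : Fin 4 → Fin (R + 3) → κ, cc = ![X.z', fun j => (X.ξ₀ j : κ),
    fun j => (X.ξ₁ j : κ), X.z] := ⟨_, rfl⟩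
  have hnat1 : 1 ≤ R + 2 := by omega
  have hsq : R + 2 ≤ (R + 2) ^ 2 := Nat.le_self_pow (by norm_num) _
  -- numbers
  have hwle : finrank K L * (R * (m + 1) + (m + 2 * (2 ^ i * m) + 1) + (R + 3)) ≤ w := by
    rw [hw, hKw, ← hq]
    have h1 : R * (m + 1) ≤ (CB + 1) * (R + 2) ^ 2 := by
      calc R * (m + 1) ≤ (R + 2) * ((CB + 1) * (R + 2)) := Nat.mul_le_mul (by omega) (by
            rw [add_mul, one_mul]
            omega)
        _ = _ := by ring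
    have h2 : m + 2 * (q * m) + 1 ≤ ((1 + 2 * q) * CB + 1) * (R + 2) ^ 2 := by
      calc m + 2 * (q * m) + 1 = (1 + 2 * q) * m + 1 := by ring
        _ ≤ (1 + 2 * q) * (CB * (R + 2) ^ 2) + (R + 2) ^ 2 := by
            refine add_le_add (Nat.mul_le_mul_left _ (hm1.trans ?_)) (by omega)
            exact Nat.mul_le_mul_left _ hsq
        _ = _ := by ring
    have h3 : R + 3 ≤ 2 * (R + 2) ^ 2 := by omega
    have h4 : R * (m + 1) + (m + 2 * (q * m) + 1) + (R + 3) ≤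
        ((CB + 1) + ((1 + 2 * q) * CB + 1) + 2) * (R + 2) ^ 2 := by
      calc _ ≤ (CB + 1) * (R + 2) ^ 2 + ((1 + 2 * q) * CB + 1) * (R + 2) ^ 2 +
            2 * (R + 2) ^ 2 := add_le_add (add_le_add h1 h2) h3
        _ = _ := by ring
    calc _ ≤ r * (((CB + 1) + ((1 + 2 * q) * CB + 1) + 2) * (R + 2) ^ 2) :=
          Nat.mul_le_mul hLr h4
      _ = _ := by ring
  have hwe : w ≤ M₁ * e₁ ^ 2 := by
    rw [hw, hM₁]
    calc Kw * (R + 2) ^ 2 ≤ Kw * (8 * p * e₁) ^ 2 :=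
          Nat.mul_le_mul_left _ (Nat.pow_le_pow_left hn8 2)
      _ = _ := by ring
  have hc1 : 12 * w ≤ (bs + 1) * e₁ ^ 2 := by
    rw [hbs]
    calc 12 * w ≤ 12 * (M₁ * e₁ ^ 2) := Nat.mul_le_mul_left _ hwe
      _ = (12 * M₁) * e₁ ^ 2 := by ring
      _ ≤ (12 * M₁ + 1) * e₁ ^ 2 := Nat.mul_le_mul_right _ (Nat.le_succ _)
  have hc2 : 42 * w ≤ e₁ ^ 3 := by
    calc 42 * w ≤ 42 * (M₁ * e₁ ^ 2) := Nat.mul_le_mul_left _ hwe
      _ = (42 * M₁) * e₁ ^ 2 := by ring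
      _ ≤ e₁ * e₁ ^ 2 := Nat.mul_le_mul_right _ (by omega)
      _ = e₁ ^ 3 := by ring
  have hc3 : 48 * (4 * W * (e + 1) ^ 2) ≤ e₁ ^ 2 := by
    have h1 : 4 * W * (e + 1) ^ 2 ≤ 64 * C₀ * Kw * (e + 1) ^ 2 * p * e₁ := by
      rw [hW]
      calc 4 * (2 * C₀ * Kw * (R + 2)) * (e + 1) ^ 2 =
            (8 * C₀ * Kw * (e + 1) ^ 2) * (R + 2) := by ring
        _ ≤ (8 * C₀ * Kw * (e + 1) ^ 2) * (8 * p * e₁) := Nat.mul_le_mul_left _ hn8
        _ = _ := by ring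
    calc 48 * (4 * W * (e + 1) ^ 2) ≤
          48 * (64 * C₀ * Kw * (e + 1) ^ 2 * p * e₁) := Nat.mul_le_mul_left _ h1
      _ = M₂ * e₁ := by rw [hM₂]; ring
      _ ≤ e₁ * e₁ := Nat.mul_le_mul_right _ (by omega)
      _ = e₁ ^ 2 := by ring
  have hwW : w ≤ W * (NK + 1) := by
    rw [hw, hW]
    calc Kw * (R + 2) ^ 2 = (Kw * (R + 2)) * (R + 2) := by ring
      _ ≤ (Kw * (R + 2)) * (2 * C₀ * (NK + 1)) := Nat.mul_le_mul_left _ hNK1.le
      _ = _ := by ring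
  have hv'm : v' ≤ 2 * (e + 1) * m := by
    rw [hv']
    refine Nat.mul_le_mul_right _ ?_
    omega
  have hW' : (W : ℤ) = 2 * C₀ * Kw * ((R + 2 : ℕ) : ℤ) := by rw [hW]; push_cast; ring
  -- the codimension of `ZF` and the conormal lemma
  have hPB : ∀ s, PoleBound κ (D' s) δ := by
    rw [hδ]
    exact hPB
  have hΔsum : ∑ᶠ v, (O.δ v : ℤ) = Δ := by rw [hΔ]; rfl
  have hZc : Fintype.card (Σ _ : Fin 1, EX (R + 2 + 1) t) ≤
      finrank K (ZF P (BK O.E P) D) + w :=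
    (hcod3 _ _ _).trans (Nat.add_le_add_left hwle _)
  have hcon' : ∀ F : (Σ _ : Fin 1, EX (R + 2 + 1) t) → K, F ∉ ZF P (BK O.E P) D →
      ∃ f ∈ VI P (BK O.E P) e, (fun I => dF D F (f I)) ∉ VI P (BK O.E P) e := by
    rw [he]
    exact fun F hF => hcon _ _ _ F hF
  -- section 3
  have hZle := ht_ZF_K_num hK hAj.toCrvE hPK hpos (d := fun _ : Fin 1 => t) (D := D) O.hδ hPBK
    (e := e) hcon'
    (ρ₀ := NK + 1) (w := w) (v' := v') (W := W) (by omega) (by omega)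
    hZc (by
      rw [hv']
      exact hcod1 _)
    hwW (by rw [← hm]; exact hv'm)
  rw [← hg, ← hm, hΔsum, ← hγ] at hZle
  have hΔL0 : 0 ≤ ΔL := by rw [hΔLd]; exact X.toDatC.Δ_nonneg
  have hR'0 : 0 ≤ R' := by rw [hR']; exact X.toDatC.R_nonneg
  obtain ⟨r₂, hr1, hr2⟩ := r2_leU_K_of hK hAj.toCrvE hPK (D := D) (D' := D') hDD hδf hPB hτ
    (fun w F hF hF1 => hl w F hF hF1) (T := ΔL + R') (by linarith) (by
      rw [hΔLd, hR']
      exact hτs)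
    (fun e f hf hz g hg => bezout_K_zero hAj.toCrvE hPK hK hpos hy₁' hf hz hg)
  rw [DatC.blk_x, ← hH, ← hg, ← hm, hδsum, ← hγ, ← hr'] at hr2
  have hr3 : r₂ ≤ m * (0 + q₁ + 3 + 2 * (1 * c')) := by
    refine num_r₂G (n := R + 2) (H := H) (u := ((1 * (R + 2) : ℕ) : ℤ) * g + m * γ)
      (R' := ht κ (ZF P (BK O.E P) D) + (ΔL + R') + 2 * H +
        (((1 : ℕ) : ℤ) * (ΔL + R') + 0) + (1 + ((1 : ℕ) : ℤ)) * (r' * γ))
      hH0 (by omega) (by omega) (by omega) ?_ ?_ ?_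
    · rw [hc']
      exact num_u hm0' hm' (by linarith) hγE hsmall (F2 (CB * (R + 2) ^ 2) (by omega)) hH0
    · have h1 := num_RK (n := R + 2) (C₀ := C₀) (Kw := Kw) (e := e) (Cb := CB) (W := W) (w := w)
        (p := 1) (k := 0) (r := r) (q₀ := q₀) (s := 0) (DL := ΔL + R') (r' := r')
        (m := m) (γ := γ) (g := g) (E := E) hm0' hm' (by linarith) hE hΔ0
        (F12 (8 * C₀ * Kw * (e + 1) ^ 2)
          (4 * W * (e + 1) * (CB * (R + 2)) + w + (1 + 1) * r) (by omega) (by omega)) hW' (by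
            push_cast
            linarith)
          hDL hr'r hZle
      refine h1.trans (le_of_eq ?_)
      rw [hq₁]
      push_cast
      ring
    · have h1 : ((t : ℕ) : ℤ) * g ≤ ((1 * (R + 2) : ℕ) : ℤ) * g := by
        refine mul_le_mul_of_nonneg_right ?_ hg0
        rw [one_mul]
        exact_mod_cast htn
      have h2 : (r₂ : ℤ) * (H - (((1 * (R + 2) : ℕ) : ℤ) * g + m * γ)) ≤
          r₂ * (H - t * g - m * γ) :=
        mul_le_mul_of_nonneg_left (by linarith) (Int.natCast_nonneg _)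
      refine h2.trans (hr2.trans (le_of_eq ?_))
      push_cast
      ring
  -- the block
  have hsumS := sum_finrank_Sj (ZF P (BK O.E P) D) P (BK O.E P) (d := fun _ : Fin 1 => t)
  rw [Fin.sum_univ_one, Fin.sum_univ_one] at hsumS
  obtain ⟨Sf, hSf⟩ : ∃ Sf : Submodule K (EX (R + 2 + 1) t → K), Sf =
      Sj (d := fun _ : Fin 1 => t) (ZF P (BK O.E P) D) P (BK O.E P) 0 := ⟨_, rfl⟩
  rw [← hSf] at hsumS
  have hVI : VI P (BK O.E P) t ≤ Sf := by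
    rw [hSf]
    exact VI_le_Sj (d := fun _ : Fin 1 => t) _ _ _ 0
  have hVS : finrank K Sf ≤ Fintype.card (EX (R + 2 + 1) t) := by
    have := Submodule.finrank_le Sf
    rwa [Module.finrank_fintype_fun_eq_card] at this
  obtain ⟨f, hf⟩ := Nat.exists_eq_add_of_le hVS
  have hj₁ : (2 * e₁ + q + 2) * m ≤ f := by
    have h1 : finrank K (VI P (BK O.E P) t) + m * (t + 1) ≤
        Fintype.card (EX (R + 2 + 1) t) + q * m := hcod4 t
    have h4 : (4 * e₁ + 1) * m ≤ m * (t + 1) := by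
      rw [mul_comm m]
      exact Nat.mul_le_mul_right _ (by omega)
    have h5 : (4 * e₁ + 1) * m = 2 * (e₁ * m) + 2 * (e₁ * m) + m := by ring
    have h6 : (Q + 1) * m ≤ e₁ * m := Nat.mul_le_mul_right _ he₁Q
    have h7 : (Q + 1) * m = 2 * (q * m) + (3 * m + m * q₁) + 2 * (m * (1 * c')) +
        m * ((1 + 1) * r) + 6 * m := by
      rw [hQ]
      ring
    have h8 : m * (0 + q₁ + 3 + 2 * (1 * c')) = m * q₁ + 3 * m + 2 * (m * (1 * c')) := by ring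
    have h9 : (2 * e₁ + q + 2) * m = 2 * (e₁ * m) + q * m + 2 * m := by ring
    have h10 : 2 * finrank K L ≤ m * ((1 + 1) * r) := by
      calc 2 * finrank K L ≤ (1 + 1) * r := Nat.mul_le_mul_left _ hLr
        _ ≤ m * ((1 + 1) * r) := Nat.le_mul_of_pos_left _ hm0
    omega
  -- the degree of the block
  obtain ⟨a, ha⟩ : ∃ a, a + e₁ = t := ⟨t - e₁, by omega⟩
  obtain ⟨y, hy⟩ := exists_mult (κ := κ) ha hPirr.prime hVI (by
      refine num_GK (m := m) (a := a) (e₁ := e₁) (q := q) (f := f) hm0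
        ((add_comm _ _).trans hf.symm) hj₁ ?_ (hcod1 e₁) (hcod4 a)
      rw [ha]
      exact hcod1 t)
  rw [hSf] at hy
  -- the main inequality
  have key := gh_le_errorsK hK hAj.toCrvE hPK hpos hy₁'
    (d := fun _ : Fin 1 => t) (D := D) O.hδ hPBK
    0 he₁1 y hy X.toP rfl rfl rfl rfl (c := cc) (by rw [hcc]; rfl)
    (fun j => by rw [hcc]; rfl) (fun j => by rw [hcc]; rfl) (by rw [hcc]; rfl)
    (e := e) hcon'
    (ρ₀ := NK + 1) (w := w) (v' := v') (W := W) (by omega) (by omega)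
    hZc (by
      rw [hv']
      exact hcod1 _)
    hwW (by rw [← hm]; exact hv'm)
    (N := N₄) (bs := bs) (C₀ := (C₀ : ℝ)) hN₄.ge (Nat.cast_nonneg _) hsl (by
      have h1 : 2 * C₀ * N₄ < R + 2 := by omega
      exact_mod_cast h1) (β := N₄ * (bs * gh κ P + genus κ K + 1) + genus κ K + 1) rfl
    (by
      rw [DatC.blk_x, ← hH, ← hg, ← hm, add_assoc ((bs : ℤ) * g), ← hγ, add_assoc _
        (genus κ K : ℤ) 1, ← hγ]
      exact num_bs1 hm0' hm' hg0 hng (by linarith) hγE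
        (F12 (bs + CB * N₄ * bs) (CB * (R + 2) * (N₄ + 1)) (by omega) (by omega)))
    (by
      rw [DatC.blk_x, ← hH, ← hg, ← hr', add_assoc ((bs : ℤ) * g), ← hγ, add_assoc _
        (genus κ K : ℤ) 1, ← hγ]
      have h5 : X.toP.Δ = ΔL := by rw [hΔLd]; rfl
      rw [h5]
      exact num_bs2K hg0 (by linarith) hΔ0 hng hγE hΔE hΔL hr'r
        (F12 (4 * N₄ ^ 2 * bs * r) (4 * N₄ * (N₄ + 1) * r + 2 * N₄ * r) (by omega) (by omega)))
    hc1 hc2 hc3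
  rw [← hg, ← hm, hΔsum, ← hγ, ← hE] at key
  have hD1' : (1 : ℤ) ≤ (e₁ : ℤ) ^ 2 := by
    have : 1 ≤ e₁ ^ 2 := Nat.one_le_pow _ _ he₁1
    exact_mod_cast this
  have h1 : g ≤ (e₁ : ℤ) ^ 2 * g := le_mul_of_one_le_left hg0 hD1'
  have h2 : (48 : ℤ) * (4 * W * (e + 1) * m + w + Fintype.card (EX 4 e₁)) ≤ cf := by
    rw [hcf]
    push_cast
    have h3 : (4 * (W : ℤ) * (e + 1)) * m ≤ (4 * (W : ℤ) * (e + 1)) * (CB * (R + 2)) := by
      refine mul_le_mul_of_nonneg_left ?_ (by positivity)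
      have := hm'
      push_cast at this
      exact this
    linarith
  have h3 := mul_le_mul_of_nonneg_right h2 hE0
  have h4 : g ≤ cf * E := by linarith
  have h5 : gh κ A ≤ r' * g := by rw [hr', hg]; exact hghA
  have h6 : r' * g ≤ r * (cf * E) := mul_le_mul hr'r h4 hg0 hr0'
  have h7 : ((r * cf : ℕ) : ℤ) ≤ c := by
    have : r * cf ≤ c := by omega
    exact_mod_cast this
  have h8 := mul_le_mul_of_nonneg_right h7 hE0
  push_cast at h8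
  linarith

end Pool.Agent.Lib.MP_44a246_ntTK
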