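import Mathlib
import Pool.Agent.Lib.MP_44a246_ntHU.HU02
import Pool.Agent.Lib.MP_44a246_ntVT.VD2
import Pool.Agent.Lib.MP_44a246_ntUV.UV05
import Pool.Agent.Lib.MP_44a246_ntTK.TK13
import Pool.Agent.Lib.MP_44a246_ntTK.TK15
import Pool.Agent.Lib.MP_44a246_ntTK.TK16
import Pool.Agent.Lib.MP_44a246_ntTK.TK14b

/-!
# The output over the field of the point, for points of bounded degree and any number of places of
contact

The ramification and the contact places are counted once; the errors are constants which depend on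
the base field `K` only.
-/

namespace Pool.Agent.Lib.MP_44a246_ntTK

open Pool.Agent.Lib.MP_44a246_nt
open Pool.Agent.Lib.MP_44a246_ntL
open Pool.Agent.Lib.MP_44a246_ntS
open Pool.Agent.Lib.MP_44a246_ntX
open Pool.Agent.Lib.MP_44a246_ntG
open Pool.Agent.Lib.MP_44a246_ntK
open Pool.Agent.Lib.MP_44a246_ntF
open Pool.Agent.Lib.MP_44a246_ntO
open Pool.Agent.Lib.MP_44a246_ntSH
open Pool.Agent.Lib.MP_44a246_ntSP
open Pool.Agent.Lib.MP_44a246_ntUV
open Pool.Agent.Lib.MP_44a246_ntVT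
open Pool.Agent.Lib.MP_44a246_ntHU
open Pool.Agent.Lib.MP_44a246_ntR (genus)
open Pool.Agent.Lib.MP_e52354_nt
open WithZero Module Polynomial

universe u v w

/-- **The output over the field of the point**, for points of degree at most `r` over `K` and any
number of contact places, the ramification and the contact places counted once. Either the height is bounded, or there is a
certificate whose height is bounded: for `n` large it comes either from a curve of degree at most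
`n / (400 q)`, or from a curve of degree at most `Cb n` which spans a space of dimension at least
`n / (4000 q)`. -/
theorem level_KU' (p k q r : ℕ) (ε : ℝ) (hp : 1 ≤ p) (hr : 1 ≤ r)
    (hq : q = p * (4 * p + 1) * (k + 3)) (hε : 0 < ε) (hε1 : ε ≤ 1) : ∃ n₀ Cb : ℕ,
    ∀ (n : ℕ) (d : Fin p → ℕ), n₀ ≤ n → (∀ j, 1 ≤ d j) → n + 2 ≤ ∑ j, d j →
    ∀ (κ : Type u) (K : Type v) [Field κ] [IsAlgClosed κ] [CharZero κ] [Field K] [CharZero K]
      [Algebra κ K] (_ : IsFF κ K) (_ : Cardinal.aleph0 ≤ Algebra.trdeg ℚ κ)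
      (a : Fin p → (Fin (n + 1) →₀ ℕ) → K) (_ : AlgebraicIndependent ℚ
        (fun s : {s : Fin p × (Fin (n + 1) →₀ ℕ) // s ∈ jexpo n d} => a s.1.1 s.1.2)),
    ∃ C : ℕ, ∀ (L : Type w) [Field L] [Algebra K L] [FiniteDimensional K L]
      [Algebra κ L] [IsScalarTower κ K L], finrank K L ≤ r →
      ∀ (x : Fin (n + 1) → L), x ≠ 0 → pointField K x = ⊤ → ∀ T : Finset (Place κ L),
      (∀ w ∉ T, ∀ j, Fval (d j) (fun I => algebraMap K L (a j I)) x ≠ 0 →
        w.1 (Fval (d j) (fun I => algebraMap K L (a j I)) x) = vmax w.1 x ^ d j) →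
      (ramDeg κ L K : ℤ) ≤ k * height κ x →
      (ramDeg κ L K : ℝ) + T.card + ε * height κ x ≤
        ((∑ j, d j : ℕ) - (n : ℝ) - 1) * height κ x →
      height κ x ≤ C ∨ CertV κ (n / (400 * q)) 1 C x ∨
      CertV κ (Cb * n) (n / (4000 * q) + 1) C x := by
  have hq1 : 1 ≤ q := by
    rw [hq]
    exact Nat.mul_pos (Nat.mul_pos hp (by omega)) (by omega)
  have hq5 : 15 * p ≤ q := by
    rw [hq]
    have h2 : 5 * p ≤ p * (4 * p + 1) := by
      rw [mul_comm]
      exact Nat.mul_le_mul_left _ (by omega)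
    have h3 : p * (4 * p + 1) * (k + 3) = p * (4 * p + 1) * k + p * (4 * p + 1) * 3 := by ring
    omega
  obtain ⟨C₀, hC₀⟩ : ∃ C₀ : ℕ, C₀ = 2000 * q := ⟨_, rfl⟩
  obtain ⟨nh, C₈, Cb, hH⟩ := half_hatU.{w, u} p C₀ k ε (by omega) (by omega) hε hε1
  obtain ⟨ng, hG⟩ := gh_le_sec4KU.{w, u, v} p C₀ C₈ Cb k r (by omega) (by omega) (by omega)
  refine ⟨nh + ng + 20000 * q + C₀ + k + 3 + 3 * p + p * (46 * r), Cb, fun n d hn hd1 hd => ?_⟩
  intro κ K _ _ _ _ _ _ hK htr a ha
  obtain ⟨b, hb⟩ : ∃ b : ℕ, b = n / (400 * q) := ⟨_, rfl⟩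
  have hb1 : 400 * q * b ≤ n := by
    rw [hb]
    exact Nat.mul_div_le n (400 * q)
  have hb2 : n < 400 * q * (b + 1) := by
    rw [hb, mul_add, mul_one]
    have := Nat.div_add_mod n (400 * q)
    have h2 := Nat.mod_lt n (show 0 < 400 * q by omega)
    omega
  have hb6 : 6 ≤ b := by
    rw [hb, Nat.le_div_iff_mul_le (by omega)]
    omega
  have hbn : 400 * p * (b * (4 * p + 1)) * (k + 3) ≤ n := by
    refine le_trans (le_of_eq ?_) hb1
    rw [hq]
    ring
  have hbC : 42 * (20 * n + 9 * C₀) ≤ 180 * (C₀ * b) := by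
    have h1 : C₀ * b = 5 * (400 * q * b) := by
      rw [hC₀]
      ring
    have h2 : 400 * q * (b + 1) = 400 * q * b + 400 * q := by ring
    rw [h2] at hb2
    rw [h1]
    omega
  obtain ⟨ch, hch⟩ := hH n b d (by omega) hd1 hd hb6 hbn hbC
  -- a block of degree at least three
  obtain ⟨j₀, hj₀⟩ : ∃ j₀ : Fin p, 3 ≤ d j₀ := by
    by_contra hcon
    push Not at hcon
    have h1 : ∑ j, d j ≤ ∑ _j : Fin p, 2 := Finset.sum_le_sum fun j _ => by
      have := hcon j
      omega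
    rw [Finset.sum_const, Finset.card_univ, Fintype.card_fin, smul_eq_mul] at h1
    omega
  obtain ⟨Cd, hCd⟩ := exists_datSC_K.{u, v, w} hK htr hj₀ ha
  obtain ⟨Ct, hCt⟩ := exists_rowT.{u, v, w} hK htr hj₀ ha
  obtain ⟨t, htd⟩ : ∃ t : ℕ, t = n / p := ⟨_, rfl⟩
  have ht1 : p * t ≤ n := by
    rw [htd]
    exact Nat.mul_div_le n p
  have ht2 : n < p * (t + 1) := by
    rw [htd, mul_add, mul_one]
    have := Nat.div_add_mod n p
    have h2 := Nat.mod_lt n (show 0 < p by omega)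
    omega
  have htn : t ≤ n := by
    refine le_trans ?_ ht1
    exact Nat.le_mul_of_pos_left _ (by omega)
  have ht46 : 46 * r ≤ t := by
    rw [htd, Nat.le_div_iff_mul_le (by omega), mul_comm]
    omega
  obtain ⟨cg, hcg⟩ := hG n t (by omega) ht1 ht2
  -- the parts of the constant
  obtain ⟨D₀, hD₀⟩ : ∃ D₀ : ℕ, D₀ = Cd + genus κ K + 1 := ⟨_, rfl⟩
  obtain ⟨G, hG'⟩ : ∃ G : ℕ, G = cg * D₀ := ⟨_, rfl⟩
  obtain ⟨c₁, hc₁⟩ : ∃ c₁ : ℕ, c₁ = ch * (r * Cd + Ct * r) := ⟨_, rfl⟩
  obtain ⟨c₄, hc₄⟩ : ∃ c₄ : ℕ, c₄ = (9 * (Cb * n) + 6 * (n + 1)) * (G + r * Cd) := ⟨_, rfl⟩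
  obtain ⟨c₅, hc₅⟩ : ∃ c₅ : ℕ, c₅ = (27 * t ^ 2 + 2 * (9 * b + 6 * (n + 1))) * (r * Cd) :=
    ⟨_, rfl⟩
  refine ⟨c₁ + c₄ + c₅ + G + Cd + 2 * G + 3 * (r * Cd), ?_⟩
  intro L _ _ _ _ _ hrL x hx hgx T hT hTq hTε
  classical
  have hL : IsFF κ L := hK.of_finite
  have : CharZero L := charZero_of_injective_algebraMap (algebraMap K L).injective
  rcases le_or_gt (height κ x) ((c₁ + c₄ + c₅ + G + Cd + 2 * G + 3 * (r * Cd) : ℕ) : ℤ) with
    hle | hgt
  · exact Or.inl hle
  right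
  obtain ⟨X, O, s, τ, hOΔ, hXδ, hXΔ, hs0, hXx, hXa, hXh, -, -, -, hXR, -, -, -⟩ := hCd L x hx
  have hO0 : 0 ≤ O.Δ := O.Δ_nonneg
  have hrL' : (finrank K L : ℤ) ≤ r := by exact_mod_cast hrL
  have hΔr : X.toDatC.Δ ≤ r * O.Δ := by
    rw [hXΔ]
    exact mul_le_mul_of_nonneg_right hrL' hO0
  have hΔC : X.toDatC.Δ ≤ ((r * Cd : ℕ) : ℤ) := by
    refine hΔr.trans ?_
    push_cast
    exact mul_le_mul_of_nonneg_left hOΔ (Int.natCast_nonneg _)
  have hc50 : (0 : ℤ) ≤ (c₅ : ℤ) := Int.natCast_nonneg _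
  have hpgt : (c₁ : ℤ) + c₄ + c₅ + G + Cd + 2 * G + 3 * (r * Cd) < height κ X.x := by
    rw [hXh]
    have h1 := hgt
    push_cast at h1
    linarith
  have hg0 : (0 : ℤ) ≤ (G : ℤ) := Int.natCast_nonneg _
  have hcd0 : (0 : ℤ) ≤ (Cd : ℤ) := Int.natCast_nonneg _
  have hrcd0 : (0 : ℤ) ≤ (r : ℤ) * Cd := by positivity
  have hc10 : (0 : ℤ) ≤ (c₁ : ℤ) := Int.natCast_nonneg _
  have hc40 : (0 : ℤ) ≤ (c₄ : ℤ) := Int.natCast_nonneg _
  have hpos : 0 < height κ X.x := by linarith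
  -- the values of the forms
  have hval : ∀ j, X.toDatC.v j =
      s ^ d j * Fval (d j) (fun I => algebraMap K L (a j I)) x := by
    intro j
    have h1 : X.toDatC.v j = Fval (d j) (X.a j) X.x := rfl
    rw [h1, hXx, hXa]
    exact Fval_smul _ _ _ _
  have hT' : ∀ w ∉ T, ∀ j, X.toDatC.v j ≠ 0 → w.1 (X.toDatC.v j) = vmax w.1 X.x ^ d j := by
    intro w hw j hj
    rw [hval] at hj ⊢
    rw [map_mul, map_pow, hT w hw j (right_ne_zero_of_mul hj), hXx, vmax_smul, mul_pow]
  have hX0 : X.x ≠ 0 := by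
    intro h0
    rw [h0] at hXx
    apply hx
    funext i
    have h1 := congrFun hXx i
    exact (mul_eq_zero.1 h1.symm).resolve_left hs0
  obtain ⟨R, hRx, hRΔ, hRR, hRU⟩ := hCt L X.x hX0 T (by
    intro w hw j hj
    have h1 : Fval (d j) (fun I => algebraMap K L (a j I)) X.x = X.toDatC.v j := by
      have h2 : X.toDatC.v j = Fval (d j) (X.a j) X.x := rfl
      rw [h2, hXa]
    rw [h1] at hj ⊢
    exact hT' w hw j hj)
  have hRam : (ramDeg κ L K : ℤ) ≤ k * height κ X.x := by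
    rw [hXh]
    exact hTq
  have hT0 : (0 : ℤ) ≤ T.card := Int.natCast_nonneg _
  rcases hch κ L hL X T R hRx hRU (by rw [hXR]; exact hRR) hT' (by rw [hXR]; exact hRam) (by
    rw [hXR, hXh]
    exact_mod_cast hTε) with h1 | ⟨j, h1, h2, h3⟩ | ⟨hsl, α, hα, hαs, hpl⟩
  · -- the height is small
    exfalso
    have h2 : (ch : ℤ) * (X.toDatC.Δ + R.Δ') ≤ c₁ := by
      rw [hc₁]
      push_cast
      refine mul_le_mul_of_nonneg_left ?_ (Int.natCast_nonneg _)
      have h3 : R.Δ' ≤ Ct * r := hRΔ.trans (mul_le_mul_of_nonneg_left hrL' (Int.natCast_nonneg _))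
      push_cast at hΔC
      linarith
    linarith
  · -- the curves of small degree
    left
    rw [← htd] at h1 h2 h3
    have ht0 : 1 ≤ t := by omega
    have hj46 : 46 * finrank K L ≤ t ^ 2 := by
      have h6 : t ≤ t ^ 2 := by
        rw [pow_two]
        exact Nat.le_mul_of_pos_left _ ht0
      have h7 : 46 * finrank K L ≤ 46 * r := Nat.mul_le_mul_left _ hrL
      omega
    have hne : n + 2 ≤ (4 * p + 1) * t := by
      have h4 : (4 * p + 1) * t = p * t + 3 * (p * t) + t := by ring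
      have h5 : p * (t + 1) = p * t + p := by ring
      have h6 : p * 1 ≤ p * t := Nat.mul_le_mul_left _ ht0
      omega
    have hbe : 100 * (b * (4 * p + 1) * (2 * k + 3)) ≤ t := by
      have h4 : p * (400 * (b * (4 * p + 1)) * (k + 3)) ≤ n := by
        refine le_trans (le_of_eq ?_) hbn
        ring
      have h5 : 400 * (b * (4 * p + 1)) * (k + 3) ≤ t := by
        rw [htd, Nat.le_div_iff_mul_le (by omega), mul_comm]
        exact h4
      refine le_trans ?_ h5
      calc 100 * (b * (4 * p + 1) * (2 * k + 3)) = 100 * (b * (4 * p + 1)) * (2 * k + 3) := by ring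
        _ ≤ 100 * (b * (4 * p + 1)) * (4 * (k + 3)) := Nat.mul_le_mul_left _ (by omega)
        _ = _ := by ring
    have hbig : (27 * (t : ℤ) ^ 2 + 2 * (9 * (b : ℤ) + 6 * (n + 1))) * X.toDatC.Δ <
        height κ X.x := by
      have h4 : (27 * (t : ℤ) ^ 2 + 2 * (9 * (b : ℤ) + 6 * (n + 1))) * X.toDatC.Δ ≤ c₅ := by
        rw [hc₅]
        refine (mul_le_mul_of_nonneg_left hΔC (by positivity)).trans (le_of_eq ?_)
        push_cast
        ring
      linarith
    have h4 : CertV κ b 1 (3 * X.toDatC.Δ) X.x :=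
      certV_of_smallIU_K hK (DatV.ofSC X) hXa O hXδ T hT' h1 h2 hb6 hne hbe
        (by
          show X.toDatC.R ≤ k * height κ X.x
          rw [hXR]
          exact hRam) hj46 h3 hbig
    rw [hXx] at h4
    have h5 := CertV.of_smul hs0 h4
    rw [← hb]
    refine CertV.mono le_rfl ?_ h5
    push_cast
    push_cast at hΔC
    linarith
  · -- the moving curve
    right
    have hgx' : pointField K X.x = ⊤ := by
      rw [← hgx]
      unfold pointField
      congr 1
      ext z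
      constructor
      · rintro ⟨i, j, h1⟩
        refine ⟨i, j, ?_⟩
        rw [h1, hXx]
        exact mul_div_mul_left _ _ hs0
      · rintro ⟨i, j, h1⟩
        refine ⟨i, j, ?_⟩
        rw [h1, hXx]
        exact (mul_div_mul_left _ _ hs0).symm
    obtain ⟨X', b', A, hX', hb', hcrv, hgh, hgen⟩ :=
      exists_crvN_K.{w, u, v} hL X hgx' ⟨0, hp⟩ hpl hαs
    obtain ⟨s', hs0', hs'⟩ := hX'.x
    have hX'x : X'.x = s' • X.x := hs'
    have hh' : height κ X'.x = height κ X.x := by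
      rw [hs']
      exact hL.height_smul hs0'
    have hΔ' : X'.toDatC.Δ = X.toDatC.Δ := by
      show ∑ᶠ w, (X'.δ w : ℤ) = ∑ᶠ w, (X.δ w : ℤ)
      rw [hX'.δ]
    have hR' : X'.toDatC.R = X.toDatC.R := by
      show ∑ᶠ w, (X'.ρ w : ℤ) = ∑ᶠ w, (X.ρ w : ℤ)
      rw [hX'.ρ]
    have hsl' : ∀ Q : Submodule L (Fin (n + 1) → L), X'.x ∈ Q →
        n * ((height κ X'.x : ℝ) - ht κ Q) ≤ C₀ * height κ X'.x * ((finrank L Q : ℝ) - 1) := by
      intro Q hQ
      rw [hh']
      refine hsl Q ?_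
      rw [hX'x] at hQ
      exact (Q.smul_mem_iff hs0').1 hQ
    have hval' : ∀ j, X'.toDatC.v j = s' ^ d j * X.toDatC.v j := by
      intro j
      have h1 : X'.toDatC.v j = Fval (d j) (X'.a j) X'.x := rfl
      have h2 : X.toDatC.v j = Fval (d j) (X.a j) X.x := rfl
      rw [h1, h2, hs', hX'.a]
      exact Fval_smul _ _ _ _
    have hS' : ∀ w ∉ T, ∀ j, X'.toDatC.v j ≠ 0 →
        w.1 (X'.toDatC.v j) = vmax w.1 X'.x ^ d j := by
      intro w hw j hj
      rw [hval'] at hj ⊢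
      rw [map_mul, map_pow, hT' w hw j (right_ne_zero_of_mul hj), hs', vmax_smul, mul_pow]
    have hHp : (0 : ℝ) < height κ X.x := by exact_mod_cast hpos
    have hSc : (T.card : ℤ) ≤ (((∑ j, d j : ℕ) : ℤ) - n - 1) * height κ X'.x := by
      rw [hh', hXh]
      have h0 : (0 : ℝ) < height κ x := by
        rw [← hXh]
        exact hHp
      have h1 : (0 : ℝ) ≤ ε * height κ x := mul_nonneg hε.le h0.le
      have h4 : (0 : ℝ) ≤ (ramDeg κ L K : ℝ) := Nat.cast_nonneg _
      have h2 : (T.card : ℝ) ≤ ((∑ j, d j : ℕ) - (n : ℝ) - 1) * height κ x := by linarith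
      exact_mod_cast h2
    have hOΔ' : (O.same hX').Δ = O.Δ := O.same_Δ hX'
    have hcgD : cg * (O.Δ + genus κ K + 1) ≤ (G : ℤ) := by
      rw [hG', hD₀]
      push_cast
      refine mul_le_mul_of_nonneg_left ?_ (Int.natCast_nonneg _)
      linarith
    have b3 : cg * ((O.same hX').Δ + genus κ K + 1) < height κ X'.x := by
      rw [hOΔ', hh']
      linarith
    obtain ⟨j₁, htj, hN⟩ := exists_blockU (DatV.ofSC X') T hp (e := t) (by omega)
      (by
        show 0 < height κ X'.x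
        rw [hh']
        exact hpos) hSc
    obtain ⟨DK, D', τ', hDD, hPBK, hPB, hτ', hτs', hl⟩ :=
      exists_defU_K hL (DatV.ofSC X') (O.same hX') T hS' j₁ htj hN
    have hgA := (hcg κ K L hK hrL p d X' (O.same hX') ⟨0, hp⟩ b' A (hcrv.block _) hb' hgen hsl'
      (by
        rw [hh']
        exact (mul_le_mul_of_nonneg_right hgh (by positivity)).trans hα) DK D' hDD hPBK hPB
      τ' hτ' hτs' hl (by rw [hΔ', hOΔ']; exact hΔr)
      (by
        rw [hR', hXR, hh']
        exact hRam) b3).1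
    have hgA' : gh κ A ≤ (G : ℤ) := by
      rw [hOΔ'] at hgA
      exact hgA.trans hcgD
    have hsl2 : ∀ Q : Submodule L (Fin (n + 1) → L), X'.x ∈ Q → 2 * ht κ Q ≤ height κ X'.x →
        n / (4000 * q) + 1 ≤ finrank L Q := by
      intro Q hQ hQ2
      have hhp : (0 : ℝ) < height κ X'.x := by
        rw [hh']
        exact hHp
      have h1 := hsl' Q hQ
      have h2 : (2 : ℝ) * ht κ Q ≤ height κ X'.x := by exact_mod_cast hQ2
      have h3 : (n : ℝ) * height κ X'.x ≤ 2 * C₀ * ((finrank L Q : ℝ) - 1) * height κ X'.x := by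
        have h4 : (n : ℝ) * height κ X'.x ≤ 2 * (n * ((height κ X'.x : ℝ) - ht κ Q)) := by
          have h5 : (n : ℝ) * (2 * ht κ Q) ≤ n * height κ X'.x :=
            mul_le_mul_of_nonneg_left h2 (by positivity)
          linarith
        linarith
      have h6 : (n : ℝ) ≤ 2 * C₀ * ((finrank L Q : ℝ) - 1) := le_of_mul_le_mul_right h3 hhp
      have h7 : 1 ≤ finrank L Q := by
        have h0 : X'.x ≠ 0 := by
          intro h0
          have h8 := X'.h0
          rw [h0] at h8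
          simp at h8
        exact one_le_finrank_aux h0 hQ
      have h8 : n ≤ 4000 * q * (finrank L Q - 1) := by
        have h9 : ((n : ℕ) : ℝ) ≤ ((4000 * q * (finrank L Q - 1) : ℕ) : ℝ) := by
          push_cast [Nat.cast_sub h7]
          have h10 : (C₀ : ℝ) = 2000 * q := by
            rw [hC₀]
            push_cast
            ring
          rw [h10] at h6
          linarith
        exact_mod_cast h9
      have h9 : n / (4000 * q) ≤ finrank L Q - 1 := Nat.div_le_of_le_mul h8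
      omega
    have b4 : (9 * ((Cb * n : ℕ) : ℤ) + 6 * (n + 1)) * ((G : ℤ) + X'.toDatC.Δ) <
        height κ X'.x := by
      rw [hΔ', hh']
      have h2 : (9 * ((Cb * n : ℕ) : ℤ) + 6 * (n + 1)) * ((G : ℤ) + X.toDatC.Δ) ≤ (c₄ : ℤ) := by
        rw [hc₄]
        push_cast
        push_cast at hΔC
        exact mul_le_mul_of_nonneg_left (by linarith) (by positivity)
      linarith
    have h2 := certV_of_curve hL X' hsl2 (hcrv.block ⟨0, hp⟩).toCrvG hb' hgA' b4
    rw [hΔ', hs'] at h2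
    have h3 := CertV.of_smul hs0' h2
    rw [hXx] at h3
    have h4 := CertV.of_smul hs0 h3
    refine CertV.mono le_rfl ?_ h4
    push_cast
    push_cast at hΔC
    linarith

/-- **The output over the field of the point**, for points of degree at most `r` over `K` and any
number of contact places, the ramification and the contact places counted once: either the height is bounded, or there is a
certificate whose degree and height are bounded. -/
theorem level_KU (p q r : ℕ) (ε : ℝ) (hε : 0 < ε) : ∃ n₀ : ℕ,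
    ∀ (n : ℕ) (d : Fin p → ℕ), n₀ ≤ n → (∀ j, 1 ≤ d j) → n + 2 ≤ ∑ j, d j →
    ∀ (κ : Type u) (K : Type v) [Field κ] [IsAlgClosed κ] [CharZero κ] [Field K] [CharZero K]
      [Algebra κ K] (_ : IsFF κ K) (_ : Cardinal.aleph0 ≤ Algebra.trdeg ℚ κ)
      (a : Fin p → (Fin (n + 1) →₀ ℕ) → K) (_ : AlgebraicIndependent ℚ
        (fun s : {s : Fin p × (Fin (n + 1) →₀ ℕ) // s ∈ jexpo n d} => a s.1.1 s.1.2)),
    ∃ B C : ℕ, ∀ (L : Type w) [Field L] [Algebra K L] [FiniteDimensional K L]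
      [Algebra κ L] [IsScalarTower κ K L], finrank K L ≤ r →
      ∀ (x : Fin (n + 1) → L), x ≠ 0 → pointField K x = ⊤ → ∀ T : Finset (Place κ L),
      (∀ w ∉ T, ∀ j, Fval (d j) (fun I => algebraMap K L (a j I)) x ≠ 0 →
        w.1 (Fval (d j) (fun I => algebraMap K L (a j I)) x) = vmax w.1 x ^ d j) →
      (ramDeg κ L K : ℤ) ≤ q * height κ x →
      (ramDeg κ L K : ℝ) + T.card + ε * height κ x ≤
        ((∑ j, d j : ℕ) - (n : ℝ) - 1) * height κ x →
      height κ x ≤ C ∨ CertV κ B 1 C x := by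
  rcases Nat.eq_zero_or_pos p with hp | hp
  · refine ⟨0, fun n d _ _ hd => ?_⟩
    exfalso
    subst hp
    simp at hd
  obtain ⟨n₀, Cb, h⟩ := level_KU'.{u, v, w} p q _ (max r 1) (min ε 1) hp (le_max_right _ _) rfl
    (lt_min hε one_pos) (min_le_right _ _)
  refine ⟨n₀, fun n d hn hd1 hd κ K _ _ _ _ _ _ hK htr a ha => ?_⟩
  obtain ⟨C, hC⟩ := h n d hn hd1 hd κ K hK htr a ha
  refine ⟨n / (400 * (p * (4 * p + 1) * (q + 3))) + Cb * n, C, ?_⟩
  intro L _ _ _ _ _ hrL x hx hgx T hT hTq hTε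
  have hL : IsFF κ L := hK.of_finite
  have h0 : (0 : ℝ) ≤ height κ x := by exact_mod_cast hL.height_nonneg hx
  rcases hC L (hrL.trans (le_max_left _ _)) x hx hgx T hT hTq (by
    have h1 : min ε 1 * height κ x ≤ ε * height κ x :=
      mul_le_mul_of_nonneg_right (min_le_left _ _) h0
    linarith) with h1 | h1 | h1
  · exact Or.inl h1
  · exact Or.inr (CertV.mono (Nat.le_add_right _ _) le_rfl h1)
  · exact Or.inr (CertV.anti (Nat.le_add_left 1 _) (CertV.mono (Nat.le_add_left _ _) le_rfl h1))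

end Pool.Agent.Lib.MP_44a246_ntTK
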