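import Mathlib
import Pool.Agent.Lib.MP_44a246_ntTK.TK11
import Pool.Agent.Lib.MP_44a246_ntTK.TK12a

/-!
Section 4 over the base field `K`, the final form: for points over extensions of degree at most `r`
whose ramification is at most a multiple of the height, the height of the plane curve is bounded
by a constant which depends on `K` only.
-/

namespace Pool.Agent.Lib.MP_44a246_ntTK

open Pool.Agent.Lib.MP_e52354_nt
open Pool.Agent.Lib.MP_44a246_nt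
open Pool.Agent.Lib.MP_44a246_ntL
open Pool.Agent.Lib.MP_44a246_ntR
open Pool.Agent.Lib.MP_44a246_ntS
open Pool.Agent.Lib.MP_44a246_ntA
open Pool.Agent.Lib.MP_44a246_ntF
open Pool.Agent.Lib.MP_44a246_ntO
open Pool.Agent.Lib.MP_44a246_ntW
open Pool.Agent.Lib.MP_44a246_ntE
open Pool.Agent.Lib.MP_44a246_ntG
open Pool.Agent.Lib.MP_44a246_ntK
open Pool.Agent.Lib.MP_44a246_ntSH
open Pool.Agent.Lib.MP_44a246_ntSP
open Pool.Agent.Lib.MP_44a246_ntUV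
open WithZero Polynomial Module

universe u v w

/-- **Section 4 over `K`**: the height of the plane curve is bounded by the errors over `K` if the
number of the places of contact is at most `(∑ d - n - 1) H`. -/
theorem gh_le_sec4K (p C₀ C₈ Cb Cd q₀ r : ℕ) (hC₀ : 0 < C₀) (hr0 : 0 < r) :
    ∃ n₀ : ℕ, ∀ (n : ℕ) (d : Fin p → ℕ),
    n₀ ≤ n → n + 2 ≤ ∑ j, d j → ∑ j, d j ≤ Cd * n → ∃ c : ℕ,
    ∀ (κ : Type v) (K : Type w) (L : Type u) [Field κ] [IsAlgClosed κ] [CharZero κ] [Field K]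
      [CharZero K] [Field L] [CharZero L] [Algebra κ K] [Algebra K L] [Algebra κ L]
      [IsScalarTower κ K L] [FiniteDimensional K L], IsFF κ K → finrank K L ≤ r →
      ∀ (X : DatSC κ (L := L) n d) (O : OverK κ K X) (b : ℕ) (A : L[X][X]),
      (∀ j, CrvN (X.toDatC.blk j) b A) → b ≤ Cb * n →
      IntermediateField.adjoin K {∑ j, (X.ξ₁ j : L) * X.x j} = ⊤ →
      (∀ Q : Submodule L (Fin (n + 1) → L), X.x ∈ Q →
        n * ((height κ X.x : ℝ) - ht κ Q) ≤ C₀ * height κ X.x * ((finrank L Q : ℝ) - 1)) →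
      gh κ A * (n : ℤ) ^ 2 ≤ C₈ * height κ X.x →
      ∀ (vl : Fin p → L) (gr : Fin p → Fin (n + 1) → L),
      (∀ (s : Σ j, EX (n + 1) (d j)) (j : Fin p), X.D (s.1, s.2.1) (vl j) =
        (if s.1 = j then mon X.x s.2.1 else 0) + ∑ i, gr j i * X.D (s.1, s.2.1) (X.x i)) →
      ∀ S : Finset (Place κ L), (∀ w ∉ S, ∀ j, vl j ≠ 0 →
        vmax w.1 X.x ^ d j ≤ w.1 (vl j)) →
      (S.card : ℤ) ≤ (((∑ j, d j : ℕ) : ℤ) - (n + 1)) * height κ X.x →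
      X.toDatC.Δ ≤ r * O.Δ → X.toDatC.R ≤ q₀ * height κ X.x →
      c * (O.Δ + genus κ K + 1) < height κ X.x →
      gh κ A ≤ c * (O.Δ + genus κ K + 1) ∧
      ∀ j, n / (2 * C₀) / r + 1 + finrank L (dvS A ((X.toDatC.blk j).B A)) ≤ n + 1 := by
  obtain ⟨CB, hCB⟩ : ∃ CB : ℕ, CB = r * Cb := ⟨_, rfl⟩
  obtain ⟨i, hi⟩ := exists_exp (CB * (4 * C₀ * r))
  obtain ⟨e, he⟩ : ∃ e : ℕ, e = 8 * 2 ^ i := ⟨_, rfl⟩
  obtain ⟨q, hq⟩ : ∃ q : ℕ, q = 2 ^ i := ⟨_, rfl⟩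
  obtain ⟨Kw, hKw⟩ : ∃ Kw : ℕ, Kw = r * ((CB + 1) + ((1 + 2 * q) * CB + 1) + 2) := ⟨_, rfl⟩
  obtain ⟨M₁, hM₁⟩ : ∃ M₁ : ℕ, M₁ = 64 * Kw * p ^ 2 := ⟨_, rfl⟩
  obtain ⟨bs, hbs⟩ : ∃ bs : ℕ, bs = 12 * M₁ := ⟨_, rfl⟩
  obtain ⟨N₄, hN₄⟩ : ∃ N₄ : ℕ, N₄ = Fintype.card (EX 4 bs) := ⟨_, rfl⟩
  obtain ⟨M₂, hM₂⟩ : ∃ M₂ : ℕ, M₂ = 48 * (64 * C₀ * Kw * (e + 1) ^ 2 * p) := ⟨_, rfl⟩
  obtain ⟨Kk, hKk⟩ : ∃ Kk : ℕ, Kk = 2 * (4 * r + (bs + CB * N₄ * bs) + 4 * N₄ ^ 2 * bs * r +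
    8 * C₀ * Kw * (e + 1) ^ 2) := ⟨_, rfl⟩
  obtain ⟨c', hc'⟩ : ∃ c' : ℕ, c' = Cd * C₈ + 1 := ⟨_, rfl⟩
  obtain ⟨q₁, hq₁⟩ : ∃ q₁ : ℕ, q₁ = (1 + p) * q₀ := ⟨_, rfl⟩
  obtain ⟨Q, hQ⟩ : ∃ Q : ℕ, Q = q * p + (3 + q₁) + 2 * (Cd * c') + (1 + p) * r := ⟨_, rfl⟩
  refine ⟨Kk * C₈ + 8 * p * (42 * M₁ + M₂ + 1) + 4 * C₀ * r + 2 * C₀ * N₄ + 2 +
    2 * c' + 2 * (p * Q + Q + p * (q + 2)) + q₁, fun n d hn hd1 hd2 => ?_⟩
  -- the degrees
  have hp0 : 0 < p := by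
    rcases Nat.eq_zero_or_pos p with h | h
    · subst h
      simp at hd1
    · exact h
  have : Nonempty (Fin p) := ⟨⟨0, hp0⟩⟩
  have hdle : ∀ j, d j ≤ Cd * n := fun j =>
    (Finset.single_le_sum (fun i _ => Nat.zero_le (d i)) (Finset.mem_univ j)).trans hd2
  obtain ⟨k, hk⟩ : ∃ k, ∑ j, d j = n + 1 + k := ⟨∑ j, d j - (n + 1), by omega⟩
  -- the degree of the forms in four variables
  obtain ⟨e₁, he₁⟩ : ∃ e₁ : ℕ, e₁ = n / (4 * p) := ⟨_, rfl⟩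
  have hpe : 4 * p * e₁ ≤ n := by
    rw [he₁]
    exact Nat.mul_div_le n (4 * p)
  have hpe2 : n < 4 * p * (e₁ + 1) := by
    rw [he₁]
    exact Nat.lt_mul_div_succ _ (by omega)
  have hen : ∀ t : ℕ, 8 * p * (t + 1) ≤ n → t + 1 ≤ e₁ := by
    intro t ht
    by_contra hcon
    have h1 : e₁ + 1 ≤ t + 1 := by omega
    have h2 : 4 * p * (e₁ + 1) ≤ 4 * p * (t + 1) := Nat.mul_le_mul_left _ h1
    have h3 : 8 * p * (t + 1) = 4 * p * (t + 1) + 4 * p * (t + 1) := by ring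
    omega
  have he₁M : 42 * M₁ + M₂ + 1 ≤ e₁ := hen _ (by omega)
  have he₁1 : 1 ≤ e₁ := by omega
  have hn8 : n ≤ 8 * p * e₁ := by
    have h1 : 4 * p * (e₁ + 1) ≤ 8 * p * e₁ := by
      calc 4 * p * (e₁ + 1) ≤ 4 * p * (2 * e₁) := Nat.mul_le_mul_left _ (by omega)
        _ = 8 * p * e₁ := by ring
    omega
  obtain ⟨w, hw⟩ : ∃ w : ℕ, w = Kw * n ^ 2 := ⟨_, rfl⟩
  obtain ⟨W, hW⟩ : ∃ W : ℕ, W = 2 * C₀ * Kw * n := ⟨_, rfl⟩
  obtain ⟨cf, hcf⟩ : ∃ cf : ℕ, cf = 48 * (4 * W * (e + 1) * (CB * n) + w +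
    Fintype.card (EX 4 e₁)) := ⟨_, rfl⟩
  refine ⟨2 * (4 * n * r + CB * n * (N₄ + 1) + (4 * N₄ * (N₄ + 1) * r + 2 * N₄ * r) +
    CB * n ^ 2 + (4 * W * (e + 1) * (CB * n) + w + (1 + p) * r)) + r * cf, ?_⟩
  intro κ K L _ _ _ _ _ _ _ _ _ _ _ _ hK hLr X O b A hA hb hy₁ hsl hsmall vl gr hcol S hS hSc
    hΔL hRH hbig
  obtain ⟨c, hc⟩ : ∃ c : ℕ, c = 2 * (4 * n * r + CB * n * (N₄ + 1) +
    (4 * N₄ * (N₄ + 1) * r + 2 * N₄ * r) + CB * n ^ 2 +
    (4 * W * (e + 1) * (CB * n) + w + (1 + p) * r)) + r * cf := ⟨_, rfl⟩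
  rw [← hc] at hbig ⊢
  obtain ⟨j₀⟩ := this
  have hL : IsFF κ L := IsFF.of_finite (K := K) hK
  -- the curve
  have hAj := hA j₀
  obtain ⟨P, hPirr, hPdeg, hPdvd, hAP, hPA, hghP, hghA⟩ := exists_crvP (κ := κ) hK hAj.irr hAj.deg
  have hPK : CrvK (X.toDatC.blk j₀) A O.E P :=
    CrvK.of_dvd hAj.toCrvE (fun j y => O.hE j y) hPirr hPdeg hPdvd
  obtain ⟨m, hm⟩ : ∃ m : ℕ, m = P.natDegree := ⟨_, rfl⟩
  have hm0 : 0 < m := by rw [hm]; exact Nat.pos_of_ne_zero hPdeg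
  have hm1 : m ≤ CB * n := by
    rw [hm, hCB]
    calc P.natDegree ≤ finrank K L * A.natDegree := hPA
      _ ≤ r * (Cb * n) := Nat.mul_le_mul hLr (hAj.box.1.trans hb)
      _ = r * Cb * n := by ring
  obtain ⟨g, hg⟩ : ∃ g : ℤ, g = gh κ P := ⟨_, rfl⟩
  have hg0 : 0 ≤ g := by rw [hg]; exact gh_nonneg hK hPirr.ne_zero
  obtain ⟨H, hH⟩ : ∃ H : ℤ, H = height κ X.x := ⟨_, rfl⟩
  obtain ⟨r', hr'⟩ : ∃ r' : ℤ, r' = (finrank K L : ℤ) := ⟨_, rfl⟩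
  have hr'0 : 0 ≤ r' := by rw [hr']; exact Int.natCast_nonneg _
  have hr'r : r' ≤ r := by rw [hr']; exact_mod_cast hLr
  -- the errors
  obtain ⟨γ, hγ⟩ : ∃ γ : ℤ, γ = (genus κ K : ℤ) + 1 := ⟨_, rfl⟩
  have hγ0 : 1 ≤ γ := by
    rw [hγ]
    have : (0 : ℤ) ≤ genus κ K := Int.natCast_nonneg _
    linarith
  obtain ⟨Δ, hΔ⟩ : ∃ Δ : ℤ, Δ = O.Δ := ⟨_, rfl⟩
  have hΔ0 : 0 ≤ Δ := by rw [hΔ]; exact O.Δ_nonneg
  obtain ⟨ΔL, hΔLd⟩ : ∃ ΔL : ℤ, ΔL = X.toDatC.Δ := ⟨_, rfl⟩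
  obtain ⟨R', hR'⟩ : ∃ R' : ℤ, R' = X.toDatC.R := ⟨_, rfl⟩
  obtain ⟨s, hs⟩ : ∃ s : ℤ, s = S.card := ⟨_, rfl⟩
  rw [← hΔ] at hbig ⊢
  rw [← hΔLd, ← hΔ] at hΔL
  rw [← hR', ← hH] at hRH
  rw [add_assoc _ (genus κ K : ℤ) 1, ← hγ, ← hH] at hbig
  rw [add_assoc _ (genus κ K : ℤ) 1, ← hγ]
  have hsmall : g * (n : ℤ) ^ 2 ≤ C₈ * H := by
    rw [hg, hH]
    refine le_trans ?_ hsmall
    exact mul_le_mul_of_nonneg_right hghP (by positivity)
  rw [← hs, ← hH] at hSc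
  obtain ⟨E, hE⟩ : ∃ E : ℤ, E = Δ + γ := ⟨_, rfl⟩
  rw [← hE] at hbig ⊢
  have hE0 : 0 ≤ E := by rw [hE]; positivity
  have hH0 : 0 < H := lt_of_le_of_lt (mul_nonneg (Int.natCast_nonneg _) hE0) hbig
  have hn0 : 0 < n := by omega
  have hKn : Kk * C₈ ≤ n := by omega
  have F1 : ∀ k : ℕ, 2 * k ≤ Kk → 2 * ((k : ℤ) * (n * g)) ≤ H := fun k hk =>
    num_F1 hn0 hKn hH0.le hg0 hsmall hk
  have F2 : ∀ l : ℕ, 2 * l ≤ c → 2 * ((l : ℤ) * E) < H := fun l hl => num_F2 hE0 hbig hl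
  have F12 : ∀ k l : ℕ, 2 * k ≤ Kk → 2 * l ≤ c → (k : ℤ) * (n * g) + l * E < H := by
    intro k l hk hl
    have h1 := F1 k hk
    have h2 := F2 l hl
    linarith
  have hpos : 0 < height κ (X.toDatC.blk j₀).x := by rw [DatC.blk_x, ← hH]; exact hH0
  have hy₁' : IntermediateField.adjoin K {(X.toDatC.blk j₀).y₁} = ⊤ := hy₁
  have hn' : (1 : ℤ) ≤ n := by exact_mod_cast hn0
  have hm' : (m : ℤ) ≤ CB * n := by exact_mod_cast hm1
  have hm0' : (0 : ℤ) ≤ m := Int.natCast_nonneg _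
  have hγE : γ ≤ E := by rw [hE]; linarith
  have hΔE : Δ ≤ E := by rw [hE]; linarith
  have hng : g ≤ n * g := le_mul_of_one_le_left hg0 hn'
  have hr0' : (0 : ℤ) ≤ r := Int.natCast_nonneg _
  -- the number of independent functions
  have hindK : n / (2 * C₀) + 1 + finrank K (dvS P (BK O.E P)) ≤ n + 1 := by
    refine indep_K hAj.toCrvE hPK hK hpos hC₀ hsl ?_
    rw [DatC.blk_x, ← hH, ← hg, ← hγ, ← hr']
    have h1 := F12 (4 * r) (4 * n * r) (by omega) (by omega)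
    push_cast at h1
    have h2 : ((n : ℤ) + 1) * (g + γ) ≤ (2 * n) * (g + E) :=
      mul_le_mul (by linarith) (by linarith) (by linarith) (by linarith)
    have h3 : r' * (((n : ℤ) + 1) * (g + γ)) ≤ r * ((2 * n) * (g + E)) :=
      mul_le_mul hr'r h2 (by positivity) hr0'
    linarith
  obtain ⟨NK, hNK⟩ : ∃ NK : ℕ, NK = n / (2 * C₀) := ⟨_, rfl⟩
  rw [← hNK] at hindK
  have hind : ∀ j, n / (2 * C₀) / r + 1 + finrank L (dvS A ((X.toDatC.blk j).B A)) ≤ n + 1 := by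
    intro j
    refine indep_L hAj.toCrvE hPK hLr ?_
    rw [← hNK]
    have h1 : NK / r * r ≤ NK := Nat.div_mul_le_self _ _
    omega
  refine ⟨?_, hind⟩
  have hindL := hind j₀
  -- the codimensions
  obtain ⟨R, rfl⟩ : ∃ R, n = R + 2 := ⟨n - 2, by omega⟩
  obtain ⟨N, hN⟩ : ∃ N : ℕ, N = (R + 2) / (2 * C₀) / r := ⟨_, rfl⟩
  rw [← hN] at hindL
  have hNK1 : R + 2 < 2 * C₀ * (NK + 1) := by
    rw [hNK]
    exact Nat.lt_mul_div_succ _ (by omega)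
  have hNr : NK < r * (N + 1) := by
    rw [hN, ← hNK]
    exact Nat.lt_mul_div_succ _ hr0
  have hN1 : R + 2 < 2 * C₀ * (r * (N + 1)) := by
    refine hNK1.trans_le (Nat.mul_le_mul_left _ ?_)
    omega
  have hN2 : 2 ≤ N := by
    rw [hN, Nat.le_div_iff_mul_le hr0, Nat.le_div_iff_mul_le (by omega)]
    have : 2 * r * (2 * C₀) = 4 * C₀ * r := by ring
    omega
  have hiN : 2 ^ i * P.natDegree ≤ 3 ^ i * N := by
    rw [← hm]
    have h1 : m ≤ CB * (4 * C₀ * r) * N := by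
      have h2 : 2 * C₀ * (r * (N + 1)) ≤ 4 * C₀ * r * N := by
        calc 2 * C₀ * (r * (N + 1)) ≤ 2 * C₀ * (r * (2 * N)) :=
              Nat.mul_le_mul_left _ (Nat.mul_le_mul_left _ (by omega))
          _ = 4 * C₀ * r * N := by ring
      calc m ≤ CB * (R + 2) := hm1
        _ ≤ CB * (4 * C₀ * r * N) := Nat.mul_le_mul_left _ (by omega)
        _ = CB * (4 * C₀ * r) * N := by ring
    calc 2 ^ i * m ≤ 2 ^ i * (CB * (4 * C₀ * r) * N) := Nat.mul_le_mul_left _ h1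
      _ = (CB * (4 * C₀ * r) * 2 ^ i) * N := by ring
      _ ≤ 3 ^ i * N := Nat.mul_le_mul_right _ hi
  obtain ⟨hNm, hcod1, hcod4, hcod3, hcon⟩ := codims_K hAj hPK (N := N) (i := i)
    (by omega) hiN hN2
  rw [← hm, ← hq] at hcod4
  rw [← hm] at hNm hcod1 hcod3
  -- the data
  obtain ⟨δ, hδ⟩ : ∃ δ : Place κ L → ℕ, δ = fun w => X.δ w + X.ρ w := ⟨_, rfl⟩
  have hδf : (Function.support δ).Finite := by
    refine (X.hδ.union X.hρ).subset fun w hw => ?_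
    rw [hδ] at hw
    simp only [Function.mem_support, Set.mem_union] at hw ⊢
    omega
  have hδsum : ∑ᶠ w, (δ w : ℤ) = ΔL + R' := by
    have s1 : (Function.support fun w : Place κ L => (X.δ w : ℤ)).Finite := by
      refine X.hδ.subset fun w hw h0 => hw ?_
      simp only
      rw [h0, Nat.cast_zero]
    have s2 : (Function.support fun w : Place κ L => (X.ρ w : ℤ)).Finite := by
      refine X.hρ.subset fun w hw h0 => hw ?_
      simp only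
      rw [h0, Nat.cast_zero]
    rw [hΔLd, hR', DatC.Δ, DatC.R, ← finsum_add_distrib s1 s2, hδ]
    exact finsum_congr fun w => by push_cast; ring
  have hDL : ΔL + R' ≤ r * Δ + q₀ * H := add_le_add hΔL hRH
  obtain ⟨v', hv'⟩ : ∃ v' : ℕ, v' = (e + 1 + 1) * m := ⟨_, rfl⟩
  obtain ⟨cc, hcc⟩ : ∃ cc : Fin 4 → Fin (R + 3) → κ, cc = ![X.z', fun j => (X.ξ₀ j : κ),
    fun j => (X.ξ₁ j : κ), X.z] := ⟨_, rfl⟩
  have hnat1 : 1 ≤ R + 2 := by omega
  have hsq : R + 2 ≤ (R + 2) ^ 2 := Nat.le_self_pow (by norm_num) _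
  -- numbers
  have hwle : finrank K L * (R * (m + 1) + (m + 2 * (2 ^ i * m) + 1) + (R + 3)) ≤ w := by
    rw [hw, hKw, ← hq]
    have h1 : R * (m + 1) ≤ (CB + 1) * (R + 2) ^ 2 := by
      calc R * (m + 1) ≤ (R + 2) * ((CB + 1) * (R + 2)) := Nat.mul_le_mul (by omega) (by
            rw [add_mul, one_mul]
            omega)
        _ = _ := by ring
    have h2 : m + 2 * (q * m) + 1 ≤ ((1 + 2 * q) * CB + 1) * (R + 2) ^ 2 := by
      calc m + 2 * (q * m) + 1 = (1 + 2 * q) * m + 1 := by ring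
        _ ≤ (1 + 2 * q) * (CB * (R + 2) ^ 2) + (R + 2) ^ 2 := by
            refine add_le_add (Nat.mul_le_mul_left _ (hm1.trans ?_)) (by omega)
            exact Nat.mul_le_mul_left _ hsq
        _ = _ := by ring
    have h3 : R + 3 ≤ 2 * (R + 2) ^ 2 := by omega
    have h4 : R * (m + 1) + (m + 2 * (q * m) + 1) + (R + 3) ≤
        ((CB + 1) + ((1 + 2 * q) * CB + 1) + 2) * (R + 2) ^ 2 := by
      calc _ ≤ (CB + 1) * (R + 2) ^ 2 + ((1 + 2 * q) * CB + 1) * (R + 2) ^ 2 +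
            2 * (R + 2) ^ 2 := add_le_add (add_le_add h1 h2) h3
        _ = _ := by ring
    calc _ ≤ r * (((CB + 1) + ((1 + 2 * q) * CB + 1) + 2) * (R + 2) ^ 2) :=
          Nat.mul_le_mul hLr h4
      _ = _ := by ring
  have hwe : w ≤ M₁ * e₁ ^ 2 := by
    rw [hw, hM₁]
    calc Kw * (R + 2) ^ 2 ≤ Kw * (8 * p * e₁) ^ 2 :=
          Nat.mul_le_mul_left _ (Nat.pow_le_pow_left hn8 2)
      _ = _ := by ring
  have hc1 : 12 * w ≤ (bs + 1) * e₁ ^ 2 := by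
    rw [hbs]
    calc 12 * w ≤ 12 * (M₁ * e₁ ^ 2) := Nat.mul_le_mul_left _ hwe
      _ = (12 * M₁) * e₁ ^ 2 := by ring
      _ ≤ (12 * M₁ + 1) * e₁ ^ 2 := Nat.mul_le_mul_right _ (Nat.le_succ _)
  have hc2 : 42 * w ≤ e₁ ^ 3 := by
    calc 42 * w ≤ 42 * (M₁ * e₁ ^ 2) := Nat.mul_le_mul_left _ hwe
      _ = (42 * M₁) * e₁ ^ 2 := by ring
      _ ≤ e₁ * e₁ ^ 2 := Nat.mul_le_mul_right _ (by omega)
      _ = e₁ ^ 3 := by ring
  have hc3 : 48 * (4 * W * (e + 1) ^ 2) ≤ e₁ ^ 2 := by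
    have h1 : 4 * W * (e + 1) ^ 2 ≤ 64 * C₀ * Kw * (e + 1) ^ 2 * p * e₁ := by
      rw [hW]
      calc 4 * (2 * C₀ * Kw * (R + 2)) * (e + 1) ^ 2 =
            (8 * C₀ * Kw * (e + 1) ^ 2) * (R + 2) := by ring
        _ ≤ (8 * C₀ * Kw * (e + 1) ^ 2) * (8 * p * e₁) := Nat.mul_le_mul_left _ hn8
        _ = _ := by ring
    calc 48 * (4 * W * (e + 1) ^ 2) ≤
          48 * (64 * C₀ * Kw * (e + 1) ^ 2 * p * e₁) := Nat.mul_le_mul_left _ h1
      _ = M₂ * e₁ := by rw [hM₂]; ring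
      _ ≤ e₁ * e₁ := Nat.mul_le_mul_right _ (by omega)
      _ = e₁ ^ 2 := by ring
  have hwW : w ≤ W * (NK + 1) := by
    rw [hw, hW]
    calc Kw * (R + 2) ^ 2 = (Kw * (R + 2)) * (R + 2) := by ring
      _ ≤ (Kw * (R + 2)) * (2 * C₀ * (NK + 1)) := Nat.mul_le_mul_left _ hNK1.le
      _ = _ := by ring
  have hv'm : v' ≤ 2 * (e + 1) * m := by
    rw [hv']
    refine Nat.mul_le_mul_right _ ?_
    omega
  have hW' : (W : ℤ) = 2 * C₀ * Kw * ((R + 2 : ℕ) : ℤ) := by rw [hW]; push_cast; ring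
  -- the codimension of `ZF` and the conormal lemma
  obtain ⟨D, hD⟩ : ∃ D : (Σ j, EX (R + 2 + 1) (d j)) → Derivation ℤ K K,
    D = fun s => O.D (s.1, s.2.1) := ⟨_, rfl⟩
  obtain ⟨D', hD'⟩ : ∃ D' : (Σ j, EX (R + 2 + 1) (d j)) → Derivation ℤ L L,
    D' = fun s => X.D (s.1, s.2.1) := ⟨_, rfl⟩
  have hDD : ∀ s (y : K), D' s (algebraMap K L y) = algebraMap K L (D s y) := by
    intro s y
    rw [hD, hD']
    exact O.hD _ y
  have hPBK : ∀ t, PoleBound κ (D t) O.δ := by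
    rw [hD]
    exact fun t => O.hDδ (t.1, t.2.1) t.2.2
  have hPB : ∀ t, PoleBound κ (D' t) δ := by
    rw [hD']
    exact fun t => poleBound_D X (fun w => by rw [hδ]) t
  have hΔsum : ∑ᶠ v, (O.δ v : ℤ) = Δ := by rw [hΔ]; rfl
  have hZc : Fintype.card (Σ j, EX (R + 2 + 1) (d j)) ≤
      finrank K (ZF P (BK O.E P) D) + w :=
    (hcod3 _ _ _).trans (Nat.add_le_add_left hwle _)
  have hcon' : ∀ F : (Σ j, EX (R + 2 + 1) (d j)) → K, F ∉ ZF P (BK O.E P) D →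
      ∃ f ∈ VI P (BK O.E P) e, (fun I => dF D F (f I)) ∉ VI P (BK O.E P) e := by
    rw [he]
    exact fun F hF => hcon _ _ _ F hF
  -- section 3
  have hZle := ht_ZF_K_num hK hAj.toCrvE hPK hpos (d := d) (D := D) O.hδ hPBK (e := e) hcon'
    (ρ₀ := NK + 1) (w := w) (v' := v') (W := W) (by omega) (by omega)
    hZc (by
      rw [hv']
      exact hcod1 _)
    hwW (by rw [← hm]; exact hv'm)
  rw [← hg, ← hm, hΔsum, ← hγ] at hZle
  obtain ⟨r₂, hr1, hr2⟩ := r2_le_K hK hAj.toCrvE hPK hpos hy₁' (d := d) (D := D) (D' := D') hDD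
    (v := vl) (g := gr) (fun s j => by rw [hD']; exact hcol s j) hδf hPB S
    (fun w hw j hj => hS w hw j hj) (d' := Cd * (R + 2)) hdle
  rw [DatC.blk_x, ← hH, ← hg, ← hm, hδsum, ← hs, ← hγ, ← hr'] at hr2
  have hr3 : r₂ ≤ m * (k + q₁ + 3 + 2 * (Cd * c')) := by
    refine num_r₂G (n := R + 2) (H := H) (u := (Cd * (R + 2) : ℕ) * g + m * γ)
      (R' := ht κ (ZF P (BK O.E P) D) + (ΔL + R') + 2 * H + (p * (ΔL + R') + s) +
        (1 + p) * (r' * γ))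
      hH0 (by omega) (by omega) (by omega) ?_ ?_ (by
        refine le_trans (le_of_eq ?_) hr2
        ring)
    · rw [hc']
      exact num_u hm0' hm' (by linarith) hγE hsmall (F2 (CB * (R + 2) ^ 2) (by omega)) hH0
    · have h1 := num_RK (n := R + 2) (C₀ := C₀) (Kw := Kw) (e := e) (Cb := CB) (W := W) (w := w)
        (p := p) (k := k) (r := r) (q₀ := q₀) (s := s) (DL := ΔL + R') (r' := r')
        (m := m) (γ := γ) (g := g) (E := E) hm0' hm' (by linarith) hE hΔ0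
        (F12 (8 * C₀ * Kw * (e + 1) ^ 2)
          (4 * W * (e + 1) * (CB * (R + 2)) + w + (1 + p) * r) (by omega) (by omega)) hW' ?_
          hDL hr'r hZle
      · refine h1.trans (le_of_eq ?_)
        rw [hq₁]
        push_cast
        ring
      · refine hSc.trans (le_of_eq ?_)
        rw [hk]
        push_cast
        ring
  -- the blocks
  have hsumS := sum_finrank_Sj (ZF P (BK O.E P) D) P (BK O.E P) (d := d)
  have hVS : ∀ j, finrank K (Sj (ZF P (BK O.E P) D) P (BK O.E P) j) ≤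
      Fintype.card (EX (R + 2 + 1) (d j)) := by
    intro j
    have := Submodule.finrank_le (Sj (ZF P (BK O.E P) D) P (BK O.E P) j)
    rwa [Module.finrank_fintype_fun_eq_card] at this
  choose f hf using fun j => Nat.exists_eq_add_of_le (hVS j)
  have hpe3 : p * (2 * e₁ + q + 2) + (p * Q + Q) ≤ R + 2 := by
    have h1 : 2 * (p * (2 * e₁)) ≤ R + 2 := by
      calc 2 * (p * (2 * e₁)) = 4 * p * e₁ := by ring
        _ ≤ _ := hpe
    have h2 : p * (2 * e₁ + q + 2) = p * (2 * e₁) + p * (q + 2) := by ring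
    omega
  obtain ⟨j₁, hj₁⟩ : ∃ j, (2 * e₁ + q + 2) * m ≤ f j := by
    refine exists_block (n := R + 2) (Q := Q) ?_ hp0 (by omega) hm0
    have h1 : ∑ j, finrank K (VI P (BK O.E P) (d j)) + m * (R + 2 + 1 + k + p) ≤
        ∑ j, Fintype.card (EX (R + 2 + 1) (d j)) + p * (q * m) := by
      have h2 : ∑ j, (finrank K (VI P (BK O.E P) (d j)) + m * (d j + 1)) ≤
          ∑ j, (Fintype.card (EX (R + 2 + 1) (d j)) + q * m) :=
        Finset.sum_le_sum fun j _ => hcod4 (d j)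
      rw [Finset.sum_add_distrib, Finset.sum_add_distrib, ← Finset.mul_sum,
        Finset.sum_add_distrib, hk] at h2
      simp only [Finset.sum_const, Finset.card_univ, Fintype.card_fin, smul_eq_mul, mul_one] at h2
      exact h2
    have h3 : ∑ j, Fintype.card (EX (R + 2 + 1) (d j)) = ∑ j, finrank K
        (Sj (ZF P (BK O.E P) D) P (BK O.E P) j) + ∑ j, f j := by
      rw [← Finset.sum_add_distrib]
      exact Finset.sum_congr rfl fun j _ => hf j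
    have h4 : m * (R + 2 - Q) + m * Q ≤ m * (R + 2) := by
      rw [← mul_add]
      exact Nat.mul_le_mul_left _ (by omega)
    have h5 : m * (R + 2 + 1 + k + p) = m * (R + 2) + m * (1 + k + p) := by ring
    have h6 : m * Q = p * (q * m) + (3 * m + m * q₁) + 2 * (m * (Cd * c')) +
        m * ((1 + p) * r) := by
      rw [hQ]
      ring
    have h7 : m * (k + q₁ + 3 + 2 * (Cd * c')) = m * k + m * q₁ + 3 * m +
        2 * (m * (Cd * c')) := by ring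
    have h8 : m * (1 + k + p) = m + m * k + m * p := by ring
    have h9 : (1 + p) * finrank K L ≤ m * ((1 + p) * r) := by
      calc (1 + p) * finrank K L ≤ (1 + p) * r := Nat.mul_le_mul_left _ hLr
        _ ≤ m * ((1 + p) * r) := Nat.le_mul_of_pos_left _ hm0
    omega
  -- the degree of the block
  have hde : e₁ ≤ d j₁ := by
    have h1 := hcod1 (d j₁)
    have h2 := hf j₁
    have h3 := Submodule.finrank_mono
      (VI_le_Sj (ZF P (BK O.E P) D) P (BK O.E P) j₁)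
    by_contra hcon
    have h4 : (d j₁ + 1) * m ≤ e₁ * m := Nat.mul_le_mul_right _ (by omega)
    have h5 : (2 * e₁ + q + 2) * m = 2 * (e₁ * m) + q * m + 2 * m := by ring
    have h6 : finrank K (Sj (ZF P (BK O.E P) D) P (BK O.E P) j₁) +
      f j₁ ≤ finrank K (VI P (BK O.E P) (d j₁)) + (d j₁ + 1) * m := by
      rw [← h2]
      exact h1
    omega
  obtain ⟨a, ha⟩ : ∃ a, a + e₁ = d j₁ := ⟨d j₁ - e₁, by omega⟩
  obtain ⟨y, hy⟩ := exists_mult (κ := κ) ha hPirr.prime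
    (VI_le_Sj (ZF P (BK O.E P) D) P (BK O.E P) j₁) (by
      refine num_GK (m := m) (a := a) (e₁ := e₁) (q := q) (f := f j₁) hm0
        ((add_comm _ _).trans (hf j₁).symm) hj₁ ?_ (hcod1 e₁) (hcod4 a)
      rw [ha]
      exact hcod1 (d j₁))
  -- the main inequality
  have key := gh_le_errorsK hK hAj.toCrvE hPK hpos hy₁'
    (d := d) (D := D) O.hδ hPBK
    j₁ he₁1 y hy X.toP rfl rfl rfl rfl (c := cc) (by rw [hcc]; rfl)
    (fun j => by rw [hcc]; rfl) (fun j => by rw [hcc]; rfl) (by rw [hcc]; rfl)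
    (e := e) hcon'
    (ρ₀ := NK + 1) (w := w) (v' := v') (W := W) (by omega) (by omega)
    hZc (by
      rw [hv']
      exact hcod1 _)
    hwW (by rw [← hm]; exact hv'm)
    (N := N₄) (bs := bs) (C₀ := (C₀ : ℝ)) hN₄.ge (Nat.cast_nonneg _) hsl (by
      have h1 : 2 * C₀ * N₄ < R + 2 := by omega
      exact_mod_cast h1) (β := N₄ * (bs * gh κ P + genus κ K + 1) + genus κ K + 1) rfl
    (by
      rw [DatC.blk_x, ← hH, ← hg, ← hm, add_assoc ((bs : ℤ) * g), ← hγ, add_assoc _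
        (genus κ K : ℤ) 1, ← hγ]
      exact num_bs1 hm0' hm' hg0 hng (by linarith) hγE
        (F12 (bs + CB * N₄ * bs) (CB * (R + 2) * (N₄ + 1)) (by omega) (by omega)))
    (by
      rw [DatC.blk_x, ← hH, ← hg, ← hr', add_assoc ((bs : ℤ) * g), ← hγ, add_assoc _
        (genus κ K : ℤ) 1, ← hγ]
      have h5 : X.toP.Δ = ΔL := by rw [hΔLd]; rfl
      rw [h5]
      exact num_bs2K hg0 (by linarith) hΔ0 hng hγE hΔE hΔL hr'r
        (F12 (4 * N₄ ^ 2 * bs * r) (4 * N₄ * (N₄ + 1) * r + 2 * N₄ * r) (by omega) (by omega)))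
    hc1 hc2 hc3
  rw [← hg, ← hm, hΔsum, ← hγ, ← hE] at key
  have hD1' : (1 : ℤ) ≤ (e₁ : ℤ) ^ 2 := by
    have : 1 ≤ e₁ ^ 2 := Nat.one_le_pow _ _ he₁1
    exact_mod_cast this
  have h1 : g ≤ (e₁ : ℤ) ^ 2 * g := le_mul_of_one_le_left hg0 hD1'
  have h2 : (48 : ℤ) * (4 * W * (e + 1) * m + w + Fintype.card (EX 4 e₁)) ≤ cf := by
    rw [hcf]
    push_cast
    have h3 : (4 * (W : ℤ) * (e + 1)) * m ≤ (4 * (W : ℤ) * (e + 1)) * (CB * (R + 2)) := by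
      refine mul_le_mul_of_nonneg_left ?_ (by positivity)
      have := hm'
      push_cast at this
      exact this
    linarith
  have h3 := mul_le_mul_of_nonneg_right h2 hE0
  have h4 : g ≤ cf * E := by linarith
  have h5 : gh κ A ≤ r' * g := by rw [hr', hg]; exact hghA
  have h6 : r' * g ≤ r * (cf * E) := mul_le_mul hr'r h4 hg0 hr0'
  have h7 : ((r * cf : ℕ) : ℤ) ≤ c := by
    have : r * cf ≤ c := by omega
    exact_mod_cast this
  have h8 := mul_le_mul_of_nonneg_right h7 hE0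
  push_cast at h8
  linarith

end Pool.Agent.Lib.MP_44a246_ntTK
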